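import Pool.Agent.Lib.Pa7c826t.Finner

/-!
# SubBisG.FewG (MP_a7c826_lc, Theorem T, step (3)): few covered vertices have few chosen neighbours

Sites `V`, right side `R`, neighbourhoods `N u ⊆ V` and `NH u ⊆ N u` of the right vertices; every
site is in exactly `d` of the sets `NH u`, and `|NH u| ≤ d`. Under the measure `2 ^ (-cov A)` on the
subsets `A` of `V`, the number `few A` of covered right vertices with fewer than `d / 16` chosen
`H`-neighbours has exponential moments of order `|V| / d`.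

PROOF. Finner's inequality with exponent `d`; `C(h,j) ≤ (h/d) C(d,j)` and `2 ^ (h-d) ≤ h / d` give
the factor `1 + 2 h / d` per right vertex.
-/

set_option autoImplicit false

open scoped BigOperators

namespace Pool.Agent.Lib.SubBisG

open Finset

variable {ι κ : Type*} [DecidableEq ι]

namespace FewG

/-- the number of right vertices with a chosen neighbour -/
def cov (R : Finset κ) (N : κ → Finset ι) (A : Finset ι) : ℕ :=
  (R.filter fun u => (N u ∩ A).Nonempty).card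

/-- the number of covered right vertices with fewer than `d / 16` chosen `H`-neighbours -/
def few (R : Finset κ) (N NH : κ → Finset ι) (d : ℕ) (A : Finset ι) : ℕ :=
  (R.filter fun u => (N u ∩ A).Nonempty ∧ 16 * (NH u ∩ A).card < d).card

/-- `C(h,j) d ≤ h C(d,j)` for `1 ≤ j`, `h ≤ d` -/
theorem choose_mul_le {h d j : ℕ} (hh : h ≤ d) (hj : 1 ≤ j) :
    h.choose j * d ≤ h * d.choose j := by
  obtain ⟨i, rfl⟩ : ∃ i, j = i + 1 := ⟨j - 1, by omega⟩
  rcases Nat.eq_zero_or_pos h with h0 | h0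
  · subst h0
    simp
  obtain ⟨h', rfl⟩ : ∃ h', h = h' + 1 := ⟨h - 1, by omega⟩
  obtain ⟨d', rfl⟩ : ∃ d', d = d' + 1 := ⟨d - 1, by omega⟩
  have h1 := Nat.add_one_mul_choose_eq h' i
  have h2 := Nat.add_one_mul_choose_eq d' i
  have h3 : h'.choose i ≤ d'.choose i := Nat.choose_le_choose i (by omega)
  have h4 : (h' + 1).choose (i + 1) * (d' + 1) * (i + 1) ≤
      (h' + 1) * (d' + 1).choose (i + 1) * (i + 1) := by
    calc (h' + 1).choose (i + 1) * (d' + 1) * (i + 1)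
        = ((h' + 1).choose (i + 1) * (i + 1)) * (d' + 1) := by ring
      _ = ((h' + 1) * h'.choose i) * (d' + 1) := by rw [← h1]
      _ ≤ ((h' + 1) * d'.choose i) * (d' + 1) :=
          Nat.mul_le_mul_right _ (Nat.mul_le_mul_left _ h3)
      _ = (h' + 1) * ((d' + 1) * d'.choose i) := by ring
      _ = (h' + 1) * ((d' + 1).choose (i + 1) * (i + 1)) := by rw [← h2]
      _ = (h' + 1) * (d' + 1).choose (i + 1) * (i + 1) := by ring
  exact Nat.le_of_mul_le_mul_right h4 (by omega)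

/-- `2 ^ h d ≤ h 2 ^ d` for `1 ≤ h ≤ d` -/
theorem two_pow_mul_le {h d : ℕ} (h1 : 1 ≤ h) (hh : h ≤ d) : 2 ^ h * d ≤ h * 2 ^ d := by
  induction d, hh using Nat.le_induction with
  | base => rw [Nat.mul_comm]
  | succ n hn ih =>
    have h2 : 2 ^ h * 1 ≤ h * 2 ^ n := by
      calc 2 ^ h * 1 ≤ 2 ^ h * n := Nat.mul_le_mul_left _ (by omega)
        _ ≤ h * 2 ^ n := ih
    calc 2 ^ h * (n + 1) = 2 ^ h * n + 2 ^ h * 1 := by ring
      _ ≤ h * 2 ^ n + h * 2 ^ n := Nat.add_le_add ih h2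
      _ = h * 2 ^ (n + 1) := by ring

/-- the entropy bound with `x = 1 / 16` -/
theorem sum_choose_le (d : ℕ) :
    ∑ j ∈ (range (d + 1)).filter (fun j => 16 * j < d), (d.choose j : ℝ) ≤ 2 ^ ((d : ℝ) / 2) := by
  -- `C(d,j) ≤ 16 ^ (d / 16) C(d,j) 16 ^ (-j)`
  have h1 : ∀ j ∈ (range (d + 1)).filter (fun j => 16 * j < d),
      (d.choose j : ℝ) ≤ 2 ^ ((d : ℝ) / 4) * ((1 / 16 : ℝ) ^ j * 1 ^ (d - j) * d.choose j) := by
    intro j hj
    have hj2 : 16 * j < d := (mem_filter.1 hj).2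
    have e1 : (1 : ℝ) ≤ 2 ^ ((d : ℝ) / 4) * (1 / 16 : ℝ) ^ j := by
      have e2 : (1 / 16 : ℝ) ^ j = 2 ^ (-(4 * j : ℝ)) := by
        rw [Real.rpow_neg (by norm_num), ← inv_eq_one_div, inv_pow]
        congr 1
        rw [show (4 * j : ℝ) = ((4 * j : ℕ) : ℝ) by push_cast; ring, Real.rpow_natCast, pow_mul]
        norm_num
      rw [e2, ← Real.rpow_add (by norm_num)]
      apply Real.one_le_rpow (by norm_num)
      have : (16 * j : ℝ) < d := by exact_mod_cast hj2
      linarith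
    have e3 : (0 : ℝ) ≤ d.choose j := Nat.cast_nonneg _
    rw [one_pow, mul_one, ← mul_assoc]
    exact le_mul_of_one_le_left e3 e1
  calc ∑ j ∈ (range (d + 1)).filter (fun j => 16 * j < d), (d.choose j : ℝ)
      ≤ ∑ j ∈ (range (d + 1)).filter (fun j => 16 * j < d),
          2 ^ ((d : ℝ) / 4) * ((1 / 16 : ℝ) ^ j * 1 ^ (d - j) * d.choose j) := sum_le_sum h1
    _ ≤ ∑ j ∈ range (d + 1),
          2 ^ ((d : ℝ) / 4) * ((1 / 16 : ℝ) ^ j * 1 ^ (d - j) * d.choose j) :=
        sum_le_sum_of_subset_of_nonneg (filter_subset _ _) fun j _ _ => by positivity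
    _ = 2 ^ ((d : ℝ) / 4) * (1 / 16 + 1) ^ d := by rw [← mul_sum, add_pow]
    _ ≤ 2 ^ ((d : ℝ) / 4) * 2 ^ ((d : ℝ) / 4) := by
        apply mul_le_mul_of_nonneg_left _ (by positivity)
        have e4 : (1 / 16 + 1 : ℝ) ≤ 2 ^ ((1 : ℝ) / 4) := by
          have e5 : ((1 / 16 + 1 : ℝ)) = (((1 / 16 + 1 : ℝ)) ^ (4 : ℕ)) ^ ((1 : ℝ) / 4) := by
            rw [← Real.rpow_natCast, ← Real.rpow_mul (by norm_num)]
            norm_num
          rw [e5]
          apply Real.rpow_le_rpow (by norm_num) (by norm_num) (by norm_num)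
        calc (1 / 16 + 1 : ℝ) ^ d ≤ (2 ^ ((1 : ℝ) / 4)) ^ d :=
              pow_le_pow_left₀ (by norm_num) e4 d
          _ = 2 ^ ((d : ℝ) / 4) := by
              rw [← Real.rpow_natCast, ← Real.rpow_mul (by norm_num)]
              congr 1
              ring
    _ = 2 ^ ((d : ℝ) / 2) := by
        rw [← Real.rpow_add (by norm_num)]
        congr 1
        ring

/-- the factor of a right vertex -/
noncomputable def fac (NHu : Finset ι) (d : ℕ) (A : Finset ι) : ℝ :=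
  if NHu ∩ A = ∅ then 1 else if 16 * (NHu ∩ A).card < d then 2 ^ (-(3 : ℝ) / 4) else 2 ^ (-(1 : ℝ))

theorem fac_nonneg (NHu : Finset ι) (d : ℕ) (A : Finset ι) : 0 ≤ fac NHu d A := by
  unfold fac
  split_ifs <;> positivity

/-- the sum of the powers of the factor -/
theorem sum_fac_pow (T : Finset ι) {d : ℕ} (hd : 1 ≤ d) (hT : T.card ≤ d) :
    ∑ B ∈ T.powerset, fac T d B ^ d ≤ 1 + 2 * T.card / d := by
  have hd0 : (0 : ℝ) < d := by exact_mod_cast hd
  rcases Finset.eq_empty_or_nonempty T with h0 | h0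
  · subst h0
    simp [fac]
  have hT1 : 1 ≤ T.card := card_pos.2 h0
  -- pointwise bound by the size of `B`
  have h1 : ∀ B ∈ T.powerset, fac T d B ^ d ≤ (if B.card = 0 then (1 : ℝ) else 0) +
      (if 1 ≤ B.card ∧ 16 * B.card < d then 2 ^ (-(3 * d : ℝ) / 4) else 0) + 2 ^ (-(d : ℝ)) := by
    intro B hB
    have hB' : T ∩ B = B := inter_eq_right.2 (mem_powerset.1 hB)
    have p1 : (0 : ℝ) ≤ 2 ^ (-(d : ℝ)) := by positivity
    have p2 : (0 : ℝ) ≤ 2 ^ (-(3 * d : ℝ) / 4) := by positivity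
    unfold fac
    rw [hB']
    by_cases hB0 : B = ∅
    · subst hB0
      rw [if_pos rfl, if_pos card_empty, if_neg (by simp), one_pow]
      linarith
    · have hc : 1 ≤ B.card := card_pos.2 (nonempty_iff_ne_empty.2 hB0)
      rw [if_neg hB0, if_neg (by omega : ¬ B.card = 0)]
      by_cases h16 : 16 * B.card < d
      · rw [if_pos h16, if_pos ⟨hc, h16⟩]
        have e : (2 ^ (-(3 : ℝ) / 4) : ℝ) ^ d = 2 ^ (-(3 * d : ℝ) / 4) := by
          rw [← Real.rpow_natCast, ← Real.rpow_mul (by norm_num)]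
          congr 1
          ring
        rw [e]
        linarith
      · rw [if_neg h16, if_neg (by tauto)]
        have e : (2 ^ (-(1 : ℝ)) : ℝ) ^ d = 2 ^ (-(d : ℝ)) := by
          rw [← Real.rpow_natCast, ← Real.rpow_mul (by norm_num)]
          congr 1
          ring
        rw [e]
        linarith
  -- the three sums
  have s1 : ∑ B ∈ T.powerset, (if B.card = 0 then (1 : ℝ) else 0) = 1 := by
    rw [sum_eq_single ∅]
    · simp
    · intro B _ hB
      rw [if_neg (by rwa [card_eq_zero])]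
    · intro h
      exact absurd (empty_mem_powerset T) h
  have s3 : ∑ _B ∈ T.powerset, (2 : ℝ) ^ (-(d : ℝ)) ≤ T.card / d := by
    rw [sum_const, card_powerset, nsmul_eq_mul, Real.rpow_neg (by norm_num), Real.rpow_natCast,
      le_div_iff₀ hd0]
    have h2 : ((2 ^ T.card * d : ℕ) : ℝ) ≤ ((T.card * 2 ^ d : ℕ) : ℝ) := by
      exact_mod_cast two_pow_mul_le hT1 hT
    push_cast at h2 ⊢
    have p : (0 : ℝ) < 2 ^ d := by positivity
    rw [mul_assoc, mul_comm ((2 : ℝ) ^ d)⁻¹, ← mul_assoc, ← div_eq_mul_inv, div_le_iff₀ p]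
    exact h2
  have s2 : ∑ B ∈ T.powerset,
      (if 1 ≤ B.card ∧ 16 * B.card < d then (2 : ℝ) ^ (-(3 * d : ℝ) / 4) else 0) ≤
      T.card / d := by
    have e1 : ∑ B ∈ T.powerset,
        (if 1 ≤ B.card ∧ 16 * B.card < d then (2 : ℝ) ^ (-(3 * d : ℝ) / 4) else 0) =
        ∑ j ∈ range (T.card + 1), (T.card.choose j : ℝ) *
          (if 1 ≤ j ∧ 16 * j < d then (2 : ℝ) ^ (-(3 * d : ℝ) / 4) else 0) := by
      rw [sum_powerset_apply_card
        (fun j => if 1 ≤ j ∧ 16 * j < d then (2 : ℝ) ^ (-(3 * d : ℝ) / 4) else 0)]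
      refine sum_congr rfl fun j _ => ?_
      rw [nsmul_eq_mul]
    have p2 : (0 : ℝ) ≤ 2 ^ (-(3 * d : ℝ) / 4) := by positivity
    have e2 : ∀ j ∈ range (T.card + 1), (T.card.choose j : ℝ) *
          (if 1 ≤ j ∧ 16 * j < d then (2 : ℝ) ^ (-(3 * d : ℝ) / 4) else 0) ≤
        (if 16 * j < d then (d.choose j : ℝ) else 0) *
          ((T.card : ℝ) / d * 2 ^ (-(3 * d : ℝ) / 4)) := by
      intro j _
      by_cases hj : 1 ≤ j ∧ 16 * j < d
      · rw [if_pos hj, if_pos hj.2]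
        have h2 : ((T.card.choose j * d : ℕ) : ℝ) ≤ ((T.card * d.choose j : ℕ) : ℝ) := by
          exact_mod_cast choose_mul_le hT hj.1
        push_cast at h2
        have h3 : (T.card.choose j : ℝ) ≤ d.choose j * ((T.card : ℝ) / d) := by
          rw [mul_div_assoc', le_div_iff₀ hd0, mul_comm (d.choose j : ℝ)]
          exact h2
        calc (T.card.choose j : ℝ) * 2 ^ (-(3 * d : ℝ) / 4)
            ≤ (d.choose j * ((T.card : ℝ) / d)) * 2 ^ (-(3 * d : ℝ) / 4) :=
              mul_le_mul_of_nonneg_right h3 p2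
          _ = _ := by ring
      · rw [if_neg hj, mul_zero]
        split_ifs <;> positivity
    rw [e1]
    calc _ ≤ ∑ j ∈ range (T.card + 1), (if 16 * j < d then (d.choose j : ℝ) else 0) *
          ((T.card : ℝ) / d * 2 ^ (-(3 * d : ℝ) / 4)) := sum_le_sum e2
      _ ≤ ∑ j ∈ range (d + 1), (if 16 * j < d then (d.choose j : ℝ) else 0) *
          ((T.card : ℝ) / d * 2 ^ (-(3 * d : ℝ) / 4)) := by
          apply sum_le_sum_of_subset_of_nonneg
          · intro j hj
            rw [mem_range] at hj ⊢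
            omega
          · intro j _ _
            split_ifs <;> positivity
      _ = (∑ j ∈ (range (d + 1)).filter (fun j => 16 * j < d), (d.choose j : ℝ)) *
          ((T.card : ℝ) / d * 2 ^ (-(3 * d : ℝ) / 4)) := by
          rw [← sum_mul, sum_filter]
      _ ≤ 2 ^ ((d : ℝ) / 2) * ((T.card : ℝ) / d * 2 ^ (-(3 * d : ℝ) / 4)) :=
          mul_le_mul_of_nonneg_right (sum_choose_le d) (by positivity)
      _ = (T.card : ℝ) / d * 2 ^ ((d : ℝ) / 2 + -(3 * d : ℝ) / 4) := by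
          rw [Real.rpow_add (by norm_num)]
          ring
      _ ≤ (T.card : ℝ) / d * 1 := by
          apply mul_le_mul_of_nonneg_left _ (by positivity)
          apply Real.rpow_le_one_of_one_le_of_nonpos (by norm_num)
          linarith
      _ = (T.card : ℝ) / d := mul_one _
  calc ∑ B ∈ T.powerset, fac T d B ^ d ≤ ∑ B ∈ T.powerset, ((if B.card = 0 then (1 : ℝ) else 0) +
      (if 1 ≤ B.card ∧ 16 * B.card < d then 2 ^ (-(3 * d : ℝ) / 4) else 0) + 2 ^ (-(d : ℝ))) :=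
        sum_le_sum h1
    _ = 1 + ∑ B ∈ T.powerset,
        (if 1 ≤ B.card ∧ 16 * B.card < d then (2 : ℝ) ^ (-(3 * d : ℝ) / 4) else 0) +
        ∑ _B ∈ T.powerset, (2 : ℝ) ^ (-(d : ℝ)) := by
        rw [sum_add_distrib, sum_add_distrib, s1]
    _ ≤ 1 + T.card / d + T.card / d := by linarith
    _ = 1 + 2 * T.card / d := by ring

theorem pointwise (R : Finset κ) (N NH : κ → Finset ι) (d : ℕ) (hNH : ∀ u ∈ R, NH u ⊆ N u)
    (A : Finset ι) : (2 : ℝ) ^ ((few R N NH d A : ℝ) / 4) * 2 ^ (-(cov R N A : ℝ)) ≤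
      ∏ u ∈ R, fac (NH u) d A := by
  have e1 : (few R N NH d A : ℝ) / 4 + -(cov R N A : ℝ) = ∑ u ∈ R,
      ((if (N u ∩ A).Nonempty ∧ 16 * (NH u ∩ A).card < d then (1 : ℝ) else 0) / 4 +
        -(if (N u ∩ A).Nonempty then (1 : ℝ) else 0)) := by
    rw [sum_add_distrib, ← sum_div, sum_neg_distrib, sum_boole, sum_boole]
    rfl
  rw [← Real.rpow_add (by norm_num), e1, Real.rpow_sum_of_pos (by norm_num)]
  refine prod_le_prod (fun u _ => by positivity) fun u hu => ?_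
  unfold fac
  by_cases h0 : NH u ∩ A = ∅
  · rw [if_pos h0]
    apply Real.rpow_le_one_of_one_le_of_nonpos (by norm_num)
    by_cases h1 : (N u ∩ A).Nonempty
    · rw [if_pos h1]
      split_ifs <;> norm_num
    · rw [if_neg h1, if_neg (by tauto)]
      norm_num
  · have h1 : (N u ∩ A).Nonempty :=
      (nonempty_iff_ne_empty.2 h0).mono (inter_subset_inter_right (hNH u hu))
    rw [if_neg h0, if_pos h1]
    by_cases h2 : 16 * (NH u ∩ A).card < d
    · rw [if_pos ⟨h1, h2⟩, if_pos h2]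
      apply le_of_eq
      congr 1
      norm_num
    · rw [if_neg (by tauto), if_neg h2]
      apply le_of_eq
      congr 1
      norm_num

/-- double counting -/
theorem sum_card (V : Finset ι) (R : Finset κ) (NH : κ → Finset ι) {d : ℕ}
    (hV : ∀ u ∈ R, NH u ⊆ V) (hdeg : ∀ v ∈ V, (R.filter fun u => v ∈ NH u).card = d) :
    ∑ u ∈ R, (NH u).card = V.card * d := by
  have h1 : ∀ u ∈ R, (NH u).card = ∑ v ∈ V, if v ∈ NH u then 1 else 0 := by
    intro u hu
    rw [← card_filter]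
    congr 1
    ext v
    rw [mem_filter]
    exact ⟨fun h => ⟨hV u hu h, h⟩, fun h => h.2⟩
  rw [sum_congr rfl h1, sum_comm, ← smul_eq_mul, ← sum_const]
  refine sum_congr rfl fun v hv => ?_
  rw [← card_filter, hdeg v hv]

/-- the power mean inequality for weights of sum `≥ 1` -/
theorem power_mean {α : Type*} (s : Finset α) (w X : α → ℝ) (hw : ∀ i ∈ s, 0 ≤ w i)
    (h1 : 1 ≤ ∑ i ∈ s, w i) (hX : ∀ i ∈ s, 0 ≤ X i) {θ Y : ℝ} (hθ0 : 0 ≤ θ) (hθ1 : θ ≤ 1)
    (hY : ∑ i ∈ s, X i * w i ≤ Y) (hY0 : 0 ≤ Y) :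
    ∑ i ∈ s, X i ^ θ * w i ≤ Y ^ θ * ∑ i ∈ s, w i := by
  have hW : 0 < ∑ i ∈ s, w i := lt_of_lt_of_le one_pos h1
  rcases eq_or_lt_of_le hθ0 with h0 | h0
  · subst h0
    simp
  set W := ∑ i ∈ s, w i with hWdef
  have h2 := Real.rpow_arith_mean_le_arith_mean_rpow s (fun i => w i / W) (fun i => X i ^ θ)
    (fun i hi => div_nonneg (hw i hi) hW.le) (by rw [← sum_div, div_self hW.ne'])
    (fun i hi => Real.rpow_nonneg (hX i hi) θ) (p := 1 / θ) (by
      rw [le_div_iff₀ h0]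
      linarith)
  have e2 : ∑ i ∈ s, w i / W * (X i ^ θ) ^ (1 / θ) = (∑ i ∈ s, X i * w i) / W := by
    rw [sum_div]
    refine sum_congr rfl fun i hi => ?_
    rw [← Real.rpow_mul (hX i hi), mul_one_div_cancel h0.ne', Real.rpow_one]
    ring
  rw [e2] at h2
  have h3 : (∑ i ∈ s, X i * w i) / W ≤ Y := by
    rw [div_le_iff₀ hW]
    nlinarith
  have h4 : 0 ≤ ∑ i ∈ s, w i / W * X i ^ θ :=
    sum_nonneg fun i hi => mul_nonneg (div_nonneg (hw i hi) hW.le) (Real.rpow_nonneg (hX i hi) θ)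
  have h5 : ∑ i ∈ s, w i / W * X i ^ θ ≤ Y ^ θ := by
    have h6 := Real.rpow_le_rpow (Real.rpow_nonneg h4 _) (h2.trans h3) hθ0
    rwa [← Real.rpow_mul h4, one_div_mul_cancel h0.ne', Real.rpow_one] at h6
  have e3 : ∑ i ∈ s, X i ^ θ * w i = W * ∑ i ∈ s, w i / W * X i ^ θ := by
    rw [mul_sum]
    refine sum_congr rfl fun i _ => ?_
    field_simp
  rw [e3, mul_comm]
  exact mul_le_mul_of_nonneg_right h5 hW.le

end FewG

open FewG (cov few)

/-- **The few-bound.** -/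
theorem few_exp (V : Finset ι) (R : Finset κ) (N NH : κ → Finset ι) {d : ℕ} (hd : 1 ≤ d)
    (hNH : ∀ u ∈ R, NH u ⊆ N u) (hV : ∀ u ∈ R, NH u ⊆ V)
    (hdeg : ∀ v ∈ V, (R.filter fun u => v ∈ NH u).card = d) (hR : ∀ u ∈ R, (NH u).card ≤ d) :
    ∑ A ∈ V.powerset, (2 : ℝ) ^ ((few R N NH d A : ℝ) / 4) * 2 ^ (-(cov R N A : ℝ)) ≤
      2 ^ (3 * (V.card : ℝ) / d) := by
  have hd0 : (0 : ℝ) < d := by exact_mod_cast hd
  have h1 := Pool.Agent.Lib.Pa7c826t.finner hd R V NH (fun u A => FewG.fac (NH u) d A ^ d) hV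
    (fun u _ B _ => pow_nonneg (FewG.fac_nonneg _ _ _) _)
    (fun u _ B _ => by
      congr 1
      unfold FewG.fac
      rw [inter_comm B, ← inter_assoc, inter_self]) hdeg
  have e1 : ∀ A, ∏ u ∈ R, (FewG.fac (NH u) d A ^ d) ^ ((1 : ℝ) / d) =
      ∏ u ∈ R, FewG.fac (NH u) d A := fun A => prod_congr rfl fun u _ => by
    rw [one_div, Real.pow_rpow_inv_natCast (FewG.fac_nonneg _ _ _) (by omega)]
  simp only [e1] at h1
  refine ((sum_le_sum fun A _ => FewG.pointwise R N NH d hNH A).trans h1).trans ?_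
  have h2 : ∀ u ∈ R, (∑ B ∈ (NH u).powerset, FewG.fac (NH u) d B ^ d) ^ ((1 : ℝ) / d) ≤
      Real.exp (2 * (NH u).card / d * (1 / d)) := by
    intro u hu
    have h3 := FewG.sum_fac_pow (NH u) hd (hR u hu)
    have h4 : ∑ B ∈ (NH u).powerset, FewG.fac (NH u) d B ^ d ≤
        Real.exp (2 * (NH u).card / d) :=
      h3.trans (by rw [add_comm]; exact Real.add_one_le_exp _)
    rw [Real.exp_mul]
    exact Real.rpow_le_rpow (sum_nonneg fun B _ => pow_nonneg (FewG.fac_nonneg _ _ _) _) h4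
      (by positivity)
  refine (prod_le_prod (fun u _ => Real.rpow_nonneg
    (sum_nonneg fun B _ => pow_nonneg (FewG.fac_nonneg _ _ _) _) _) h2).trans ?_
  rw [← Real.exp_sum]
  have e2 : ∑ u ∈ R, 2 * ((NH u).card : ℝ) / d * (1 / d) = 2 * V.card / d := by
    have h5 := FewG.sum_card V R NH hV hdeg
    have h6 : ∑ u ∈ R, ((NH u).card : ℝ) = V.card * d := by exact_mod_cast h5
    calc ∑ u ∈ R, 2 * ((NH u).card : ℝ) / d * (1 / d)
        = (∑ u ∈ R, ((NH u).card : ℝ)) * (2 / d * (1 / d)) := by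
          rw [sum_mul]
          refine sum_congr rfl fun u _ => ?_
          ring
      _ = 2 * V.card / d := by
          rw [h6]
          field_simp
  rw [e2, Real.rpow_def_of_pos (by norm_num)]
  apply Real.exp_le_exp.2
  have h7 := Real.log_two_gt_d9
  have h8 : (0 : ℝ) ≤ V.card / d := by positivity
  calc 2 * (V.card : ℝ) / d = 2 * (V.card / d) := by ring
    _ ≤ (3 * Real.log 2) * (V.card / d) := mul_le_mul_of_nonneg_right (by linarith) h8
    _ = Real.log 2 * (3 * V.card / d) := by ring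

/-- **The few-bound, power mean form.** -/
theorem few_exp_eta (V : Finset ι) (R : Finset κ) (N NH : κ → Finset ι) {d : ℕ} (hd : 1 ≤ d)
    (hNH : ∀ u ∈ R, NH u ⊆ N u) (hV : ∀ u ∈ R, NH u ⊆ V)
    (hdeg : ∀ v ∈ V, (R.filter fun u => v ∈ NH u).card = d) (hR : ∀ u ∈ R, (NH u).card ≤ d)
    {η : ℝ} (h0 : 0 ≤ η) (h1 : η ≤ 1 / 4) :
    ∑ A ∈ V.powerset, (2 : ℝ) ^ (η * few R N NH d A) * 2 ^ (-(cov R N A : ℝ)) ≤
      2 ^ (12 * η * V.card / d) * ∑ A ∈ V.powerset, (2 : ℝ) ^ (-(cov R N A : ℝ)) := by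
  have h2 := FewG.power_mean V.powerset (fun A => (2 : ℝ) ^ (-(cov R N A : ℝ)))
    (fun A => (2 : ℝ) ^ ((few R N NH d A : ℝ) / 4)) (fun _ _ => by positivity) (by
      have h3 : (2 : ℝ) ^ (-(cov R N ∅ : ℝ)) ≤ ∑ A ∈ V.powerset, (2 : ℝ) ^ (-(cov R N A : ℝ)) :=
        single_le_sum (f := fun A => (2 : ℝ) ^ (-(cov R N A : ℝ))) (fun A _ => by positivity)
          (empty_mem_powerset V)
      have h4 : cov R N ∅ = 0 := by simp [cov]
      rw [h4] at h3
      simpa using h3) (fun _ _ => by positivity) (θ := 4 * η) (by linarith) (by linarith)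
    (few_exp V R N NH hd hNH hV hdeg hR) (by positivity)
  have e1 : ∀ A, ((2 : ℝ) ^ ((few R N NH d A : ℝ) / 4)) ^ (4 * η) = 2 ^ (η * few R N NH d A) := by
    intro A
    rw [← Real.rpow_mul (by norm_num)]
    congr 1
    ring
  have e2 : ((2 : ℝ) ^ (3 * (V.card : ℝ) / d)) ^ (4 * η) = 2 ^ (12 * η * V.card / d) := by
    rw [← Real.rpow_mul (by norm_num)]
    congr 1
    ring
  simp only [e1, e2] at h2
  exact h2

end Pool.Agent.Lib.SubBisG
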