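import Pool.Agent.Lib.Pa7c826g.ZBound
import Pool.Agent.Lib.SubBisG.FewG

/-!
# SubBisG.FewInd (MP_a7c826_lc, Theorem T, step (3)): the few-bound for independent sets

Sites `v < a`, right vertices `a ≤ b < n`, `adjH` a subgraph of `adj` in which every site has `d`
and every right vertex at most `d` neighbours. The mean of `2 ^ (η few)` over the independent sets
of the whole graph is at most `2 ^ (12 η a / d)`.
-/

set_option autoImplicit false

open scoped BigOperators

namespace Pool.Agent.Lib.SubBisG

open Finset Pool.Agent.Lib.Pa7c826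

/-- the number of right vertices in `W` with a neighbour in `I`, but fewer than `d / 16`
`H`-neighbours in `I` -/
def fewI (adj adjH : ℕ → ℕ → Bool) (a n d : ℕ) (W I : Finset ℕ) : ℕ :=
  ((W.filter fun b => a ≤ b ∧ b < n).filter fun b => (∃ v ∈ I, adj v b = true) ∧
    16 * (I.filter fun v => adjH v b = true).card < d).card

theorem fewI_mono_mask {adj adjH : ℕ → ℕ → Bool} {a n d : ℕ} {W W' I : Finset ℕ} (h : W ⊆ W') :
    fewI adj adjH a n d W I ≤ fewI adj adjH a n d W' I :=
  card_le_card (filter_subset_filter _ (filter_subset_filter _ h))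

namespace FewInd

variable {adj adjH : ℕ → ℕ → Bool} {a n d : ℕ}

theorem few_eq (hbip : ∀ u v, adj u v = true → (u < a ↔ ¬ v < a))
    (hsub : ∀ u v, adjH u v = true → adj u v = true) {I A : Finset ℕ}
    (hA : I.filter (fun v => v < a) = A) :
    fewI adj adjH a n d (range n) I =
      FewG.few ((range n).filter fun b => ¬ b < a) (fun b => (range a).filter fun v => adj v b = true)
        (fun b => (range a).filter fun v => adjH v b = true) d A := by
  have e : ∀ b, ¬ b < a → (I.filter fun v => adjH v b = true) =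
      ((range a).filter fun v => adjH v b = true) ∩ A := by
    intro b hb
    ext v
    rw [mem_filter, mem_inter, mem_filter, mem_range, ← hA, mem_filter]
    constructor
    · rintro ⟨h1, h2⟩
      have h3 : v < a := (hbip v b (hsub v b h2)).2 hb
      exact ⟨⟨h3, h2⟩, h1, h3⟩
    · rintro ⟨⟨_, h2⟩, h1, _⟩
      exact ⟨h1, h2⟩
  unfold fewI FewG.few
  congr 1
  ext b
  simp only [mem_filter, mem_range]
  constructor
  · rintro ⟨⟨h1, h2, h3⟩, ⟨v, hv, hvb⟩, h4⟩
    have hb : ¬ b < a := by omega
    refine ⟨⟨h1, hb⟩, ⟨v, ?_⟩, ?_⟩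
    · have h5 : v < a := (hbip v b hvb).2 hb
      rw [mem_inter, mem_filter, mem_range, ← hA, mem_filter]
      exact ⟨⟨h5, hvb⟩, hv, h5⟩
    · rwa [← e b hb]
  · rintro ⟨⟨h1, hb⟩, ⟨v, hv⟩, h4⟩
    rw [mem_inter, mem_filter, ← hA, mem_filter] at hv
    refine ⟨⟨h1, by omega, h1⟩, ⟨v, hv.2.1, hv.1.2⟩, ?_⟩
    rwa [e b hb]

theorem cov_eq (R : Finset ℕ) (A : Finset ℕ) (hA : A ⊆ range a) :
    FewG.cov R (fun b => (range a).filter fun v => adj v b = true) A =
      (R.filter fun b => ∃ v ∈ A, adj v b = true).card := by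
  unfold FewG.cov
  congr 1
  ext b
  simp only [mem_filter]
  constructor
  · rintro ⟨h1, v, hv⟩
    rw [mem_inter, mem_filter] at hv
    exact ⟨h1, v, hv.2, hv.1.2⟩
  · rintro ⟨h1, v, hv, hvb⟩
    refine ⟨h1, v, ?_⟩
    rw [mem_inter, mem_filter]
    exact ⟨⟨hA hv, hvb⟩, hv⟩

/-- the sum over the independent sets, by their left parts -/
theorem sum_ind (hs : ∀ u v, adj u v = adj v u)
    (hbip : ∀ u v, adj u v = true → (u < a ↔ ¬ v < a)) (ha : a ≤ n) (f : Finset ℕ → ℝ)
    (g : Finset ℕ → ℝ) (hfg : ∀ I A, I.filter (fun v => v < a) = A → f I = g A) :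
    ∑ I ∈ (range n).powerset.filter (fun I => ∀ u ∈ I, ∀ v ∈ I, adj u v = false), f I =
      2 ^ ((range n).filter fun b => ¬ b < a).card * ∑ A ∈ (range a).powerset, g A *
        2 ^ (-(FewG.cov ((range n).filter fun b => ¬ b < a)
          (fun b => (range a).filter fun v => adj v b = true) A : ℝ)) := by
  have hra : (range n).filter (fun v => v < a) = range a := by
    ext v
    rw [mem_filter, mem_range, mem_range]
    omega
  rw [← sum_fiberwise_of_maps_to (g := fun I : Finset ℕ => I.filter fun v => v < a)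
    (t := (range a).powerset) (fun I hI => by
      rw [mem_powerset, ← hra]
      exact filter_subset_filter _ (mem_powerset.1 (mem_filter.1 hI).1)), mul_sum]
  refine sum_congr rfl fun A hA => ?_
  rw [mem_powerset] at hA
  rw [sum_congr rfl (fun I hI => hfg I A (mem_filter.1 hI).2), sum_const,
    Pool.Agent.Lib.Pa7c826g.ZBoundAux.fib_card hs hbip (by rwa [hra]), nsmul_eq_mul]
  have hcard := card_filter_add_card_filter_not (s := (range n).filter fun v => ¬ v < a)
    (fun v => ∃ u ∈ A, adj u v = true)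
  rw [← cov_eq _ _ hA] at hcard
  rw [← hcard]
  push_cast
  rw [pow_add, Real.rpow_neg (by norm_num), Real.rpow_natCast]
  field_simp

end FewInd

open FewInd
/-- **The few-bound for independent sets.** -/
theorem few_ind {adj adjH : ℕ → ℕ → Bool} {a n d : ℕ} (hs : ∀ u v, adj u v = adj v u)
    (hbip : ∀ u v, adj u v = true → (u < a ↔ ¬ v < a)) (ha : a ≤ n)
    (hsub : ∀ u v, adjH u v = true → adj u v = true) (hd : 1 ≤ d)
    (hL : ∀ v < a, ((range n).filter fun b => a ≤ b ∧ adjH v b = true).card = d)
    (hR : ∀ b, a ≤ b → b < n → ((range a).filter fun v => adjH v b = true).card ≤ d)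
    {η : ℝ} (h0 : 0 ≤ η) (h1 : η ≤ 1 / 4) :
    ∑ I ∈ (range n).powerset.filter (fun I => ∀ u ∈ I, ∀ v ∈ I, adj u v = false),
      (2 : ℝ) ^ (η * fewI adj adjH a n d (range n) I) ≤
      2 ^ (12 * η * a / d) * ind adj (range n) := by
  have e1 : (ind adj (range n) : ℝ) =
      ∑ I ∈ (range n).powerset.filter (fun I => ∀ u ∈ I, ∀ v ∈ I, adj u v = false), (1 : ℝ) := by
    rw [sum_const, nsmul_eq_mul, mul_one]
    rfl
  rw [e1, sum_ind hs hbip ha (fun _ => 1) (fun _ => 1) (fun _ _ _ => rfl),
    sum_ind hs hbip ha (fun I => (2 : ℝ) ^ (η * fewI adj adjH a n d (range n) I))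
      (fun A => (2 : ℝ) ^ (η * FewG.few ((range n).filter fun b => ¬ b < a)
        (fun b => (range a).filter fun v => adj v b = true)
        (fun b => (range a).filter fun v => adjH v b = true) d A))
      (fun I A hA => by rw [few_eq hbip hsub hA])]
  have h2 := few_exp_eta (range a) ((range n).filter fun b => ¬ b < a)
    (fun b => (range a).filter fun v => adj v b = true)
    (fun b => (range a).filter fun v => adjH v b = true) hd
    (fun b _ v hv => by
      rw [mem_filter] at hv ⊢
      exact ⟨hv.1, hsub _ _ hv.2⟩)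
    (fun b _ => filter_subset _ _)
    (fun v hv => by
      rw [mem_range] at hv
      rw [← hL v hv]
      congr 1
      ext b
      simp only [mem_filter, mem_range]
      constructor
      · rintro ⟨⟨h3, h4⟩, _, h6⟩
        exact ⟨h3, by omega, h6⟩
      · rintro ⟨h3, h4, h6⟩
        exact ⟨⟨h3, by omega⟩, hv, h6⟩)
    (fun b hb => by
      rw [mem_filter, mem_range] at hb
      exact hR b (by omega) hb.1) h0 h1
  rw [card_range] at h2
  simp only [one_mul]
  calc _ ≤ (2 : ℝ) ^ ((range n).filter fun b => ¬ b < a).card *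
        (2 ^ (12 * η * a / d) * ∑ A ∈ (range a).powerset,
          (2 : ℝ) ^ (-(FewG.cov ((range n).filter fun b => ¬ b < a)
            (fun b => (range a).filter fun v => adj v b = true) A : ℝ))) :=
        mul_le_mul_of_nonneg_left h2 (by positivity)
    _ = _ := by ring

end Pool.Agent.Lib.SubBisG
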