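import Pool.Agent.Lib.SubBisX.RandLen
import Pool.Agent.Lib.Pa7c826r.EasyR

/-!
Two algorithms and a test that tells which of them is to be used.
-/

set_option autoImplicit false

namespace Pool.Agent.Lib.SubBisG

open Finset Pool.Agent.Lib.Pa7c826 Pool.Agent.Lib.PolyTime Pool.Agent.Lib.SubBisX

/-- A randomised algorithm for `P1`, a deterministic one for `P2`, and a computable test `φ` which
says, for the graphs and precisions with `P`, that `P1` holds or that `P2` holds. -/
theorem hasRApx_cases {P P1 P2 : BGraph → ℕ → Prop} (φ : BGraph → ℕ → Bool)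
    (hφ : PolyB (fun x : BGraph × ℕ => 1 ≤ x.2) [fun x => inCode x.1 x.2]
      (fun x => φ x.1 x.2))
    (h1 : ∀ G t, 1 ≤ t → P G t → φ G t = true → P1 G t)
    (h2 : ∀ G t, 1 ≤ t → P G t → φ G t = false → P2 G t)
    (hP1 : Pa7c826m.HasRApx P1) (hP2 : Pa7c826r.HasFPTASOn P2) : Pa7c826m.HasRApx P := by
  classical
  obtain ⟨m, f, hf, hgood⟩ := hP1
  obtain ⟨g, hg, hgg⟩ := hP2
  let g' : BGraph → ℕ → List Bool := fun G t =>
    if h : P2 G t ∧ 1 ≤ t then g ⟨(G, t), h⟩ else []
  have hg' : ∀ G t (h : P2 G t ∧ 1 ≤ t), g' G t = g ⟨(G, t), h⟩ := fun G t h => dif_pos h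
  let F : BGraph → ℕ → List Bool → List Bool := fun G t r =>
    if φ G t then f G t r else g' G t
  refine ⟨m, F, ?_, ?_⟩
  · -- the machine
    let D : BGraph × ℕ × List Bool → Prop := fun x =>
      P x.1 x.2.1 ∧ 1 ≤ x.2.1 ∧ x.2.2.length = m.eval (inCode x.1 x.2.1).length
    have hw : PolyC D [encR] encR := PolyC.var (by simp)
    have hlen : PolyN D [encR] (fun x => (inCode x.1 x.2.1).length) :=
      (((poly_tOf hw).add ((poly_aOf hw).add ((poly_bOf hw).add
        ((poly_aOf hw).mul (poly_bOf hw))))).add (PolyN.const 3)).congr (fun x _ =>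
          lenOf_append x.1 x.2.1 x.2.2)
    have hpre : PolyC D [encR] (fun x => inCode x.1 x.2.1) :=
      (PolyC.take hw hlen).congr (fun x _ => List.take_left)
    have hφ' : PolyB D [encR] (fun x => φ x.1 x.2.1) := by
      have h3 := hφ.reindex (β := BGraph × ℕ × List Bool) (D' := D)
        (fun x => (x.1, x.2.1)) (fun x hx => hx.2.1)
      refine h3.comp ?_
      intro g hg
      simp only [List.map_cons, List.map_nil, List.mem_singleton] at hg
      subst hg
      exact hpre
    have hA : PolyC (fun x => D x ∧ φ x.1 x.2.1 = true) [encR]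
        (fun x => f x.1 x.2.1 x.2.2) := by
      refine PolyC.applyTM2 hf _ _ (PolyC.mono hw fun x hx => hx.1) ?_
      rintro ⟨G, t, r⟩ ⟨⟨hP, ht, hr⟩, hφG⟩
      exact ⟨⟨(G, t, r), h1 G t ht hP hφG, ht, hr⟩, rfl, rfl⟩
    have hB : PolyC (fun x => D x ∧ φ x.1 x.2.1 = false) [encR]
        (fun x => g' x.1 x.2.1) := by
      refine PolyC.applyTM2 hg _ _ (PolyC.mono hpre fun x hx => hx.1) ?_
      rintro ⟨G, t, r⟩ ⟨⟨hP, ht, hr⟩, hφG⟩
      exact ⟨⟨(G, t), h2 G t ht hP hφG, ht⟩, rfl, (hg' G t ⟨h2 G t ht hP hφG, ht⟩).symm⟩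
    exact PolyC.toTM2 encR (fun x => F x.1 x.2.1 x.2.2) id (PolyC.ite hφ' hA hB)
  · intro G t hP ht
    rcases hφG : φ G t with _ | _
    · have h3 : P2 G t ∧ 1 ≤ t := ⟨h2 G t ht hP hφG, ht⟩
      have h4 : ∀ r, F G t r = g ⟨(G, t), h3⟩ := by
        intro r
        simp only [F, hφG, Bool.false_eq_true, if_false]
        exact hg' G t h3
      have h5 : ∀ r : Fin (m.eval (inCode G t).length) → Bool,
          Good G t (F G t (List.ofFn r)) := by
        intro r
        rw [h4]
        exact hgg ⟨(G, t), h3⟩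
      have h6 : Nat.card {r : Fin (m.eval (inCode G t).length) → Bool //
          Good G t (F G t (List.ofFn r))} = 2 ^ m.eval (inCode G t).length := by
        rw [Nat.card_congr (Equiv.subtypeUnivEquiv h5), Nat.card_eq_fintype_card]
        simp
      rw [h6]
      omega
    · have h4 : ∀ r, F G t r = f G t r := by
        intro r
        simp only [F, hφG, if_true]
      have h5 := hgood G t (h1 G t ht hP hφG) ht
      simp only [h4]
      exact h5

end Pool.Agent.Lib.SubBisG
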