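import Pool.Agent.Lib.SubBisF.Law

/-!
# SubBisG.FreeG: the comparison process whose free sites are decided without smoothing

A site `v` is FREE in the state `z` if it does not change the value of `F` on the part of `z` in the
earlier blocks. The decision at a free site is a plain step function (`ε = 0`). If `F` is submodular
and non-decreasing, then a decision at a free site has no influence on the future.
-/

set_option autoImplicit false

open scoped BigOperators

namespace Pool.Agent.Lib.SubBisG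

open Finset SubBis Pool.Agent.Lib.SubBisX.Reg Pool.Agent.Lib.SubBisX.Core
open Pool.Agent.Lib.SubBisX
open Pool.Agent.Lib.SubBisE (Okd)
open Pool.Agent.Lib.SubBisB (wt2 ZF EG pv Rb Rp psi)
open Pool.Agent.Lib.SubBisF (ph stp LL run)

variable {k m B : ℕ}

/-- the site is free: it does not change the value of `F` on the earlier blocks -/
def FreeG (F : Finset (Fin k) → ℤ) (bet : Fin k → Fin B) (v : Fin k) (z : Finset (Fin k)) : Prop :=
  F (insert v (z ∩ Rb bet v)) = F (z ∩ Rb bet v)

open Classical in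
/-- the strength of the smoothing -/
noncomputable def epG (ε : ℝ) (F : Finset (Fin k) → ℤ) (bet : Fin k → Fin B) (v : Fin k)
    (z : Finset (Fin k)) : ℝ := if FreeG F bet v z then 0 else ε

/-- the decisions of the process -/
noncomputable def phG (ε : ℝ) (F : Finset (Fin k) → ℤ) (bet : Fin k → Fin B) (v : Fin k)
    (z : Finset (Fin k)) (u : Fin m) : ℝ := ph (epG ε F bet v z) (pv F v (Rp bet v) z) u

/-- the decision that uses the earlier blocks only -/
noncomputable def pbG (ε : ℝ) (F : Finset (Fin k) → ℤ) (bet : Fin k → Fin B) (v : Fin k)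
    (z : Finset (Fin k)) (u : Fin m) : ℝ := ph (epG ε F bet v z) (pv F v (Rb bet v) z) u

/-- the policy of the site `v`, with the own digit `x` -/
noncomputable def yxG (ε : ℝ) (F : Finset (Fin k) → ℤ) (bet : Fin k → Fin B) (v : Fin k) (x : Fin m)
    (U : Fin k → Fin m) : ℝ :=
  run (phG ε F bet) (LL bet) (fun z => pbG ε F bet v z x) ∅ U

open Classical in
/-- the number of selected sites that were not free -/
noncomputable def nfG (F : Finset (Fin k) → ℤ) (bet : Fin k → Fin B) (S : Finset (Fin k)) : ℝ :=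
  ((S.filter fun v => ¬ FreeG F bet v S).card : ℝ)

/-! ### Simple facts -/

theorem epG_nonneg {ε : ℝ} (h0 : 0 ≤ ε) (F : Finset (Fin k) → ℤ) (bet : Fin k → Fin B) (v : Fin k)
    (z : Finset (Fin k)) : 0 ≤ epG ε F bet v z := by
  unfold epG
  split_ifs
  · exact le_rfl
  · exact h0

theorem epG_le {ε : ℝ} (h0 : 0 ≤ ε) (F : Finset (Fin k) → ℤ) (bet : Fin k → Fin B) (v : Fin k)
    (z : Finset (Fin k)) : epG ε F bet v z ≤ ε := by
  unfold epG
  split_ifs
  · exact h0
  · exact le_rfl

theorem dep_FreeG (F : Finset (Fin k) → ℤ) (bet : Fin k → Fin B) (v : Fin k) :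
    SubBisB.Dep (Rb bet v) (FreeG F bet v) := fun S S' h => by
  unfold FreeG
  rw [h]

theorem dep_epG (ε : ℝ) (F : Finset (Fin k) → ℤ) (bet : Fin k → Fin B) (v : Fin k) :
    SubBisB.Dep (Rb bet v) (epG ε F bet v) := fun S S' h => by
  unfold epG
  rw [dep_FreeG F bet v S S' h]

theorem dep_pbG (ε : ℝ) (F : Finset (Fin k) → ℤ) (bet : Fin k → Fin B) (v : Fin k) (u : Fin m) :
    SubBisB.Dep (Rb bet v) fun z => pbG ε F bet v z u := fun S S' h => by
  show ph (epG ε F bet v S) (pv F v (Rb bet v) S) u = ph (epG ε F bet v S') (pv F v (Rb bet v) S') u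
  rw [dep_epG ε F bet v S S' h, SubBisB.dep_pv v (Rb bet v) S S' h]

theorem dep_phG (ε : ℝ) (F : Finset (Fin k) → ℤ) (bet : Fin k → Fin B) (v : Fin k) (u : Fin m) :
    SubBisB.Dep (Rp bet v) fun z => phG ε F bet v z u := fun S S' h => by
  show ph (epG ε F bet v S) (pv F v (Rp bet v) S) u = ph (epG ε F bet v S') (pv F v (Rp bet v) S') u
  rw [SubBisB.Dep.mono (SubBisB.Rb_subset_Rp bet v) (dep_epG ε F bet v) S S' h,
    SubBisB.dep_pv v (Rp bet v) S S' h]

theorem phG_mem (ε : ℝ) (F : Finset (Fin k) → ℤ) (bet : Fin k → Fin B) :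
    ∀ (v : Fin k) (z : Finset (Fin k)) (u : Fin m),
      0 ≤ phG ε F bet v z u ∧ phG ε F bet v z u ≤ 1 :=
  fun _ _ _ => ⟨SubBisF.ph_nonneg _ _ _, SubBisF.ph_le_one _ _ _⟩

theorem av_phG [NeZero m] {ε : ℝ} (h0 : 0 ≤ ε) (h1 : ε ≤ 1 / 16) (F : Finset (Fin k) → ℤ)
    (bet : Fin k → Fin B) (v : Fin k) (z : Finset (Fin k)) :
    (av fun u : Fin m => phG ε F bet v z u) = pv F v (Rp bet v) z :=
  SubBisF.av_ph (epG_nonneg h0 F bet v z) ((epG_le h0 F bet v z).trans h1)
    (SubBisB.pv_nonneg v _ z) (SubBisB.pv_le_one v _ z)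

/-- the mean of a function of the process and the own digit -/
theorem av_yxG [NeZero m] {ε : ℝ} (h0 : 0 ≤ ε) (h1 : ε ≤ 1 / 16) (F : Finset (Fin k) → ℤ)
    (bet : Fin k → Fin B) (v : Fin k) {s : Finset (Fin k) → Fin m → ℝ}
    (hd : ∀ u, SubBisB.Dep (Rp bet v) fun S => s S u) :
    (av fun U : Fin k → Fin m => run (phG ε F bet) (LL bet) (fun S => s S (U v)) ∅ U) =
      EG F fun S => av fun u => s S u := by
  rw [SubBisF.av_run_own (SubBisF.seg_LL bet) (Subset.refl _) (notMem_empty v) hd,
    SubBisF.law_run (φ := phG ε F bet) (F := F) (bet := bet) (av_phG h0 h1 F bet)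
      (SubBisF.seg_LL bet) (Subset.refl _), SubBisF.LawAux.ce_empty]

/-- the mean of a function of the process -/
theorem av_run_LLG [NeZero m] {ε : ℝ} (h0 : 0 ≤ ε) (h1 : ε ≤ 1 / 16) (F : Finset (Fin k) → ℤ)
    (bet : Fin k → Fin B) (r : Finset (Fin k) → ℝ) :
    (av fun U : Fin k → Fin m => run (phG ε F bet) (LL bet) r ∅ U) = EG F r := by
  rw [SubBisF.law_run (φ := phG ε F bet) (F := F) (bet := bet) (av_phG h0 h1 F bet)
      (SubBisF.seg_LL bet) (Subset.refl _), SubBisF.LawAux.ce_empty]

/-! ### States with the same values of `F` in the future -/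

/-- The states `z`, `z'` have the same values of `F` in the future, for all sets of sites before a
site. -/
def EqG (F : Finset (Fin k) → ℤ) (bet : Fin k → Fin B) (z z' : Finset (Fin k)) : Prop :=
  ∀ w T, F (z ∩ Rb bet w ∪ T) = F (z' ∩ Rb bet w ∪ T) ∧
    F (z ∩ Rp bet w ∪ T) = F (z' ∩ Rp bet w ∪ T)

variable {F : Finset (Fin k) → ℤ} {bet : Fin k → Fin B}

theorem EqG.symm {z z' : Finset (Fin k)} (h : EqG F bet z z') : EqG F bet z' z :=
  fun w T => ⟨(h w T).1.symm, (h w T).2.symm⟩

theorem EqG.insert {z z' : Finset (Fin k)} (h : EqG F bet z z') (x : Fin k) :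
    EqG F bet (insert x z) (insert x z') := by
  have key : ∀ R : Finset (Fin k), (∀ T, F (z ∩ R ∪ T) = F (z' ∩ R ∪ T)) →
      ∀ T, F (Insert.insert x z ∩ R ∪ T) = F (Insert.insert x z' ∩ R ∪ T) := by
    intro R hR T
    by_cases hx : x ∈ R
    · rw [insert_inter_of_mem hx, insert_inter_of_mem hx, insert_union, insert_union,
        ← union_insert, ← union_insert]
      exact hR _
    · rw [insert_inter_of_notMem hx, insert_inter_of_notMem hx]
      exact hR T
  exact fun w T => ⟨key _ (fun T => (h w T).1) T, key _ (fun T => (h w T).2) T⟩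

/-- the marginal value is non-increasing -/
theorem marg_le (hF : FCS.Subm F) {X Y : Finset (Fin k)} (h : X ⊆ Y) (v : Fin k) (hv : v ∉ Y) :
    F (insert v Y) - F Y ≤ F (insert v X) - F X := by
  have h1 := hF (insert v X) Y
  have e1 : insert v X ∪ Y = insert v Y := by
    rw [insert_union, union_eq_right.2 h]
  have e2 : insert v X ∩ Y = X := by
    rw [insert_inter_of_notMem hv, inter_eq_left.2 h]
  rw [e1, e2] at h1
  linarith

/-- a free site has no influence -/
theorem marg_free (hF : FCS.Subm F) (hM : ∀ S v, F S ≤ F (insert v S)) {X Y : Finset (Fin k)}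
    (h : X ⊆ Y) {v : Fin k} (hv : F (insert v X) = F X) : F (insert v Y) = F Y := by
  by_cases hy : v ∈ Y
  · rw [insert_eq_of_mem hy]
  · have h1 := marg_le hF h v hy
    have h2 := hM Y v
    linarith

theorem eqG_of_free (hF : FCS.Subm F) (hM : ∀ S v, F S ≤ F (insert v S)) {v : Fin k}
    {z : Finset (Fin k)} (h : FreeG F bet v z) : EqG F bet (insert v z) z := by
  have key : ∀ R : Finset (Fin k), (v ∈ R → Rb bet v ⊆ R) →
      ∀ T, F (Insert.insert v z ∩ R ∪ T) = F (z ∩ R ∪ T) := by
    intro R hR T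
    by_cases hx : v ∈ R
    · rw [insert_inter_of_mem hx, insert_union]
      refine marg_free hF hM ?_ h
      exact (inter_subset_inter Subset.rfl (hR hx)).trans subset_union_left
    · rw [insert_inter_of_notMem hx]
  intro w T
  refine ⟨key _ (fun hv x hx => ?_) T, key _ (fun hv x hx => ?_) T⟩
  · have h1 : bet v < bet w := (mem_filter.1 hv).2
    have h2 : bet x < bet v := (mem_filter.1 hx).2
    exact mem_filter.2 ⟨mem_univ _, h2.trans h1⟩
  · have h2 : bet x < bet v := (mem_filter.1 hx).2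
    refine mem_filter.2 ⟨mem_univ _, Or.inl ?_⟩
    rcases (mem_filter.1 hv).2 with h1 | h1
    · exact h2.trans h1
    · rw [← h1.1]
      exact h2

/-- the conditional probability is a function of the future values of `F` -/
theorem pv_congr {R z z' : Finset (Fin k)} {v : Fin k} (hv : v ∉ R)
    (h : ∀ T, F (z ∩ R ∪ T) = F (z' ∩ R ∪ T)) : pv F v R z = pv F v R z' := by
  have key : ∀ g : Finset (Fin k) → ℝ, (∀ S S' : Finset (Fin k), S \ R = S' \ R → g S = g S') →
      ∑ S ∈ SubBisB.sm R z, wt2 F S * g S = ∑ S ∈ SubBisB.sm R z', wt2 F S * g S := by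
    intro g hg
    refine sum_nbij' (fun S => z' ∩ R ∪ S \ R) (fun S => z ∩ R ∪ S \ R) ?_ ?_ ?_ ?_ ?_
    · intro S _
      unfold SubBisB.sm
      rw [mem_filter]
      refine ⟨mem_univ _, ?_⟩
      ext x
      simp only [mem_inter, mem_union, mem_sdiff]
      tauto
    · intro S _
      unfold SubBisB.sm
      rw [mem_filter]
      refine ⟨mem_univ _, ?_⟩
      ext x
      simp only [mem_inter, mem_union, mem_sdiff]
      tauto
    · intro S hS
      have hS' : S ∩ R = z ∩ R := (mem_filter.1 hS).2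
      show z ∩ R ∪ (z' ∩ R ∪ S \ R) \ R = S
      rw [← hS']
      ext x
      simp only [mem_inter, mem_union, mem_sdiff]
      tauto
    · intro S hS
      have hS' : S ∩ R = z' ∩ R := (mem_filter.1 hS).2
      show z' ∩ R ∪ (z ∩ R ∪ S \ R) \ R = S
      rw [← hS']
      ext x
      simp only [mem_inter, mem_union, mem_sdiff]
      tauto
    · intro S hS
      have hS' : S ∩ R = z ∩ R := (mem_filter.1 hS).2
      have e1 : F S = F (z' ∩ R ∪ S \ R) := by
        rw [← h, ← hS']
        congr 1
        ext x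
        simp only [mem_inter, mem_union, mem_sdiff]
        tauto
      have e2 : g S = g (z' ∩ R ∪ S \ R) := by
        refine hg _ _ ?_
        ext x
        simp only [mem_inter, mem_union, mem_sdiff]
        tauto
      unfold SubBisB.wt2
      rw [e1, e2]
  unfold SubBisB.pv SubBisB.ce
  have h1 := key (SubBisB.ind1 v) (fun S S' hS => by
    have h2 := Finset.ext_iff.1 hS v
    simp only [mem_sdiff, hv, not_false_eq_true, and_true] at h2
    unfold SubBisB.ind1
    simp only [h2])
  have h2 := key (fun _ => 1) (fun _ _ _ => rfl)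
  simp only [mul_one] at h2
  rw [h1, h2]

theorem freeG_congr {z z' : Finset (Fin k)} (h : EqG F bet z z') (v : Fin k) :
    FreeG F bet v z ↔ FreeG F bet v z' := by
  unfold FreeG
  have h1 := (h v {v}).1
  have h2 := (h v ∅).1
  rw [union_empty, union_empty] at h2
  rw [union_comm, ← insert_eq, union_comm, ← insert_eq] at h1
  rw [h1, h2]

theorem epG_congr (ε : ℝ) {z z' : Finset (Fin k)} (h : EqG F bet z z') (v : Fin k) :
    epG ε F bet v z = epG ε F bet v z' := by
  unfold epG
  have h1 := freeG_congr h v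
  by_cases h2 : FreeG F bet v z
  · rw [if_pos h2, if_pos (h1.1 h2)]
  · rw [if_neg h2, if_neg fun h3 => h2 (h1.2 h3)]

theorem phG_congr (ε : ℝ) {z z' : Finset (Fin k)} (h : EqG F bet z z') (v : Fin k) (u : Fin m) :
    phG ε F bet v z u = phG ε F bet v z' u := by
  unfold phG
  rw [epG_congr ε h v, pv_congr (SubBisF.not_mem_Rp bet v) fun T => (h v T).2]

theorem pbG_congr (ε : ℝ) {z z' : Finset (Fin k)} (h : EqG F bet z z') (v : Fin k) (u : Fin m) :
    pbG ε F bet v z u = pbG ε F bet v z' u := by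
  unfold pbG
  rw [epG_congr ε h v, pv_congr (fun h1 => SubBisF.not_mem_Rp bet v
    (SubBisB.Rb_subset_Rp bet v h1)) fun T => (h v T).1]

/-- every decision is admissible or without influence -/
theorem okd_or_free [NeZero m] {ε : ℝ} (h0 : 0 ≤ ε) (h1 : ε ≤ 1 / 16) (hF : FCS.Subm F)
    (hM : ∀ S v, F S ≤ F (insert v S)) (v : Fin k) (z : Finset (Fin k)) :
    Okd ε (phG (m := m) ε F bet v z) ∨ EqG F bet (insert v z) z := by
  by_cases h : FreeG F bet v z
  · exact Or.inr (eqG_of_free hF hM h)
  · left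
    have e : epG ε F bet v z = ε := if_neg h
    unfold phG
    rw [e]
    exact SubBisF.okd_ph h0 h1 (SubBisB.pv_nonneg v _ z) (SubBisB.pv_le_one v _ z)

/-- the mean of the losses -/
theorem EG_nf (ε : ℝ) :
    (∑ v, EG F fun S => epG ε F bet v S ^ 2 *
      (pv F v (Rb bet v) S * (1 - pv F v (Rb bet v) S))) ≤ ε ^ 2 * EG F (nfG F bet) := by
  classical
  have h1 : ∀ v, (EG F fun S => epG ε F bet v S ^ 2 *
      (pv F v (Rb bet v) S * (1 - pv F v (Rb bet v) S))) ≤
        ε ^ 2 * EG F fun S => SubBisB.ind1 v S * (if FreeG F bet v S then 0 else 1) := by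
    intro v
    rw [SubBisB.EG_ind1_mul v (Rb bet v) (fun S => if FreeG F bet v S then (0 : ℝ) else 1)
      (fun S S' h => by simp only [dep_FreeG F bet v S S' h]), ← SubBisB.EG_smul]
    refine SubBisB.EG_mono fun S => ?_
    have p0 := SubBisB.pv_nonneg (F := F) v (Rb bet v) S
    have p1 := SubBisB.pv_le_one (F := F) v (Rb bet v) S
    unfold epG
    split_ifs
    · simp
    · have h2 : pv F v (Rb bet v) S * (1 - pv F v (Rb bet v) S) ≤ pv F v (Rb bet v) S := by
        nlinarith
      have h3 := mul_le_mul_of_nonneg_left h2 (sq_nonneg ε)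
      linarith
  refine (sum_le_sum fun v _ => h1 v).trans (le_of_eq ?_)
  rw [← mul_sum, ← SubBisB.EG_sum]
  congr 1
  refine congrArg (EG F) (funext fun S => ?_)
  unfold nfG SubBisB.ind1
  rw [card_filter]
  push_cast
  rw [← sum_filter_add_sum_filter_not univ (fun v => v ∈ S)]
  have e1 : ∑ v ∈ univ.filter (fun v => ¬ v ∈ S), (if v ∈ S then (1 : ℝ) else 0) *
      (if FreeG F bet v S then 0 else 1) = 0 :=
    sum_eq_zero fun v hv => by rw [if_neg (mem_filter.1 hv).2, zero_mul]
  rw [e1, add_zero]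
  have e2 : univ.filter (fun v => v ∈ S) = S := by
    ext v
    simp
  rw [e2]
  refine sum_congr rfl fun v hv => ?_
  rw [if_pos hv, one_mul]
  split_ifs <;> simp_all

end Pool.Agent.Lib.SubBisG
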