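import Pool.Agent.Lib.SubBisG.PhiG
import Pool.Agent.Lib.SubBisG.FreeG
import Pool.Agent.Lib.SubBisF.Cmp

/-!
# SubBisG.CmpG: the value of the comparator, with a loss for the selected sites that were not free only
-/

set_option autoImplicit false

open scoped BigOperators

namespace Pool.Agent.Lib.SubBisG

open Finset SubBis Pool.Agent.Lib.SubBisX.Reg Pool.Agent.Lib.SubBisX.Core
open Pool.Agent.Lib.SubBisX
open Pool.Agent.Lib.SubBisE (Okd)
open Pool.Agent.Lib.SubBisB (wt2 ZF EG pv Rb Rp psi)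
open Pool.Agent.Lib.SubBisF (ph stp LL run gap run_add run_smul run_sub run_sum run_mono run_const)

variable {k m B : ℕ}

/-- the loss of the comparator -/
noncomputable def lossC (m c : ℕ) (ε : ℝ) (F : Finset (Fin k) → ℤ) (bet : Fin k → Fin B) : ℝ :=
  k * (1 + c * SubBisB.dl m) + c * (24 * ε ^ 2 * EG F (nfG F bet))

/-- the function of the process whose mean is the value of the comparator -/
noncomputable def cvrG (c κ : ℕ) (ε : ℝ) (F : Finset (Fin k) → ℤ) (bet : Fin k → Fin B)
    (U : Fin k → Fin m) (S : Finset (Fin k)) : ℝ :=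
  (∑ v, (ee m c (U v) : ℝ) * pbG ε F bet v S (U v)) - (c : ℝ) * (F S : ℝ) -
    (c : ℝ) * κ * ∑ v, |pbG ε F bet v S (U v) - phG ε F bet v S (U v)|

/-- the mean of the comparator -/
theorem av_cvrG [NeZero m] (hm : 2 ≤ m) (c κ : ℕ) {ε : ℝ} (h0 : 0 ≤ ε) (h1 : ε ≤ 1 / 16)
    (F : Finset (Fin k) → ℤ) (bet : Fin k → Fin B) :
    c * Bounds.logZ F - lossC m c ε F bet - c * κ * gap F bet ≤
      av fun U : Fin k → Fin m => run (phG ε F bet) (LL bet) (cvrG c κ ε F bet U) ∅ U := by
  -- the three parts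
  have hdb : ∀ (v : Fin k) (u : Fin m), SubBisB.Dep (Rp bet v) fun S => pbG ε F bet v S u :=
    fun v u => SubBisB.Dep.mono (SubBisB.Rb_subset_Rp bet v) (dep_pbG ε F bet v u)
  have e1 : ∀ U : Fin k → Fin m, run (phG ε F bet) (LL bet) (cvrG c κ ε F bet U) ∅ U =
      (∑ v, run (phG ε F bet) (LL bet)
        (fun S => (ee m c (U v) : ℝ) * pbG ε F bet v S (U v)) ∅ U) -
      (c : ℝ) * run (phG ε F bet) (LL bet) (fun S => (F S : ℝ)) ∅ U -
      (c : ℝ) * κ * ∑ v, run (phG ε F bet) (LL bet)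
        (fun S => |pbG ε F bet v S (U v) - phG ε F bet v S (U v)|) ∅ U := by
    intro U
    unfold cvrG
    rw [run_sub, run_sub, run_smul, run_smul, run_sum, run_sum]
  have e2 : (av fun U : Fin k → Fin m => run (phG ε F bet) (LL bet) (cvrG c κ ε F bet U) ∅ U) =
      (∑ v, EG F fun S => av fun u : Fin m => (ee m c u : ℝ) * pbG ε F bet v S u) -
      (c : ℝ) * EG F (fun S => (F S : ℝ)) -
      (c : ℝ) * κ * ∑ v, EG F fun S => av fun u : Fin m =>
        |pbG ε F bet v S u - phG ε F bet v S u| := by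
    have e3 : (fun U : Fin k → Fin m => run (phG ε F bet) (LL bet) (cvrG c κ ε F bet U) ∅ U) =
        fun U => (∑ v, run (phG ε F bet) (LL bet)
          (fun S => (ee m c (U v) : ℝ) * pbG ε F bet v S (U v)) ∅ U) -
        (c : ℝ) * run (phG ε F bet) (LL bet) (fun S => (F S : ℝ)) ∅ U -
        (c : ℝ) * κ * ∑ v, run (phG ε F bet) (LL bet)
          (fun S => |pbG ε F bet v S (U v) - phG ε F bet v S (U v)|) ∅ U :=
      funext e1
    rw [e3, av_sub, av_sub, av_smul, av_smul, av_sum, av_sum, av_run_LLG h0 h1]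
    congr 1
    · congr 1
      refine sum_congr rfl fun v _ => ?_
      refine av_yxG h0 h1 F bet v (s := fun S u => (ee m c u : ℝ) * pbG ε F bet v S u)
        fun u S S' hS => ?_
      show (ee m c u : ℝ) * pbG ε F bet v S u = (ee m c u : ℝ) * pbG ε F bet v S' u
      rw [show pbG ε F bet v S u = pbG ε F bet v S' u from hdb v u S S' hS]
    · congr 1
      refine sum_congr rfl fun v _ => ?_
      refine av_yxG h0 h1 F bet v
        (s := fun S u => |pbG ε F bet v S u - phG ε F bet v S u|)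
        fun u S S' hS => ?_
      show |pbG ε F bet v S u - phG ε F bet v S u| = |pbG ε F bet v S' u - phG ε F bet v S' u|
      rw [show pbG ε F bet v S u = pbG ε F bet v S' u from hdb v u S S' hS,
        show phG ε F bet v S u = phG ε F bet v S' u from dep_phG ε F bet v u S S' hS]
  have b1 : ∀ v : Fin k, (c : ℝ) * EG F (fun S => h2 (pv F v (Rp bet v) S)) -
      (1 + c * SubBisB.dl m) - c * 24 * (EG F fun S => epG ε F bet v S ^ 2 *
        (pv F v (Rb bet v) S * (1 - pv F v (Rb bet v) S))) ≤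
      EG F fun S => av fun u : Fin m => (ee m c u : ℝ) * pbG ε F bet v S u := by
    intro v
    have g1 : EG F (fun S => ((c : ℝ) * h2 (pv F v (Rb bet v) S) - (1 + c * SubBisB.dl m)) -
        c * 24 * (epG ε F bet v S ^ 2 *
          (pv F v (Rb bet v) S * (1 - pv F v (Rb bet v) S)))) ≤
        EG F fun S => av fun u : Fin m => (ee m c u : ℝ) * pbG ε F bet v S u := by
      refine SubBisB.EG_mono fun S => ?_
      have h := ph_gain hm c (epG_nonneg h0 F bet v S) ((epG_le h0 F bet v S).trans h1)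
        (SubBisB.pv_nonneg (F := F) v (Rb bet v) S) (SubBisB.pv_le_one (F := F) v (Rb bet v) S)
      unfold lossG at h
      refine le_trans (le_of_eq ?_) h
      ring
    rw [SubBisB.EG_sub, SubBisB.EG_sub, SubBisB.EG_smul, SubBisB.EG_smul, SubBisB.EG_const] at g1
    have g2 := mul_le_mul_of_nonneg_left
      (SubBisB.EG_h2_mono (F := F) (SubBisB.Rb_subset_Rp bet v) v)
      (Nat.cast_nonneg (α := ℝ) c)
    linarith
  have b2 : ∀ v : Fin k, (EG F fun S => av fun u : Fin m =>
      |pbG ε F bet v S u - phG ε F bet v S u|) ≤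
        Real.sqrt (psi F v (Rp bet v) - psi F v (Rb bet v)) := by
    intro v
    refine le_trans (le_of_eq ?_) (SubBisB.EG_abs_pv_sub (SubBisB.Rb_subset_Rp bet v) v)
    refine congrArg (EG F) (funext fun S => ?_)
    unfold phG pbG
    rw [SubBisF.av_abs_ph (epG_nonneg h0 F bet v S) ((epG_le h0 F bet v S).trans h1)
      (SubBisB.pv_nonneg _ _ _) (SubBisB.pv_le_one _ _ _)
      (SubBisB.pv_nonneg _ _ _) (SubBisB.pv_le_one _ _ _), abs_sub_comm]
  have s1 := sum_le_sum fun v (_ : v ∈ (univ : Finset (Fin k))) => b1 v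
  rw [sum_sub_distrib, sum_sub_distrib, ← mul_sum, ← mul_sum, SubBisB.chain, sum_const, card_univ,
    Fintype.card_fin, nsmul_eq_mul] at s1
  have s2 := sum_le_sum fun v (_ : v ∈ (univ : Finset (Fin k))) => b2 v
  have s3 := mul_le_mul_of_nonneg_left s2 (by positivity : (0 : ℝ) ≤ (c : ℝ) * κ)
  have s4 := mul_le_mul_of_nonneg_left (EG_nf (F := F) (bet := bet) ε)
    (by positivity : (0 : ℝ) ≤ (c : ℝ) * 24)
  rw [e2]
  unfold gap lossC
  linarith

/-- **The comparator.** -/
theorem comparatorG [NeZero m] (hm : 2 ≤ m) (c κ : ℕ) {ε : ℝ} (h0 : 0 ≤ ε) (h1 : ε ≤ 1 / 16)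
    (F : Finset (Fin k) → ℤ) (bet : Fin k → Fin B) :
    ∃ CV : (Fin k → Fin m) → ℝ,
      (c * Bounds.logZ F - lossC m c ε F bet - c * κ * gap F bet ≤ av CV) ∧
      ∀ (U : Fin k → Fin m) (g : Fin k → ℝ), (∀ S : Finset (Fin k), ∑ v ∈ S, g v ≤ F S) →
        (∀ v, |g v| ≤ κ) →
          CV U ≤ ∑ v, ((ee m c (U v) : ℝ) - c * g v) * yxG ε F bet v (U v) U := by
  refine ⟨fun U => run (phG ε F bet) (LL bet) (cvrG c κ ε F bet U) ∅ U,
    av_cvrG hm c κ h0 h1 F bet, ?_⟩
  intro U g hg hκ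
  -- the right side is the mean of a function of the process
  have e1 : (∑ v, ((ee m c (U v) : ℝ) - c * g v) * yxG ε F bet v (U v) U) =
      run (phG ε F bet) (LL bet)
        (fun S => ∑ v, ((ee m c (U v) : ℝ) - c * g v) * pbG ε F bet v S (U v)) ∅ U := by
    rw [run_sum]
    refine sum_congr rfl fun v _ => ?_
    rw [run_smul]
    rfl
  -- the mean of `g(S)` is the mean of the sum of `g v` times the decision
  have e2 : run (phG ε F bet) (LL bet) (fun S => ∑ v, g v * phG ε F bet v S (U v)) ∅ U =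
      run (phG ε F bet) (LL bet) (fun S => ∑ v ∈ S, g v) ∅ U := by
    have e3 : (fun S : Finset (Fin k) => ∑ v ∈ S, g v) =
        fun S => ∑ v, g v * (if v ∈ S then 1 else 0) := by
      funext S
      simp only [mul_ite, mul_one, mul_zero, sum_ite_mem, univ_inter]
    rw [e3, run_sum, run_sum]
    refine sum_congr rfl fun v _ => ?_
    rw [run_smul, run_smul, SubBisF.run_ind (dep_phG ε F bet) (SubBisF.seg_LL bet)
      (Finset.Subset.refl ∅) (notMem_empty v) U]
  have e4 : run (phG ε F bet) (LL bet) (fun S => ∑ v ∈ S, g v) ∅ U ≤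
      run (phG ε F bet) (LL bet) (fun S => (F S : ℝ)) ∅ U :=
    run_mono (phG_mem ε F bet) _ hg _ _
  rw [e1]
  have e5 : run (phG ε F bet) (LL bet) (cvrG c κ ε F bet U) ∅ U +
      (c : ℝ) * run (phG ε F bet) (LL bet) (fun S => (F S : ℝ)) ∅ U ≤
      run (phG ε F bet) (LL bet)
        (fun S => ∑ v, ((ee m c (U v) : ℝ) - c * g v) * pbG ε F bet v S (U v)) ∅ U +
      (c : ℝ) * run (phG ε F bet) (LL bet) (fun S => ∑ v, g v * phG ε F bet v S (U v)) ∅ U := by
    rw [← run_smul, ← run_smul, ← run_add, ← run_add]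
    refine run_mono (phG_mem ε F bet) _ (fun S => ?_) _ _
    unfold cvrG
    have h2 : (∑ v, ((ee m c (U v) : ℝ) - c * g v) * pbG ε F bet v S (U v)) +
        (c : ℝ) * ∑ v, g v * phG ε F bet v S (U v) =
        ∑ v, ((ee m c (U v) : ℝ) * pbG ε F bet v S (U v) +
          (c : ℝ) * (g v * (phG ε F bet v S (U v) - pbG ε F bet v S (U v)))) := by
      rw [mul_sum, ← sum_add_distrib]
      refine sum_congr rfl fun v _ => ?_
      ring
    have h3 : (∑ v, (ee m c (U v) : ℝ) * pbG ε F bet v S (U v)) -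
        (c : ℝ) * (F S : ℝ) -
        (c : ℝ) * κ * (∑ v, |pbG ε F bet v S (U v) - phG ε F bet v S (U v)|) +
        (c : ℝ) * (F S : ℝ) =
        ∑ v, ((ee m c (U v) : ℝ) * pbG ε F bet v S (U v) -
          (c : ℝ) * (κ * |pbG ε F bet v S (U v) - phG ε F bet v S (U v)|)) := by
      rw [sum_sub_distrib, ← mul_sum, ← mul_sum]
      ring
    rw [h2, h3]
    refine sum_le_sum fun v _ => ?_
    have h4 : -(κ * |pbG ε F bet v S (U v) - phG ε F bet v S (U v)|) ≤
        g v * (phG ε F bet v S (U v) - pbG ε F bet v S (U v)) := by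
      have h5 : |g v * (phG ε F bet v S (U v) - pbG ε F bet v S (U v))| ≤
          κ * |pbG ε F bet v S (U v) - phG ε F bet v S (U v)| := by
        rw [abs_mul, abs_sub_comm (phG ε F bet v S (U v))]
        exact mul_le_mul_of_nonneg_right (hκ v) (abs_nonneg _)
      exact (neg_le_neg h5).trans (neg_abs_le _)
    have h6 := mul_le_mul_of_nonneg_left h4 (Nat.cast_nonneg (α := ℝ) c)
    linarith
  rw [e2] at e5
  have e6 := mul_le_mul_of_nonneg_left e4 (Nat.cast_nonneg (α := ℝ) c)
  linarith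

end Pool.Agent.Lib.SubBisG
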