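import Pool.Agent.Lib.SubBisF.SupT

/-!
# SubBisG.OkG: the noise lemma if every decision is admissible or without influence

`E` is a relation on the states that is preserved by the insertion of a site, such that decisions and
final values are the same in related states. A decision at `v` in the state `z` has no influence if
the states `insert v z` and `z` are related.
-/

set_option autoImplicit false

open scoped BigOperators

namespace Pool.Agent.Lib.SubBisG

open Finset SubBis Pool.Agent.Lib.SubBisX.Reg Pool.Agent.Lib.SubBisX.Core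
open Pool.Agent.Lib.SubBisX
open Pool.Agent.Lib.SubBisE (Okd)
open Pool.Agent.Lib.SubBisF

variable {k m B : ℕ}

/-- The decisions `φ` in related states are the same, and every decision is admissible or without
influence. -/
structure Inf (ε : ℝ) (φ : Fin k → Finset (Fin k) → Fin m → ℝ)
    (E : Finset (Fin k) → Finset (Fin k) → Prop) : Prop where
  ins : ∀ v z z', E z z' → E (insert v z) (insert v z')
  con : ∀ v z z' u, E z z' → φ v z u = φ v z' u
  mem : ∀ v z u, 0 ≤ φ v z u ∧ φ v z u ≤ 1
  okd : ∀ v z, Okd ε (φ v z) ∨ E (insert v z) z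

variable {ε : ℝ} {φ : Fin k → Finset (Fin k) → Fin m → ℝ}
  {E : Finset (Fin k) → Finset (Fin k) → Prop}

theorem Inf.run_eq (h : Inf ε φ E) (l : List (Fin k)) {r : Finset (Fin k) → ℝ}
    (hr : ∀ z z', E z z' → r z = r z') : ∀ {z z' : Finset (Fin k)}, E z z' →
      ∀ U : Fin k → Fin m, run φ l r z U = run φ l r z' U := by
  induction l with
  | nil => exact fun hz _ => hr _ _ hz
  | cons v l ih =>
    intro z z' hz U
    simp only [run]
    rw [ih (h.ins v _ _ hz) U, ih hz U, h.con v _ _ (U v) hz]

/-- **(OK')** -/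
theorem Inf.okB [NeZero m] (h0 : 0 ≤ ε) (hI : Inf ε φ E) (l : List (Fin k)) (hl : l.Nodup)
    {r : Finset (Fin k) → ℝ} (hr : ∀ z z', E z z' → r z = r z') (z : Finset (Fin k)) :
    (1 + ε) ^ 2 * (av fun U : Fin k → Fin m => run φ l r z U ^ 2) -
        ((1 + ε) ^ 2 - 1) * (av fun U : Fin k → Fin m => run φ l r z U) ^ 2 ≤
      av fun U : Fin k → Fin m => run φ l (fun S => r S ^ 2) z U := by
  classical
  have key : ∀ (l : List (Fin k)), l.Nodup → ∀ z : Finset (Fin k),
      (1 + ε) ^ 2 * (av fun U : Fin k → Fin m => run φ l r z U ^ 2) -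
        ((1 + ε) ^ 2 - 1) * (av fun U : Fin k → Fin m => run φ l r z U) ^ 2 ≤
      av fun U : Fin k → Fin m => run φ l (fun S => r S ^ 2) z U := by
    intro l
    induction l with
    | nil =>
      intro _ z
      have e1 : (fun U : Fin k → Fin m => run φ [] r z U ^ 2) = fun _ => r z ^ 2 := rfl
      have e2 : (fun U : Fin k → Fin m => run φ [] r z U) = fun _ => r z := rfl
      have e3 : (fun U : Fin k → Fin m => run φ [] (fun S => r S ^ 2) z U) = fun _ => r z ^ 2 := rfl
      rw [e1, e2, e3, av_const, av_const]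
      exact le_of_eq (by ring)
    | cons v l ih =>
      intro hl z
      obtain ⟨hv, hl'⟩ := List.nodup_cons.1 hl
      have i1 := ih hl' (insert v z)
      have i0 := ih hl' z
      rcases hI.okd v z with ho | hE
      swap
      · -- no influence
        have hr2 : ∀ z z', E z z' → r z ^ 2 = r z' ^ 2 := fun z z' h => by rw [hr z z' h]
        have f1 : ∀ U : Fin k → Fin m, run φ (v :: l) r z U = run φ l r z U := by
          intro U
          simp only [run]
          rw [hI.run_eq l hr hE U]
          ring
        have f2 : ∀ U : Fin k → Fin m, run φ (v :: l) (fun S => r S ^ 2) z U =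
            run φ l (fun S => r S ^ 2) z U := by
          intro U
          simp only [run]
          rw [hI.run_eq l (r := fun S => r S ^ 2) hr2 hE U]
          ring
        simp only [f1, f2]
        exact i0
      have hinv : ∀ (r' : Finset (Fin k) → ℝ) (z' : Finset (Fin k)) (U : Fin k → Fin m) (x : Fin m),
          run φ l r' z' (Function.update U v x) = run φ l r' z' U := fun r' z' U x =>
        run_congr_dig l r' z' fun w hw => Function.update_of_ne (fun e : w = v => hv (e ▸ hw)) _ _
      set a : Fin m → ℝ := φ v z with ha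
      set g1 : (Fin k → Fin m) → ℝ := fun U => run φ l r (insert v z) U with hg1
      set g0 : (Fin k → Fin m) → ℝ := fun U => run φ l r z U with hg0
      set p : ℝ := av a with hp
      set q : ℝ := av fun u => a u ^ 2 with hq
      have hp0 : 0 ≤ p := av_nonneg fun u => (ho.1 u).1
      have hp1 : p ≤ 1 := by
        have h1 : av a ≤ av fun _ : Fin m => (1 : ℝ) := av_mono fun u => (ho.1 u).2
        rwa [av_const] at h1
      have hG1 : ∀ U x, g1 (Function.update U v x) = g1 U := fun U x => hinv r (insert v z) U x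
      have hG0 : ∀ U x, g0 (Function.update U v x) = g0 U := fun U x => hinv r z U x
      -- the mean
      have m1 : (av fun U : Fin k → Fin m => run φ (v :: l) r z U) = p * av g1 + (1 - p) * av g0 := by
        have e : (fun U : Fin k → Fin m => run φ (v :: l) r z U) =
            fun U => a (U v) * g1 U + (1 - a (U v)) * g0 U := rfl
        rw [e, av_add, OkBAux.av_mul_digit v a hG1,
          OkBAux.av_mul_digit v (fun u => 1 - a u) hG0, av_sub, av_const]
      -- the mean of the right-hand side
      have m2 : (av fun U : Fin k → Fin m => run φ (v :: l) (fun S => r S ^ 2) z U) =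
          p * (av fun U : Fin k → Fin m => run φ l (fun S => r S ^ 2) (insert v z) U) +
          (1 - p) * (av fun U : Fin k → Fin m => run φ l (fun S => r S ^ 2) z U) := by
        have e : (fun U : Fin k → Fin m => run φ (v :: l) (fun S => r S ^ 2) z U) =
            fun U => a (U v) * run φ l (fun S => r S ^ 2) (insert v z) U +
              (1 - a (U v)) * run φ l (fun S => r S ^ 2) z U := rfl
        rw [e, av_add, OkBAux.av_mul_digit v a fun U x => hinv _ (insert v z) U x,
          OkBAux.av_mul_digit v (fun u => 1 - a u) fun U x => hinv _ z U x, av_sub, av_const]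
      -- the mean of the square
      have m3 : (av fun U : Fin k → Fin m => run φ (v :: l) r z U ^ 2) =
          q * (av fun U => g1 U ^ 2) + (2 * (p - q)) * (av fun U => g1 U * g0 U) +
            (1 - 2 * p + q) * (av fun U => g0 U ^ 2) := by
        have e : (fun U : Fin k → Fin m => run φ (v :: l) r z U ^ 2) =
            fun U => a (U v) ^ 2 * g1 U ^ 2 + ((2 * (a (U v) - a (U v) ^ 2)) * (g1 U * g0 U) +
              (1 - 2 * a (U v) + a (U v) ^ 2) * g0 U ^ 2) := by
          funext U
          change (a (U v) * g1 U + (1 - a (U v)) * g0 U) ^ 2 = _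
          ring
        rw [e, av_add, av_add,
          OkBAux.av_mul_digit v (fun u => a u ^ 2) (G := fun U => g1 U ^ 2)
            (fun U x => by simp only [hG1]),
          OkBAux.av_mul_digit v (fun u => 2 * (a u - a u ^ 2)) (G := fun U => g1 U * g0 U)
            (fun U x => by simp only [hG1, hG0]),
          OkBAux.av_mul_digit v (fun u => 1 - 2 * a u + a u ^ 2) (G := fun U => g0 U ^ 2)
            (fun U x => by simp only [hG0]),
          av_smul, av_sub, av_add, av_sub, av_const, av_smul]
        ring
      have hJ := OkBAux.sq_av_le fun U => g1 U - g0 U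
      have hD : (av fun U => (g1 U - g0 U) ^ 2) = (av fun U => g1 U ^ 2) +
          ((-2) * (av fun U => g1 U * g0 U) + av fun U => g0 U ^ 2) := by
        rw [← av_smul, ← av_add, ← av_add]
        congr 1
        funext U
        ring
      rw [av_sub, hD] at hJ
      have hok := ho.2
      rw [m1, m2, m3]
      change _ ≤ (av a) * (1 - av a) at hok
      rw [← hp, ← hq] at hok
      have hlam : 0 ≤ (1 + ε) ^ 2 - 1 := by nlinarith
      have hpp : 0 ≤ p * (1 - p) := mul_nonneg hp0 (by linarith)
      set L : ℝ := (1 + ε) ^ 2 with hL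
      set G11 : ℝ := av fun U => g1 U ^ 2
      set G10 : ℝ := av fun U => g1 U * g0 U
      set G00 : ℝ := av fun U => g0 U ^ 2
      set A1 : ℝ := av g1
      set A0 : ℝ := av g0
      have k1 : (L - 1) * (p * (1 - p)) ≤ L * (p - q) := by nlinarith
      have hD0 : 0 ≤ G11 + (-2 * G10 + G00) := le_trans (sq_nonneg _) hJ
      have k2 : (L - 1) * (p * (1 - p)) * (G11 + (-2 * G10 + G00)) ≤
          L * (p - q) * (G11 + (-2 * G10 + G00)) := mul_le_mul_of_nonneg_right k1 hD0
      have k3 : (L - 1) * (p * (1 - p)) * (A1 - A0) ^ 2 ≤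
          (L - 1) * (p * (1 - p)) * (G11 + (-2 * G10 + G00)) :=
        mul_le_mul_of_nonneg_left hJ (mul_nonneg hlam hpp)
      have k4 := mul_le_mul_of_nonneg_left i1 hp0
      have k5 := mul_le_mul_of_nonneg_left i0 (by linarith : 0 ≤ 1 - p)
      refine le_trans ?_ (add_le_add k4 k5)
      nlinarith [k2, k3]
  exact key l hl z

/-! ### The blocks -/

theorem Inf.runB_eq (h : Inf ε φ E) {r : Finset (Fin k) → ℝ} (hr : ∀ z z', E z z' → r z = r z') :
    ∀ (n : ℕ) (Ls : Fin n → List (Fin k)) {z z' : Finset (Fin k)}, E z z' →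
      runB φ n Ls r z = runB φ n Ls r z' := by
  intro n
  induction n with
  | zero =>
    intro Ls z z' hz
    funext X
    exact hr _ _ hz
  | succ n ih =>
    intro Ls z z' hz
    funext X
    exact h.run_eq (Ls 0) (r := fun z' => runB φ n (fun i => Ls i.succ) r z' fun i => X i.succ)
      (fun z1 z2 h12 => by rw [ih (fun i => Ls i.succ) h12]) hz (X 0)

private theorem av_consG {Ω : Type} [Fintype Ω] {n : ℕ} (f : (Fin (n + 1) → Ω) → ℝ) :
    av f = av fun u : Ω => av fun U : Fin n → Ω => f (Fin.cons u U : Fin (n + 1) → Ω) := by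
  rw [← av_equiv (Fin.consEquiv (fun _ : Fin (n + 1) => Ω)) f, av_prod]
  rfl

private theorem anG_sumG {Ω ι : Type} [Fintype Ω] (ε : ℝ) (n : ℕ) (s : Finset ι)
    (y : ι → (Fin n → Ω) → ℝ) :
    anG ε n (fun U => ∑ i ∈ s, y i U) = fun U => ∑ i ∈ s, anG ε n (y i) U := by
  classical
  induction s using Finset.induction_on with
  | empty =>
    have h := anG_smul (Ω := Ω) ε n 0 (fun _ => 0)
    simpa using h
  | insert a s ha ih =>
    simp only [Finset.sum_insert ha]
    rw [anG_add, ih]

private theorem anG_avG {Ω X : Type} [Fintype Ω] [Fintype X] (ε : ℝ) (n : ℕ)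
    (y : X → (Fin n → Ω) → ℝ) :
    anG ε n (fun U => av fun x => y x U) = fun U => av fun x => anG ε n (y x) U := by
  have h : (fun U : Fin n → Ω => av fun x => y x U) =
      fun U => (Fintype.card X : ℝ)⁻¹ * ∑ x, y x U := by
    funext U
    unfold av
    rw [div_eq_inv_mul]
  rw [h, anG_smul, anG_sumG]
  funext U
  unfold av
  rw [div_eq_inv_mul]

/-- the anti-noise commutes with the process -/
private theorem anG_runG {Ω : Type} [Fintype Ω] (ε : ℝ) (n : ℕ)
    {φ : Fin k → Finset (Fin k) → Fin m → ℝ} (A : Finset (Fin k) → (Fin n → Ω) → ℝ)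
    (x : Fin k → Fin m) (U : Fin n → Ω) : ∀ (l : List (Fin k)) (z : Finset (Fin k)),
    anG ε n (fun U' => run φ l (fun z' => A z' U') z x) U =
      run φ l (fun z' => anG ε n (A z') U) z x := by
  intro l
  induction l with
  | nil => intro z; rfl
  | cons v l ih =>
    intro z
    have h : (fun U' => run φ (v :: l) (fun z' => A z' U') z x) =
        fun U' => φ v z (x v) * run φ l (fun z' => A z' U') (insert v z) x +
          (1 - φ v z (x v)) * run φ l (fun z' => A z' U') z x := rfl
    rw [h, anG_add ε n (fun U' => φ v z (x v) * run φ l (fun z' => A z' U') (insert v z) x)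
        (fun U' => (1 - φ v z (x v)) * run φ l (fun z' => A z' U') z x),
      anG_smul ε n (φ v z (x v)) (fun U' => run φ l (fun z' => A z' U') (insert v z) x),
      anG_smul ε n (1 - φ v z (x v)) (fun U' => run φ l (fun z' => A z' U') z x)]
    show φ v z (x v) * anG ε n (fun U' => run φ l (fun z' => A z' U') (insert v z) x) U +
      (1 - φ v z (x v)) * anG ε n (fun U' => run φ l (fun z' => A z' U') z x) U = _
    rw [ih, ih]
    rfl

/-- means commute with the process -/
private theorem av_runG {Y : Type} [Fintype Y] {φ : Fin k → Finset (Fin k) → Fin m → ℝ}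
    (A : Finset (Fin k) → Y → ℝ) (x : Fin k → Fin m) : ∀ (l : List (Fin k)) (z : Finset (Fin k)),
    (av fun U : Y => run φ l (fun z' => A z' U) z x) = run φ l (fun z' => av (A z')) z x := by
  intro l
  induction l with
  | nil => intro z; rfl
  | cons v l ih =>
    intro z
    have h : (fun U => run φ (v :: l) (fun z' => A z' U) z x) =
        fun U => φ v z (x v) * run φ l (fun z' => A z' U) (insert v z) x +
          (1 - φ v z (x v)) * run φ l (fun z' => A z' U) z x := rfl
    rw [h, av_add, av_smul, av_smul, ih, ih]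
    rfl

/-- the variance identity -/
private theorem av_centG {Y : Type} [Fintype Y] [Nonempty Y] (ε : ℝ) (g : Y → ℝ) :
    (av fun x => (av g + (1 + ε) * (g x - av g)) ^ 2) =
      (1 + ε) ^ 2 * (av fun x => g x ^ 2) - ((1 + ε) ^ 2 - 1) * (av g) ^ 2 := by
  have h : (fun x => (av g + (1 + ε) * (g x - av g)) ^ 2) =
      fun x => ((1 + ε) ^ 2 * g x ^ 2 + (-(2 * ε * (1 + ε)) * av g) * g x) + ε ^ 2 * (av g) ^ 2 := by
    funext x
    ring
  rw [h, av_add, av_add, av_smul, av_smul, av_const]
  ring

theorem Inf.anti_runB [NeZero m] (h0 : 0 ≤ ε) (hI : Inf ε φ E) {r : Finset (Fin k) → ℝ}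
    (hr : ∀ S, |r S| ≤ 1) (hrE : ∀ z z', E z z' → r z = r z') :
    ∀ (n : ℕ) (Ls : Fin n → List (Fin k)), (∀ i, (Ls i).Nodup) → ∀ z : Finset (Fin k),
      (av fun X : Fin n → Fin k → Fin m => anG ε n (runB φ n Ls r z) X ^ 2) ≤ 1 := by
  intro n
  induction n with
  | zero =>
    intro Ls _ z
    show (av fun _ : Fin 0 → Fin k → Fin m => r z ^ 2) ≤ 1
    rw [av_const]
    have h2 := abs_le.1 (hr z)
    nlinarith
  | succ n ih =>
    intro Ls hLs z
    set A : Finset (Fin k) → (Fin n → Fin k → Fin m) → ℝ :=
      fun z' => runB φ n (fun i => Ls i.succ) r z' with hA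
    set LA : Finset (Fin k) → (Fin n → Fin k → Fin m) → ℝ := fun z' => anG ε n (A z') with hLA
    set g : (Fin n → Fin k → Fin m) → (Fin k → Fin m) → ℝ :=
      fun X' x => run φ (Ls 0) (fun z' => LA z' X') z x with hg
    have hLE : ∀ z1 z2, E z1 z2 → LA z1 = LA z2 := fun z1 z2 h12 => by
      simp only [hLA, hA]
      rw [hI.runB_eq hrE n (fun i => Ls i.succ) h12]
    have e1 : ∀ (x : Fin k → Fin m) (X' : Fin n → Fin k → Fin m),
        anG ε (n + 1) (runB φ (n + 1) Ls r z) (Fin.cons x X' : Fin (n + 1) → Fin k → Fin m) =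
          av (g X') + (1 + ε) * (g X' x - av (g X')) := by
      intro x X'
      have hc : ∀ (x' : Fin k → Fin m) (U' : Fin n → Fin k → Fin m),
          runB φ (n + 1) Ls r z (Fin.cons x' U' : Fin (n + 1) → Fin k → Fin m) =
            run φ (Ls 0) (fun z' => A z' U') z x' := by
        intro x' U'
        show run φ (Ls 0) (fun z' => runB φ n (fun i => Ls i.succ) r z'
          fun i => (Fin.cons x' U' : Fin (n + 1) → Fin k → Fin m) i.succ) z
            ((Fin.cons x' U' : Fin (n + 1) → Fin k → Fin m) 0) = _
        simp only [Fin.cons_zero, Fin.cons_succ, hA]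
      have hm : ∀ U' : Fin n → Fin k → Fin m, mnG (runB φ (n + 1) Ls r z) U' =
          av fun x' : Fin k → Fin m => run φ (Ls 0) (fun z' => A z' U') z x' := by
        intro U'
        unfold mnG
        simp only [hc]
      show anG ε n (fun U' => mnG (runB φ (n + 1) Ls r z) U' +
        (1 + ε) * (runB φ (n + 1) Ls r z (Fin.cons ((Fin.cons x X' : Fin (n + 1) → Fin k → Fin m) 0) U' :
          Fin (n + 1) → Fin k → Fin m) - mnG (runB φ (n + 1) Ls r z) U'))
          (fun i => (Fin.cons x X' : Fin (n + 1) → Fin k → Fin m) i.succ) = _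
      simp only [Fin.cons_zero, Fin.cons_succ, hc, hm]
      have e2 : (fun U' : Fin n → Fin k → Fin m =>
          (av fun x' : Fin k → Fin m => run φ (Ls 0) (fun z' => A z' U') z x') +
            (1 + ε) * (run φ (Ls 0) (fun z' => A z' U') z x -
              av fun x' : Fin k → Fin m => run φ (Ls 0) (fun z' => A z' U') z x')) =
          fun U' => (-ε) * (av fun x' : Fin k → Fin m => run φ (Ls 0) (fun z' => A z' U') z x') +
            (1 + ε) * run φ (Ls 0) (fun z' => A z' U') z x := by
        funext U'
        ring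
      rw [e2, anG_add ε n (fun U' : Fin n → Fin k → Fin m =>
          (-ε) * (av fun x' : Fin k → Fin m => run φ (Ls 0) (fun z' => A z' U') z x'))
          (fun U' => (1 + ε) * run φ (Ls 0) (fun z' => A z' U') z x),
        anG_smul ε n (-ε) (fun U' : Fin n → Fin k → Fin m =>
          av fun x' : Fin k → Fin m => run φ (Ls 0) (fun z' => A z' U') z x'),
        anG_smul ε n (1 + ε) (fun U' : Fin n → Fin k → Fin m =>
          run φ (Ls 0) (fun z' => A z' U') z x),
        anG_avG ε n fun (x' : Fin k → Fin m) (U' : Fin n → Fin k → Fin m) =>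
          run φ (Ls 0) (fun z' => A z' U') z x']
      simp only [anG_runG ε n A]
      show (-ε) * av (g X') + (1 + ε) * g X' x = _
      ring
    rw [av_consG, av_comm]
    simp only [e1]
    have e3 : ∀ X' : Fin n → Fin k → Fin m,
        (av fun x : Fin k → Fin m => (av (g X') + (1 + ε) * (g X' x - av (g X'))) ^ 2) ≤
          av fun x : Fin k → Fin m => run φ (Ls 0) (fun S => LA S X' ^ 2) z x := by
      intro X'
      rw [av_centG]
      exact hI.okB h0 (Ls 0) (hLs 0) (r := fun z' => LA z' X')
        (fun z1 z2 h12 => by rw [hLE z1 z2 h12]) z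
    refine (av_mono e3).trans ?_
    rw [av_comm]
    have e4 : ∀ x : Fin k → Fin m,
        (av fun X' : Fin n → Fin k → Fin m => run φ (Ls 0) (fun S => LA S X' ^ 2) z x) ≤ 1 := by
      intro x
      rw [av_runG (fun S X' => LA S X' ^ 2) x (Ls 0) z]
      have h1 : run φ (Ls 0) (fun z' => av fun X' => LA z' X' ^ 2) z x ≤
          run φ (Ls 0) (fun _ => 1) z x :=
        run_mono hI.mem (Ls 0)
          (fun S => ih (fun i => Ls i.succ) (fun i => hLs i.succ) S) z x
      rw [run_const] at h1
      exact h1
    refine (av_mono e4).trans ?_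
    rw [av_const]

/-- **(SUPER-T)** -/
theorem Inf.superT [NeZero m] (h0 : 0 ≤ ε) (hI : Inf ε φ E) {r : Finset (Fin k) → ℝ}
    (hr : ∀ S, |r S| ≤ 1) (hrE : ∀ z z', E z z' → r z = r z') (bet : Fin k → Fin B) :
    (av fun X : Fin B → Fin k → Fin m =>
      anG ε B (fun X' => run φ (LL bet) r ∅ (dig bet X')) X ^ 2) ≤ 1 := by
  have h := hI.anti_runB h0 hr hrE B (Lj bet) (fun i => (List.nodup_finRange k).filter _) ∅
  have e : runB φ B (Lj bet) r ∅ = fun X' => run φ (LL bet) r ∅ (dig bet X') := by
    funext X'
    exact SubBisF.runB_eq bet r X'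
  rw [e] at h
  exact h

end Pool.Agent.Lib.SubBisG
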