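import Pool.Agent.Lib.SubBisG.CmpG
import Pool.Agent.Lib.SubBisG.OkG
import Pool.Agent.Lib.SubBisF.ResF

/-!
# SubBisG.ResG: the part of low degree of the policy, in the space of the indices

As `SubBisF.ResF`, for the policy `yxG`.
-/

set_option autoImplicit false

open scoped BigOperators

namespace Pool.Agent.Lib.SubBisG

open Finset SubBis Pool.Agent.Lib.SubBisX.Reg Pool.Agent.Lib.SubBisX.Core
open Pool.Agent.Lib.SubBisX
open Pool.Agent.Lib.SubBisE (agr ker cl gam vl xt Okd)
open Pool.Agent.Lib.SubBisB (wt2 ZF EG pv Rb Rp psi)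
open Pool.Agent.Lib.SubBisF

variable {k m B R : ℕ}

/-- the policy of the site `v` with the own digit `x`, as a function of the indices -/
noncomputable def hxG (ε : ℝ) (F : Finset (Fin k) → ℤ) (bet : Fin k → Fin B) (v : Fin k) (x : Fin m)
    (D : Fin k → Fin R → Fin m) (I : Fin B → Fin R) : ℝ := yxG ε F bet v x (dgt bet D I)

/-- its part of degree `d`, with the own digit of the world -/
noncomputable def aG (ε : ℝ) (d : ℕ) (F : Finset (Fin k) → ℤ) (bet : Fin k → Fin B) (v : Fin k)
    (D : Fin k → Fin R → Fin m) (I : Fin B → Fin R) : ℝ :=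
  SubBisE.low B (bet v) d (hxG ε F bet v (dgt bet D I v) D) I

theorem yxG_mem {ε : ℝ} (F : Finset (Fin k) → ℤ) (bet : Fin k → Fin B) (v : Fin k) (x : Fin m)
    (U : Fin k → Fin m) : 0 ≤ yxG ε F bet v x U ∧ yxG ε F bet v x U ≤ 1 := by
  have hφ := phG_mem (m := m) ε F bet
  unfold yxG
  constructor
  · have h := run_mono hφ (LL bet) (r := fun _ => 0)
      (r' := fun z => pbG ε F bet v z x) (fun S => ph_nonneg _ _ _) ∅ U
    rwa [run_const] at h
  · have h := run_mono hφ (LL bet) (r := fun z => pbG ε F bet v z x)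
      (r' := fun _ => 1) (fun S => ph_le_one _ _ _) ∅ U
    rwa [run_const] at h

/-- the policy depends on the digits of the earlier blocks only -/
theorem yxG_dep (ε : ℝ) (F : Finset (Fin k) → ℤ) (bet : Fin k → Fin B) (v : Fin k) (x : Fin m)
    {U U' : Fin k → Fin m} (h : ∀ w, (bet w : ℕ) < (bet v : ℕ) → U w = U' w) :
    yxG ε F bet v x U = yxG ε F bet v x U' := by
  unfold yxG
  refine run_dep (j := (bet v : ℕ)) ?_ h
  intro S S' hS
  have hR : Rj bet (bet v : ℕ) = Rb bet v := by
    unfold Rj Rb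
    ext w
    simp only [mem_filter, mem_univ, true_and]
    exact Iff.rfl
  rw [hR] at hS
  exact dep_pbG ε F bet v x S S' hS

theorem hxG_dep (ε : ℝ) (F : Finset (Fin k) → ℤ) (bet : Fin k → Fin B) (v : Fin k) (x : Fin m)
    (D : Fin k → Fin R → Fin m) : SubBisE.Dep (bet v : ℕ) (hxG ε F bet v x D) := by
  intro I I' hI
  unfold hxG
  refine yxG_dep ε F bet v x fun w hw => ?_
  unfold dgt
  rw [hI (bet w) hw]

/-- the function does not depend on the pool of the site itself -/
theorem hxG_update (ε : ℝ) (F : Finset (Fin k) → ℤ) (bet : Fin k → Fin B) (v : Fin k) (x : Fin m)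
    (D : Fin k → Fin R → Fin m) (a : Fin R → Fin m) :
    hxG ε F bet v x (Function.update D v a) = hxG ε F bet v x D := by
  funext I
  unfold hxG
  refine yxG_dep ε F bet v x fun w hw => ?_
  unfold dgt
  rw [Function.update_of_ne]
  rintro rfl
  exact lt_irrefl _ hw

/-- **The ball.** -/
theorem lowG_ball [NeZero m] [NeZero R] (ε : ℝ) (d : ℕ) (F : Finset (Fin k) → ℤ)
    (bet : Fin k → Fin B) (v : Fin k) (D : Fin k → Fin R → Fin m) (T : ℕ) (γ : ℕ → ℝ)
    (W : ℕ → Fin B → Fin R) :
    2 * ∑ τ ∈ range T, γ τ * aG ε d F bet v D (W τ) ≤ m * (R : ℝ) ^ d +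
      ∑ τ ∈ range T, ∑ σ ∈ range T, γ τ * γ σ * (kerF d bet D v (W τ) (W σ) : ℝ) := by
  have hR1 : (1 : ℝ) ≤ R := by
    have : 0 < R := Nat.pos_of_ne_zero (NeZero.ne R)
    exact_mod_cast this
  have h1 : ∀ x : Fin m, 2 * ∑ τ ∈ range T, (if dgt bet D (W τ) v = x then γ τ else 0) *
      SubBisE.low B (bet v) d (hxG ε F bet v x D) (W τ) ≤ (R : ℝ) ^ d +
      ∑ τ ∈ range T, ∑ σ ∈ range T, (if dgt bet D (W τ) v = x then γ τ else 0) *
        (if dgt bet D (W σ) v = x then γ σ else 0) * (ker d (bet v) (W τ) (W σ) : ℝ) := by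
    intro x
    have h := SubBisE.low_ball B (bet v) d (hxG ε F bet v x D) (hxG_dep ε F bet v x D) T
      (fun τ => if dgt bet D (W τ) v = x then γ τ else 0) W
    have h2 : (av fun U => hxG ε F bet v x D U ^ 2) ≤ 1 := by
      have h3 := av_mono (f := fun U => hxG ε F bet v x D U ^ 2)
        (g := fun _ : Fin B → Fin R => (1 : ℝ)) fun U => by
          have := yxG_mem (ε := ε) F bet v x (dgt bet D U)
          exact pow_le_one₀ this.1 this.2
      rwa [av_const] at h3
    have h4 : (R : ℝ) ^ d * (av fun U => hxG ε F bet v x D U ^ 2) ≤ (R : ℝ) ^ d := by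
      have := mul_le_mul_of_nonneg_left h2 (by positivity : (0 : ℝ) ≤ (R : ℝ) ^ d)
      rwa [mul_one] at this
    linarith
  have h2 := Finset.sum_le_sum fun x (_ : x ∈ (univ : Finset (Fin m))) => h1 x
  rw [Finset.sum_add_distrib, SubBisE.sum_key (fun I I' : Fin B → Fin R => (ker d (bet v) I I' : ℝ))
    (fun I => dgt bet D I v) T γ W] at h2
  have h3 : ∑ x : Fin m, 2 * ∑ τ ∈ range T, (if dgt bet D (W τ) v = x then γ τ else 0) *
      SubBisE.low B (bet v) d (hxG ε F bet v x D) (W τ) =
      2 * ∑ τ ∈ range T, γ τ * aG ε d F bet v D (W τ) := by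
    rw [← Finset.mul_sum, Finset.sum_comm]
    congr 1
    refine Finset.sum_congr rfl fun τ _ => ?_
    have h4 : ∀ x : Fin m, (if dgt bet D (W τ) v = x then γ τ else 0) *
        SubBisE.low B (bet v) d (hxG ε F bet v x D) (W τ) =
        if dgt bet D (W τ) v = x then γ τ *
          SubBisE.low B (bet v) d (hxG ε F bet v x D) (W τ) else 0 := by
      intro x
      split_ifs <;> simp
    simp only [h4]
    rw [Finset.sum_ite_eq univ (dgt bet D (W τ) v)]
    simp [aG]
  have h5 : ∑ τ ∈ range T, ∑ σ ∈ range T, γ τ * γ σ *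
      ((if dgt bet D (W τ) v = dgt bet D (W σ) v then 1 else 0) * (ker d (bet v) (W τ) (W σ) : ℝ)) =
      ∑ τ ∈ range T, ∑ σ ∈ range T, γ τ * γ σ * (kerF d bet D v (W τ) (W σ) : ℝ) := by
    refine Finset.sum_congr rfl fun τ _ => Finset.sum_congr rfl fun σ _ => ?_
    unfold kerF
    split_ifs <;> simp
  have h6 : ∑ _x : Fin m, (R : ℝ) ^ d = m * (R : ℝ) ^ d := by
    rw [Finset.sum_const, Finset.card_univ, Fintype.card_fin, nsmul_eq_mul]
  rw [h3, h5, h6] at h2
  exact h2

/-- the decisions of the process -/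
theorem inf_phG [NeZero m] {ε : ℝ} (h0 : 0 ≤ ε) (h1 : ε ≤ 1 / 16) {F : Finset (Fin k) → ℤ}
    (hF : FCS.Subm F) (hM : ∀ S v, F S ≤ F (insert v S)) (bet : Fin k → Fin B) :
    Inf ε (phG (m := m) ε F bet) (EqG F bet) where
  ins v _ _ h := h.insert v
  con v _ _ u h := phG_congr ε h v u
  mem := phG_mem ε F bet
  okd v z := okd_or_free h0 h1 hF hM v z

/-- the anti-noise of the policy in the index space is bounded in mean square -/
theorem anti_hxG [NeZero m] [NeZero R] {ε : ℝ} (h0 : 0 ≤ ε) (h1 : ε ≤ 1 / 16)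
    {F : Finset (Fin k) → ℤ} (hF : FCS.Subm F) (hM : ∀ S v, F S ≤ F (insert v S))
    (bet : Fin k → Fin B) (v : Fin k) (x : Fin m) :
    (av fun D : Fin k → Fin R → Fin m => av fun I : Fin B → Fin R =>
      SubBisE.anti ε B (hxG ε F bet v x D) I ^ 2) ≤ 1 := by
  have hr : ∀ S : Finset (Fin k), |pbG ε F bet v S x| ≤ 1 := fun S => by
    unfold pbG
    rw [abs_of_nonneg (ph_nonneg _ _ _)]
    exact ph_le_one _ _ _
  have e1 := av_proj (R := R) bet (fun D : Fin k → Fin R → Fin m => av fun I : Fin B → Fin R =>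
      SubBisE.anti ε B (hxG ε F bet v x D) I ^ 2)
  rw [← e1]
  refine le_trans (le_of_eq ?_) ((anG_pool (Ω := Fin k → Fin m) (R := R) h0 B
    (fun X' => run (phG ε F bet) (LL bet) (fun z => pbG ε F bet v z x) ∅
      (dig bet X'))).trans ((inf_phG h0 h1 hF hM bet).superT h0 hr
        (fun z z' h => pbG_congr ε h v x) bet))
  refine congrArg av (funext fun D => congrArg av (funext fun I => ?_))
  rw [anG_fin]
  rfl

/-- **The residual.** -/
theorem lowG_res [NeZero m] [NeZero R] {ε : ℝ} (h0 : 0 ≤ ε) (h1 : ε ≤ 1 / 16) (d : ℕ)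
    {F : Finset (Fin k) → ℤ} (hF : FCS.Subm F) (hM : ∀ S v, F S ≤ F (insert v S)) (bet : Fin k → Fin B) (v : Fin k) :
    (av fun D : Fin k → Fin R → Fin m => av fun I : Fin B → Fin R =>
      |aG ε d F bet v D I - yxG ε F bet v (dgt bet D I v) (dgt bet D I)|) ≤
        1 / (1 + ε) ^ (d + 1) := by
  have hpos : 0 < (1 + ε) ^ (d + 1) := by positivity
  obtain ⟨G, hG⟩ : ∃ G : Fin m → (Fin k → Fin R → Fin m) → (Fin B → Fin R) → ℝ, ∀ x D I,
      G x D I = |SubBisE.low B (bet v) d (hxG ε F bet v x D) I - hxG ε F bet v x D I| :=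
    ⟨_, fun _ _ _ => rfl⟩
  have e1 : ∀ (D : Fin k → Fin R → Fin m) (I : Fin B → Fin R),
      |aG ε d F bet v D I - yxG ε F bet v (dgt bet D I v) (dgt bet D I)| =
        G (D v (I (bet v))) D I := by
    intro D I
    rw [hG]
    rfl
  simp only [e1]
  have e2 : (av fun D : Fin k → Fin R → Fin m => av fun I : Fin B → Fin R =>
      G (D v (I (bet v))) D I) =
      av fun x : Fin m => av fun D : Fin k → Fin R → Fin m => av fun I : Fin B → Fin R =>
        G x D I := by
    rw [av_comm, av_comm (Ω := Fin m)]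
    have e3 : ∀ D : Fin k → Fin R → Fin m, (av fun x : Fin m => av fun I : Fin B → Fin R =>
        G x D I) = av fun I : Fin B → Fin R => av fun x : Fin m => G x D I := fun D =>
      av_comm _
    simp only [e3]
    rw [av_comm (Ω := Fin k → Fin R → Fin m)]
    refine congrArg av (funext fun I => ?_)
    rw [← Bounds.av_update v fun D : Fin k → Fin R → Fin m => G (D v (I (bet v))) D I]
    refine congrArg av (funext fun D => ?_)
    have e4 : ∀ a : Fin R → Fin m, G (Function.update D v a v (I (bet v))) (Function.update D v a) I =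
        G (a (I (bet v))) D I := by
      intro a
      rw [hG, hG, Function.update_self, hxG_update]
    simp only [e4]
    exact av_coord (I (bet v)) fun x => G x D I
  rw [e2]
  have e5 : ∀ x : Fin m, (av fun D : Fin k → Fin R → Fin m => av fun I : Fin B → Fin R =>
      G x D I) ≤ 1 / (1 + ε) ^ (d + 1) := by
    intro x
    have e6 := SubBisE.av_abs_le (Ω := (Fin k → Fin R → Fin m) × (Fin B → Fin R))
      (fun p => SubBisE.low B (bet v) d (hxG ε F bet v x p.1) p.2 - hxG ε F bet v x p.1 p.2)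
      (r := 1 / (1 + ε) ^ (d + 1)) (by positivity) (by
        rw [av_prod]
        have e7 : (1 + ε) ^ (2 * (d + 1)) * (av fun D : Fin k → Fin R → Fin m =>
            av fun I : Fin B → Fin R => (SubBisE.low B (bet v) d (hxG ε F bet v x D) I -
              hxG ε F bet v x D I) ^ 2) ≤ 1 := by
          rw [← av_smul]
          refine (av_mono fun D => ?_).trans (anti_hxG (R := R) h0 h1 hF hM bet v x)
          have e8 := SubBisE.low_res h0 B (bet v) d (hxG ε F bet v x D) (hxG_dep ε F bet v x D)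
          have e9 : (fun I : Fin B → Fin R => (SubBisE.low B (bet v) d (hxG ε F bet v x D) I -
              hxG ε F bet v x D I) ^ 2) = fun I => (hxG ε F bet v x D I -
                SubBisE.low B (bet v) d (hxG ε F bet v x D) I) ^ 2 := by
            funext I
            ring
          rw [e9]
          exact e8
        have h3 : (1 + ε) ^ (2 * (d + 1)) = ((1 + ε) ^ (d + 1)) ^ 2 := by
          rw [← pow_mul]
          congr 1
          ring
        rw [div_pow, one_pow, le_div_iff₀ (by positivity), ← h3, mul_comm]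
        exact e7)
    rw [av_prod] at e6
    refine le_trans (le_of_eq ?_) e6
    refine congrArg av (funext fun D => congrArg av (funext fun I => ?_))
    rw [hG]
  have e10 := av_mono (f := fun x : Fin m => av fun D : Fin k → Fin R → Fin m =>
    av fun I : Fin B → Fin R => G x D I) (g := fun _ => 1 / (1 + ε) ^ (d + 1)) e5
  rwa [av_const] at e10

end Pool.Agent.Lib.SubBisG
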