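import Pool.Agent.Lib.SubBisF.RegF
import Pool.Agent.Lib.SubBisG.ResG

/-!
# SubBisG.CoreLowG: the mean value of the method, lower bound

As `SubBisF.CoreLow`, for the comparator `yxG`: the loss of the smoothing is proportional to the mean
number of selected sites that were not free.
-/

set_option autoImplicit false

open scoped BigOperators

namespace Pool.Agent.Lib.SubBisG

open Finset SubBis Pool.Agent.Lib.SubBisX.Reg Pool.Agent.Lib.SubBisX.Core
open Pool.Agent.Lib.SubBisX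
open Pool.Agent.Lib.SubBisE (agr ker cl gam vl xt Okd)
open Pool.Agent.Lib.SubBisB (wt2 ZF EG pv Rb Rp psi)
open Pool.Agent.Lib.SubBisF

variable {k m B R : ℕ}

/-- **The lower bound.** -/
theorem coreG_lower [NeZero m] [NeZero R] {c M d : ℕ} (hM : 0 < M) (hm : 2 ≤ m) {ε : ℝ}
    (h0 : 0 ≤ ε) (h1 : ε ≤ 1 / 16) {F : Finset (Fin k) → ℤ} (hF : FCS.Subm F) (hF0 : F ∅ = 0)
    (hMo : ∀ S v, F S ≤ F (insert v S))
    {Γ κ : ℕ} (hΓ : ∀ (U : Fin k → Fin m) (y : Fin k → ℤ) v, |gr c F v (U v) y| ≤ Γ)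
    (hκ : ∀ (y : Fin k → ℤ) v, |FCS.kv F y v| ≤ κ) (bet : Fin k → Fin B) (N : ℕ) :
    N * (M * (c * Bounds.logZ F - lossC m c ε F bet - c * κ * gap F bet)) -
        k * ((M : ℝ) ^ 2 * (m * (R : ℝ) ^ d) + N * ((Γ : ℝ) ^ 2 * ((B : ℝ) + 1) ^ d)) / 2 -
        M * Γ * (N * (k / (1 + ε) ^ (d + 1))) ≤
      av fun p : (Fin k → Fin R → Fin m) × (Fin N → Fin B → Fin R) =>
        (VlF c M d F bet p.1 N (xt p.2) : ℝ) := by
  obtain ⟨CV, hCV, hC⟩ := comparatorG (m := m) hm c κ h0 h1 F bet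
  have hv := fun p : (Fin k → Fin R → Fin m) × (Fin N → Fin B → Fin R) =>
    vlF_ge (c := c) (M := M) (d := d) hM hF hF0 hΓ hκ bet p.1
      (ys := fun v I => yxG ε F bet v (dgt bet p.1 I v) (dgt bet p.1 I))
      (a := fun v I => aG ε d F bet v p.1 I) (CV := CV) (Rr := m * (R : ℝ) ^ d)
      (fun v I => yxG_mem F bet v _ _) (fun I g hg hk' => hC (dgt bet p.1 I) g hg hk')
      (fun v T γ W => lowG_ball ε d F bet v p.1 T γ W) N (xt p.2)
  refine le_trans ?_ (av_mono hv)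
  rw [av_sub, av_sub, av_smul, av_smul, av_const, av_sum, av_sum]
  have e1 : ∑ τ ∈ range N, (av fun p : (Fin k → Fin R → Fin m) × (Fin N → Fin B → Fin R) =>
      CV (dgt bet p.1 (xt p.2 τ))) = N * av CV := by
    have e : ∀ τ ∈ range N, (av fun p : (Fin k → Fin R → Fin m) × (Fin N → Fin B → Fin R) =>
        CV (dgt bet p.1 (xt p.2 τ))) = av CV := by
      intro τ _
      rw [av_prod, av_comm]
      have e' : ∀ w : Fin N → Fin B → Fin R,
          (av fun D : Fin k → Fin R → Fin m => CV (dgt bet D (xt w τ : Fin B → Fin R))) =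
            av CV :=
        fun w => av_dgt bet (xt w τ : Fin B → Fin R) CV
      simp only [e']
      exact av_const _
    rw [sum_congr rfl e, sum_const, card_range, nsmul_eq_mul]
  have e2 : ∑ τ ∈ range N, (av fun p : (Fin k → Fin R → Fin m) × (Fin N → Fin B → Fin R) =>
      ∑ v : Fin k, |aG ε d F bet v p.1 (xt p.2 τ : Fin B → Fin R) -
        yxG ε F bet v (dgt bet p.1 (xt p.2 τ : Fin B → Fin R) v)
          (dgt bet p.1 (xt p.2 τ : Fin B → Fin R))|) ≤
        N * (k / (1 + ε) ^ (d + 1)) := by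
    refine (sum_le_card_nsmul _ _ ((k : ℝ) / (1 + ε) ^ (d + 1)) fun τ hτ => ?_).trans
      (le_of_eq (by rw [card_range, nsmul_eq_mul]))
    rw [av_sum]
    refine (sum_le_card_nsmul _ _ (1 / (1 + ε) ^ (d + 1)) fun v _ => ?_).trans
      (le_of_eq ?_)
    · refine le_trans (le_of_eq ?_) (lowG_res (m := m) (R := R) h0 h1 d hF hMo bet v)
      rw [av_prod]
      refine congrArg av (funext fun D => ?_)
      exact SubBisE.CU.av_xt (mem_range.1 hτ) fun I : Fin B → Fin R =>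
        |aG ε d F bet v D I - yxG ε F bet v (dgt bet D I v) (dgt bet D I)|
    · rw [card_univ, Fintype.card_fin, nsmul_eq_mul]
      ring
  rw [e1]
  have hM' : (0 : ℝ) ≤ M := Nat.cast_nonneg M
  have hN' : (0 : ℝ) ≤ N := Nat.cast_nonneg N
  have hG' : (0 : ℝ) ≤ Γ := Nat.cast_nonneg Γ
  have e3 : (N : ℝ) * (M * (c * Bounds.logZ F - lossC m c ε F bet - c * κ * gap F bet)) ≤
      M * (N * av CV) := by
    have := mul_le_mul_of_nonneg_left hCV (mul_nonneg hM' hN')
    linarith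
  have e4 := mul_le_mul_of_nonneg_left e2 (mul_nonneg hM' hG')
  linarith

end Pool.Agent.Lib.SubBisG
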