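import Pool.Agent.Lib.SubBisG.Defs
import Pool.Agent.Lib.SubBisC.CSum

/-!
# SubBisG.CovG: the set function of all left vertices is a coverage function

For the cover `range a` (all left vertices) and `n ≤ κ` the matching number is the number of right
vertices of `W` with a selected neighbour in `W`; the partition function is the number of
independent subsets of `W`, up to a power of two, and the Gibbs mean is the mean over the
independent subsets of `W`.
-/

set_option autoImplicit false

open scoped BigOperators

namespace Pool.Agent.Lib.SubBisG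

open Finset Pool.Agent.Lib.Pa7c826 Pool.Agent.Lib.Pa7c826t Pool.Agent.Lib.SubBisX
open Pool.Agent.Lib.SubBisX.Node Pool.Agent.Lib.SubBisC

variable {n a κ : ℕ} {adj : ℕ → ℕ → Bool}

namespace CovG

theorem card_bl_le {C : Finset ℕ} (h : Cov n a adj C) (W T : Finset ℕ) :
    (bl adj C W T).card ≤ n := by
  have h1 : bl adj C W T ⊆ range n := by
    intro u hu
    obtain ⟨-, v, -, hv⟩ := mem_bl.1 hu
    rw [h.symm] at hv
    exact mem_range.2 (h.lt _ _ hv)
  have h2 := card_le_card h1
  rwa [card_range] at h2

theorem left_indep (h : Cov n a adj (range a)) {T : Finset ℕ} (hT : T ⊆ range a) :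
    ∀ u ∈ T, ∀ v ∈ T, adj u v = false := by
  intro u hu v hv
  by_contra hcon
  rw [Bool.not_eq_false] at hcon
  exact (h.bip u v hcon).1 (mem_range.1 (hT hu)) (mem_range.1 (hT hv))

/-- the matching number is the number of right vertices with a selected neighbour -/
theorem cm_cov (h : Cov n a adj (range a)) (hκ : n ≤ κ) (W : Finset ℕ) {T : Finset ℕ}
    (hT : T ⊆ range a) : cm n a adj κ (range a) W T = (bl adj (range a) W T).card := by
  refine le_antisymm (cm_le h W (left_indep h hT)) ?_
  rcases Nat.eq_zero_or_pos κ with h0 | h0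
  · have := card_bl_le h W T
    omega
  · obtain ⟨T', hT', -, hc⟩ := exists_T h h0 W hT
    by_cases hE : T \ T' = ∅
    · have h1 : T' = T := subset_antisymm hT' (sdiff_eq_empty_iff_subset.1 hE)
      subst h1
      omega
    · have h1 : 1 ≤ (T \ T').card := card_pos.2 (nonempty_iff_ne_empty.2 hE)
      have h2 := card_bl_le h W T
      have h3 : κ * 1 ≤ κ * (T \ T').card := Nat.mul_le_mul_left _ h1
      omega

theorem indS_eq (h : Cov n a adj (range a)) (W : Finset ℕ) :
    indS adj (range a) W = (range a ∩ W).powerset := by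
  unfold indS
  rw [filter_eq_self]
  intro T hT
  exact left_indep h ((mem_powerset.1 hT).trans inter_subset_left)

theorem rk_range {v : ℕ} (hv : v ∈ range a) : SubBisC.rk (range a) v = v := by
  unfold SubBisC.rk
  have h1 : (range a).filter (fun u => u < v) = range v := by
    ext u
    rw [mem_filter, mem_range, mem_range]
    have := mem_range.1 hv
    omega
  rw [h1, card_range]

/-- the selected left vertices -/
theorem sel_range (W X : Finset ℕ) :
    SubBisC.sel a (range a) W X = (range a ∩ W).filter fun v => v ∈ X := by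
  unfold SubBisC.sel
  refine filter_congr fun v hv => ?_
  have h1 := (mem_inter.1 hv).1
  rw [if_pos (mem_range.1 h1), rk_range h1]

theorem sel_range' (W X : Finset ℕ) : SubBisC.sel a (range a) W X = X ∩ (range a ∩ W) := by
  rw [sel_range, filter_mem_eq_inter, inter_comm]

theorem sel_subset (W X : Finset ℕ) : SubBisC.sel a (range a) W X ⊆ range a := by
  rw [sel_range']
  exact inter_subset_right.trans inter_subset_left

/-- the sets of sites -/
theorem sum_sel (W : Finset ℕ) (g : Finset ℕ → ℝ) :
    ∑ S : Finset (Fin (range a).card), g (SubBisC.sel a (range a) W (toN S)) =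
      2 ^ (a - (range a ∩ W).card) * ∑ T ∈ (range a ∩ W).powerset, g T := by
  have h1 := sum_IXC a (inter_subset_left : range a ∩ W ⊆ range a) g
  rw [card_range] at h1
  rw [← h1, ← sum_pre fun Y => g (IX a (range a ∩ W) Y),
    ← sum_toN fun X => g (IX a (range a ∩ W) (pre (range a) X))]
  refine sum_congr rfl fun S _ => ?_
  rw [sel_eq]

theorem card_indF (W : Finset ℕ) : (indF adj W).card = ind adj W := rfl

/-- a sum over the independent subsets of `W`, by their left parts -/
theorem sum_indF (h : Cov n a adj (range a)) (W : Finset ℕ) (g : Finset ℕ → ℝ) :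
    ∑ I ∈ indF adj W, g (I ∩ range a) = 2 ^ (W \ range a).card *
      ∑ T ∈ (range a ∩ W).powerset, (1 / 2 : ℝ) ^ (bl adj (range a) W T).card * g T := by
  classical
  have h1 : ∑ I ∈ indF adj W, g (I ∩ range a) =
      ∑ T ∈ (range a ∩ W).powerset, ∑ I ∈ indF adj W with I ∩ range a = T, g (I ∩ range a) := by
    rw [sum_fiberwise_of_maps_to]
    intro I hI
    have h2 := mem_powerset.1 (mem_filter.1 hI).1
    rw [mem_powerset, inter_comm]
    exact inter_subset_inter_left h2
  rw [h1, mul_sum]
  refine sum_congr rfl fun T hT => ?_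
  have hT' := mem_powerset.1 hT
  have h2 : ∀ I ∈ (indF adj W).filter (fun I => I ∩ range a = T), g (I ∩ range a) = g T :=
    fun I hI => by rw [(mem_filter.1 hI).2]
  rw [sum_congr rfl h2, sum_const, nsmul_eq_mul]
  have h3 : ((indF adj W).filter fun I => I ∩ range a = T).card =
      ((W \ range a) \ bl adj (range a) W T).powerset.card := by
    refine card_nbij' (fun I => I \ range a) (fun E => T ∪ E) ?_ ?_ ?_ ?_
    · intro I hI
      obtain ⟨hI1, hI2⟩ := mem_filter.1 (mem_coe.1 hI)
      obtain ⟨hI3, hI4⟩ := mem_filter.1 hI1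
      have hI3' := mem_powerset.1 hI3
      rw [mem_coe, mem_powerset]
      intro u hu
      obtain ⟨hu1, hu2⟩ := mem_sdiff.1 hu
      refine mem_sdiff.2 ⟨mem_sdiff.2 ⟨hI3' hu1, hu2⟩, fun hb => ?_⟩
      obtain ⟨-, v, hv, hvu⟩ := mem_bl.1 hb
      rw [← hI2] at hv
      rw [hI4 v (mem_inter.1 hv).1 u hu1] at hvu
      exact absurd hvu (by simp)
    · intro E hE
      have hE' := mem_powerset.1 (mem_coe.1 hE)
      have g2 : ∀ v ∈ E, v ∉ range a := fun v hv => (mem_sdiff.1 (mem_sdiff.1 (hE' hv)).1).2
      have key : ∀ u ∈ T, ∀ v ∈ E, adj u v = false := by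
        intro u hu v hv
        by_contra hcon
        rw [Bool.not_eq_false] at hcon
        have h4 := mem_sdiff.1 (hE' hv)
        exact h4.2 (mem_bl.2 ⟨mem_sdiff.1 h4.1, u, hu, hcon⟩)
      rw [mem_coe, mem_filter]
      refine ⟨mem_filter.2 ⟨mem_powerset.2 (union_subset (hT'.trans inter_subset_right)
        ((hE'.trans sdiff_subset).trans sdiff_subset)), ?_⟩, ?_⟩
      · intro u hu v hv
        rcases mem_union.1 hu with hu1 | hu1 <;> rcases mem_union.1 hv with hv1 | hv1
        · exact left_indep h (hT'.trans inter_subset_left) u hu1 v hv1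
        · exact key u hu1 v hv1
        · rw [h.symm]
          exact key v hv1 u hu1
        · by_contra hcon
          rw [Bool.not_eq_false] at hcon
          rcases h.cov u v hcon with h4 | h4
          · exact g2 u hu1 h4
          · exact g2 v hv1 h4
      · ext v
        rw [mem_inter, mem_union]
        constructor
        · rintro ⟨h4 | h4, h5⟩
          · exact h4
          · exact absurd h5 (g2 v h4)
        · intro h4
          exact ⟨Or.inl h4, (mem_inter.1 (hT' h4)).1⟩
    · intro I hI
      have hI2 := (mem_filter.1 (mem_coe.1 hI)).2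
      simp only
      rw [← hI2]
      ext v
      rw [mem_union, mem_inter, mem_sdiff]
      tauto
    · intro E hE
      have hE' := mem_powerset.1 (mem_coe.1 hE)
      simp only
      ext v
      rw [mem_sdiff, mem_union]
      constructor
      · rintro ⟨h4 | h4, h5⟩
        · exact absurd (mem_inter.1 (hT' h4)).1 h5
        · exact h4
      · intro h4
        exact ⟨Or.inr h4, (mem_sdiff.1 (mem_sdiff.1 (hE' h4)).1).2⟩
  have h4 : bl adj (range a) W T ⊆ W \ range a := fun u hu => mem_sdiff.2 (mem_bl.1 hu).1
  rw [h3, card_powerset, card_sdiff_of_subset h4, ← mul_assoc]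
  congr 1
  push_cast
  rw [one_div, inv_pow, ← div_eq_mul_inv, eq_div_iff (by positivity), ← pow_add,
    Nat.sub_add_cancel (card_le_card h4)]

/-- the weights of the sets of sites -/
theorem wt2_FC (h : Cov n a adj (range a)) (hκ : n ≤ κ) (W : Finset ℕ)
    (S : Finset (Fin (range a).card)) : SubBisB.wt2 (FC n a adj κ (range a) W) S =
      (1 / 2 : ℝ) ^ (bl adj (range a) W (SubBisC.sel a (range a) W (toN S))).card := by
  unfold SubBisB.wt2 FC
  rw [cnC_eq_cm, cm_cov h hκ W (sel_subset W _), one_div, inv_pow,
    Real.rpow_neg (by norm_num)]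
  congr 1
  rw [← Real.rpow_natCast]
  push_cast
  rfl

/-- a weighted sum over the sets of sites -/
theorem sum_wt2 (h : Cov n a adj (range a)) (hκ : n ≤ κ) (W : Finset ℕ) (g : Finset ℕ → ℝ) :
    ∑ S, SubBisB.wt2 (FC n a adj κ (range a) W) S * g (SubBisC.sel a (range a) W (toN S)) =
      2 ^ (a - (range a ∩ W).card) *
        ∑ T ∈ (range a ∩ W).powerset, (1 / 2 : ℝ) ^ (bl adj (range a) W T).card * g T := by
  rw [← sum_sel W fun T => (1 / 2 : ℝ) ^ (bl adj (range a) W T).card * g T]
  refine sum_congr rfl fun S _ => ?_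
  rw [wt2_FC h hκ]

/-- the Gibbs mean is the mean over the independent subsets of `W` -/
theorem EG_FC (h : Cov n a adj (range a)) (hκ : n ≤ κ) (W : Finset ℕ) (g : Finset ℕ → ℝ) :
    SubBisB.EG (FC n a adj κ (range a) W) (fun S => g (SubBisC.sel a (range a) W (toN S))) =
      (∑ I ∈ indF adj W, g (I ∩ range a)) / ind adj W := by
  have h1 := sum_wt2 h hκ W g
  have h2 := sum_wt2 h hκ W fun _ => (1 : ℝ)
  have h3 := sum_indF h W g
  have h4 := sum_indF h W fun _ => (1 : ℝ)
  simp only [mul_one] at h2 h4
  rw [sum_const, nsmul_eq_mul, mul_one, card_indF] at h4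
  unfold SubBisB.EG SubBisB.ZF
  rw [h1, h2, h3, h4]
  set s := ∑ T ∈ (range a ∩ W).powerset, (1 / 2 : ℝ) ^ (bl adj (range a) W T).card
  rw [mul_div_mul_left _ _ (by positivity), mul_div_mul_left _ _ (by positivity)]

/-- the partition function -/
theorem logb_ind_FC (h : Cov n a adj (range a)) (hκ : n ≤ κ) (W : Finset ℕ) :
    Real.logb 2 (ind adj W) =
      (W.card : ℝ) - a + Bounds.logZ (FC n a adj κ (range a) W) := by
  have h2 := sum_wt2 h hκ W fun _ => (1 : ℝ)
  have h4 := sum_indF h W fun _ => (1 : ℝ)
  simp only [mul_one] at h2 h4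
  rw [sum_const, nsmul_eq_mul, mul_one, card_indF] at h4
  set s := ∑ T ∈ (range a ∩ W).powerset, (1 / 2 : ℝ) ^ (bl adj (range a) W T).card with hs
  have hs0 : 0 < s := sum_pos (fun _ _ => by positivity) ⟨∅, empty_mem_powerset _⟩
  have h5 : (range a ∩ W).card ≤ a := by
    have := card_le_card (inter_subset_left : range a ∩ W ⊆ range a)
    rwa [card_range] at this
  have h6 := card_inter_add (range a) W
  have h6' : (W.card : ℝ) = (range a ∩ W).card + (W \ range a).card := by exact_mod_cast h6.symm
  unfold Bounds.logZ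
  have h7 : ∑ S, (2 : ℝ) ^ (-(FC n a adj κ (range a) W S : ℝ)) =
      2 ^ (a - (range a ∩ W).card) * s := h2
  rw [h4, h7, Real.logb_mul (by positivity) hs0.ne', Real.logb_mul (by positivity) hs0.ne',
    Real.logb_pow, Real.logb_pow, Real.logb_self_eq_one (by norm_num), mul_one, mul_one,
    Nat.cast_sub h5, h6']
  ring

/-- the right vertices with a selected neighbour -/
theorem bl_eq (h : Cov n a adj (range a)) (W : Finset ℕ) (S : Finset (Fin (range a).card)) :
    bl adj (range a) W (SubBisC.sel a (range a) W (toN S)) =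
      S.biUnion fun v : Fin (range a).card => nbW n a adj W v := by
  ext u
  rw [mem_bl, mem_biUnion, sel_range']
  constructor
  · rintro ⟨⟨h1, h2⟩, v, hv, hvu⟩
    obtain ⟨hv1, hv2⟩ := mem_inter.1 hv
    obtain ⟨h3, h4⟩ := mem_toN.1 hv1
    refine ⟨⟨v, h3⟩, h4, ?_⟩
    unfold nbW
    rw [if_pos (mem_inter.1 hv2).2, mem_filter, mem_range]
    rw [mem_range] at h2
    have h5 : u < n := by
      rw [h.symm] at hvu
      exact h.lt _ _ hvu
    exact ⟨h5, by omega, h1, hvu⟩
  · rintro ⟨v, hv, hu⟩
    unfold nbW at hu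
    split_ifs at hu with h1
    · obtain ⟨-, h3, h4, h5⟩ := mem_filter.1 hu
      refine ⟨⟨h4, fun h6 => ?_⟩, v, ?_, h5⟩
      · have := mem_range.1 h6
        omega
      · have h6 : (v : ℕ) < a := v.2.trans_eq (card_range a)
        exact mem_inter.2 ⟨mem_toN.2 ⟨v.2, hv⟩, mem_inter.2 ⟨mem_range.2 h6, h1⟩⟩
    · exact absurd hu (notMem_empty u)

end CovG

open CovG

/-- **The set function of all left vertices is a coverage function.** -/
theorem FC_cov (h : Cov n a adj (range a)) (hκ : n ≤ κ)
    (W : Finset ℕ) : FC n a adj κ (range a) W =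
      cvF fun v : Fin (range a).card => nbW n a adj W v := by
  funext S
  unfold FC cvF
  rw [cnC_eq_cm, cm_cov h hκ W (sel_subset W _), bl_eq h]

/-- **The partition function.** -/
theorem logb_ind (h : Cov n a adj (range a)) (W : Finset ℕ) :
    Real.logb 2 (ind adj W) = (W.card : ℝ) - a +
      Bounds.logZ (cvF fun v : Fin (range a).card => nbW n a adj W v) := by
  rw [← FC_cov h (le_refl n) W]
  exact logb_ind_FC h (le_refl n) W

/-- the Gibbs mean of the few vertices, for every `d` and `sub` -/
theorem EG_fewC (h : Cov n a adj (range a)) (d : ℕ) (sub : ℕ → ℕ → Bool) (W : Finset ℕ) :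
    SubBisB.EG (cvF fun v : Fin (range a).card => nbW n a adj W v)
      (fun S => ((fewV a d adj sub W (toN S ∩ W)).card : ℝ)) = EB a d adj sub W := by
  have h1 := EG_FC h (le_refl n) W fun T => ((fewV a d adj sub W T).card : ℝ)
  rw [FC_cov h (le_refl n) W] at h1
  have h2 : (fun S : Finset (Fin (range a).card) => ((fewV a d adj sub W (toN S ∩ W)).card : ℝ)) =
      fun S => ((fewV a d adj sub W (SubBisC.sel a (range a) W (toN S))).card : ℝ) := by
    funext S
    have h3 : toN S ⊆ range a :=
      (toN_subset S).trans (subset_of_eq (congrArg range (card_range a)))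
    rw [sel_range', ← inter_assoc, inter_eq_left.2 h3]
  have h4 : ∀ I ∈ indF adj W, ((fewV a d adj sub W (I ∩ range a)).card : ℝ) =
      ((fewV a d adj sub W I).card : ℝ) := by
    intro I _
    have h5 : fewV a d adj sub W (I ∩ range a) = fewV a d adj sub W I := by
      unfold fewV
      refine filter_congr fun b _ => ?_
      have e1 : (I ∩ range a).filter (fun v => v < a ∧ sub v b = true) =
          I.filter fun v => v < a ∧ sub v b = true := by
        ext v
        rw [mem_filter, mem_filter, mem_inter, mem_range]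
        tauto
      have e2 : (∃ v ∈ I ∩ range a, v < a ∧ adj v b = true) ↔
          ∃ v ∈ I, v < a ∧ adj v b = true := by
        constructor
        · rintro ⟨v, hv, h6⟩
          exact ⟨v, (mem_inter.1 hv).1, h6⟩
        · rintro ⟨v, hv, h6, h7⟩
          exact ⟨v, mem_inter.2 ⟨hv, mem_range.2 h6⟩, h6, h7⟩
      rw [e1, e2]
    rw [h5]
  rw [h2, h1, sum_congr rfl h4]
  rfl

/-- **The Gibbs mean of the few vertices.** -/
theorem EG_few {d : ℕ} {sub : ℕ → ℕ → Bool} (h : Rg n a d adj sub) (W : Finset ℕ) :
    SubBisB.EG (cvF fun v : Fin (range a).card => nbW n a adj W v)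
      (fun S => ((fewV a d adj sub W (toN S ∩ W)).card : ℝ)) = EB a d adj sub W :=
  EG_fewC h.cov d sub W

end Pool.Agent.Lib.SubBisG
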