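import Pool.Agent.Lib.SubBisG.Defs
import Pool.Agent.Lib.SubBisG.FreeG

/-!
# SubBisG.CvF: coverage functions
-/

set_option autoImplicit false

open scoped BigOperators

namespace Pool.Agent.Lib.SubBisG

open Finset SubBis Pool.Agent.Lib.SubBisX.Core Pool.Agent.Lib.SubBisX.Node
open Pool.Agent.Lib.SubBisX
open Pool.Agent.Lib.SubBisB (ZF EG pv Rb Rp psi)

variable {n k m B R : ℕ}

theorem subm_cvF (Nb : Fin k → Finset ℕ) : FCS.Subm (cvF Nb) := by
  intro S T
  unfold cvF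
  have h1 : (S ∪ T).biUnion Nb = S.biUnion Nb ∪ T.biUnion Nb := by
    ext x; simp only [mem_biUnion, mem_union]; constructor
    · rintro ⟨v, hv | hv, hx⟩
      · exact Or.inl ⟨v, hv, hx⟩
      · exact Or.inr ⟨v, hv, hx⟩
    · rintro (⟨v, hv, hx⟩ | ⟨v, hv, hx⟩)
      · exact ⟨v, Or.inl hv, hx⟩
      · exact ⟨v, Or.inr hv, hx⟩
  have h2 : (S ∩ T).biUnion Nb ⊆ S.biUnion Nb ∩ T.biUnion Nb := by
    intro x hx
    obtain ⟨v, hv, hx⟩ := mem_biUnion.1 hx
    exact mem_inter.2 ⟨mem_biUnion.2 ⟨v, (mem_inter.1 hv).1, hx⟩,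
      mem_biUnion.2 ⟨v, (mem_inter.1 hv).2, hx⟩⟩
  have h3 := card_le_card h2
  have h4 := card_union_add_card_inter (S.biUnion Nb) (T.biUnion Nb)
  rw [h1]
  omega

theorem cvF_empty (Nb : Fin k → Finset ℕ) : cvF Nb ∅ = 0 := by
  simp [cvF]

theorem cvF_mono (Nb : Fin k → Finset ℕ) (S : Finset (Fin k)) (v : Fin k) :
    cvF Nb S ≤ cvF Nb (insert v S) := by
  unfold cvF
  have := card_le_card (biUnion_subset_biUnion_of_subset_left Nb (subset_insert v S))
  omega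

theorem cvF_inc (Nb : Fin k → Finset ℕ) {κ : ℕ} (h : ∀ v, (Nb v).card ≤ κ) (S : Finset (Fin k))
    (v : Fin k) : |cvF Nb (insert v S) - cvF Nb S| ≤ κ := by
  rw [abs_of_nonneg (sub_nonneg.2 (cvF_mono Nb S v))]
  unfold cvF
  rw [biUnion_insert]
  have := card_union_le (Nb v) (S.biUnion Nb)
  have := h v
  omega

theorem freeG_cvF (Nb : Fin k → Finset ℕ) (bet : Fin k → Fin B) (v : Fin k)
    (z : Finset (Fin k)) :
    FreeG (cvF Nb) bet v z ↔ Nb v ⊆ (z ∩ Rb bet v).biUnion Nb := by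
  unfold FreeG cvF
  rw [biUnion_insert, Nat.cast_inj]
  constructor
  · intro h
    have h1 := eq_of_subset_of_card_le
      (subset_union_right : (z ∩ Rb bet v).biUnion Nb ⊆ Nb v ∪ (z ∩ Rb bet v).biUnion Nb) h.le
    rw [h1]
    exact subset_union_left
  · intro h
    rw [union_eq_right.2 h]

end Pool.Agent.Lib.SubBisG
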