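import Pool.Agent.Lib.SubBisF.MachSeed
import Pool.Agent.Lib.SubBisC.CSys
import Pool.Agent.Lib.P7sG.FinalS

/-!
# Regular bipartite graphs (MP_a7c826_lc): definitions

The method is the one of SubBisF (pool of digit vectors, random labels) with other parameters. The
comparator (FreeG.lean) smooths the decision of a site only if the site is not free.
-/

set_option autoImplicit false

open scoped BigOperators

namespace Pool.Agent.Lib.SubBisG

open Finset Pool.Agent.Lib.SubBisX

variable {k : ℕ}

/-! ### Coverage functions -/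

/-- the number of points covered by `S` -/
def cvF (Nb : Fin k → Finset ℕ) (S : Finset (Fin k)) : ℤ := ((S.biUnion Nb).card : ℤ)

/-! ### Parameters -/

/-- the quality of the digits; also the factor `c` -/
def QG (n : ℕ) : ℕ := 8 * (n + 1)

/-- binary digits of the random numbers -/
def muG (n : ℕ) : ℕ := ParA.mu (QG n)

/-- the bound for the increments -/
def kapG (n : ℕ) : ℕ := n + 1

/-- the bound for the steps -/
def GmG (n : ℕ) : ℕ := QG n * (muG n + kapG n)

/-- the degree -/
def dgG (n q : ℕ) : ℕ := 16 * q * muG n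

/-- `2 ^ bG` is the square root of the number of labels -/
def bG (n : ℕ) : ℕ := (8 * (n + 1) ^ 2).size

/-- binary digits of the labels -/
def lamG (n : ℕ) : ℕ := 2 * bG n

/-- binary digits of the indices in the pool -/
def rhoG (n : ℕ) : ℕ := lamG n + (muG n + 1) + 2 * (GmG n + 2 * QG n).size + 1

/-- the scale of the vectors -/
def MMG (n q : ℕ) : ℕ := GmG n ^ 2 * (2 ^ lamG n + 1) ^ dgG n q

/-- the number of steps -/
def NNG (n q : ℕ) : ℕ := MMG n q * (2 ^ muG n * (2 ^ rhoG n) ^ dgG n q)

/-- the denominator of a value -/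
def DDG (n q : ℕ) : ℕ := NNG n q * MMG n q * QG n

/-- the number of copies -/
def KG (n : ℕ) : ℕ := 8 * (n * (muG n + kapG n) + 1) ^ 2 * (2 * n + 3)

/-- the random numbers of one copy -/
abbrev CpG (k n q : ℕ) : Type :=
  SubBisF.Mach.CpF k (2 ^ muG n) (2 ^ lamG n) (2 ^ rhoG n) (NNG n q)

/-- the random value of a copy -/
def VG (k n q : ℕ) (F : Finset (Fin k) → ℤ) (p : CpG k n q) : ℤ :=
  SubBisF.Mach.VF (QG n) (MMG n q) (dgG n q) F p

/-! ### The graph -/

open Pool.Agent.Lib.SubBisC Pool.Agent.Lib.Pa7c826 Pool.Agent.Lib.Pa7c826t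

/-- the points of the site `v` in the induced subgraph `W`: the numbers `≥ a` in `W` adjacent to the
vertex `v` of `W` -/
def nbW (n a : ℕ) (adj : ℕ → ℕ → Bool) (W : Finset ℕ) (v : ℕ) : Finset ℕ :=
  if v ∈ W then (range n).filter fun b => a ≤ b ∧ b ∈ W ∧ adj v b = true else ∅

/-- the vertices `≥ a` of `W` with a neighbour in `T` and fewer than `d / 16` neighbours in `T` in
the graph `sub` -/
def fewV (a d : ℕ) (adj sub : ℕ → ℕ → Bool) (W T : Finset ℕ) : Finset ℕ :=
  W.filter fun b => a ≤ b ∧ (∃ v ∈ T, v < a ∧ adj v b = true) ∧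
    16 * (T.filter fun v => v < a ∧ sub v b = true).card < d

/-- the independent subsets of `W` -/
def indF (adj : ℕ → ℕ → Bool) (W : Finset ℕ) : Finset (Finset ℕ) :=
  W.powerset.filter fun I => ∀ u ∈ I, ∀ v ∈ I, adj u v = false

/-- the sum of `2 ^ (η |few|)` over the independent subsets of `W` -/
noncomputable def PW (a d : ℕ) (adj sub : ℕ → ℕ → Bool) (η : ℝ) (W : Finset ℕ) : ℝ :=
  ∑ I ∈ indF adj W, (2 : ℝ) ^ (η * (fewV a d adj sub W I).card)

/-- the mean of `|few|` over the independent subsets of `W` -/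
noncomputable def EB (a d : ℕ) (adj sub : ℕ → ℕ → Bool) (W : Finset ℕ) : ℝ :=
  (∑ I ∈ indF adj W, ((fewV a d adj sub W I).card : ℝ)) / (indF adj W).card

/-- The left vertices are the numbers `< a`, the right vertices the numbers from `a` to `n`. `sub` is
a subgraph of `adj` in which the left vertices have degree `d` and the right vertices have degree at
most `d`. -/
structure Rg (n a d : ℕ) (adj sub : ℕ → ℕ → Bool) : Prop where
  cov : Cov n a adj (range a)
  pos : 1 ≤ d
  le : ∀ u v, sub u v = true → adj u v = true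
  degL : ∀ v < a, ((range n).filter fun b => sub v b = true).card = d
  degR : ∀ b, ((range a).filter fun v => sub v b = true).card ≤ d

/-- the estimate of the binary logarithm of the number of independent subsets of `W` -/
def esG (n a : ℕ) (adj : ℕ → ℕ → Bool) (q : ℕ) (s : Fin (KG n) → CpG (range a).card n q)
    (W : Finset ℕ) : ℕ :=
  eC (range a) W ((∑ k : Fin (KG n), VG (range a).card n q
      (FC n a adj (kapG n) (range a) W) (s k)) -
    ((KG n * DDG n q : ℕ) : ℤ) * FC n a adj (kapG n) (range a) W ∅) (KG n * DDG n q)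

/-- The estimates are good: upper bound pointwise, lower bound in the mean. -/
structure GoodG (n a d : ℕ) (adj sub : ℕ → ℕ → Bool) (δ η : ℝ) (es : Finset ℕ → ℕ) :
    Prop where
  up : ∀ W ⊆ range (n + n), (es W : ℝ) ≤ Real.logb 2 (ind adj W) + δ
  low : ∀ W ⊆ range (n + n),
    Real.logb 2 (ind adj W) - δ - η * EB a d adj sub W ≤ es W
  leaf : ∀ W ⊆ range (n + n), W ∩ range a = ∅ → ind adj W = 2 ^ es W

/-! ### The machine -/

open Pool.Agent.Lib.P7sG Pool.Agent.Lib.SubBisX.Prob

/-- the number of bits of the seed -/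
def offG (k n q : ℕ) : ℕ :=
  SubBisF.Mach.nbF (muG n) (rhoG n) (lamG n) k (NNG n q) (KG n)

/-- the seed read off a stream of bits -/
def decG (k n q : ℕ) (b : ℕ → Bool) : Fin (KG n) → CpG k n q :=
  SubBisF.Mach.decF (muG n) (rhoG n) (lamG n) k (NNG n q) (KG n) b

/-- the estimate of the tape -/
def esT (n a : ℕ) (adj : ℕ → ℕ → Bool) (q : ℕ) (l : List Bool) (W : Finset ℕ) : ℕ :=
  esG n a adj q (decG (range a).card n q (str l)) W

/-- the final size of the population -/
def cntT (n a : ℕ) (adj : ℕ → ℕ → Bool) (q K cap : ℕ) (l : List Bool) : ℕ :=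
  (runC (chC n (range a) adj) (fun X => esT n a adj q l X.2) cap
    (coinT l (offG (range a).card n q) cap (10 * n + 5)) (List.replicate K (0, range (n + n)))
      (range a).card).length

/-- the machine's answer -/
noncomputable def ansG (n a : ℕ) (adj : ℕ → ℕ → Bool) (q t : ℕ) (l : List Bool) : List Bool :=
  outN (kapS t + n) (esT n a adj q l (range (n + n)))
    (cntT n a adj q (2 ^ kapS t) (capS t) l)

/-- the number of random bits needed -/
def needG (n a q t : ℕ) : ℕ :=
  offG (range a).card n q + (range a).card * capS t * 2 * (10 * n + 5)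

/-- the quality the machine uses -/
def qG (n t : ℕ) : ℕ := lg t / (9000 * (n + 1).size ^ 2)

/-- the bound for the errors -/
noncomputable def dlG (n a d q : ℕ) : ℝ :=
  4 + 2 * ((a : ℝ) / d) * Real.log (n + 1) / (q : ℝ) ^ 2

/-- the weight of the vertices with few neighbours -/
noncomputable def etG (q : ℕ) : ℝ := 1 / (8 * (q : ℝ) ^ 2)

end Pool.Agent.Lib.SubBisG
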