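import Pool.Agent.Lib.SubBisG.FewG

/-!
# SubBisG.FewH (MP_a7c826_lc, Theorem T with defect): the few-bound if the sites have `H`-degree `≤ d`

As in FewG, but every site is in at most `d` of the sets `NH u`. Every missing incidence costs a
factor `2 ^ (1 / d)`.

PROOF. Add a set `{v}` with the constant function `1` for every missing incidence of the site `v`.
-/

set_option autoImplicit false

open scoped BigOperators

namespace Pool.Agent.Lib.SubBisG

open Finset

variable {ι κ : Type*} [DecidableEq ι]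

open FewG (cov few)

namespace FewH

/-- the missing incidences -/
def dum (V : Finset ι) (R : Finset κ) (NH : κ → Finset ι) (d : ℕ) : Finset (ι × ℕ) :=
  (V ×ˢ range d).filter fun p => p.2 < d - (R.filter fun u => p.1 ∈ NH u).card

/-- the sets -/
def Ns (NH : κ → Finset ι) : κ ⊕ (ι × ℕ) → Finset ι
  | Sum.inl u => NH u
  | Sum.inr p => {p.1}

/-- the functions -/
noncomputable def Ph (NH : κ → Finset ι) (d : ℕ) : κ ⊕ (ι × ℕ) → Finset ι → ℝ
  | Sum.inl u, A => FewG.fac (NH u) d A ^ d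
  | Sum.inr _, _ => 1

theorem card_fiber (V : Finset ι) (R : Finset κ) (NH : κ → Finset ι) (d : ℕ) {v : ι} (hv : v ∈ V) :
    ((dum V R NH d).filter fun p => v = p.1).card = d - (R.filter fun u => v ∈ NH u).card := by
  have h : (dum V R NH d).filter (fun p => v = p.1) =
      (range (d - (R.filter fun u => v ∈ NH u).card)).map
        ⟨fun i => (v, i), fun i j h => (Prod.mk.inj h).2⟩ := by
    ext ⟨w, i⟩
    simp only [dum, mem_filter, mem_product, mem_range, mem_map, Function.Embedding.coeFn_mk,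
      Prod.mk.injEq]
    constructor
    · rintro ⟨⟨⟨_, _⟩, h3⟩, rfl⟩
      exact ⟨i, h3, rfl, rfl⟩
    · rintro ⟨j, hj, rfl, rfl⟩
      exact ⟨⟨⟨hv, by omega⟩, hj⟩, rfl⟩
  rw [h, card_map, card_range]

theorem card_dum (V : Finset ι) (R : Finset κ) (NH : κ → Finset ι) {d : ℕ}
    (hdeg : ∀ v ∈ V, (R.filter fun u => v ∈ NH u).card ≤ d) :
    ((dum V R NH d).card : ℝ) =
      V.card * d - ∑ v ∈ V, ((R.filter fun u => v ∈ NH u).card : ℝ) := by
  have h1 : (dum V R NH d).card = ∑ v ∈ V, ((dum V R NH d).filter fun p => p.1 = v).card :=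
    card_eq_sum_card_fiberwise fun p hp => (mem_product.1 (mem_filter.1 hp).1).1
  rw [h1]
  push_cast
  have h2 : ∀ v ∈ V, (((dum V R NH d).filter fun p => p.1 = v).card : ℝ) =
      d - ((R.filter fun u => v ∈ NH u).card : ℝ) := by
    intro v hv
    have h3 := card_fiber V R NH d hv
    have h4 : (dum V R NH d).filter (fun p => p.1 = v) =
        (dum V R NH d).filter fun p => v = p.1 := filter_congr fun p _ => eq_comm
    rw [h4, h3, Nat.cast_sub (hdeg v hv)]
  rw [sum_congr rfl h2, sum_sub_distrib, sum_const, nsmul_eq_mul]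

theorem sum_card_le (V : Finset ι) (R : Finset κ) (NH : κ → Finset ι)
    (hV : ∀ u ∈ R, NH u ⊆ V) :
    ∑ u ∈ R, (NH u).card = ∑ v ∈ V, (R.filter fun u => v ∈ NH u).card := by
  have h1 : ∀ u ∈ R, (NH u).card = ∑ v ∈ V, if v ∈ NH u then 1 else 0 := by
    intro u hu
    rw [← card_filter]
    congr 1
    ext v
    rw [mem_filter]
    exact ⟨fun h => ⟨hV u hu h, h⟩, fun h => h.2⟩
  rw [sum_congr rfl h1, sum_comm]
  refine sum_congr rfl fun v _ => ?_
  rw [card_filter]

end FewH

open FewH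

/-- **The few-bound with defect.** -/
theorem few_expD (V : Finset ι) (R : Finset κ) (N NH : κ → Finset ι) {d : ℕ} (hd : 1 ≤ d)
    (hNH : ∀ u ∈ R, NH u ⊆ N u) (hV : ∀ u ∈ R, NH u ⊆ V)
    (hdeg : ∀ v ∈ V, (R.filter fun u => v ∈ NH u).card ≤ d) (hR : ∀ u ∈ R, (NH u).card ≤ d) :
    ∑ A ∈ V.powerset, (2 : ℝ) ^ ((few R N NH d A : ℝ) / 4) * 2 ^ (-(cov R N A : ℝ)) ≤
      2 ^ (3 * (V.card : ℝ) / d +
        (V.card - (∑ v ∈ V, ((R.filter fun u => v ∈ NH u).card : ℝ)) / d)) := by
  classical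
  have hd0 : (0 : ℝ) < d := by exact_mod_cast hd
  set Rs : Finset (κ ⊕ (ι × ℕ)) := R.disjSum (dum V R NH d) with hRs
  have h1 := Pool.Agent.Lib.Pa7c826t.finner hd Rs V (Ns NH) (Ph NH d)
    (by
      intro x hx
      rcases x with u | p
      · exact hV u (inl_mem_disjSum.1 hx)
      · have h2 := inr_mem_disjSum.1 hx
        intro w hw
        rw [Ns, mem_singleton] at hw
        rw [hw]
        exact (mem_product.1 (mem_filter.1 h2).1).1)
    (by
      intro x _ B _
      rcases x with u | p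
      · exact pow_nonneg (FewG.fac_nonneg _ _ _) _
      · exact zero_le_one)
    (by
      intro x _ B _
      rcases x with u | p
      · show FewG.fac (NH u) d B ^ d = FewG.fac (NH u) d (B ∩ NH u) ^ d
        congr 1
        unfold FewG.fac
        rw [inter_comm B, ← inter_assoc, inter_self]
      · rfl)
    (by
      intro v hv
      have e1 : Rs.filter (fun x => v ∈ Ns NH x) =
          (R.filter fun u => v ∈ NH u).disjSum ((dum V R NH d).filter fun p => v = p.1) := by
        ext x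
        rcases x with u | p
        · rw [mem_filter, inl_mem_disjSum, inl_mem_disjSum, mem_filter]
          rfl
        · rw [mem_filter, inr_mem_disjSum, inr_mem_disjSum, mem_filter]
          show _ ∧ v ∈ ({p.1} : Finset ι) ↔ _
          rw [mem_singleton]
      rw [e1, card_disjSum, card_fiber V R NH d hv]
      have := hdeg v hv
      omega)
  have e1 : ∀ A, ∏ x ∈ Rs, Ph NH d x A ^ ((1 : ℝ) / d) = ∏ u ∈ R, FewG.fac (NH u) d A := by
    intro A
    rw [hRs, prod_disjSum]
    have e2 : ∏ p ∈ dum V R NH d, Ph NH d (Sum.inr p) A ^ ((1 : ℝ) / d) = 1 := by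
      refine prod_eq_one fun p _ => ?_
      show (1 : ℝ) ^ ((1 : ℝ) / d) = 1
      exact Real.one_rpow _
    rw [e2, mul_one]
    refine prod_congr rfl fun u _ => ?_
    show (FewG.fac (NH u) d A ^ d) ^ ((1 : ℝ) / d) = _
    rw [one_div, Real.pow_rpow_inv_natCast (FewG.fac_nonneg _ _ _) (by omega)]
  simp only [e1] at h1
  refine ((sum_le_sum fun A _ => FewG.pointwise R N NH d hNH A).trans h1).trans ?_
  rw [hRs, prod_disjSum]
  have h2 : ∀ u ∈ R, (∑ B ∈ (NH u).powerset, FewG.fac (NH u) d B ^ d) ^ ((1 : ℝ) / d) ≤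
      Real.exp (2 * (NH u).card / d * (1 / d)) := by
    intro u hu
    have h3 := FewG.sum_fac_pow (NH u) hd (hR u hu)
    have h4 : ∑ B ∈ (NH u).powerset, FewG.fac (NH u) d B ^ d ≤
        Real.exp (2 * (NH u).card / d) :=
      h3.trans (by rw [add_comm]; exact Real.add_one_le_exp _)
    rw [Real.exp_mul]
    exact Real.rpow_le_rpow (sum_nonneg fun B _ => pow_nonneg (FewG.fac_nonneg _ _ _) _) h4
      (by positivity)
  have h3 : ∏ u ∈ R, (∑ B ∈ (Ns NH (Sum.inl u)).powerset, Ph NH d (Sum.inl u) B) ^ ((1 : ℝ) / d) ≤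
      2 ^ (3 * (V.card : ℝ) / d) := by
    refine (prod_le_prod (fun u _ => Real.rpow_nonneg
      (sum_nonneg fun B _ => pow_nonneg (FewG.fac_nonneg _ _ _) _) _) h2).trans ?_
    rw [← Real.exp_sum, Real.rpow_def_of_pos (by norm_num)]
    apply Real.exp_le_exp.2
    have h5 : ((∑ u ∈ R, (NH u).card : ℕ) : ℝ) ≤ V.card * d := by
      rw [sum_card_le V R NH hV]
      have h6 : ∑ v ∈ V, (R.filter fun u => v ∈ NH u).card ≤ V.card * d := by
        rw [← smul_eq_mul]
        exact sum_le_card_nsmul V _ d hdeg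
      exact_mod_cast h6
    push_cast at h5
    have h7 := Real.log_two_gt_d9
    have h8 : (0 : ℝ) ≤ V.card / d := by positivity
    calc ∑ u ∈ R, 2 * ((NH u).card : ℝ) / d * (1 / d)
        = (∑ u ∈ R, ((NH u).card : ℝ)) * (2 / d * (1 / d)) := by
          rw [sum_mul]
          refine sum_congr rfl fun u _ => ?_
          ring
      _ ≤ (V.card * d) * (2 / d * (1 / d)) := mul_le_mul_of_nonneg_right h5 (by positivity)
      _ = 2 * (V.card / d) := by field_simp
      _ ≤ (3 * Real.log 2) * (V.card / d) := mul_le_mul_of_nonneg_right (by linarith) h8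
      _ = Real.log 2 * (3 * V.card / d) := by ring
  have h4 : ∏ p ∈ dum V R NH d,
      (∑ B ∈ (Ns NH (Sum.inr p : κ ⊕ (ι × ℕ))).powerset, Ph NH d (Sum.inr p) B) ^ ((1 : ℝ) / d) =
      2 ^ (V.card - (∑ v ∈ V, ((R.filter fun u => v ∈ NH u).card : ℝ)) / d) := by
    have e2 : ∀ p ∈ dum V R NH d,
        (∑ B ∈ (Ns NH (Sum.inr p : κ ⊕ (ι × ℕ))).powerset, Ph NH d (Sum.inr p) B) ^ ((1 : ℝ) / d) =
        (2 : ℝ) ^ ((1 : ℝ) / d) := by
      intro p _
      congr 1
      show ∑ B ∈ ({p.1} : Finset ι).powerset, (1 : ℝ) = 2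
      rw [sum_const, card_powerset, card_singleton]
      norm_num
    rw [prod_congr rfl e2, prod_const, ← Real.rpow_natCast, ← Real.rpow_mul (by norm_num)]
    congr 1
    rw [card_dum V R NH hdeg]
    field_simp
  rw [h4, Real.rpow_add (by norm_num)]
  exact mul_le_mul_of_nonneg_right h3 (by positivity)

/-- **The few-bound with defect, power mean form.** -/
theorem few_exp_etaD (V : Finset ι) (R : Finset κ) (N NH : κ → Finset ι) {d : ℕ} (hd : 1 ≤ d)
    (hNH : ∀ u ∈ R, NH u ⊆ N u) (hV : ∀ u ∈ R, NH u ⊆ V)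
    (hdeg : ∀ v ∈ V, (R.filter fun u => v ∈ NH u).card ≤ d) (hR : ∀ u ∈ R, (NH u).card ≤ d)
    {η : ℝ} (h0 : 0 ≤ η) (h1 : η ≤ 1 / 4) :
    ∑ A ∈ V.powerset, (2 : ℝ) ^ (η * few R N NH d A) * 2 ^ (-(cov R N A : ℝ)) ≤
      2 ^ (12 * η * ((V.card : ℝ) / d +
        (V.card - (∑ v ∈ V, ((R.filter fun u => v ∈ NH u).card : ℝ)) / d))) *
          ∑ A ∈ V.powerset, (2 : ℝ) ^ (-(cov R N A : ℝ)) := by
  have hd0 : (0 : ℝ) < d := by exact_mod_cast hd
  set D : ℝ := V.card - (∑ v ∈ V, ((R.filter fun u => v ∈ NH u).card : ℝ)) / d with hD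
  have hD0 : 0 ≤ D := by
    rw [hD, sub_nonneg, div_le_iff₀ hd0]
    have h6 : ∑ v ∈ V, (R.filter fun u => v ∈ NH u).card ≤ V.card * d := by
      rw [← smul_eq_mul]
      exact sum_le_card_nsmul V _ d hdeg
    exact_mod_cast h6
  have h2 := FewG.power_mean V.powerset (fun A => (2 : ℝ) ^ (-(cov R N A : ℝ)))
    (fun A => (2 : ℝ) ^ ((few R N NH d A : ℝ) / 4)) (fun _ _ => by positivity) (by
      have h3 : (2 : ℝ) ^ (-(cov R N ∅ : ℝ)) ≤ ∑ A ∈ V.powerset, (2 : ℝ) ^ (-(cov R N A : ℝ)) :=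
        single_le_sum (f := fun A => (2 : ℝ) ^ (-(cov R N A : ℝ))) (fun A _ => by positivity)
          (empty_mem_powerset V)
      have h4 : cov R N ∅ = 0 := by simp [cov]
      rw [h4] at h3
      simpa using h3) (fun _ _ => by positivity) (θ := 4 * η) (by linarith) (by linarith)
    (few_expD V R N NH hd hNH hV hdeg hR) (by positivity)
  have e1 : ∀ A, ((2 : ℝ) ^ ((few R N NH d A : ℝ) / 4)) ^ (4 * η) = 2 ^ (η * few R N NH d A) := by
    intro A
    rw [← Real.rpow_mul (by norm_num)]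
    congr 1
    ring
  rw [← hD, ← Real.rpow_mul (by norm_num)] at h2
  simp only [e1] at h2
  refine h2.trans (mul_le_mul_of_nonneg_right ?_ (sum_nonneg fun A _ => by positivity))
  apply Real.rpow_le_rpow_of_exponent_le (by norm_num)
  have h5 : (0 : ℝ) ≤ V.card / d := by positivity
  have h6 : (3 * (V.card : ℝ) / d + D) * (4 * η) =
      12 * η * (V.card / d + D) - 8 * (η * D) := by ring
  rw [h6]
  have : 0 ≤ η * D := mul_nonneg h0 hD0
  linarith

end Pool.Agent.Lib.SubBisG
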