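import Pool.Agent.Lib.SubBisG.FewInd
import Pool.Agent.Lib.SubBisG.FewH

/-!
# SubBisG.FewIndH (MP_a7c826_lc, Theorem T with defect): the few-bound for independent sets

As FewInd, for a subgraph `adjH` in which all degrees are at most `d`. The exponent is
`a / d + (a - e / d)`, where `e` is the number of edges of `adjH`.
-/

set_option autoImplicit false

open scoped BigOperators

namespace Pool.Agent.Lib.SubBisG

open Finset Pool.Agent.Lib.Pa7c826

open FewInd

/-- the effective size `a / d + (a - e / d)` of the graph with the subgraph `adjH` with `e` edges -/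
noncomputable def xH (n a d : ℕ) (adjH : ℕ → ℕ → Bool) : ℝ :=
  (a : ℝ) / d + (a - (∑ v ∈ range a, (((range n).filter fun b => adjH v b = true).card : ℝ)) / d)

/-- **The few-bound for independent sets, with defect.** -/
theorem few_indD {adj adjH : ℕ → ℕ → Bool} {a n d : ℕ} (hs : ∀ u v, adj u v = adj v u)
    (hbip : ∀ u v, adj u v = true → (u < a ↔ ¬ v < a)) (ha : a ≤ n)
    (hsub : ∀ u v, adjH u v = true → adj u v = true) (hd : 1 ≤ d)
    (hL : ∀ v < a, ((range n).filter fun b => adjH v b = true).card ≤ d)
    (hR : ∀ b, a ≤ b → b < n → ((range a).filter fun v => adjH v b = true).card ≤ d)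
    {η : ℝ} (h0 : 0 ≤ η) (h1 : η ≤ 1 / 4) :
    ∑ I ∈ (range n).powerset.filter (fun I => ∀ u ∈ I, ∀ v ∈ I, adj u v = false),
      (2 : ℝ) ^ (η * fewI adj adjH a n d (range n) I) ≤
      2 ^ (12 * η * xH n a d adjH) * ind adj (range n) := by
  have e1 : (ind adj (range n) : ℝ) =
      ∑ I ∈ (range n).powerset.filter (fun I => ∀ u ∈ I, ∀ v ∈ I, adj u v = false), (1 : ℝ) := by
    rw [sum_const, nsmul_eq_mul, mul_one]
    rfl
  rw [e1, sum_ind hs hbip ha (fun _ => 1) (fun _ => 1) (fun _ _ _ => rfl),
    sum_ind hs hbip ha (fun I => (2 : ℝ) ^ (η * fewI adj adjH a n d (range n) I))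
      (fun A => (2 : ℝ) ^ (η * FewG.few ((range n).filter fun b => ¬ b < a)
        (fun b => (range a).filter fun v => adj v b = true)
        (fun b => (range a).filter fun v => adjH v b = true) d A))
      (fun I A hA => by rw [few_eq hbip hsub hA])]
  have hdeg : ∀ v ∈ range a, (((range n).filter fun b => ¬ b < a).filter fun b =>
      v ∈ (range a).filter fun v => adjH v b = true) =
      (range n).filter fun b => adjH v b = true := by
    intro v hv
    ext b
    simp only [mem_filter, mem_range]
    constructor
    · rintro ⟨⟨h3, _⟩, _, h6⟩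
      exact ⟨h3, h6⟩
    · rintro ⟨h3, h6⟩
      have hva := mem_range.1 hv
      exact ⟨⟨h3, (hbip v b (hsub v b h6)).1 hva⟩, hva, h6⟩
  have h2 := few_exp_etaD (range a) ((range n).filter fun b => ¬ b < a)
    (fun b => (range a).filter fun v => adj v b = true)
    (fun b => (range a).filter fun v => adjH v b = true) hd
    (fun b _ v hv => by
      rw [mem_filter] at hv ⊢
      exact ⟨hv.1, hsub _ _ hv.2⟩)
    (fun b _ => filter_subset _ _)
    (fun v hv => by
      rw [hdeg v hv]
      exact hL v (mem_range.1 hv))
    (fun b hb => by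
      rw [mem_filter, mem_range] at hb
      exact hR b (by omega) hb.1) h0 h1
  have h3 : ∑ v ∈ range a, (((((range n).filter fun b => ¬ b < a).filter fun b =>
      v ∈ (range a).filter fun v => adjH v b = true).card : ℕ) : ℝ) =
      ∑ v ∈ range a, (((range n).filter fun b => adjH v b = true).card : ℝ) :=
    sum_congr rfl fun v hv => by rw [hdeg v hv]
  rw [h3, card_range] at h2
  simp only [one_mul]
  calc _ ≤ (2 : ℝ) ^ ((range n).filter fun b => ¬ b < a).card *
        (2 ^ (12 * η * xH n a d adjH) * ∑ A ∈ (range a).powerset,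
          (2 : ℝ) ^ (-(FewG.cov ((range n).filter fun b => ¬ b < a)
            (fun b => (range a).filter fun v => adj v b = true) A : ℝ))) :=
        mul_le_mul_of_nonneg_left h2 (by positivity)
    _ = _ := by ring

end Pool.Agent.Lib.SubBisG
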