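import Pool.Agent.Lib.SubBisG.CovG
import Pool.Agent.Lib.SubBisG.FewIndH

/-!
# SubBisG.DefsH (MP_a7c826_lc, Theorem T with defect): graphs with a subgraph of bounded degree
-/

set_option autoImplicit false

open scoped BigOperators

namespace Pool.Agent.Lib.SubBisG

open Finset Pool.Agent.Lib.Pa7c826 Pool.Agent.Lib.Pa7c826t Pool.Agent.Lib.SubBisX
open Pool.Agent.Lib.SubBisX.Node Pool.Agent.Lib.SubBisC
open CovG

/-- The left vertices are the numbers `< a`, the right vertices the numbers from `a` to `n`. `sub` is
a subgraph of `adj` in which all vertices have degree at most `d`. -/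
structure RgH (n a d : ℕ) (adj sub : ℕ → ℕ → Bool) : Prop where
  cov : Cov n a adj (range a)
  pos : 1 ≤ d
  le : ∀ u v, sub u v = true → adj u v = true
  degL : ∀ v < a, ((range n).filter fun b => sub v b = true).card ≤ d
  degR : ∀ b, ((range a).filter fun v => sub v b = true).card ≤ d

theorem Rg.toH {n a d : ℕ} {adj sub : ℕ → ℕ → Bool} (h : Rg n a d adj sub) :
    RgH n a d adj sub :=
  ⟨h.cov, h.pos, h.le, fun v hv => (h.degL v hv).le, h.degR⟩

/-- **The Gibbs mean of the few vertices.** -/
theorem EG_fewH {n a d : ℕ} {adj sub : ℕ → ℕ → Bool} (h : Cov n a adj (range a)) (W : Finset ℕ) :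
    SubBisB.EG (cvF fun v : Fin (range a).card => nbW n a adj W v)
      (fun S => ((fewV a d adj sub W (toN S ∩ W)).card : ℝ)) = EB a d adj sub W := by
  have h1 := EG_FC h (le_refl n) W fun T => ((fewV a d adj sub W T).card : ℝ)
  rw [FC_cov h (le_refl n) W] at h1
  have h2 : (fun S : Finset (Fin (range a).card) => ((fewV a d adj sub W (toN S ∩ W)).card : ℝ)) =
      fun S => ((fewV a d adj sub W (SubBisC.sel a (range a) W (toN S))).card : ℝ) := by
    funext S
    have h3 : toN S ⊆ range a :=
      (toN_subset S).trans (subset_of_eq (congrArg range (card_range a)))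
    rw [sel_range', ← inter_assoc, inter_eq_left.2 h3]
  have h4 : ∀ I ∈ indF adj W, ((fewV a d adj sub W (I ∩ range a)).card : ℝ) =
      ((fewV a d adj sub W I).card : ℝ) := by
    intro I _
    have h5 : fewV a d adj sub W (I ∩ range a) = fewV a d adj sub W I := by
      unfold fewV
      refine filter_congr fun b _ => ?_
      have e1 : (I ∩ range a).filter (fun v => v < a ∧ sub v b = true) =
          I.filter fun v => v < a ∧ sub v b = true := by
        ext v
        rw [mem_filter, mem_filter, mem_inter, mem_range]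
        tauto
      have e2 : (∃ v ∈ I ∩ range a, v < a ∧ adj v b = true) ↔
          ∃ v ∈ I, v < a ∧ adj v b = true := by
        constructor
        · rintro ⟨v, hv, h6⟩
          exact ⟨v, (mem_inter.1 hv).1, h6⟩
        · rintro ⟨v, hv, h6, h7⟩
          exact ⟨v, mem_inter.2 ⟨hv, mem_range.2 h6⟩, h6, h7⟩
      rw [e1, e2]
    rw [h5]
  rw [h2, h1, sum_congr rfl h4]
  rfl

end Pool.Agent.Lib.SubBisG
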