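import Pool.Agent.Lib.SubBisC.CDefsR

/-!
Bipartite graphs whose left vertices are saturated by `d` disjoint matchings, and randomised
approximation of the number of independent sets on the graphs `G` with a bound for the time.
-/

set_option autoImplicit false

namespace Pool.Agent.Lib.SubBisG

open Finset Pool.Agent.Lib.Pa7c826 Pool.Agent.Lib.PolyTime Pool.Agent.Lib.SubBisX
  Pool.Agent.Lib.SubBisC

/-- `G` has a subgraph `H` in which all left vertices have degree `d` and all right vertices have
degree at most `d`; equivalently, `d` disjoint matchings that cover all left vertices. For a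
`d`-regular graph `H` is `G` itself. -/
def Saturated (G : BGraph) (d : ℕ) : Prop :=
  ∃ H : Fin G.a → Fin G.b → Bool, (∀ i j, H i j = true → G.E i j = true) ∧
    (∀ i, (univ.filter fun j => H i j = true).card = d) ∧
    ∀ j, (univ.filter fun i => H i j = true).card ≤ d

/-- Randomised approximation of the number of independent sets of the bipartite graphs `G` in time
polynomial in `s`, the size of `G` and `t`, whenever `P G s` holds: there are a polynomial `m` and a
machine that on input `1^s 0`, `(G, 1^t)` with `P G s` and `t ≥ 1`, followed by `m(length)` random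
bits, runs in polynomial time and outputs, for at least three quarters of the strings of random bits,
a number within a factor `1 ± 1 / t` of the number of independent sets of `G`. -/
def HasRTimeP (P : BGraph → ℕ → Prop) : Prop :=
  ∃ (m : Polynomial ℕ) (f : BGraph → ℕ → ℕ → List Bool → List Bool),
    Nonempty (Turing.TM2ComputableInPolyTime
      (α := {x : BGraph × ℕ × ℕ × List Bool //
        P x.1 x.2.1 ∧ 1 ≤ x.2.2.1 ∧
          x.2.2.2.length = m.eval (padCode x.1 x.2.1 x.2.2.1).length})
      (αΓ := Bool) (βΓ := Bool) (fun x => padCode x.1.1 x.1.2.1 x.1.2.2.1 ++ x.1.2.2.2) id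
      (fun x => f x.1.1 x.1.2.1 x.1.2.2.1 x.1.2.2.2)) ∧
    ∀ G (s t : ℕ), P G s → 1 ≤ t →
      3 * 2 ^ m.eval (padCode G s t).length ≤
        4 * Nat.card {r : Fin (m.eval (padCode G s t).length) → Bool //
          Good G t (f G s t (List.ofFn r))}

theorem hasRTimeG_iff (τ : BGraph → ℝ) : HasRTimeG τ ↔ HasRTimeP fun G s => τ G ≤ s := Iff.rfl

theorem hasRTimeP_of {P : BGraph → ℕ → Prop} (hmono : ∀ G s s', s ≤ s' → P G s → P G s')
    (h : Pa7c826m.HasRApx P) : HasRTimeP P := by
  obtain ⟨m, f, hf, hgood⟩ := h
  let M : BGraph → ℕ → ℕ → ℕ := fun G s t => m.eval (inCode G (max s t)).length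
  have hM : ∀ G s t, M G s t ≤ m.eval (padCode G s t).length := by
    intro G s t
    refine eval_mono _ ?_
    rw [padCode_length, inCode_length, inCode_length]
    omega
  have hτ : ∀ (G : BGraph) (s t : ℕ), P G s → P G (max s t) :=
    fun G s t hs => hmono G s _ (le_max_left s t) hs
  refine ⟨m, fun G s t r => f G (max s t) (r.take (M G s t)), ?_, ?_⟩
  · -- the machine
    let D : BGraph × ℕ × ℕ × List Bool → Prop := fun x =>
      P x.1 x.2.1 ∧ 1 ≤ x.2.2.1 ∧
        x.2.2.2.length = m.eval (padCode x.1 x.2.1 x.2.2.1).length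
    let enc : BGraph × ℕ × ℕ × List Bool → List Bool := fun x =>
      padCode x.1 x.2.1 x.2.2.1 ++ x.2.2.2
    have hw : PolyC D [enc] enc := PolyC.var (by simp)
    have henc : ∀ x, enc x = un x.2.1 ++ false :: (inCode x.1 x.2.2.1 ++ x.2.2.2) := by
      intro x
      show padCode x.1 x.2.1 x.2.2.1 ++ x.2.2.2 = _
      rw [padCode_eq, List.append_assoc, List.cons_append]
    have hs : PolyN D [enc] (fun x => x.2.1) :=
      (poly_tOf hw).congr (fun x _ => by rw [henc, tOf, takeWhile_un, un_length])
    have hv : PolyC D [enc] (fun x => inCode x.1 x.2.2.1 ++ x.2.2.2) :=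
      hw.afterTrue.congr (fun x _ => by rw [henc, afterTrue_un])
    have ht : PolyN D [enc] (fun x => x.2.2.1) :=
      (poly_tOf hv).congr (fun x _ => tOf_append x.1 x.2.2.1 x.2.2.2)
    have hlen : PolyN D [enc] (fun x => (inCode x.1 x.2.2.1).length) :=
      (((poly_tOf hv).add ((poly_aOf hv).add ((poly_bOf hv).add
        ((poly_aOf hv).mul (poly_bOf hv))))).add (PolyN.const 3)).congr (fun x _ =>
          lenOf_append x.1 x.2.2.1 x.2.2.2)
    have hpre : PolyC D [enc] (fun x => inCode x.1 x.2.2.1) :=
      (PolyC.take hv hlen).congr (fun x _ => List.take_left)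
    have hsuf : PolyC D [enc] (fun x => x.2.2.2) :=
      (PolyC.drop hv hlen).congr (fun x _ => List.drop_left)
    have hcode : PolyC D [enc] (fun x => inCode x.1 (max x.2.1 x.2.2.1)) :=
      (PolyC.append (hs.add (PolyN.sub ht hs)) (PolyC.cons false hpre.afterTrue)).congr
        (fun x _ => (inCode_max x.1 x.2.1 x.2.2.1).symm)
    have hM' : PolyN D [enc] (fun x => M x.1 x.2.1 x.2.2.1) :=
      PolyN.polyEval (PolyN.length hcode) m
    have hin : PolyC D [enc] (fun x => inCode x.1 (max x.2.1 x.2.2.1) ++
        x.2.2.2.take (M x.1 x.2.1 x.2.2.1)) := hcode.append (PolyC.take hsuf hM')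
    have hcall : PolyC D [enc] (fun x => f x.1 (max x.2.1 x.2.2.1)
        (x.2.2.2.take (M x.1 x.2.1 x.2.2.1))) := by
      refine PolyC.applyTM2 hf _ _ hin ?_
      rintro ⟨G, s, t, r⟩ ⟨h1, h2, h3⟩
      refine ⟨⟨(G, max s t, r.take (M G s t)), hτ G s t h1, ?_, ?_⟩, rfl, rfl⟩
      · have h2' : 1 ≤ t := h2
        show 1 ≤ max s t
        omega
      · show (r.take (M G s t)).length = M G s t
        have h3' : r.length = m.eval (padCode G s t).length := h3
        rw [List.length_take, h3', min_eq_left (hM G s t)]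
    exact PolyC.toTM2 enc (fun x => f x.1 (max x.2.1 x.2.2.1)
      (x.2.2.2.take (M x.1 x.2.1 x.2.2.1))) id hcall
  · intro G s t hs ht
    obtain ⟨j, hj⟩ := Nat.exists_eq_add_of_le (hM G s t)
    rw [hj]
    have h3 := hgood G (max s t) (hτ G s t hs) (le_max_of_le_right ht)
    have h4 : Nat.card {r : Fin (M G s t + j) → Bool //
        Good G (max s t) (f G (max s t) ((List.ofFn r).take (M G s t)))} ≤
        Nat.card {r : Fin (M G s t + j) → Bool //
          Good G t (f G (max s t) ((List.ofFn r).take (M G s t)))} := by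
      refine Nat.card_le_card_of_injective (fun r => ⟨r.1, ?_⟩) ?_
      · exact Good.mono ht (le_max_right s t) r.2
      · intro r r' hrr
        simp only [Subtype.mk.injEq] at hrr
        exact Subtype.ext hrr
    rw [card_prefix (M G s t) j (fun l => Good G (max s t) (f G (max s t) l))] at h4
    have h5 : 3 * 2 ^ M G s t ≤ 4 * Nat.card {r : Fin (M G s t) → Bool //
        Good G (max s t) (f G (max s t) (List.ofFn r))} := h3
    calc 3 * 2 ^ (M G s t + j) = (3 * 2 ^ M G s t) * 2 ^ j := by rw [pow_add]; ring
      _ ≤ (4 * Nat.card {r : Fin (M G s t) → Bool //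
        Good G (max s t) (f G (max s t) (List.ofFn r))}) * 2 ^ j :=
          Nat.mul_le_mul_right _ h5
      _ = 4 * (Nat.card {r : Fin (M G s t) → Bool //
        Good G (max s t) (f G (max s t) (List.ofFn r))} * 2 ^ j) := by ring
      _ ≤ _ := Nat.mul_le_mul_left _ h4

end Pool.Agent.Lib.SubBisG
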