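import Pool.Agent.Lib.SubBisG.FinDefs

/-!
Subgraphs of bounded degree of a bipartite graph, and the number of their edges.
-/

set_option autoImplicit false

namespace Pool.Agent.Lib.SubBisG

open Finset Pool.Agent.Lib.Pa7c826

/-- `H` is a subgraph of `G` in which all vertices have degree at most `d`. -/
def SubDeg (G : BGraph) (d : ℕ) (H : Fin G.a → Fin G.b → Bool) : Prop :=
  (∀ i j, H i j = true → G.E i j = true) ∧
    (∀ i, (univ.filter fun j => H i j = true).card ≤ d) ∧
    ∀ j, (univ.filter fun i => H i j = true).card ≤ d

/-- The number of the edges of `H`. -/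
def edges {a b : ℕ} (H : Fin a → Fin b → Bool) : ℕ :=
  (univ.filter fun p : Fin a × Fin b => H p.1 p.2 = true).card

end Pool.Agent.Lib.SubBisG
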