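import Pool.Agent.Lib.SubBisG.Defs
import Pool.Agent.Lib.SubBisG.FewInd

/-!
# SubBisG.RootG (MP_a7c826_lc, Theorem T, M6): the sum of `2 ^ (η |few|)` over all independent sets
-/

set_option autoImplicit false

open scoped BigOperators

namespace Pool.Agent.Lib.SubBisG

open Finset Pool.Agent.Lib.SubBisC Pool.Agent.Lib.Pa7c826 Pool.Agent.Lib.Pa7c826t

theorem fewV_card_eq {n a d : ℕ} {adj sub : ℕ → ℕ → Bool} (h : Rg n a d adj sub)
    (I : Finset ℕ) : (fewV a d adj sub (range (n + n)) I).card =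
      fewI adj sub a (n + n) d (range (n + n)) I := by
  unfold fewV fewI
  congr 1
  ext b
  have e : a ≤ b → (I.filter fun v => v < a ∧ sub v b = true) =
      I.filter fun v => sub v b = true := by
    intro hb
    ext v
    simp only [mem_filter]
    constructor
    · rintro ⟨h1, _, h3⟩
      exact ⟨h1, h3⟩
    · rintro ⟨h1, h3⟩
      exact ⟨h1, (h.cov.bip v b (h.le v b h3)).2 (by omega), h3⟩
  simp only [mem_filter, mem_range]
  constructor
  · rintro ⟨h1, h2, ⟨v, hv, _, hvb⟩, h4⟩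
    rw [e h2] at h4
    exact ⟨⟨h1, h2, h1⟩, ⟨v, hv, hvb⟩, h4⟩
  · rintro ⟨⟨h1, h2, _⟩, ⟨v, hv, hvb⟩, h4⟩
    rw [← e h2] at h4
    exact ⟨h1, h2, ⟨v, hv, (h.cov.bip v b hvb).2 (by omega), hvb⟩, h4⟩

theorem root_boundG {n a d : ℕ} {adj sub : ℕ → ℕ → Bool} (h : Rg n a d adj sub) {η : ℝ}
    (h0 : 0 ≤ η) (h1 : η ≤ 1 / 4) :
    PW a d adj sub η (range (n + n)) ≤
      (2 : ℝ) ^ (12 * η * ((a : ℝ) / d)) * ind adj (range (n + n)) := by
  have han := h.cov.han
  have h2 := few_ind (adj := adj) (adjH := sub) (a := a) (n := n + n) (d := d) h.cov.symm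
    h.cov.bip (by omega) h.le h.pos (fun v hv => by
      rw [← h.degL v hv]
      congr 1
      ext b
      simp only [mem_filter, mem_range]
      constructor
      · rintro ⟨_, _, h5⟩
        have h6 := h.le v b h5
        rw [h.cov.symm] at h6
        exact ⟨h.cov.lt b v h6, h5⟩
      · rintro ⟨h3, h5⟩
        have h6 := (h.cov.bip v b (h.le v b h5)).1 hv
        exact ⟨by omega, by omega, h5⟩)
    (fun b _ _ => h.degR b) h0 h1
  unfold PW
  simp only [fewV_card_eq h]
  rw [mul_div_assoc] at h2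
  exact h2

end Pool.Agent.Lib.SubBisG
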