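import Pool.Agent.Lib.SubBisG.TreeG
import Pool.Agent.Lib.SubBisG.RootG

/-!
# SubBisG.GoodAG (MP_a7c826_lc, Theorem T): good estimates give a good tree of decisions
-/

set_option autoImplicit false

namespace Pool.Agent.Lib.SubBisG

open Finset SubBis Pool.Agent.Lib.SubBisX
open Pool.Agent.Lib.SubBisC Pool.Agent.Lib.Pa7c826 Pool.Agent.Lib.Pa7c826t Pool.Agent.Lib.P7sG

theorem goodA_of {n a d : ℕ} {adj sub : ℕ → ℕ → Bool} (h : Rg n a d adj sub) {δ η : ℝ}
    (h0 : 0 ≤ η) (h1 : η ≤ 1 / 4) {es : Finset ℕ → ℕ} (hg : GoodG n a d adj sub δ η es) {dm : ℕ}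
    (hdm : 2 * n + δ ≤ dm) :
    P7sA.GoodA (chC n (range a) adj) (fun X => es X.2) (fun X => (ind adj X.2 : ℝ))
      (okC n (range a)) (range a).card dm ((2 : ℝ) ^ δ)
      ((2 : ℝ) ^ δ * (2 : ℝ) ^ (12 * η * ((a : ℝ) / d))) (0, range (n + n)) := by
  refine goodA_of_goodP (goodP_of h h0 hg hdm) ?_ ?_
  · refine ⟨rfl, Subset.rfl, fun l _ h2 => absurd h2 (by omega), fun l hl _ => ?_⟩
    have := cs_lt h.cov.sub hl
    exact mem_range.2 (by omega)
  · have h2 := root_boundG h h0 h1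
    simp only
    rw [mul_assoc]
    exact mul_le_mul_of_nonneg_left h2 (by positivity)

end Pool.Agent.Lib.SubBisG
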