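import Pool.Agent.Lib.SubBisG.Defs
import Pool.Agent.Lib.SubBisE.ParT

/-!
# SubBisG.NumG: the parameters of the machine

The costs `(2 ^ lamG + 1) ^ dgG` and `(2 ^ rhoG) ^ dgG` are at most `2 t` for the quality `qG n t`,
and the promise on `t` makes the errors small.
-/

set_option autoImplicit false

open scoped BigOperators

namespace Pool.Agent.Lib.SubBisG

open Finset Pool.Agent.Lib.SubBisX Pool.Agent.Lib.P7sG

namespace NumG

theorem one_le_sz (n : ℕ) : 1 ≤ (n + 1).size := Nat.size_pos.2 (by omega)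

theorem size_QG (n : ℕ) : (QG n).size ≤ (n + 1).size + 3 := by
  rw [Nat.size_le, pow_add]
  have := Nat.lt_size_self (n + 1)
  unfold QG
  omega

theorem muG_le (n : ℕ) : muG n ≤ 2 * (n + 1).size + 9 := by
  have := size_QG n
  unfold muG ParA.mu
  omega

theorem bG_le (n : ℕ) : bG n ≤ 2 * (n + 1).size + 3 := by
  unfold bG
  rw [Nat.size_le, pow_add, mul_comm 2, pow_mul]
  have h1 := Nat.lt_size_self (n + 1)
  have h2 : (n + 1) ^ 2 < (2 ^ (n + 1).size) ^ 2 := Nat.pow_lt_pow_left h1 (by norm_num)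
  omega

theorem lamG_le (n : ℕ) : lamG n ≤ 4 * (n + 1).size + 6 := by
  have := bG_le n
  unfold lamG
  omega

theorem size_GmG (n : ℕ) : (GmG n + 2 * QG n).size ≤ 2 * (n + 1).size + 7 := by
  have e : GmG n + 2 * QG n = QG n * (muG n + kapG n + 2) := by
    unfold GmG
    ring
  have h1 : (muG n + kapG n + 2).size ≤ (n + 1).size + 4 := by
    rw [Nat.size_le, pow_add]
    have h2 := muG_le n
    have h3 := Nat.lt_size_self (n + 1)
    have h4 : (n + 1).size ≤ n + 1 := by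
      rw [Nat.size_le]
      exact Nat.lt_two_pow_self
    unfold kapG
    omega
  have h5 := SubBisE.size_mul_le (QG n) (muG n + kapG n + 2)
  have h6 := size_QG n
  rw [e]
  omega

theorem rhoG_le (n : ℕ) : rhoG n ≤ 10 * (n + 1).size + 31 := by
  have h1 := lamG_le n
  have h2 := muG_le n
  have h3 := size_GmG n
  unfold rhoG
  omega

theorem cost (n t : ℕ) : 9000 * (qG n t * (n + 1).size ^ 2) ≤ lg t := by
  have h3 := one_le_sz n
  have h2 : qG n t * (9000 * (n + 1).size ^ 2) ≤ lg t := by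
    rw [← Nat.le_div_iff_mul_le (by positivity)]
    exact le_rfl
  linarith

theorem exp_le {n q x c : ℕ} (hx : x ≤ c * (n + 1).size) :
    x * dgG n q ≤ 176 * c * (q * (n + 1).size ^ 2) := by
  have h1 := one_le_sz n
  have h2 : muG n ≤ 11 * (n + 1).size := by
    have := muG_le n
    omega
  calc x * dgG n q ≤ (c * (n + 1).size) * (16 * q * (11 * (n + 1).size)) := by
        unfold dgG
        gcongr
    _ = 176 * c * (q * (n + 1).size ^ 2) := by ring

end NumG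

open NumG

theorem ker_leG (n : ℕ) {t : ℕ} (ht : 1 ≤ t) :
    (2 ^ lamG n + 1) ^ dgG n (qG n t) ≤ 2 * t := by
  have h1 := one_le_sz n
  have h2 : lamG n + 1 ≤ 11 * (n + 1).size := by
    have := lamG_le n
    omega
  have h6 : 2 ^ lamG n + 1 ≤ 2 ^ (lamG n + 1) := by
    rw [pow_succ]
    have := Nat.one_le_two_pow (n := lamG n)
    omega
  refine (Nat.pow_le_pow_left h6 _).trans ?_
  rw [← pow_mul]
  refine le_trans (Nat.pow_le_pow_right (by norm_num) ?_) (two_pow_lg_le ht)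
  refine (exp_le h2).trans (le_trans ?_ (cost n t))
  exact Nat.mul_le_mul_right _ (by norm_num)

theorem pool_leG (n : ℕ) {t : ℕ} (ht : 1 ≤ t) : (2 ^ rhoG n) ^ dgG n (qG n t) ≤ 2 * t := by
  have h1 := one_le_sz n
  have h2 : rhoG n ≤ 41 * (n + 1).size := by
    have := rhoG_le n
    omega
  rw [← pow_mul]
  refine le_trans (Nat.pow_le_pow_right (by norm_num) ?_) (two_pow_lg_le ht)
  refine (exp_le h2).trans (le_trans ?_ (cost n t))
  exact Nat.mul_le_mul_right _ (by norm_num)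

namespace NumG

theorem size_le_three {n : ℕ} (hn : 2 ≤ n) : ((n + 1).size : ℝ) ≤ 3 * Real.logb 2 n := by
  have hn2 : (2 : ℝ) ≤ n := by exact_mod_cast hn
  have h1 := SubBisE.size_le_logb n
  have h2 : Real.logb 2 ((n : ℝ) + 1) ≤ Real.logb 2 ((n : ℝ) * 2) :=
    Real.logb_le_logb_of_le one_lt_two (by linarith) (by linarith)
  rw [Real.logb_mul (by positivity) (by norm_num), Real.logb_self_eq_one one_lt_two] at h2
  have h3 : 1 ≤ Real.logb 2 (n : ℝ) := by
    rw [Real.le_logb_iff_rpow_le one_lt_two (by linarith), Real.rpow_one]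
    exact hn2
  linarith

theorem log_le_two {n : ℕ} (hn : 2 ≤ n) : Real.log ((n : ℝ) + 1) ≤ 2 * Real.logb 2 n := by
  have hn2 : (2 : ℝ) ≤ n := by exact_mod_cast hn
  have h2 : Real.logb 2 ((n : ℝ) + 1) ≤ Real.logb 2 ((n : ℝ) * 2) :=
    Real.logb_le_logb_of_le one_lt_two (by linarith) (by linarith)
  rw [Real.logb_mul (by positivity) (by norm_num), Real.logb_self_eq_one one_lt_two] at h2
  have h3 : 1 ≤ Real.logb 2 (n : ℝ) := by
    rw [Real.le_logb_iff_rpow_le one_lt_two (by linarith), Real.rpow_one]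
    exact hn2
  have h4 : Real.log ((n : ℝ) + 1) ≤ Real.logb 2 ((n : ℝ) + 1) := by
    unfold Real.logb
    rw [le_div_iff₀ (Real.log_pos (by norm_num))]
    have h5 : Real.log 2 ≤ 1 := by
      have := Real.log_two_lt_d9
      linarith
    have h6 : 0 ≤ Real.log ((n : ℝ) + 1) := Real.log_nonneg (by linarith)
    nlinarith
  linarith

theorem mul_log_le {n : ℕ} {s : ℝ} (hs : 1 ≤ s) (hsn : s ^ 3 ≤ n) :
    s * Real.log ((n : ℝ) + 1) ≤ 2 * ((n : ℝ) + 1) := by
  have hn0 : (0 : ℝ) ≤ n := Nat.cast_nonneg _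
  set y := Real.sqrt ((n : ℝ) + 1) with hy
  have hyy : y * y = (n : ℝ) + 1 := Real.mul_self_sqrt (by linarith)
  have hy1 : 1 ≤ y := Real.one_le_sqrt.2 (by linarith)
  have h1 : Real.log ((n : ℝ) + 1) ≤ 2 * y := by
    rw [← hyy, Real.log_mul (by positivity) (by positivity)]
    have := Real.log_le_sub_one_of_pos (show (0 : ℝ) < y by linarith)
    linarith
  have h2 : s ≤ y := by
    rw [hy, Real.le_sqrt (by linarith) (by linarith)]
    have : s ^ 2 ≤ s ^ 3 := pow_le_pow_right₀ hs (by norm_num)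
    linarith
  have h3 : 0 ≤ Real.log ((n : ℝ) + 1) := Real.log_nonneg (by linarith)
  calc s * Real.log ((n : ℝ) + 1) ≤ y * (2 * y) := mul_le_mul h2 h1 h3 (by linarith)
    _ = 2 * ((n : ℝ) + 1) := by rw [← hyy]; ring

/-- the quality: `6 s ≤ q` for the cube root `s` of `a / d` -/
theorem qG_ge {n t : ℕ} {s : ℝ} (hn : 2 ≤ n) (hs : 1 ≤ s)
    (ht : 2 ^ 20 * s * Real.logb 2 n ^ 2 ≤ lg t) : 1 ≤ qG n t ∧ 6 * s ≤ qG n t := by
  have hn2 : (2 : ℝ) ≤ n := by exact_mod_cast hn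
  set u := Real.logb 2 (n : ℝ) with hu
  have hu1 : 1 ≤ u := by
    rw [hu, Real.le_logb_iff_rpow_le one_lt_two (by linarith), Real.rpow_one]
    exact hn2
  have h3 := size_le_three hn
  rw [← hu] at h3
  set D := qG n t with hD
  have h0 : (0 : ℝ) < (n + 1).size := by exact_mod_cast one_le_sz n
  have hA0 : 0 < 9000 * (n + 1).size ^ 2 := by
    have h1 := one_le_sz n
    positivity
  have hD1 : (lg t : ℝ) < ((D : ℝ) + 1) * (9000 * ((n + 1).size : ℝ) ^ 2) := by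
    have h1 : lg t < (D + 1) * (9000 * (n + 1).size ^ 2) := by
      rw [mul_comm]
      exact Nat.lt_mul_div_succ _ hA0
    exact_mod_cast h1
  have hsz : ((n + 1).size : ℝ) ^ 2 ≤ 9 * u ^ 2 := by
    have := pow_le_pow_left₀ h0.le h3 2
    calc ((n + 1).size : ℝ) ^ 2 ≤ (3 * u) ^ 2 := this
      _ = 9 * u ^ 2 := by ring
  have hD2 : 2 ^ 20 * s * u ^ 2 < (81000 * ((D : ℝ) + 1)) * u ^ 2 := by
    calc 2 ^ 20 * s * u ^ 2 ≤ (lg t : ℝ) := ht
      _ < ((D : ℝ) + 1) * (9000 * ((n + 1).size : ℝ) ^ 2) := hD1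
      _ ≤ ((D : ℝ) + 1) * (9000 * (9 * u ^ 2)) := by gcongr
      _ = (81000 * ((D : ℝ) + 1)) * u ^ 2 := by ring
  have hD3 : 2 ^ 20 * s < 81000 * ((D : ℝ) + 1) := lt_of_mul_lt_mul_right hD2 (by positivity)
  have hD4 : 6 * s ≤ (D : ℝ) := by
    norm_num at hD3
    linarith
  refine ⟨?_, hD4⟩
  have : (0 : ℝ) < D := by linarith
  exact_mod_cast this

end NumG

/-- **The parameters fit.** -/
theorem par_G {n a d t : ℕ} (hd : 1 ≤ d) (hda : d ≤ a) (han : a < n)
    (h : (2 : ℝ) ^ ((2 : ℝ) ^ 20 * ((a : ℝ) / d) ^ (1 / 3 : ℝ) * Real.logb 2 n ^ 2) ≤ t) :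
    1 ≤ qG n t ∧ 1 ≤ t ∧ 2 * n + dlG n a d (qG n t) ≤ ((10 * n + 5 : ℕ) : ℝ) ∧
      8 * (((range a).card : ℝ) * ((2 : ℝ) ^ dlG n a d (qG n t) *
        ((2 : ℝ) ^ dlG n a d (qG n t) * (2 : ℝ) ^ (12 * etG (qG n t) * ((a : ℝ) / d)))) *
          (t : ℝ) ^ 2) ≤ ((2 ^ kapS t : ℕ) : ℝ) ∧
      2 * ((2 : ℝ) ^ dlG n a d (qG n t) *
        ((2 : ℝ) ^ dlG n a d (qG n t) * (2 : ℝ) ^ (12 * etG (qG n t) * ((a : ℝ) / d)))) *
          ((2 ^ kapS t : ℕ) : ℝ) ≤ (capS t : ℝ) := by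
  have hn : 2 ≤ n := by omega
  have hn2 : (2 : ℝ) ≤ n := by exact_mod_cast hn
  have hd0 : (0 : ℝ) < d := by exact_mod_cast hd
  have hda' : (d : ℝ) ≤ a := by exact_mod_cast hda
  have han' : (a : ℝ) ≤ n := by exact_mod_cast han.le
  have ht0 : (0 : ℝ) < t := lt_of_lt_of_le (by positivity) h
  have ht1 : 1 ≤ t := by
    have : 0 < t := by exact_mod_cast ht0
    omega
  set x := (a : ℝ) / d with hx
  have hx1 : 1 ≤ x := by
    rw [hx, le_div_iff₀ hd0]
    linarith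
  have hxn : x ≤ n := by
    have h1 : (1 : ℝ) ≤ d := by exact_mod_cast hd
    refine le_trans ?_ han'
    rw [hx]
    exact div_le_self (Nat.cast_nonneg _) h1
  set s := x ^ (1 / 3 : ℝ) with hs
  have hs1 : 1 ≤ s := Real.one_le_rpow hx1 (by norm_num)
  have hs3 : s ^ 3 = x := by
    rw [hs, ← Real.rpow_natCast, ← Real.rpow_mul (by linarith)]
    norm_num
  set u := Real.logb 2 (n : ℝ) with hu
  have hu1 : 1 ≤ u := by
    rw [hu, Real.le_logb_iff_rpow_le one_lt_two (by linarith), Real.rpow_one]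
    exact hn2
  set LL := Real.logb 2 (t : ℝ) with hLL
  have hL : 2 ^ 20 * s * u ^ 2 ≤ LL := by
    rw [hLL, Real.le_logb_iff_rpow_le one_lt_two ht0]
    exact h
  have hlg : LL ≤ lg t := by
    rw [hLL, Real.logb_le_iff_le_rpow one_lt_two ht0, Real.rpow_natCast]
    exact_mod_cast (lt_two_pow_lg t).le
  obtain ⟨hq1, hq6⟩ := qG_ge hn hs1 (hL.trans hlg)
  set q := qG n t with hq
  have hq0 : (0 : ℝ) < q := by linarith
  have hq2 : 36 * s ^ 2 ≤ (q : ℝ) ^ 2 := by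
    have := pow_le_pow_left₀ (by linarith) hq6 2
    calc 36 * s ^ 2 = (6 * s) ^ 2 := by ring
      _ ≤ (q : ℝ) ^ 2 := this
  -- `x / q ^ 2` is at most `s / 36`
  have hxq : x / (q : ℝ) ^ 2 ≤ s / 36 := by
    rw [div_le_div_iff₀ (by positivity) (by norm_num), ← hs3]
    calc s ^ 3 * 36 = s * (36 * s ^ 2) := by ring
      _ ≤ s * (q : ℝ) ^ 2 := mul_le_mul_of_nonneg_left hq2 (by linarith)
  have hlog0 : 0 ≤ Real.log ((n : ℝ) + 1) := Real.log_nonneg (by linarith)
  have hdl : dlG n a d q = 4 + 2 * (x / (q : ℝ) ^ 2 * Real.log ((n : ℝ) + 1)) := by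
    unfold dlG
    rw [← hx]
    ring
  have hdl1 : dlG n a d q ≤ 4 + 2 * (s / 36 * Real.log ((n : ℝ) + 1)) := by
    rw [hdl]
    have := mul_le_mul_of_nonneg_right hxq hlog0
    linarith
  have h1 := NumG.mul_log_le (n := n) hs1 (by rw [hs3]; exact hxn)
  have h2 := log_le_two hn
  rw [← hu] at h2
  have hsu : s ≤ s * u := le_mul_of_one_le_right (by linarith) hu1
  have hus : u ≤ s * u := le_mul_of_one_le_left (by linarith) hs1
  have hdl2 : dlG n a d q ≤ 4 + s * u := by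
    have h3 : s * Real.log ((n : ℝ) + 1) ≤ s * (2 * u) :=
      mul_le_mul_of_nonneg_left h2 (by linarith)
    have h4 : 0 ≤ s * u := by positivity
    linarith
  have hsuL : 2 ^ 20 * (s * u) ≤ LL := by
    refine le_trans ?_ hL
    have : s * u ≤ s * u ^ 2 := by
      have h5 : u ≤ u ^ 2 := le_self_pow₀ hu1 (by norm_num)
      exact mul_le_mul_of_nonneg_left h5 (by linarith)
    linarith
  have heta : 12 * etG q * x ≤ s * u := by
    have e : 12 * etG q * x = 3 / 2 * (x / (q : ℝ) ^ 2) := by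
      unfold etG
      field_simp
      norm_num
    rw [e]
    linarith
  -- the powers
  have hpow : (2 : ℝ) ^ dlG n a d q * ((2 : ℝ) ^ dlG n a d q * (2 : ℝ) ^ (12 * etG q * x)) ≤
      (2 : ℝ) ^ (LL - 3) := by
    rw [← Real.rpow_add (by norm_num), ← Real.rpow_add (by norm_num)]
    refine Real.rpow_le_rpow_of_exponent_le (by norm_num) ?_
    norm_num at hsuL
    linarith
  have hpow8 : (2 : ℝ) ^ (LL - 3) = (t : ℝ) / 8 := by
    rw [Real.rpow_sub (by norm_num), hLL, Real.rpow_logb (by norm_num) (by norm_num) ht0]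
    norm_num
  set A := (2 : ℝ) ^ dlG n a d q * ((2 : ℝ) ^ dlG n a d q * (2 : ℝ) ^ (12 * etG q * x)) with hA
  have hA8 : A ≤ (t : ℝ) / 8 := hpow.trans hpow8.le
  have hA0 : 0 ≤ A := by positivity
  have hnt : (n : ℝ) ≤ t := by
    have h6 : (2 : ℝ) ^ u = n := Real.rpow_logb (by norm_num) (by norm_num) (by linarith)
    have h7 : (2 : ℝ) ^ LL = t := Real.rpow_logb (by norm_num) (by norm_num) ht0
    rw [← h6, ← h7]
    refine Real.rpow_le_rpow_of_exponent_le (by norm_num) ?_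
    have h4 : 0 ≤ s * u := by positivity
    norm_num at hsuL
    linarith
  have hcap : (capS t : ℝ) = (2 ^ lg t : ℝ) * 8 * ((2 ^ kapS t : ℕ) : ℝ) := by
    unfold capS kapS
    push_cast
    rw [show 5 * lg t + 3 = lg t + 3 + 4 * lg t by ring, pow_add, pow_add]
    norm_num
  have hlg' : (t : ℝ) ≤ 2 ^ lg t := by exact_mod_cast (lt_two_pow_lg t).le
  have hK0 : (0 : ℝ) ≤ ((2 ^ kapS t : ℕ) : ℝ) := Nat.cast_nonneg _
  have hK4 : (t : ℝ) ^ 4 ≤ ((2 ^ kapS t : ℕ) : ℝ) := by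
    unfold kapS
    push_cast
    rw [mul_comm 4, pow_mul]
    exact pow_le_pow_left₀ ht0.le hlg' 4
  refine ⟨hq1, ht1, ?_, ?_, ?_⟩
  · push_cast
    linarith
  · refine le_trans ?_ hK4
    rw [card_range]
    have h8 : (a : ℝ) ≤ t := han'.trans hnt
    have h9 : (a : ℝ) * A ≤ (t : ℝ) * ((t : ℝ) / 8) := mul_le_mul h8 hA8 hA0 ht0.le
    calc 8 * ((a : ℝ) * A * (t : ℝ) ^ 2) ≤ 8 * ((t : ℝ) * ((t : ℝ) / 8) * (t : ℝ) ^ 2) := by
          gcongr
      _ = (t : ℝ) ^ 4 := by ring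
  · rw [hcap]
    refine mul_le_mul_of_nonneg_right ?_ hK0
    linarith

end Pool.Agent.Lib.SubBisG
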