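import Pool.Agent.Lib.SubBisG.PolyG
import Pool.Agent.Lib.SubBisG.NumG

/-!
# SubBisG.PolyQ: the powers are computable for the machine's choice of the quality
-/

set_option autoImplicit false

namespace Pool.Agent.Lib.SubBisG

open Finset SubBis Pool.Agent.Lib.SubBisX.Core Pool.Agent.Lib.SubBisX.Node
open Pool.Agent.Lib.SubBisX
open Pool.Agent.Lib.SubBisC Pool.Agent.Lib.Pa7c826 Pool.Agent.Lib.Pa7c826t
open Pool.Agent.Lib.P7sG Pool.Agent.Lib.SubBisX.Prob
open Pool.Agent.Lib.PolyTime Pool.Agent.Lib.P8e91ed.PT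
open Pool.Agent.Lib.SubBisB Pool.Agent.Lib.SubBisC.PolyAux

/-- the powers are computable for the machine's choice of `q` -/
theorem qcomp_qG {α : Type} {D : α → Prop} {ctx : List (α → List Bool)} {n t : α → ℕ}
    (hn : PolyN D ctx n) (ht : PolyN D ctx t) (h1 : ∀ a, D a → 1 ≤ t a) :
    QCompG D ctx n (fun a => qG (n a) (t a)) :=
  qcomp_qG_of (fun n _ ht => ker_leG n ht) (fun n _ ht => pool_leG n ht) hn ht h1

end Pool.Agent.Lib.SubBisG
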