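import Pool.Agent.Lib.SubBisG.SeedT
import Pool.Agent.Lib.SubBisG.GoodAG
import Pool.Agent.Lib.SubBisG.PolyQ
import Pool.Agent.Lib.SubBisG.NumG
import Pool.Agent.Lib.P7sA.ProbA
import Pool.Agent.Lib.SubBisF.SysF
import Pool.Agent.Lib.SubBisX.RandLen
import Pool.Agent.Lib.SubBisE.FinE
import Pool.Agent.Lib.SubBisG.FinDefs

/-!
**Theorem.** For every bipartite graph with `n` vertices whose `a` left vertices are covered by `d`
disjoint matchings (`1 ≤ d ≤ a`) the number of independent sets is approximated within a factor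
`1 ± 1 / t` in randomised time polynomial in `2 ^ ((a / d) ^ (1 / 3) (log n) ^ 2)`, `n` and `t`.
-/

set_option autoImplicit false

namespace Pool.Agent.Lib.SubBisG

open Finset Pool.Agent.Lib.PolyTime Pool.Agent.Lib.Pa7c826 Pool.Agent.Lib.Pa7c826t
open Pool.Agent.Lib.SubBisX Pool.Agent.Lib.P8e91ed.PT Pool.Agent.Lib.P7sG
open Pool.Agent.Lib.SubBisB Pool.Agent.Lib.SubBisC Pool.Agent.Lib.SubBisC.PolyAux

/-! ### The graph -/

theorem cov_left (w : List Bool) : Cov (nOf w) (aOf w) (adjOf w) (range (aOf w)) where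
  han := by unfold nOf; omega
  symm := adjOf_symm w
  bip := FS.bip_w w
  lt := fun u v h => FS.adjOf_lt_nOf h
  sub := range_subset_range.2 (by unfold nOf; omega)
  cov := fun u v h => by
    rcases adjOf_bip h with h1 | h1
    · exact Or.inl (mem_range.2 h1.1)
    · exact Or.inr (mem_range.2 h1.1)

open Classical in
/-- the adjacency of the subgraph, in the numbering of the machine -/
noncomputable def subOf (G : BGraph) (H : Fin G.a → Fin G.b → Bool) (u v : ℕ) : Bool :=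
  decide (∃ (i : Fin G.a) (j : Fin G.b), u = i ∧ v = G.a + j ∧ H i j = true)

theorem subOf_iff {G : BGraph} {H : Fin G.a → Fin G.b → Bool} {u v : ℕ} :
    subOf G H u v = true ↔ ∃ (i : Fin G.a) (j : Fin G.b), u = i ∧ v = G.a + j ∧ H i j = true := by
  unfold subOf
  rw [decide_eq_true_eq]

theorem rg_of {G : BGraph} {t d : ℕ} (hd : 1 ≤ d) {H : Fin G.a → Fin G.b → Bool}
    (h1 : ∀ i j, H i j = true → G.E i j = true)
    (h2 : ∀ i, (univ.filter fun j => H i j = true).card = d)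
    (h3 : ∀ j, (univ.filter fun i => H i j = true).card ≤ d) :
    Rg (G.a + G.b) G.a d (adjOf (inCode G t)) (subOf G H) := by
  have hcov := cov_left (inCode G t)
  rw [nOf_inCode, aOf_inCode] at hcov
  refine ⟨hcov, hd, ?_, ?_, ?_⟩
  · intro u v h
    obtain ⟨i, j, rfl, rfl, h'⟩ := subOf_iff.1 h
    rw [adjOf_lr]
    exact h1 i j h'
  · intro v hv
    rw [← h2 ⟨v, hv⟩]
    refine (card_bij (fun (j : Fin G.b) _ => G.a + (j : ℕ)) ?_ ?_ ?_).symm
    · intro j hj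
      rw [mem_filter] at hj ⊢
      refine ⟨mem_range.2 ?_, subOf_iff.2 ⟨⟨v, hv⟩, j, rfl, rfl, hj.2⟩⟩
      have := j.2
      omega
    · intro j _ j' _ h
      exact Fin.ext (by simpa using h)
    · intro b hb
      obtain ⟨-, hb⟩ := mem_filter.1 hb
      obtain ⟨i, j, hi, rfl, h⟩ := subOf_iff.1 hb
      refine ⟨j, mem_filter.2 ⟨mem_univ _, ?_⟩, rfl⟩
      have : i = ⟨v, hv⟩ := Fin.ext hi.symm
      rwa [this] at h
  · intro b
    rcases Classical.em (∃ j : Fin G.b, b = G.a + j) with ⟨j, rfl⟩ | hb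
    · refine le_trans ?_ (h3 j)
      refine card_le_card_of_surjOn (fun i : Fin G.a => (i : ℕ)) ?_
      intro v hv
      obtain ⟨-, hv⟩ := mem_filter.1 (mem_coe.1 hv)
      obtain ⟨i, j', rfl, hj, h⟩ := subOf_iff.1 hv
      have : j = j' := Fin.ext (by omega)
      subst this
      exact ⟨i, mem_coe.2 (mem_filter.2 ⟨mem_univ _, h⟩), rfl⟩
    · have : ((range G.a).filter fun v => subOf G H v b = true) = ∅ := by
        rw [filter_eq_empty_iff]
        intro v _ h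
        obtain ⟨i, j, _, hj, _⟩ := subOf_iff.1 h
        exact hb ⟨j, hj⟩
      rw [this, card_empty]
      exact Nat.zero_le _

/-! ### Probability -/

/-- **The answer is good with probability three quarters.** -/
theorem goodT {G : BGraph} {t d : ℕ} {sub : ℕ → ℕ → Bool}
    (h : Rg (G.a + G.b) G.a d (adjOf (inCode G t)) sub)
    (hq : 1 ≤ qG (G.a + G.b) t) (ht : 1 ≤ t)
    (hdm : 2 * (G.a + G.b : ℕ) + dlG (G.a + G.b) G.a d (qG (G.a + G.b) t) ≤
      ((10 * (G.a + G.b) + 5 : ℕ) : ℝ))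
    (hK : 8 * (((range G.a).card : ℝ) * ((2 : ℝ) ^ dlG (G.a + G.b) G.a d (qG (G.a + G.b) t) *
        ((2 : ℝ) ^ dlG (G.a + G.b) G.a d (qG (G.a + G.b) t) *
          (2 : ℝ) ^ (12 * etG (qG (G.a + G.b) t) * ((G.a : ℝ) / d)))) *
          (t : ℝ) ^ 2) ≤ ((2 ^ kapS t : ℕ) : ℝ))
    (hcap : 2 * ((2 : ℝ) ^ dlG (G.a + G.b) G.a d (qG (G.a + G.b) t) *
        ((2 : ℝ) ^ dlG (G.a + G.b) G.a d (qG (G.a + G.b) t) *
          (2 : ℝ) ^ (12 * etG (qG (G.a + G.b) t) * ((G.a : ℝ) / d)))) *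
          ((2 ^ kapS t : ℕ) : ℝ) ≤ (capS t : ℝ))
    {m : ℕ} (hm : needG (G.a + G.b) G.a (qG (G.a + G.b) t) t ≤ m) :
    3 * 2 ^ m ≤ 4 * Nat.card {r : Fin m → Bool // Pa7c826.Good G t
      (ansG (G.a + G.b) G.a (adjOf (inCode G t)) (qG (G.a + G.b) t) t (List.ofFn r))} := by
  classical
  set n := G.a + G.b with hn
  set q := qG n t with hqd
  have ht1 : (1 : ℝ) ≤ t := by exact_mod_cast ht
  have ht0 : (0 : ℝ) < t := by linarith
  have hq0 : (0 : ℝ) < q := by exact_mod_cast hq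
  have hq1 : (1 : ℝ) ≤ q := by exact_mod_cast hq
  have he0 : 0 ≤ etG q := by
    unfold etG
    positivity
  have he1 : etG q ≤ 1 / 4 := by
    unfold etG
    rw [div_le_div_iff₀ (by positivity) (by norm_num)]
    nlinarith
  have : Nonempty (Fin (KG n) → CpG (range G.a).card n q) :=
    ⟨decG (range G.a).card n q fun _ => false⟩
  have key := P7sA.prob_SA (S := Fin (KG n) → CpG (range G.a).card n q)
    (L := offG (range G.a).card n q) (dec := decG (range G.a).card n q)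
    (SubBisF.Mach.unif_decF _ _ _ _ _ _)
    (bad := fun s => ¬ GoodG n G.a d (adjOf (inCode G t)) sub (dlG n G.a d q) (etG q)
      (esG n G.a (adjOf (inCode G t)) q s))
    (by
      have h1 := good_seedsT hq h
      convert h1)
    (ch := chC n (range G.a) (adjOf (inCode G t)))
    (e := fun s X => esG n G.a (adjOf (inCode G t)) q s X.2)
    (Z := fun X => (ind (adjOf (inCode G t)) X.2 : ℝ)) (ok := okC n (range G.a))
    (lev := (range G.a).card) (dm := 10 * n + 5) (α := (2 : ℝ) ^ dlG n G.a d q)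
    (β := (2 : ℝ) ^ dlG n G.a d q * (2 : ℝ) ^ (12 * etG q * ((G.a : ℝ) / d)))
    (root := (0, range (n + n)))
    (fun s hs => goodA_of h he0 he1 (not_not.1 hs) hdm) (K := 2 ^ kapS t) (cap := capS t)
    (m := m) (t := (t : ℝ)) ht1 (by positivity) hK hcap hm
  refine key.trans (Nat.mul_le_mul_left 4 ?_)
  rw [Nat.card_eq_fintype_card, Fintype.card_subtype]
  refine card_le_card ?_
  intro r hr
  rw [mem_filter] at hr ⊢
  refine ⟨mem_univ _, ?_⟩
  have h3 := hr.2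
  have hr2 := h.cov.ind_range n
  simp only [hr2] at h3
  rw [ind_eq_numIndep] at h3
  unfold Pa7c826.Good ansG
  rw [outVal_outN]
  set Z := numIndep G.graph
  have h3' : |(cntT n G.a (adjOf (inCode G t)) q (2 ^ kapS t) (capS t) (List.ofFn r) : ℝ) *
      2 ^ esT n G.a (adjOf (inCode G t)) q (List.ofFn r) (range (n + n)) -
      ((2 ^ kapS t : ℕ) : ℝ) * ((2 ^ n * Z : ℕ) : ℝ)| ≤
      ((2 ^ kapS t : ℕ) : ℝ) * ((2 ^ n * Z : ℕ) : ℝ) / t := h3
  set c := cntT n G.a (adjOf (inCode G t)) q (2 ^ kapS t) (capS t) (List.ofFn r)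
  set e := esT n G.a (adjOf (inCode G t)) q (List.ofFn r) (range (n + n))
  have h4 : (|(c : ℝ) * 2 ^ e / 2 ^ (kapS t + n) - Z| : ℝ) ≤ Z / t := by
    have hK : (0 : ℝ) < 2 ^ (kapS t + n) := by positivity
    push_cast at h3'
    have e1 : (c : ℝ) * 2 ^ e / 2 ^ (kapS t + n) - Z =
        ((c : ℝ) * 2 ^ e - 2 ^ kapS t * (2 ^ n * Z)) / 2 ^ (kapS t + n) := by
      rw [pow_add]
      field_simp
    rw [e1, abs_div, abs_of_pos hK, div_le_iff₀ hK]
    refine h3'.trans (le_of_eq ?_)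
    rw [pow_add]
    ring
  have h5 : ((|(c : ℚ) * 2 ^ e / 2 ^ (kapS t + n) - Z| : ℚ) : ℝ) ≤ ((Z / t : ℚ) : ℝ) := by
    push_cast
    exact h4
  exact_mod_cast h5

/-! ### The theorem -/

/-- The promise. -/
def PTG (G : BGraph) (s : ℕ) : Prop :=
  ∃ d, 1 ≤ d ∧ d ≤ G.a ∧ Saturated G d ∧
    (2 : ℝ) ^ ((2 : ℝ) ^ 20 * ((G.a : ℝ) / d) ^ (1 / 3 : ℝ) *
      Real.logb 2 ((G.a + G.b : ℕ) : ℝ) ^ 2) ≤ s

theorem b_pos {G : BGraph} {d : ℕ} (hd : 1 ≤ d) (hda : d ≤ G.a) (hS : Saturated G d) :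
    0 < G.b := by
  obtain ⟨H, -, h2, -⟩ := hS
  by_contra hb
  have hb0 : G.b = 0 := by omega
  have h3 := h2 ⟨0, by omega⟩
  have h4 := card_le_univ (univ.filter fun j : Fin G.b => H ⟨0, by omega⟩ j = true)
  rw [Fintype.card_fin] at h4
  omega

theorem PTG_mono (G : BGraph) (s s' : ℕ) (hs : s ≤ s') (h : PTG G s) : PTG G s' := by
  obtain ⟨d, h1, h2, h3, h4⟩ := h
  exact ⟨d, h1, h2, h3, h4.trans (by exact_mod_cast hs)⟩

theorem hasRApx_PTG : Pa7c826m.HasRApx PTG := by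
  refine hasRApx_of
    (need := fun G t => needG (G.a + G.b) G.a (qG (G.a + G.b) t) t)
    (out := fun G t r => ansG (G.a + G.b) G.a (adjOf (inCode G t)) (qG (G.a + G.b) t) t r)
    ?_ ?_ ?_
  · have hw : PolyC (fun x : BGraph × ℕ => PTG x.1 x.2 ∧ 1 ≤ x.2) [fun x => inCode x.1 x.2]
        (fun x => inCode x.1 x.2) := PolyC.var (by simp)
    have ht : PolyN (fun x : BGraph × ℕ => PTG x.1 x.2 ∧ 1 ≤ x.2) [fun x => inCode x.1 x.2]
        (fun x => x.2) := (poly_tOf hw).congr (fun x _ => tOf_inCode x.1 x.2)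
    refine (poly_needG (poly_aOf hw) (qcomp_qG (poly_nOf hw) ht fun x hx => hx.2) ht
      (fun x hx => hx.2)).congr (fun x _ => ?_)
    simp only [nOf_inCode, aOf_inCode]
  · have hw : PolyC (fun x : BGraph × ℕ × List Bool => PTG x.1 x.2.1 ∧ 1 ≤ x.2.1 ∧
        needG (x.1.a + x.1.b) x.1.a (qG (x.1.a + x.1.b) x.2.1) x.2.1 ≤ x.2.2.length)
        [fun x => inCode x.1 x.2.1, fun x => x.2.2] (fun x => inCode x.1 x.2.1) :=
      PolyC.var (by simp)
    have hr : PolyC (fun x : BGraph × ℕ × List Bool => PTG x.1 x.2.1 ∧ 1 ≤ x.2.1 ∧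
        needG (x.1.a + x.1.b) x.1.a (qG (x.1.a + x.1.b) x.2.1) x.2.1 ≤ x.2.2.length)
        [fun x => inCode x.1 x.2.1, fun x => x.2.2] (fun x => x.2.2) :=
      PolyC.var (by simp)
    have ht : PolyN (fun x : BGraph × ℕ × List Bool => PTG x.1 x.2.1 ∧ 1 ≤ x.2.1 ∧
        needG (x.1.a + x.1.b) x.1.a (qG (x.1.a + x.1.b) x.2.1) x.2.1 ≤ x.2.2.length)
        [fun x => inCode x.1 x.2.1, fun x => x.2.2] (fun x => x.2.1) :=
      (poly_tOf hw).congr (fun x _ => tOf_inCode x.1 x.2.1)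
    refine (poly_ansG hw (fun x _ => cov_left _) (qcomp_qG (poly_nOf hw) ht fun x hx => hx.2.1) ht
      (fun x hx => hx.2.1) hr).congr (fun x _ => ?_)
    simp only [nOf_inCode, aOf_inCode]
  · intro G t hP ht N hN
    obtain ⟨d, hd, hda, hS, h4⟩ := hP
    have hb := b_pos hd hda hS
    obtain ⟨H, h1, h2, h3⟩ := hS
    obtain ⟨p1, _, p3, p4, p5⟩ := par_G (n := G.a + G.b) (a := G.a) (d := d) (t := t) hd hda
      (by omega) h4
    exact goodT (rg_of hd h1 h2 h3) p1 ht p3 p4 p5 hN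

/-- **Theorem.** -/
theorem hasRTimeP_PTG : HasRTimeP PTG := hasRTimeP_of PTG_mono hasRApx_PTG

end Pool.Agent.Lib.SubBisG
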