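import Pool.Agent.Lib.SubBisG.DefsH
import Pool.Agent.Lib.SubBisG.RootG

/-!
# SubBisG.RootH (MP_a7c826_lc, Theorem T with defect): the sum of `2 ^ (η |few|)` over all
independent sets
-/

set_option autoImplicit false

open scoped BigOperators

namespace Pool.Agent.Lib.SubBisG

open Finset Pool.Agent.Lib.SubBisC Pool.Agent.Lib.Pa7c826 Pool.Agent.Lib.Pa7c826t

theorem RgH.fewV_card {n a d : ℕ} {adj sub : ℕ → ℕ → Bool} (h : RgH n a d adj sub)
    (I : Finset ℕ) : (fewV a d adj sub (range (n + n)) I).card =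
      fewI adj sub a (n + n) d (range (n + n)) I := by
  unfold fewV fewI
  congr 1
  ext b
  have e : a ≤ b → (I.filter fun v => v < a ∧ sub v b = true) =
      I.filter fun v => sub v b = true := by
    intro hb
    ext v
    simp only [mem_filter]
    constructor
    · rintro ⟨h1, _, h3⟩
      exact ⟨h1, h3⟩
    · rintro ⟨h1, h3⟩
      exact ⟨h1, (h.cov.bip v b (h.le v b h3)).2 (by omega), h3⟩
  simp only [mem_filter, mem_range]
  constructor
  · rintro ⟨h1, h2, ⟨v, hv, _, hvb⟩, h4⟩
    rw [e h2] at h4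
    exact ⟨⟨h1, h2, h1⟩, ⟨v, hv, hvb⟩, h4⟩
  · rintro ⟨⟨h1, h2, _⟩, ⟨v, hv, hvb⟩, h4⟩
    rw [← e h2] at h4
    exact ⟨h1, h2, ⟨v, hv, (h.cov.bip v b hvb).2 (by omega), hvb⟩, h4⟩

/-- there are no neighbours `≥ n` -/
theorem RgH.filter_add {n a d : ℕ} {adj sub : ℕ → ℕ → Bool} (h : RgH n a d adj sub) (v : ℕ) :
    ((range (n + n)).filter fun b => sub v b = true) =
      (range n).filter fun b => sub v b = true := by
  ext b
  simp only [mem_filter, mem_range]
  constructor
  · rintro ⟨_, h5⟩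
    have h6 := h.le v b h5
    rw [h.cov.symm] at h6
    exact ⟨h.cov.lt b v h6, h5⟩
  · rintro ⟨h3, h5⟩
    exact ⟨by omega, h5⟩

theorem RgH.xH_add {n a d : ℕ} {adj sub : ℕ → ℕ → Bool} (h : RgH n a d adj sub) :
    xH (n + n) a d sub = xH n a d sub := by
  unfold xH
  simp only [h.filter_add]

theorem RgH.root_bound {n a d : ℕ} {adj sub : ℕ → ℕ → Bool} (h : RgH n a d adj sub) {η : ℝ}
    (h0 : 0 ≤ η) (h1 : η ≤ 1 / 4) :
    PW a d adj sub η (range (n + n)) ≤
      (2 : ℝ) ^ (12 * η * xH n a d sub) * ind adj (range (n + n)) := by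
  have han := h.cov.han
  have h2 := few_indD (adj := adj) (adjH := sub) (a := a) (n := n + n) (d := d) h.cov.symm
    h.cov.bip (by omega) h.le h.pos (fun v hv => by
      rw [h.filter_add]
      exact h.degL v hv)
    (fun b _ _ => h.degR b) h0 h1
  rw [h.xH_add] at h2
  unfold PW
  simp only [h.fewV_card]
  exact h2

/-- the effective size is at least `a / d` -/
theorem RgH.le_xH {n a d : ℕ} {adj sub : ℕ → ℕ → Bool} (h : RgH n a d adj sub) :
    (a : ℝ) / d ≤ xH n a d sub := by
  have hd0 : (0 : ℝ) < d := by exact_mod_cast h.pos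
  unfold xH
  have h1 : (∑ v ∈ range a, (((range n).filter fun b => sub v b = true).card : ℝ)) / d ≤ a := by
    rw [div_le_iff₀ hd0]
    have h6 : ∑ v ∈ range a, ((range n).filter fun b => sub v b = true).card ≤ a * d := by
      have h7 := sum_le_card_nsmul (range a)
        (fun v => ((range n).filter fun b => sub v b = true).card) d
        (fun v hv => h.degL v (mem_range.1 hv))
      rwa [card_range, smul_eq_mul] at h7
    exact_mod_cast h6
  linarith

/-- the effective size is at most `2 a` -/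
theorem xH_le {n a d : ℕ} (hd : 1 ≤ d) (sub : ℕ → ℕ → Bool) : xH n a d sub ≤ 2 * a := by
  have hd0 : (1 : ℝ) ≤ d := by exact_mod_cast hd
  unfold xH
  have h1 : 0 ≤ (∑ v ∈ range a, (((range n).filter fun b => sub v b = true).card : ℝ)) / d := by
    positivity
  have h2 : (a : ℝ) / d ≤ a := div_le_self (Nat.cast_nonneg a) hd0
  linarith

end Pool.Agent.Lib.SubBisG
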