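import Pool.Agent.Lib.SubBisG.TreeG
import Pool.Agent.Lib.SubBisG.RootH

/-!
# SubBisG.GoodAH (MP_a7c826_lc, Theorem T with defect): good estimates give a good tree of decisions
-/

set_option autoImplicit false

open scoped BigOperators

namespace Pool.Agent.Lib.SubBisG

open Finset Pool.Agent.Lib.Pa7c826 Pool.Agent.Lib.Pa7c826t Pool.Agent.Lib.SubBisX
  Pool.Agent.Lib.SubBisC

open TreeG

/-- **The system.** -/
theorem RgH.goodP {n a d : ℕ} {adj sub : ℕ → ℕ → Bool} (h : RgH n a d adj sub) {δ η : ℝ}
    (h0 : 0 ≤ η) {es : Finset ℕ → ℕ} (hg : GoodG n a d adj sub δ η es) {dm : ℕ}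
    (hdm : 2 * n + δ ≤ dm) :
    GoodP (chC n (range a) adj) (fun X => es X.2) (fun X => (ind adj X.2 : ℝ))
      (fun X => (2 : ℝ) ^ δ * PW a d adj sub η X.2) (okC n (range a)) (range a).card dm
      ((2 : ℝ) ^ δ) := by
  have hc := h.cov
  have hpos : ∀ W : Finset ℕ, (0 : ℝ) < ind adj W := fun W => by
    exact_mod_cast ind_pos (adj := adj) W
  have hchild : ∀ j X b, j < (range a).card → okC n (range a) j X →
      okC n (range a) (j + 1) (chC n (range a) adj X b) := by
    rintro j ⟨i, W⟩ b hj ⟨h1, h2, h3, h4⟩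
    simp only at h1 h2 h3 h4
    subst h1
    have hsub : (chC n (range a) adj (i, W) b).2 ⊆ W := filter_subset _ _
    have hv := cs_lt hc.sub hj
    refine ⟨rfl, hsub.trans h2, fun l hl hli hmem => ?_, fun l hl hil => ?_⟩
    · rcases Nat.lt_succ_iff_lt_or_eq.1 hli with h5 | h5
      · exact h3 l hl h5 (hsub hmem)
      · subst h5
        unfold chC at hmem
        simp only [mem_filter] at hmem
        rw [if_pos hmem.1] at hmem
        exact hmem.2.1 rfl
    · unfold chC
      simp only [mem_filter]
      refine ⟨h4 l hl (by omega), ?_⟩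
      split_ifs with h6
      · refine ⟨by omega, fun _ => ?_⟩
        exact hc.adj_ge (by omega)
      · intro h7
        have h8 : cs n (range a) l = cs n (range a) i := by omega
        have := cs_inj hc.sub hl hj h8
        omega
  -- the children of a node are the two masks of a vertex `x` of the mask
  have hkids : ∀ j X, j < (range a).card → okC n (range a) j X → ∃ x ∈ X.2,
      (chC n (range a) adj X false).2 = X.2.erase x ∧
      (chC n (range a) adj X true).2 = (X.2.erase x).filter fun u => adj x u = false := by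
    rintro j ⟨i, W⟩ hj ⟨h1, h2, h3, h4⟩
    simp only at h1 h2 h3 h4
    subst h1
    by_cases h6 : cs n (range a) i ∈ W
    · refine ⟨cs n (range a) i, h6, ?_, ?_⟩
      · unfold chC
        ext u
        simp only [mem_filter, mem_erase, if_pos h6]
        simp
        tauto
      · unfold chC
        ext u
        simp only [mem_filter, mem_erase, if_pos h6, true_implies]
        tauto
    · refine ⟨n + cs n (range a) i, h4 i hj le_rfl, ?_, ?_⟩
      · unfold chC
        ext u
        simp only [mem_filter, mem_erase, if_neg h6]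
        tauto
      · unfold chC
        ext u
        simp only [mem_filter, mem_erase, if_neg h6]
        have h7 : adj (n + cs n (range a) i) u = false := by
          rw [hc.symm]
          exact hc.adj_ge (by omega)
        simp only [h7, and_true]
        tauto
  refine ⟨fun j X _ => hpos _, hchild, ?_, ?_, ?_, ?_, ?_, ?_⟩
  · intro j X hj hX
    obtain ⟨x, hx, e0, e1⟩ := hkids j X hj hX
    simp only [e0, e1]
    exact_mod_cast ind_erase hc.symm hc.irrefl hx
  · intro j X hj hX
    obtain ⟨x, hx, e0, e1⟩ := hkids j X hj hX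
    simp only [e0, e1]
    rw [← mul_add]
    exact mul_le_mul_of_nonneg_left (PW_super hc.symm hc.irrefl h.le h0 hx) (by positivity)
  · rintro j ⟨i, W⟩ ⟨h1, h2, h3⟩
    simp only
    have h4 := hg.low W h2
    have h5 : Real.logb 2 (ind adj W) ≤ es W + (δ + η * EB a d adj sub W) := by linarith
    rw [Real.logb_le_iff_le_rpow (by norm_num) (hpos W), Real.rpow_add (by norm_num),
      Real.rpow_add (by norm_num), Real.rpow_natCast] at h5
    have h6 := jensen_indF (adj := adj) W fun I => η * ((fewV a d adj sub W I).card : ℝ)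
    rw [← mul_sum, mul_div_assoc] at h6
    have h8 : (ind adj W : ℝ) * (2 : ℝ) ^ (η * EB a d adj sub W) ≤ PW a d adj sub η W := h6
    calc (ind adj W : ℝ) ^ 2 = ind adj W * ind adj W := sq _
      _ ≤ ind adj W * (2 ^ es W * (2 ^ δ * 2 ^ (η * EB a d adj sub W))) :=
          mul_le_mul_of_nonneg_left h5 (hpos W).le
      _ = 2 ^ es W * (2 ^ δ * (ind adj W * 2 ^ (η * EB a d adj sub W))) := by ring
      _ ≤ 2 ^ es W * (2 ^ δ * PW a d adj sub η W) := by gcongr
  · rintro j ⟨i, W⟩ ⟨h1, h2, h3⟩
    have h4 := hg.up W h2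
    have h5 : (es W : ℝ) - δ ≤ Real.logb 2 (ind adj W) := by linarith
    rw [Real.le_logb_iff_rpow_le (by norm_num) (hpos W), Real.rpow_sub (by norm_num),
      Real.rpow_natCast, div_le_iff₀ (by positivity)] at h5
    simp only
    linarith
  · rintro ⟨i, W⟩ ⟨h1, h2, h3, h5⟩
    simp only at h1 h2 h3 h5
    have h4 := hg.leaf W h2 (by
      rw [eq_empty_iff_forall_notMem]
      intro v hv
      rw [mem_inter] at hv
      have h6 := h3 (SubBisC.rk (range a) v) (SubBisC.rk_lt hv.2) (SubBisC.rk_lt hv.2)
      rw [SubBisC.cs_rk hc.sub hv.2] at h6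
      exact h6 hv.1)
    simp only
    rw [h4]
    push_cast
    rfl
  · rintro j ⟨i, W⟩ b hj ⟨h1, h2, h3⟩
    have h4 := hg.up W h2
    have h5 : Real.logb 2 (ind adj W) ≤ 2 * n := by
      rw [Real.logb_le_iff_le_rpow (by norm_num) (hpos W)]
      have h6 : ind adj W ≤ 2 ^ (n + n) := (ind_le_two_pow W).trans
        (Nat.pow_le_pow_right (by norm_num) (by simpa using card_le_card h2))
      have h7 : (ind adj W : ℝ) ≤ 2 ^ (n + n) := by exact_mod_cast h6
      refine h7.trans (le_of_eq ?_)
      rw [← Real.rpow_natCast]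
      congr 1
      push_cast
      ring
    have h8 : (es W : ℝ) ≤ (dm : ℝ) := by linarith
    have h9 : es W ≤ dm := by exact_mod_cast h8
    simp only
    omega

open Pool.Agent.Lib.P7sG in
theorem RgH.goodA {n a d : ℕ} {adj sub : ℕ → ℕ → Bool} (h : RgH n a d adj sub) {δ η : ℝ}
    (h0 : 0 ≤ η) (h1 : η ≤ 1 / 4) {es : Finset ℕ → ℕ} (hg : GoodG n a d adj sub δ η es) {dm : ℕ}
    (hdm : 2 * n + δ ≤ dm) :
    P7sA.GoodA (chC n (range a) adj) (fun X => es X.2) (fun X => (ind adj X.2 : ℝ))
      (okC n (range a)) (range a).card dm ((2 : ℝ) ^ δ)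
      ((2 : ℝ) ^ δ * (2 : ℝ) ^ (12 * η * xH n a d sub)) (0, range (n + n)) := by
  refine goodA_of_goodP (h.goodP h0 hg hdm) ?_ ?_
  · refine ⟨rfl, Subset.rfl, fun l _ h2 => absurd h2 (by omega), fun l hl _ => ?_⟩
    have := cs_lt h.cov.sub hl
    exact mem_range.2 (by omega)
  · have h2 := h.root_bound h0 h1
    simp only
    rw [mul_assoc]
    exact mul_le_mul_of_nonneg_left h2 (by positivity)

end Pool.Agent.Lib.SubBisG
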