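import Pool.Agent.Lib.SubBisG.Defs
import Pool.Agent.Lib.SubBisE.ParT

/-!
# SubBisG.NumH (MP_a7c826_lc, Theorem T with defect): the parameters fit
-/

set_option autoImplicit false

open scoped BigOperators

namespace Pool.Agent.Lib.SubBisG

open Finset Pool.Agent.Lib.P7sG

namespace NumH

theorem log_le_two_sqrt {y : ℝ} (hy : 0 < y) : Real.log y ≤ 2 * Real.sqrt y := by
  have h1 : 0 < Real.sqrt y := Real.sqrt_pos.2 hy
  have h2 : Real.log y = 2 * Real.log (Real.sqrt y) := by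
    rw [Real.log_sqrt hy.le]
    ring
  have h3 := Real.log_le_sub_one_of_pos h1
  linarith

/-- The last two bounds, from the bounds for the exponents. -/
theorem last {a t : ℕ} {T Dl Et : ℝ} (hTdef : T = (lg t : ℝ)) (htT : (t : ℝ) ≤ 2 ^ T)
    (hT1 : 1000000 ≤ T) (ha : (a : ℝ) ≤ 2 ^ (T / 1000000)) (hdl : Dl ≤ 4 + T / 1000000)
    (het : Et ≤ T / 1000000) :
    8 * (((range a).card : ℝ) * ((2 : ℝ) ^ Dl * ((2 : ℝ) ^ Dl * (2 : ℝ) ^ Et)) *
      (t : ℝ) ^ 2) ≤ ((2 ^ kapS t : ℕ) : ℝ) ∧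
    2 * ((2 : ℝ) ^ Dl * ((2 : ℝ) ^ Dl * (2 : ℝ) ^ Et)) * ((2 ^ kapS t : ℕ) : ℝ) ≤
      (capS t : ℝ) := by
  have hab : (2 : ℝ) ^ Dl * ((2 : ℝ) ^ Dl * (2 : ℝ) ^ Et) ≤ 2 ^ (8 + 3 * T / 1000000) := by
    rw [← Real.rpow_add (by norm_num), ← Real.rpow_add (by norm_num)]
    apply Real.rpow_le_rpow_of_exponent_le (by norm_num)
    linarith
  have hkap : ((2 ^ kapS t : ℕ) : ℝ) = 2 ^ (4 * T) := by
    unfold kapS
    push_cast
    rw [← Real.rpow_natCast, hTdef]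
    push_cast
    rfl
  have hcap : ((capS t : ℕ) : ℝ) = 2 ^ (5 * T + 3) := by
    unfold capS
    push_cast
    rw [← Real.rpow_natCast, hTdef]
    push_cast
    rfl
  constructor
  · rw [hkap, card_range]
    have h2 : (t : ℝ) ^ 2 ≤ 2 ^ (2 * T) := by
      calc (t : ℝ) ^ 2 ≤ (2 ^ T) ^ 2 := pow_le_pow_left₀ (by positivity) htT 2
        _ = 2 ^ (2 * T) := by
            rw [← Real.rpow_natCast, ← Real.rpow_mul (by norm_num)]
            congr 1
            push_cast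
            ring
    have h8 : (8 : ℝ) = 2 ^ (3 : ℝ) := by norm_num
    calc 8 * ((a : ℝ) * ((2 : ℝ) ^ Dl * ((2 : ℝ) ^ Dl * (2 : ℝ) ^ Et)) * (t : ℝ) ^ 2)
        ≤ 8 * ((2 : ℝ) ^ (T / 1000000) * 2 ^ (8 + 3 * T / 1000000) * 2 ^ (2 * T)) := by
          gcongr
      _ = 2 ^ (3 + (T / 1000000 + (8 + 3 * T / 1000000) + 2 * T)) := by
          rw [h8, ← Real.rpow_add (by norm_num), ← Real.rpow_add (by norm_num),
            ← Real.rpow_add (by norm_num)]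
      _ ≤ 2 ^ (4 * T) := by
          apply Real.rpow_le_rpow_of_exponent_le (by norm_num)
          linarith
  · rw [hkap, hcap]
    calc 2 * ((2 : ℝ) ^ Dl * ((2 : ℝ) ^ Dl * (2 : ℝ) ^ Et)) * 2 ^ (4 * T)
        ≤ 2 * (2 ^ (8 + 3 * T / 1000000)) * 2 ^ (4 * T) := by
          gcongr
      _ = (2 : ℝ) ^ (1 : ℝ) * (2 ^ (8 + 3 * T / 1000000)) * 2 ^ (4 * T) := by
          rw [Real.rpow_one]
      _ = 2 ^ (1 + (8 + 3 * T / 1000000) + 4 * T) := by
          rw [← Real.rpow_add (by norm_num), ← Real.rpow_add (by norm_num)]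
      _ ≤ 2 ^ (5 * T + 3) := by
          apply Real.rpow_le_rpow_of_exponent_le (by norm_num)
          linarith

/-- the machine's choice of `q` is at least eleven times the cube root -/
theorem q_ge {n t : ℕ} {w l L T : ℝ} (hTdef : T = (lg t : ℝ)) (hLdef : L = ((n + 1).size : ℝ))
    (hw1 : 1 ≤ w) (hL1 : 1 ≤ L) (hL2 : L ≤ 2 * l) (hT : (2 : ℝ) ^ 20 * w * l ^ 2 ≤ T) :
    11 * w ≤ (qG n t : ℝ) ∧ w * L ≤ T / 108000 := by
  obtain ⟨y, hy⟩ : ∃ y : ℝ, y = T / (9000 * L ^ 2) := ⟨_, rfl⟩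
  have hLp : (0 : ℝ) < 9000 * L ^ 2 := by positivity
  have hyT : y * (9000 * L ^ 2) = T := by
    rw [hy]
    field_simp
  have hyx : 12 * w ≤ y := by
    rw [hy, le_div_iff₀ hLp]
    have h1 : L ^ 2 ≤ 4 * l ^ 2 := by nlinarith
    have h2 : w * L ^ 2 ≤ w * (4 * l ^ 2) := mul_le_mul_of_nonneg_left h1 (by linarith)
    have h3 : 0 ≤ w * l ^ 2 := by positivity
    calc 12 * w * (9000 * L ^ 2) = 108000 * (w * L ^ 2) := by ring
      _ ≤ 108000 * (w * (4 * l ^ 2)) := by linarith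
      _ = 432000 * (w * l ^ 2) := by ring
      _ ≤ (2 : ℝ) ^ 20 * (w * l ^ 2) := mul_le_mul_of_nonneg_right (by norm_num) h3
      _ = (2 : ℝ) ^ 20 * w * l ^ 2 := by ring
      _ ≤ T := hT
  have h1 : (lg t) < (lg t / (9000 * (n + 1).size ^ 2) + 1) * (9000 * (n + 1).size ^ 2) := by
    have h2 : 0 < 9000 * (n + 1).size ^ 2 := by
      have h3 : 0 < (n + 1).size := Nat.size_pos.2 (by omega)
      positivity
    calc lg t = 9000 * (n + 1).size ^ 2 * (lg t / (9000 * (n + 1).size ^ 2)) +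
          lg t % (9000 * (n + 1).size ^ 2) := (Nat.div_add_mod _ _).symm
      _ < 9000 * (n + 1).size ^ 2 * (lg t / (9000 * (n + 1).size ^ 2)) +
          9000 * (n + 1).size ^ 2 := Nat.add_lt_add_left (Nat.mod_lt _ h2) _
      _ = _ := by ring
  have h4 : T < ((qG n t : ℝ) + 1) * (9000 * L ^ 2) := by
    rw [hTdef, hLdef]
    unfold qG
    exact_mod_cast h1
  have h5 : y < (qG n t : ℝ) + 1 := by
    rw [hy, div_lt_iff₀ hLp]
    exact h4
  refine ⟨by linarith, ?_⟩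
  have h2 : w * L ≤ w * L ^ 2 := by
    apply mul_le_mul_of_nonneg_left _ (by linarith)
    nlinarith
  have h3 : w * L ^ 2 ≤ y / 12 * L ^ 2 := mul_le_mul_of_nonneg_right (by linarith) (by positivity)
  have h6 : y / 12 * L ^ 2 = T / 108000 := by
    rw [← hyT]
    ring
  linarith

/-- `dlG` and `etG` for a large `q` -/
theorem small {n a d q : ℕ} {x w L T : ℝ} (hd : 1 ≤ d) (hda : d ≤ a) (han : a ≤ n)
    (hx : (a : ℝ) / d ≤ x) (hw1 : 1 ≤ w) (hw3 : w ^ 3 = x) (hL1 : 1 ≤ L)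
    (hlog : Real.log (n + 1) ≤ L) (hq : 11 * w ≤ (q : ℝ)) (hwL : w * L ≤ T / 108000)
    (hT0 : 0 ≤ T) :
    2 * n + dlG n a d q ≤ ((10 * n + 5 : ℕ) : ℝ) ∧ dlG n a d q ≤ 4 + T / 1000000 ∧
      12 * etG q * x ≤ T / 1000000 := by
  have hd0 : (0 : ℝ) < d := by exact_mod_cast hd
  have hn1 : (1 : ℝ) ≤ n := by exact_mod_cast (by omega : 1 ≤ n)
  have hr : (1 : ℝ) ≤ (a : ℝ) / d := by
    rw [le_div_iff₀ hd0, one_mul]
    exact_mod_cast hda
  have hlog0 : 0 ≤ Real.log (n + 1) := Real.log_nonneg (by linarith)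
  have hq2p : (0 : ℝ) < (q : ℝ) ^ 2 := by
    have : (0 : ℝ) < q := by linarith
    positivity
  have hq2 : 121 * w ^ 2 ≤ (q : ℝ) ^ 2 := by
    have h1 : (11 * w) ^ 2 ≤ (q : ℝ) ^ 2 := pow_le_pow_left₀ (by linarith) hq 2
    calc 121 * w ^ 2 = (11 * w) ^ 2 := by ring
      _ ≤ _ := h1
  have hratx : x / (q : ℝ) ^ 2 ≤ w / 121 := by
    rw [← hw3, div_le_div_iff₀ hq2p (by norm_num)]
    calc w ^ 3 * 121 = w * (121 * w ^ 2) := by ring
      _ ≤ w * (q : ℝ) ^ 2 := mul_le_mul_of_nonneg_left hq2 (by linarith)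
  have hrat : ((a : ℝ) / d) / (q : ℝ) ^ 2 ≤ w / 121 :=
    (div_le_div_of_nonneg_right hx hq2p.le).trans hratx
  have hE : dlG n a d q = 4 + 2 * Real.log (n + 1) * (((a : ℝ) / d) / (q : ℝ) ^ 2) := by
    unfold dlG
    ring
  refine ⟨?_, ?_, ?_⟩
  · -- the cube root of `a / d`
    obtain ⟨v, hv⟩ : ∃ v : ℝ, v = ((a : ℝ) / d) ^ (1 / 3 : ℝ) := ⟨_, rfl⟩
    have hv1 : 1 ≤ v := by
      rw [hv]
      exact Real.one_le_rpow hr (by norm_num)
    have hv3 : v ^ 3 = (a : ℝ) / d := by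
      rw [hv, ← Real.rpow_natCast, ← Real.rpow_mul (by positivity)]
      norm_num
    have hvw : v ≤ w := by
      have h1 : v ^ 3 ≤ w ^ 3 := by
        rw [hv3, hw3]
        exact hx
      exact le_of_pow_le_pow_left₀ (by norm_num) (by linarith) h1
    have hratv : ((a : ℝ) / d) / (q : ℝ) ^ 2 ≤ v / 121 := by
      rw [← hv3, div_le_div_iff₀ hq2p (by norm_num)]
      have h1 : v ^ 2 ≤ w ^ 2 := pow_le_pow_left₀ (by linarith) hvw 2
      calc v ^ 3 * 121 = v * (121 * v ^ 2) := by ring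
        _ ≤ v * (q : ℝ) ^ 2 := mul_le_mul_of_nonneg_left (by linarith) (by linarith)
    rw [hE]
    push_cast
    obtain ⟨s, hs⟩ : ∃ s : ℝ, s = Real.sqrt ((n : ℝ) + 1) := ⟨_, rfl⟩
    have hs2 : s ^ 2 = n + 1 := by
      rw [hs]
      exact Real.sq_sqrt (by linarith)
    have hs0 : 0 ≤ s := by
      rw [hs]
      exact Real.sqrt_nonneg _
    have h1 : Real.log (n + 1) ≤ 2 * s := by
      rw [hs]
      exact log_le_two_sqrt (by linarith)
    have h2 : v ≤ s := by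
      rw [hs]
      apply Real.le_sqrt_of_sq_le
      have h3 : v ^ 2 ≤ v ^ 3 := pow_le_pow_right₀ hv1 (by norm_num)
      have h4 : (a : ℝ) / d ≤ n := by
        rw [div_le_iff₀ hd0]
        have h5 : (a : ℝ) ≤ n := by exact_mod_cast han
        have h6 : (1 : ℝ) ≤ d := by exact_mod_cast hd
        nlinarith
      linarith
    have h3 : 2 * Real.log (n + 1) * (((a : ℝ) / d) / (q : ℝ) ^ 2) ≤ 2 * (2 * s) * (s / 121) := by
      apply mul_le_mul (by linarith) (by linarith) (by positivity) (by positivity)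
    have h4 : 2 * (2 * s) * (s / 121) = 4 / 121 * (n + 1) := by
      rw [← hs2]
      ring
    rw [h4] at h3
    linarith
  · rw [hE]
    have h1 : 2 * Real.log (n + 1) * (((a : ℝ) / d) / (q : ℝ) ^ 2) ≤ 2 * L * (w / 121) := by
      apply mul_le_mul (by linarith) hrat (by positivity) (by linarith)
    have h2 : 2 * L * (w / 121) = 2 / 121 * (w * L) := by ring
    rw [h2] at h1
    linarith
  · have h1 : 12 * etG q * x = 3 / 2 * (x / (q : ℝ) ^ 2) := by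
      unfold etG
      ring
    rw [h1]
    have h2 : w ≤ w * L := le_mul_of_one_le_right (by linarith) hL1
    linarith

end NumH

/-- **The parameters fit.** -/
theorem par_H {n a d t : ℕ} {x : ℝ} (hd : 1 ≤ d) (hda : d ≤ a) (han : a ≤ n)
    (hx : (a : ℝ) / d ≤ x)
    (h : (2 : ℝ) ^ ((2 : ℝ) ^ 20 * x ^ (1 / 3 : ℝ) * Real.logb 2 ((n : ℝ) + 1) ^ 2) ≤ t) :
    1 ≤ qG n t ∧ 1 ≤ t ∧ 2 * n + dlG n a d (qG n t) ≤ ((10 * n + 5 : ℕ) : ℝ) ∧
      8 * (((range a).card : ℝ) * ((2 : ℝ) ^ dlG n a d (qG n t) *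
        ((2 : ℝ) ^ dlG n a d (qG n t) * (2 : ℝ) ^ (12 * etG (qG n t) * x))) *
          (t : ℝ) ^ 2) ≤ ((2 ^ kapS t : ℕ) : ℝ) ∧
      2 * ((2 : ℝ) ^ dlG n a d (qG n t) *
        ((2 : ℝ) ^ dlG n a d (qG n t) * (2 : ℝ) ^ (12 * etG (qG n t) * x))) *
          ((2 ^ kapS t : ℕ) : ℝ) ≤ (capS t : ℝ) := by
  have hd0 : (0 : ℝ) < d := by exact_mod_cast hd
  have hr : (1 : ℝ) ≤ (a : ℝ) / d := by
    rw [le_div_iff₀ hd0, one_mul]
    exact_mod_cast hda
  obtain ⟨w, hw⟩ : ∃ w : ℝ, w = x ^ (1 / 3 : ℝ) := ⟨_, rfl⟩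
  obtain ⟨l, hl⟩ : ∃ l : ℝ, l = Real.logb 2 ((n : ℝ) + 1) := ⟨_, rfl⟩
  rw [← hw, ← hl] at h
  have hx1 : 1 ≤ x := hr.trans hx
  have hw1 : 1 ≤ w := by
    rw [hw]
    exact Real.one_le_rpow hx1 (by norm_num)
  have hw3 : w ^ 3 = x := by
    rw [hw, ← Real.rpow_natCast, ← Real.rpow_mul (by linarith)]
    norm_num
  have hn1 : (1 : ℝ) ≤ n := by exact_mod_cast (by omega : 1 ≤ n)
  have hl1 : 1 ≤ l := by
    rw [hl, Real.le_logb_iff_rpow_le (by norm_num) (by linarith), Real.rpow_one]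
    linarith
  have hle : (2 : ℝ) ^ l = (n : ℝ) + 1 := by
    rw [hl]
    exact Real.rpow_logb (by norm_num) (by norm_num) (by linarith)
  have ht1 : 1 ≤ t := by
    have h1 : (1 : ℝ) ≤ 2 ^ ((2 : ℝ) ^ 20 * w * l ^ 2) :=
      Real.one_le_rpow (by norm_num) (by positivity)
    exact_mod_cast h1.trans h
  obtain ⟨T, hTdef⟩ : ∃ T : ℝ, T = (lg t : ℝ) := ⟨_, rfl⟩
  have htT : (t : ℝ) ≤ 2 ^ T := by
    have h1 := lt_two_pow_lg t
    rw [hTdef, Real.rpow_natCast]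
    exact_mod_cast h1.le
  have hT : (2 : ℝ) ^ 20 * w * l ^ 2 ≤ T :=
    (Real.rpow_le_rpow_left_iff (by norm_num : (1 : ℝ) < 2)).1 (h.trans htT)
  obtain ⟨L, hLdef⟩ : ∃ L : ℝ, L = ((n + 1).size : ℝ) := ⟨_, rfl⟩
  have hL1 : 1 ≤ L := by
    have h1 : 0 < (n + 1).size := Nat.size_pos.2 (by omega)
    rw [hLdef]
    exact_mod_cast h1
  have hL2 : L ≤ 2 * l := by
    have h1 := SubBisE.size_le_logb n
    rw [← hLdef, ← hl] at h1
    linarith
  have hlogL : Real.log (n + 1) ≤ L := by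
    have h1 : ((n + 1 : ℕ) : ℝ) ≤ 2 ^ (n + 1).size := by
      exact_mod_cast (Nat.lt_size_self (n + 1)).le
    have h2 : Real.log (n + 1) ≤ Real.log (2 ^ (n + 1).size) := by
      apply Real.log_le_log (by positivity)
      push_cast at h1
      exact h1
    rw [Real.log_pow, ← hLdef] at h2
    have h3 : Real.log 2 ≤ 1 := by
      have := Real.log_two_lt_d9
      linarith
    have h4 : L * Real.log 2 ≤ L := mul_le_of_le_one_right (by linarith) h3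
    linarith
  obtain ⟨hq, hwL⟩ := NumH.q_ge hTdef hLdef hw1 hL1 hL2 hT
  have hlT : l ≤ T / 1000000 := by
    have h0 : l ≤ l ^ 2 := by nlinarith
    have h1 : l ^ 2 ≤ w * l ^ 2 := le_mul_of_one_le_left (by positivity) hw1
    have h2 : (2 : ℝ) ^ 20 * (w * l ^ 2) ≤ T := by linarith
    have h3 : (1000000 : ℝ) ≤ 2 ^ 20 := by norm_num
    have h4 : 0 ≤ w * l ^ 2 := by positivity
    have h5 : (1000000 : ℝ) * (w * l ^ 2) ≤ 2 ^ 20 * (w * l ^ 2) :=
      mul_le_mul_of_nonneg_right h3 h4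
    linarith
  have hT1 : 1000000 ≤ T := by linarith
  obtain ⟨h3, h4, h5⟩ := NumH.small hd hda han hx hw1 hw3 hL1 hlogL hq hwL (by linarith)
  have hq1 : 1 ≤ qG n t := by
    have h1 : (1 : ℝ) ≤ (qG n t : ℝ) := by linarith
    exact_mod_cast h1
  have ha2 : (a : ℝ) ≤ 2 ^ (T / 1000000) := by
    have h6 : (a : ℝ) ≤ n := by exact_mod_cast han
    have h7 : (a : ℝ) ≤ 2 ^ l := by
      rw [hle]
      linarith
    exact h7.trans (Real.rpow_le_rpow_of_exponent_le (by norm_num) hlT)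
  obtain ⟨h6, h7⟩ := NumH.last hTdef htT hT1 ha2 h4 h5
  exact ⟨hq1, ht1, h3, h6, h7⟩

end Pool.Agent.Lib.SubBisG
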