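import Pool.Agent.Lib.SubBisG.SeedH
import Pool.Agent.Lib.SubBisG.GoodAH
import Pool.Agent.Lib.SubBisG.NumH
import Pool.Agent.Lib.SubBisG.PolyQ
import Pool.Agent.Lib.SubBisG.FinDefsH
import Pool.Agent.Lib.SubBisF.SysF
import Pool.Agent.Lib.SubBisX.RandLen

/-!
**Theorem.** For every bipartite graph with `n` vertices, `a ≥ 1` of them on the left, every
`1 ≤ d ≤ a` and every subgraph `H` of degree at most `d` the number of independent sets is
approximated within a factor `1 ± 1 / t` in randomised time polynomial in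
`2 ^ (x ^ (1 / 3) (log (n + 1)) ^ 2)`, `n` and `t`, where `x = a / d + (a - e(H) / d)`.
-/

set_option autoImplicit false

namespace Pool.Agent.Lib.SubBisG

open Finset Pool.Agent.Lib.PolyTime Pool.Agent.Lib.Pa7c826 Pool.Agent.Lib.Pa7c826t
open Pool.Agent.Lib.SubBisX Pool.Agent.Lib.P8e91ed.PT Pool.Agent.Lib.P7sG
open Pool.Agent.Lib.SubBisB Pool.Agent.Lib.SubBisC Pool.Agent.Lib.SubBisC.PolyAux

namespace FinH

/-! ### The graph -/

theorem cov_left (w : List Bool) : Cov (nOf w) (aOf w) (adjOf w) (range (aOf w)) where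
  han := by unfold nOf; omega
  symm := adjOf_symm w
  bip := FS.bip_w w
  lt := fun u v h => FS.adjOf_lt_nOf h
  sub := range_subset_range.2 (by unfold nOf; omega)
  cov := fun u v h => by
    rcases adjOf_bip h with h1 | h1
    · exact Or.inl (mem_range.2 h1.1)
    · exact Or.inr (mem_range.2 h1.1)

open Classical in
/-- the adjacency of the subgraph, in the numbering of the machine -/
noncomputable def sb (G : BGraph) (H : Fin G.a → Fin G.b → Bool) (u v : ℕ) : Bool :=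
  decide (∃ (i : Fin G.a) (j : Fin G.b), u = i ∧ v = G.a + j ∧ H i j = true)

variable {G : BGraph} {H : Fin G.a → Fin G.b → Bool} {d : ℕ}

theorem sb_iff {u v : ℕ} :
    sb G H u v = true ↔ ∃ (i : Fin G.a) (j : Fin G.b), u = i ∧ v = G.a + j ∧ H i j = true := by
  unfold sb
  rw [decide_eq_true_eq]

theorem card_row (H : Fin G.a → Fin G.b → Bool) {v : ℕ} (hv : v < G.a) :
    ((range (G.a + G.b)).filter fun b => sb G H v b = true).card =
      (univ.filter fun j => H ⟨v, hv⟩ j = true).card := by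
  refine (card_bij (fun (j : Fin G.b) _ => G.a + (j : ℕ)) ?_ ?_ ?_).symm
  · intro j hj
    rw [mem_filter] at hj ⊢
    refine ⟨mem_range.2 ?_, sb_iff.2 ⟨⟨v, hv⟩, j, rfl, rfl, hj.2⟩⟩
    have := j.2
    omega
  · intro j _ j' _ h
    exact Fin.ext (by simpa using h)
  · intro b hb
    obtain ⟨-, hb⟩ := mem_filter.1 hb
    obtain ⟨i, j, hi, rfl, h⟩ := sb_iff.1 hb
    refine ⟨j, mem_filter.2 ⟨mem_univ _, ?_⟩, rfl⟩
    have : i = ⟨v, hv⟩ := Fin.ext hi.symm
    rwa [this] at h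

theorem card_col (h3 : ∀ j, (univ.filter fun i => H i j = true).card ≤ d) (b : ℕ) :
    ((range G.a).filter fun v => sb G H v b = true).card ≤ d := by
  rcases Classical.em (∃ j : Fin G.b, b = G.a + j) with ⟨j, rfl⟩ | hb
  · refine le_trans ?_ (h3 j)
    refine card_le_card_of_surjOn (fun i : Fin G.a => (i : ℕ)) ?_
    intro v hv
    obtain ⟨-, hv⟩ := mem_filter.1 (mem_coe.1 hv)
    obtain ⟨i, j', rfl, hj, h⟩ := sb_iff.1 hv
    have : j = j' := Fin.ext (by omega)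
    subst this
    exact ⟨i, mem_coe.2 (mem_filter.2 ⟨mem_univ _, h⟩), rfl⟩
  · have : ((range G.a).filter fun v => sb G H v b = true) = ∅ := by
      rw [filter_eq_empty_iff]
      intro v _ h
      obtain ⟨i, j, _, hj, _⟩ := sb_iff.1 h
      exact hb ⟨j, hj⟩
    rw [this, card_empty]
    exact Nat.zero_le _

/-- the subgraph, in the numbering of the machine -/
theorem rgH_of {t : ℕ} (hd : 1 ≤ d) (hH : SubDeg G d H) :
    RgH (G.a + G.b) G.a d (adjOf (inCode G t)) (sb G H) := by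
  obtain ⟨h1, h2, h3⟩ := hH
  have hcov := cov_left (inCode G t)
  rw [nOf_inCode, aOf_inCode] at hcov
  refine ⟨hcov, hd, ?_, fun v hv => ?_, card_col h3⟩
  · intro u v h
    obtain ⟨i, j, rfl, rfl, h'⟩ := sb_iff.1 h
    rw [adjOf_lr]
    exact h1 i j h'
  · rw [card_row H hv]
    exact h2 _

theorem edges_eq_sum {a b : ℕ} (H : Fin a → Fin b → Bool) :
    edges H = ∑ i, (univ.filter fun j => H i j = true).card := by
  unfold edges
  rw [card_filter, Fintype.sum_prod_type]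
  exact sum_congr rfl fun i _ => (card_filter _ _).symm

theorem edH_eq (H : Fin G.a → Fin G.b → Bool) :
    ∑ v ∈ range G.a, (((range (G.a + G.b)).filter fun b => sb G H v b = true).card : ℝ) =
      edges H := by
  rw [edges_eq_sum, ← Fin.sum_univ_eq_sum_range (fun v =>
    (((range (G.a + G.b)).filter fun b => sb G H v b = true).card : ℝ)), Nat.cast_sum]
  exact sum_congr rfl fun i _ => by rw [card_row H i.2]

theorem edges_le (hH : SubDeg G d H) : edges H ≤ d * G.a := by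
  rw [edges_eq_sum]
  refine (sum_le_card_nsmul _ _ d fun i _ => hH.2.1 i).trans ?_
  rw [card_univ, Fintype.card_fin, smul_eq_mul, mul_comm]

theorem xH_eq (hd : 1 ≤ d) (H : Fin G.a → Fin G.b → Bool) :
    xH (G.a + G.b) G.a d (sb G H) =
      ((G.a : ℝ) + ((d : ℝ) * G.a - edges H)) / d := by
  have hd0 : (0 : ℝ) < d := by exact_mod_cast hd
  unfold xH
  rw [edH_eq]
  field_simp

/-! ### Probability -/

/-- **The answer is good with probability three quarters.** -/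
theorem goodT {t : ℕ} {sub : ℕ → ℕ → Bool}
    (h : RgH (G.a + G.b) G.a d (adjOf (inCode G t)) sub)
    (hq : 1 ≤ qG (G.a + G.b) t) (ht : 1 ≤ t)
    (hdm : 2 * (G.a + G.b : ℕ) + dlG (G.a + G.b) G.a d (qG (G.a + G.b) t) ≤
      ((10 * (G.a + G.b) + 5 : ℕ) : ℝ))
    (hK : 8 * (((range G.a).card : ℝ) * ((2 : ℝ) ^ dlG (G.a + G.b) G.a d (qG (G.a + G.b) t) *
        ((2 : ℝ) ^ dlG (G.a + G.b) G.a d (qG (G.a + G.b) t) *
          (2 : ℝ) ^ (12 * etG (qG (G.a + G.b) t) * xH (G.a + G.b) G.a d sub))) *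
          (t : ℝ) ^ 2) ≤ ((2 ^ kapS t : ℕ) : ℝ))
    (hcap : 2 * ((2 : ℝ) ^ dlG (G.a + G.b) G.a d (qG (G.a + G.b) t) *
        ((2 : ℝ) ^ dlG (G.a + G.b) G.a d (qG (G.a + G.b) t) *
          (2 : ℝ) ^ (12 * etG (qG (G.a + G.b) t) * xH (G.a + G.b) G.a d sub))) *
          ((2 ^ kapS t : ℕ) : ℝ) ≤ (capS t : ℝ))
    {m : ℕ} (hm : needG (G.a + G.b) G.a (qG (G.a + G.b) t) t ≤ m) :
    3 * 2 ^ m ≤ 4 * Nat.card {r : Fin m → Bool // Pa7c826.Good G t
      (ansG (G.a + G.b) G.a (adjOf (inCode G t)) (qG (G.a + G.b) t) t (List.ofFn r))} := by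
  classical
  set n := G.a + G.b with hn
  set q := qG n t with hqd
  have ht1 : (1 : ℝ) ≤ t := by exact_mod_cast ht
  have ht0 : (0 : ℝ) < t := by linarith
  have hq0 : (0 : ℝ) < q := by exact_mod_cast hq
  have hq1 : (1 : ℝ) ≤ q := by exact_mod_cast hq
  have he0 : 0 ≤ etG q := by
    unfold etG
    positivity
  have he1 : etG q ≤ 1 / 4 := by
    unfold etG
    rw [div_le_div_iff₀ (by positivity) (by norm_num)]
    nlinarith
  have : Nonempty (Fin (KG n) → CpG (range G.a).card n q) :=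
    ⟨decG (range G.a).card n q fun _ => false⟩
  have key := P7sA.prob_SA (S := Fin (KG n) → CpG (range G.a).card n q)
    (L := offG (range G.a).card n q) (dec := decG (range G.a).card n q)
    (SubBisF.Mach.unif_decF _ _ _ _ _ _)
    (bad := fun s => ¬ GoodG n G.a d (adjOf (inCode G t)) sub (dlG n G.a d q) (etG q)
      (esG n G.a (adjOf (inCode G t)) q s))
    (by
      have h1 := good_seedsH hq h
      convert h1)
    (ch := chC n (range G.a) (adjOf (inCode G t)))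
    (e := fun s X => esG n G.a (adjOf (inCode G t)) q s X.2)
    (Z := fun X => (ind (adjOf (inCode G t)) X.2 : ℝ)) (ok := okC n (range G.a))
    (lev := (range G.a).card) (dm := 10 * n + 5) (α := (2 : ℝ) ^ dlG n G.a d q)
    (β := (2 : ℝ) ^ dlG n G.a d q * (2 : ℝ) ^ (12 * etG q * xH n G.a d sub))
    (root := (0, range (n + n)))
    (fun s hs => h.goodA he0 he1 (not_not.1 hs) hdm) (K := 2 ^ kapS t) (cap := capS t)
    (m := m) (t := (t : ℝ)) ht1 (by positivity) hK hcap hm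
  refine key.trans (Nat.mul_le_mul_left 4 ?_)
  rw [Nat.card_eq_fintype_card, Fintype.card_subtype]
  refine card_le_card ?_
  intro r hr
  rw [mem_filter] at hr ⊢
  refine ⟨mem_univ _, ?_⟩
  have h3 := hr.2
  have hr2 := h.cov.ind_range n
  simp only [hr2] at h3
  rw [ind_eq_numIndep] at h3
  unfold Pa7c826.Good ansG
  rw [outVal_outN]
  set Z := numIndep G.graph
  have h3' : |(cntT n G.a (adjOf (inCode G t)) q (2 ^ kapS t) (capS t) (List.ofFn r) : ℝ) *
      2 ^ esT n G.a (adjOf (inCode G t)) q (List.ofFn r) (range (n + n)) -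
      ((2 ^ kapS t : ℕ) : ℝ) * ((2 ^ n * Z : ℕ) : ℝ)| ≤
      ((2 ^ kapS t : ℕ) : ℝ) * ((2 ^ n * Z : ℕ) : ℝ) / t := h3
  set c := cntT n G.a (adjOf (inCode G t)) q (2 ^ kapS t) (capS t) (List.ofFn r)
  set e := esT n G.a (adjOf (inCode G t)) q (List.ofFn r) (range (n + n))
  have h4 : (|(c : ℝ) * 2 ^ e / 2 ^ (kapS t + n) - Z| : ℝ) ≤ Z / t := by
    have hK : (0 : ℝ) < 2 ^ (kapS t + n) := by positivity
    push_cast at h3'
    have e1 : (c : ℝ) * 2 ^ e / 2 ^ (kapS t + n) - Z =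
        ((c : ℝ) * 2 ^ e - 2 ^ kapS t * (2 ^ n * Z)) / 2 ^ (kapS t + n) := by
      rw [pow_add]
      field_simp
    rw [e1, abs_div, abs_of_pos hK, div_le_iff₀ hK]
    refine h3'.trans (le_of_eq ?_)
    rw [pow_add]
    ring
  have h5 : ((|(c : ℚ) * 2 ^ e / 2 ^ (kapS t + n) - Z| : ℚ) : ℝ) ≤ ((Z / t : ℚ) : ℝ) := by
    push_cast
    exact h4
  exact_mod_cast h5

end FinH

/-! ### The theorem -/

/-- The promise. -/
def PTH (G : BGraph) (s : ℕ) : Prop :=
  ∃ (d : ℕ) (H : Fin G.a → Fin G.b → Bool), 1 ≤ d ∧ d ≤ G.a ∧ SubDeg G d H ∧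
    (2 : ℝ) ^ ((2 : ℝ) ^ 20 * (((G.a : ℝ) + ((d : ℝ) * G.a - edges H)) / d) ^ (1 / 3 : ℝ) *
      Real.logb 2 (((G.a + G.b : ℕ) : ℝ) + 1) ^ 2) ≤ s

theorem PTH_mono (G : BGraph) (s s' : ℕ) (hs : s ≤ s') (h : PTH G s) : PTH G s' := by
  obtain ⟨d, H, h1, h2, h3, h4⟩ := h
  exact ⟨d, H, h1, h2, h3, h4.trans (by exact_mod_cast hs)⟩

open FinH in
theorem hasRApx_PTH : Pa7c826m.HasRApx PTH := by
  refine hasRApx_of
    (need := fun G t => needG (G.a + G.b) G.a (qG (G.a + G.b) t) t)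
    (out := fun G t r => ansG (G.a + G.b) G.a (adjOf (inCode G t)) (qG (G.a + G.b) t) t r)
    ?_ ?_ ?_
  · have hw : PolyC (fun x : BGraph × ℕ => PTH x.1 x.2 ∧ 1 ≤ x.2) [fun x => inCode x.1 x.2]
        (fun x => inCode x.1 x.2) := PolyC.var (by simp)
    have ht : PolyN (fun x : BGraph × ℕ => PTH x.1 x.2 ∧ 1 ≤ x.2) [fun x => inCode x.1 x.2]
        (fun x => x.2) := (poly_tOf hw).congr (fun x _ => tOf_inCode x.1 x.2)
    refine (poly_needG (poly_aOf hw) (qcomp_qG (poly_nOf hw) ht fun x hx => hx.2) ht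
      (fun x hx => hx.2)).congr (fun x _ => ?_)
    simp only [nOf_inCode, aOf_inCode]
  · have hw : PolyC (fun x : BGraph × ℕ × List Bool => PTH x.1 x.2.1 ∧ 1 ≤ x.2.1 ∧
        needG (x.1.a + x.1.b) x.1.a (qG (x.1.a + x.1.b) x.2.1) x.2.1 ≤ x.2.2.length)
        [fun x => inCode x.1 x.2.1, fun x => x.2.2] (fun x => inCode x.1 x.2.1) :=
      PolyC.var (by simp)
    have hr : PolyC (fun x : BGraph × ℕ × List Bool => PTH x.1 x.2.1 ∧ 1 ≤ x.2.1 ∧
        needG (x.1.a + x.1.b) x.1.a (qG (x.1.a + x.1.b) x.2.1) x.2.1 ≤ x.2.2.length)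
        [fun x => inCode x.1 x.2.1, fun x => x.2.2] (fun x => x.2.2) :=
      PolyC.var (by simp)
    have ht : PolyN (fun x : BGraph × ℕ × List Bool => PTH x.1 x.2.1 ∧ 1 ≤ x.2.1 ∧
        needG (x.1.a + x.1.b) x.1.a (qG (x.1.a + x.1.b) x.2.1) x.2.1 ≤ x.2.2.length)
        [fun x => inCode x.1 x.2.1, fun x => x.2.2] (fun x => x.2.1) :=
      (poly_tOf hw).congr (fun x _ => tOf_inCode x.1 x.2.1)
    refine (poly_ansG hw (fun x _ => cov_left _) (qcomp_qG (poly_nOf hw) ht fun x hx => hx.2.1) ht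
      (fun x hx => hx.2.1) hr).congr (fun x _ => ?_)
    simp only [nOf_inCode, aOf_inCode]
  · intro G t hP ht N hN
    obtain ⟨d, H, hd, hda, hH, h4⟩ := hP
    rw [← xH_eq hd H] at h4
    obtain ⟨p1, _, p3, p4, p5⟩ := par_H (n := G.a + G.b) (a := G.a) (d := d) (t := t) hd hda
      (by omega) (rgH_of (t := t) hd hH).le_xH h4
    exact FinH.goodT (rgH_of hd hH) p1 ht p3 p4 p5 hN

/-- **Theorem.** -/
theorem hasRTimeP_PTH : HasRTimeP PTH := hasRTimeP_of PTH_mono hasRApx_PTH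

end Pool.Agent.Lib.SubBisG
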