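import Pool.Agent.Lib.SubBisG.NumH

/-!
# SubBisG.NumY (MP_a7c826_lc, Theorem T with defect): the parameters fit, with the power 5 / 3
-/

set_option autoImplicit false

open scoped BigOperators

namespace Pool.Agent.Lib.SubBisG

open Finset Pool.Agent.Lib.P7sG

namespace NumY

/-- the machine's choice of `q` is at least `28 p / m` -/
theorem q_ge {n t : ℕ} {p m T : ℝ} (hTdef : T = (lg t : ℝ)) (hm1 : 1 ≤ m) (hmp : m ≤ p)
    (hL : ((n + 1).size : ℝ) ≤ 2 * m ^ 3) (hT : (2 : ℝ) ^ 20 * (p * m ^ 5) ≤ T) :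
    28 * p ≤ (qG n t : ℝ) * m := by
  obtain ⟨L, hLdef⟩ : ∃ L : ℝ, L = ((n + 1).size : ℝ) := ⟨_, rfl⟩
  rw [← hLdef] at hL
  have hm0 : 0 < m := by linarith
  have hL0 : 0 ≤ L := by
    rw [hLdef]
    positivity
  have h1 : (lg t) < (lg t / (9000 * (n + 1).size ^ 2) + 1) * (9000 * (n + 1).size ^ 2) := by
    have h2 : 0 < 9000 * (n + 1).size ^ 2 := by
      have h3 : 0 < (n + 1).size := Nat.size_pos.2 (by omega)
      positivity
    calc lg t = 9000 * (n + 1).size ^ 2 * (lg t / (9000 * (n + 1).size ^ 2)) +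
          lg t % (9000 * (n + 1).size ^ 2) := (Nat.div_add_mod _ _).symm
      _ < 9000 * (n + 1).size ^ 2 * (lg t / (9000 * (n + 1).size ^ 2)) +
          9000 * (n + 1).size ^ 2 := Nat.add_lt_add_left (Nat.mod_lt _ h2) _
      _ = _ := by ring
  have h4 : T < ((qG n t : ℝ) + 1) * (9000 * L ^ 2) := by
    rw [hTdef, hLdef]
    unfold qG
    exact_mod_cast h1
  have hL2 : L ^ 2 ≤ 4 * m ^ 6 := by
    calc L ^ 2 ≤ (2 * m ^ 3) ^ 2 := pow_le_pow_left₀ hL0 hL 2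
      _ = 4 * m ^ 6 := by ring
  have h5 : (2 : ℝ) ^ 20 * (p * m ^ 5) < ((qG n t : ℝ) + 1) * (9000 * (4 * m ^ 6)) := by
    refine (hT.trans_lt h4).trans_le ?_
    gcongr
  have h6 : m ^ 5 * ((2 : ℝ) ^ 20 * p) < m ^ 5 * (((qG n t : ℝ) + 1) * (36000 * m)) := by
    calc m ^ 5 * ((2 : ℝ) ^ 20 * p) = (2 : ℝ) ^ 20 * (p * m ^ 5) := by ring
      _ < ((qG n t : ℝ) + 1) * (9000 * (4 * m ^ 6)) := h5
      _ = _ := by ring
  have h7 : (2 : ℝ) ^ 20 * p < ((qG n t : ℝ) + 1) * (36000 * m) :=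
    lt_of_mul_lt_mul_left h6 (by positivity)
  have h8 : (29 * 36000 : ℝ) ≤ 2 ^ 20 := by norm_num
  have h9 : (29 * 36000 : ℝ) * p ≤ 2 ^ 20 * p := mul_le_mul_of_nonneg_right h8 (by linarith)
  have h10 : 36000 * (29 * p) < 36000 * (((qG n t : ℝ) + 1) * m) := by
    calc 36000 * (29 * p) = (29 * 36000 : ℝ) * p := by ring
      _ ≤ 2 ^ 20 * p := h9
      _ < ((qG n t : ℝ) + 1) * (36000 * m) := h7
      _ = _ := by ring
  have h11 : 29 * p < ((qG n t : ℝ) + 1) * m := lt_of_mul_lt_mul_left h10 (by norm_num)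
  linarith

/-- the fifth power of the logarithm is small -/
theorem pow_log {n : ℕ} {m : ℝ} (hm0 : 0 ≤ m)
    (hm : m ^ 3 = Real.logb 2 ((n : ℝ) + 1)) : m ^ 15 ≤ 125 * ((n : ℝ) + 1) ^ 2 := by
  have hl0 : 0 ≤ m ^ 3 := by positivity
  have h1 := Real.pow_div_factorial_le_exp (m ^ 3) hl0 5
  have hf : ((Nat.factorial 5 : ℕ) : ℝ) = 120 := by
    norm_num [Nat.factorial]
  rw [hf] at h1
  have h2 : (m ^ 3) ^ 5 ≤ 120 * Real.exp (m ^ 3) := by
    have h3 : (0 : ℝ) < 120 := by norm_num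
    rw [div_le_iff₀ h3] at h1
    linarith
  have hlog2 : (1 : ℝ) / 2 ≤ Real.log 2 := by
    have := Real.log_two_gt_d9
    linarith
  have hn0 : (0 : ℝ) < (n : ℝ) + 1 := by positivity
  have h4 : Real.exp (m ^ 3) ≤ ((n : ℝ) + 1) ^ 2 := by
    have h5 : m ^ 3 * Real.log 2 = Real.log ((n : ℝ) + 1) := by
      rw [hm]
      unfold Real.logb
      have : Real.log 2 ≠ 0 := by linarith
      field_simp
    have h6 : m ^ 3 ≤ 2 * Real.log ((n : ℝ) + 1) := by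
      rw [← h5]
      have : m ^ 3 * (1 / 2) ≤ m ^ 3 * Real.log 2 := mul_le_mul_of_nonneg_left hlog2 hl0
      linarith
    calc Real.exp (m ^ 3) ≤ Real.exp (2 * Real.log ((n : ℝ) + 1)) := Real.exp_le_exp.2 h6
      _ = ((n : ℝ) + 1) ^ 2 := by
          rw [two_mul, Real.exp_add, Real.exp_log hn0]
          ring
  calc m ^ 15 = (m ^ 3) ^ 5 := by ring
    _ ≤ 120 * Real.exp (m ^ 3) := h2
    _ ≤ 120 * ((n : ℝ) + 1) ^ 2 := mul_le_mul_of_nonneg_left h4 (by norm_num)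
    _ ≤ 125 * ((n : ℝ) + 1) ^ 2 := mul_le_mul_of_nonneg_right (by norm_num) (by positivity)

/-- `dlG` and `etG` for a large `q` -/
theorem small {n a d q : ℕ} {x p m T : ℝ} (hd : 1 ≤ d) (hda : d ≤ a) (han : a ≤ n)
    (hx : (a : ℝ) / d ≤ x) (hxp : x ≤ p ^ 3) (hm1 : 1 ≤ m) (hmp : m ≤ p)
    (hm : m ^ 3 = Real.logb 2 ((n : ℝ) + 1)) (hlog : Real.log (n + 1) ≤ m ^ 3)
    (hq : 28 * p ≤ (q : ℝ) * m) (hT : (2 : ℝ) ^ 20 * (p * m ^ 5) ≤ T) :
    2 * n + dlG n a d q ≤ ((10 * n + 5 : ℕ) : ℝ) ∧ dlG n a d q ≤ 4 + T / 1000000 ∧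
      12 * etG q * x ≤ T / 1000000 := by
  have hd0 : (0 : ℝ) < d := by exact_mod_cast hd
  have hn1 : (1 : ℝ) ≤ n := by exact_mod_cast (by omega : 1 ≤ n)
  have hp1 : 1 ≤ p := hm1.trans hmp
  have hm0 : 0 < m := by linarith
  have hr : (1 : ℝ) ≤ (a : ℝ) / d := by
    rw [le_div_iff₀ hd0, one_mul]
    exact_mod_cast hda
  have hlog0 : 0 ≤ Real.log (n + 1) := Real.log_nonneg (by linarith)
  have hq0 : (0 : ℝ) < q := by
    have h1 : 0 < (q : ℝ) * m := by linarith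
    exact (pos_iff_pos_of_mul_pos h1).2 hm0
  have hq2p : (0 : ℝ) < (q : ℝ) ^ 2 := by positivity
  have hq2 : 784 * p ^ 2 ≤ (q : ℝ) ^ 2 * m ^ 2 := by
    have h1 : (28 * p) ^ 2 ≤ ((q : ℝ) * m) ^ 2 := pow_le_pow_left₀ (by linarith) hq 2
    calc 784 * p ^ 2 = (28 * p) ^ 2 := by ring
      _ ≤ _ := h1
      _ = _ := by ring
  have gen : ∀ w z : ℝ, 0 ≤ w → w ≤ p → z ≤ w ^ 3 → z / (q : ℝ) ^ 2 ≤ w * m ^ 2 / 784 := by
    intro w z hw0 hwp hz
    rw [div_le_div_iff₀ hq2p (by norm_num)]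
    have h1 : w ^ 2 ≤ p ^ 2 := pow_le_pow_left₀ hw0 hwp 2
    calc z * 784 ≤ w ^ 3 * 784 := mul_le_mul_of_nonneg_right hz (by norm_num)
      _ = w * (784 * w ^ 2) := by ring
      _ ≤ w * (784 * p ^ 2) := by gcongr
      _ ≤ w * ((q : ℝ) ^ 2 * m ^ 2) := mul_le_mul_of_nonneg_left hq2 hw0
      _ = w * m ^ 2 * (q : ℝ) ^ 2 := by ring
  have hratx : x / (q : ℝ) ^ 2 ≤ p * m ^ 2 / 784 := gen p x (by linarith) le_rfl hxp
  have hrat : ((a : ℝ) / d) / (q : ℝ) ^ 2 ≤ p * m ^ 2 / 784 :=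
    (div_le_div_of_nonneg_right hx hq2p.le).trans hratx
  have hE : dlG n a d q = 4 + 2 * (Real.log (n + 1) * (((a : ℝ) / d) / (q : ℝ) ^ 2)) := by
    unfold dlG
    ring
  have hpm : 0 ≤ p * m ^ 5 := by positivity
  refine ⟨?_, ?_, ?_⟩
  · -- the cube root of `a / d`
    obtain ⟨v, hv⟩ : ∃ v : ℝ, v = ((a : ℝ) / d) ^ (1 / 3 : ℝ) := ⟨_, rfl⟩
    have hv1 : 1 ≤ v := by
      rw [hv]
      exact Real.one_le_rpow hr (by norm_num)
    have hv3 : v ^ 3 = (a : ℝ) / d := by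
      rw [hv, ← Real.rpow_natCast, ← Real.rpow_mul (by positivity)]
      norm_num
    have hvp : v ≤ p := by
      have h1 : v ^ 3 ≤ p ^ 3 := by
        rw [hv3]
        exact hx.trans hxp
      exact le_of_pow_le_pow_left₀ (by norm_num) (by linarith) h1
    have hratv := gen v ((a : ℝ) / d) (by linarith) hvp hv3.ge
    have h15 := pow_log hm0.le hm
    have hvn : v ^ 3 ≤ (n : ℝ) + 1 := by
      rw [hv3, div_le_iff₀ hd0]
      have h5 : (a : ℝ) ≤ n := by exact_mod_cast han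
      have h6 : (1 : ℝ) ≤ d := by exact_mod_cast hd
      nlinarith
    have hvm : v * m ^ 5 ≤ 5 * ((n : ℝ) + 1) := by
      have h1 : (v * m ^ 5) ^ 3 ≤ (5 * ((n : ℝ) + 1)) ^ 3 := by
        calc (v * m ^ 5) ^ 3 = v ^ 3 * m ^ 15 := by ring
          _ ≤ ((n : ℝ) + 1) * (125 * ((n : ℝ) + 1) ^ 2) := by
              apply mul_le_mul hvn h15 (by positivity) (by positivity)
          _ = (5 * ((n : ℝ) + 1)) ^ 3 := by ring
      exact le_of_pow_le_pow_left₀ (by norm_num) (by positivity) h1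
    rw [hE]
    push_cast
    have h3 : Real.log (n + 1) * (((a : ℝ) / d) / (q : ℝ) ^ 2) ≤ m ^ 3 * (v * m ^ 2 / 784) := by
      apply mul_le_mul hlog hratv (by positivity) (by positivity)
    have h4 : m ^ 3 * (v * m ^ 2 / 784) = (v * m ^ 5) / 784 := by ring
    rw [h4] at h3
    linarith
  · rw [hE]
    have h3 : Real.log (n + 1) * (((a : ℝ) / d) / (q : ℝ) ^ 2) ≤ m ^ 3 * (p * m ^ 2 / 784) := by
      apply mul_le_mul hlog hrat (by positivity) (by positivity)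
    have h4 : m ^ 3 * (p * m ^ 2 / 784) = (p * m ^ 5) / 784 := by ring
    rw [h4] at h3
    have h5 : (2 : ℝ) ^ 20 = 1048576 := by norm_num
    rw [h5] at hT
    linarith
  · have h1 : 12 * etG q * x = 3 / 2 * (x / (q : ℝ) ^ 2) := by
      unfold etG
      ring
    rw [h1]
    have h2 : p * m ^ 2 ≤ p * m ^ 5 := by
      apply mul_le_mul_of_nonneg_left _ (by linarith)
      exact pow_le_pow_right₀ hm1 (by norm_num)
    have h5 : (2 : ℝ) ^ 20 = 1048576 := by norm_num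
    rw [h5] at hT
    linarith

end NumY

/-- **The parameters fit.** -/
theorem par_Y {n a d t : ℕ} {x y : ℝ} (hd : 1 ≤ d) (hda : d ≤ a) (han : a ≤ n)
    (hx : (a : ℝ) / d ≤ x) (hxy : x ≤ y) (hL : Real.logb 2 ((n : ℝ) + 1) ≤ y)
    (h : (2 : ℝ) ^ ((2 : ℝ) ^ 20 * y ^ (1 / 3 : ℝ) *
      Real.logb 2 ((n : ℝ) + 1) ^ (5 / 3 : ℝ)) ≤ t) :
    1 ≤ qG n t ∧ 1 ≤ t ∧ 2 * n + dlG n a d (qG n t) ≤ ((10 * n + 5 : ℕ) : ℝ) ∧
      8 * (((range a).card : ℝ) * ((2 : ℝ) ^ dlG n a d (qG n t) *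
        ((2 : ℝ) ^ dlG n a d (qG n t) * (2 : ℝ) ^ (12 * etG (qG n t) * x))) *
          (t : ℝ) ^ 2) ≤ ((2 ^ kapS t : ℕ) : ℝ) ∧
      2 * ((2 : ℝ) ^ dlG n a d (qG n t) *
        ((2 : ℝ) ^ dlG n a d (qG n t) * (2 : ℝ) ^ (12 * etG (qG n t) * x))) *
          ((2 ^ kapS t : ℕ) : ℝ) ≤ (capS t : ℝ) := by
  have hd0 : (0 : ℝ) < d := by exact_mod_cast hd
  have hr : (1 : ℝ) ≤ (a : ℝ) / d := by
    rw [le_div_iff₀ hd0, one_mul]
    exact_mod_cast hda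
  have hy1 : 1 ≤ y := hr.trans (hx.trans hxy)
  have hn1 : (1 : ℝ) ≤ n := by exact_mod_cast (by omega : 1 ≤ n)
  obtain ⟨l, hl⟩ : ∃ l : ℝ, l = Real.logb 2 ((n : ℝ) + 1) := ⟨_, rfl⟩
  have hl1 : 1 ≤ l := by
    rw [hl, Real.le_logb_iff_rpow_le (by norm_num) (by linarith), Real.rpow_one]
    linarith
  have hle : (2 : ℝ) ^ l = (n : ℝ) + 1 := by
    rw [hl]
    exact Real.rpow_logb (by norm_num) (by norm_num) (by linarith)
  obtain ⟨p, hp⟩ : ∃ p : ℝ, p = y ^ (1 / 3 : ℝ) := ⟨_, rfl⟩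
  obtain ⟨m, hm⟩ : ∃ m : ℝ, m = l ^ (1 / 3 : ℝ) := ⟨_, rfl⟩
  have hp3 : p ^ 3 = y := by
    rw [hp, ← Real.rpow_natCast, ← Real.rpow_mul (by linarith)]
    norm_num
  have hm3 : m ^ 3 = l := by
    rw [hm, ← Real.rpow_natCast, ← Real.rpow_mul (by linarith)]
    norm_num
  have hm5 : l ^ (5 / 3 : ℝ) = m ^ 5 := by
    rw [hm, ← Real.rpow_natCast, ← Real.rpow_mul (by linarith)]
    norm_num
  have hm1 : 1 ≤ m := by
    rw [hm]
    exact Real.one_le_rpow hl1 (by norm_num)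
  have hmp : m ≤ p := by
    rw [hm, hp]
    apply Real.rpow_le_rpow (by linarith) _ (by norm_num)
    rw [hl]
    exact hL
  have hp1 : 1 ≤ p := hm1.trans hmp
  rw [← hp, ← hl, hm5, mul_assoc] at h
  have ht1 : 1 ≤ t := by
    have h1 : (1 : ℝ) ≤ 2 ^ ((2 : ℝ) ^ 20 * (p * m ^ 5)) :=
      Real.one_le_rpow (by norm_num) (by positivity)
    exact_mod_cast h1.trans h
  obtain ⟨T, hTdef⟩ : ∃ T : ℝ, T = (lg t : ℝ) := ⟨_, rfl⟩
  have htT : (t : ℝ) ≤ 2 ^ T := by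
    have h1 := lt_two_pow_lg t
    rw [hTdef, Real.rpow_natCast]
    exact_mod_cast h1.le
  have hT : (2 : ℝ) ^ 20 * (p * m ^ 5) ≤ T :=
    (Real.rpow_le_rpow_left_iff (by norm_num : (1 : ℝ) < 2)).1 (h.trans htT)
  have hsz : ((n + 1).size : ℝ) ≤ 2 * m ^ 3 := by
    have h1 := SubBisE.size_le_logb n
    rw [← hl] at h1
    rw [hm3]
    linarith
  have hlogl : Real.log (n + 1) ≤ m ^ 3 := by
    rw [hm3, hl]
    unfold Real.logb
    rw [le_div_iff₀ (Real.log_pos (by norm_num))]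
    have h5 : Real.log 2 ≤ 1 := by
      have := Real.log_two_lt_d9
      linarith
    have h6 : 0 ≤ Real.log ((n : ℝ) + 1) := Real.log_nonneg (by linarith)
    exact mul_le_of_le_one_right h6 h5
  have hq := NumY.q_ge hTdef hm1 hmp hsz hT
  have hlT : l ≤ T / 1000000 := by
    have h0 : m ^ 3 ≤ m ^ 5 := pow_le_pow_right₀ hm1 (by norm_num)
    have h1 : m ^ 5 ≤ p * m ^ 5 := le_mul_of_one_le_left (by positivity) hp1
    have h3 : (1000000 : ℝ) ≤ 2 ^ 20 := by norm_num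
    have h4 : 0 ≤ p * m ^ 5 := by positivity
    have h5 : (1000000 : ℝ) * (p * m ^ 5) ≤ 2 ^ 20 * (p * m ^ 5) :=
      mul_le_mul_of_nonneg_right h3 h4
    rw [hm3] at h0
    linarith
  have hT1 : 1000000 ≤ T := by linarith
  obtain ⟨h3, h4, h5⟩ := NumY.small hd hda han hx (by rw [hp3]; exact hxy) hm1 hmp
    (by rw [hm3, hl]) hlogl hq hT
  have hq1 : 1 ≤ qG n t := by
    have h0 : (0 : ℝ) < (qG n t : ℝ) := by
      have h1 : 0 < (qG n t : ℝ) * m := by linarith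
      exact (pos_iff_pos_of_mul_pos h1).2 (by linarith)
    exact_mod_cast h0
  have ha2 : (a : ℝ) ≤ 2 ^ (T / 1000000) := by
    have h6 : (a : ℝ) ≤ n := by exact_mod_cast han
    have h7 : (a : ℝ) ≤ 2 ^ l := by
      rw [hle]
      linarith
    exact h7.trans (Real.rpow_le_rpow_of_exponent_le (by norm_num) hlT)
  obtain ⟨h6, h7⟩ := NumH.last hTdef htT hT1 ha2 h4 h5
  exact ⟨hq1, ht1, h3, h6, h7⟩

end Pool.Agent.Lib.SubBisG
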