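import Pool.Agent.Lib.SubBisG.FinH
import Pool.Agent.Lib.SubBisG.NumY

/-!
# SubBisG.FinY: the machine for `2 ^ (y ^ (1 / 3) (log (n + 1)) ^ (5 / 3))`

`G` has a subgraph `H` of degree at most `d` in which the left vertices have degree at least `d - r`,
and `y ≥ (1 + r) n / d`, `y ≥ log (n + 1)`.
-/

set_option autoImplicit false

namespace Pool.Agent.Lib.SubBisG

open Finset Pool.Agent.Lib.PolyTime Pool.Agent.Lib.Pa7c826 Pool.Agent.Lib.Pa7c826t
open Pool.Agent.Lib.SubBisX Pool.Agent.Lib.P8e91ed.PT Pool.Agent.Lib.P7sG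
open Pool.Agent.Lib.SubBisB Pool.Agent.Lib.SubBisC Pool.Agent.Lib.SubBisC.PolyAux

/-- The promise. -/
def PTY (G : BGraph) (s : ℕ) : Prop :=
  ∃ (d r : ℕ) (H : Fin G.a → Fin G.b → Bool) (y : ℝ), 1 ≤ d ∧ d ≤ G.a ∧ SubDeg G d H ∧
    (∀ i, d ≤ (univ.filter fun j => H i j = true).card + r) ∧
    (1 + (r : ℝ)) * ((G.a + G.b : ℕ) : ℝ) / d ≤ y ∧
    Real.logb 2 (((G.a + G.b : ℕ) : ℝ) + 1) ≤ y ∧
    (2 : ℝ) ^ ((2 : ℝ) ^ 20 * y ^ (1 / 3 : ℝ) *
      Real.logb 2 (((G.a + G.b : ℕ) : ℝ) + 1) ^ (5 / 3 : ℝ)) ≤ s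

theorem PTY_mono (G : BGraph) (s s' : ℕ) (hs : s ≤ s') (h : PTY G s) : PTY G s' := by
  obtain ⟨d, r, H, y, h1, h2, h3, h4, h5, h6, h7⟩ := h
  exact ⟨d, r, H, y, h1, h2, h3, h4, h5, h6, h7.trans (by exact_mod_cast hs)⟩

namespace FinY

open FinH

variable {G : BGraph} {H : Fin G.a → Fin G.b → Bool} {d r : ℕ}

/-- almost regular subgraphs have many edges -/
theorem le_edges (h : ∀ i, d ≤ (univ.filter fun j => H i j = true).card + r) :
    d * G.a ≤ edges H + r * G.a := by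
  rw [edges_eq_sum]
  have h1 : ∑ _i : Fin G.a, d ≤ ∑ i : Fin G.a, ((univ.filter fun j => H i j = true).card + r) :=
    sum_le_sum fun i _ => h i
  rw [sum_add_distrib, sum_const, sum_const, card_univ, Fintype.card_fin, smul_eq_mul,
    smul_eq_mul, mul_comm G.a d, mul_comm G.a r] at h1
  exact h1

theorem xH_le_y (hd : 1 ≤ d) (h : ∀ i, d ≤ (univ.filter fun j => H i j = true).card + r) :
    xH (G.a + G.b) G.a d (sb G H) ≤ (1 + (r : ℝ)) * ((G.a + G.b : ℕ) : ℝ) / d := by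
  have hd0 : (0 : ℝ) < d := by exact_mod_cast hd
  rw [xH_eq hd H]
  refine (div_le_div_iff_of_pos_right hd0).2 ?_
  have h1 : (d : ℝ) * G.a ≤ edges H + r * G.a := by exact_mod_cast le_edges h
  have h2 : (0 : ℝ) ≤ (1 + (r : ℝ)) * G.b := by positivity
  push_cast
  nlinarith

end FinY

open FinH in
theorem hasRApx_PTY : Pa7c826m.HasRApx PTY := by
  refine hasRApx_of
    (need := fun G t => needG (G.a + G.b) G.a (qG (G.a + G.b) t) t)
    (out := fun G t r => ansG (G.a + G.b) G.a (adjOf (inCode G t)) (qG (G.a + G.b) t) t r)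
    ?_ ?_ ?_
  · have hw : PolyC (fun x : BGraph × ℕ => PTY x.1 x.2 ∧ 1 ≤ x.2) [fun x => inCode x.1 x.2]
        (fun x => inCode x.1 x.2) := PolyC.var (by simp)
    have ht : PolyN (fun x : BGraph × ℕ => PTY x.1 x.2 ∧ 1 ≤ x.2) [fun x => inCode x.1 x.2]
        (fun x => x.2) := (poly_tOf hw).congr (fun x _ => tOf_inCode x.1 x.2)
    refine (poly_needG (poly_aOf hw) (qcomp_qG (poly_nOf hw) ht fun x hx => hx.2) ht
      (fun x hx => hx.2)).congr (fun x _ => ?_)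
    simp only [nOf_inCode, aOf_inCode]
  · have hw : PolyC (fun x : BGraph × ℕ × List Bool => PTY x.1 x.2.1 ∧ 1 ≤ x.2.1 ∧
        needG (x.1.a + x.1.b) x.1.a (qG (x.1.a + x.1.b) x.2.1) x.2.1 ≤ x.2.2.length)
        [fun x => inCode x.1 x.2.1, fun x => x.2.2] (fun x => inCode x.1 x.2.1) :=
      PolyC.var (by simp)
    have hr : PolyC (fun x : BGraph × ℕ × List Bool => PTY x.1 x.2.1 ∧ 1 ≤ x.2.1 ∧
        needG (x.1.a + x.1.b) x.1.a (qG (x.1.a + x.1.b) x.2.1) x.2.1 ≤ x.2.2.length)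
        [fun x => inCode x.1 x.2.1, fun x => x.2.2] (fun x => x.2.2) :=
      PolyC.var (by simp)
    have ht : PolyN (fun x : BGraph × ℕ × List Bool => PTY x.1 x.2.1 ∧ 1 ≤ x.2.1 ∧
        needG (x.1.a + x.1.b) x.1.a (qG (x.1.a + x.1.b) x.2.1) x.2.1 ≤ x.2.2.length)
        [fun x => inCode x.1 x.2.1, fun x => x.2.2] (fun x => x.2.1) :=
      (poly_tOf hw).congr (fun x _ => tOf_inCode x.1 x.2.1)
    refine (poly_ansG hw (fun x _ => cov_left _) (qcomp_qG (poly_nOf hw) ht fun x hx => hx.2.1) ht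
      (fun x hx => hx.2.1) hr).congr (fun x _ => ?_)
    simp only [nOf_inCode, aOf_inCode]
  · intro G t hP ht N hN
    obtain ⟨d, r, H, y, hd, hda, hH, hr, hy, hL, h4⟩ := hP
    obtain ⟨p1, _, p3, p4, p5⟩ := par_Y (n := G.a + G.b) (a := G.a) (d := d) (t := t) hd hda
      (by omega) (rgH_of (t := t) hd hH).le_xH ((FinY.xH_le_y hd hr).trans hy) hL h4
    exact FinH.goodT (rgH_of hd hH) p1 ht p3 p4 p5 hN

/-- **Theorem.** -/
theorem hasRTimeP_PTY : HasRTimeP PTY := hasRTimeP_of PTY_mono hasRApx_PTY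

end Pool.Agent.Lib.SubBisG
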