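import Pool.Agent.Lib.SubBisG.Defs
import Pool.Agent.Lib.SubBisE.ParE

/-!
# The bound for the steps (MP_a7c826_lc)
-/

set_option autoImplicit false

namespace Pool.Agent.Lib.SubBisG

open Finset SubBis Pool.Agent.Lib.SubBisX Pool.Agent.Lib.SubBisX.Core

variable {n k : ℕ}

theorem abs_gr_leG {F : Finset (Fin k) → ℤ} (hk : ∀ S v, |F (insert v S) - F S| ≤ kapG n)
    (v : Fin k) (u : Fin (2 ^ muG n)) (y : Fin k → ℤ) : |gr (QG n) F v u y| ≤ GmG n := by
  unfold gr
  have h1 : |ee (2 ^ muG n) (QG n) u| ≤ ((QG n * muG n : ℕ) : ℤ) := by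
    have := SubBis.abs_ee_le (mu := muG n) (c := QG n) u.2
    exact_mod_cast this
  have h2 : |((QG n : ℕ) : ℤ) * (F (Up y v) - F (Upo y v))| ≤ ((QG n * kapG n : ℕ) : ℤ) := by
    rw [abs_mul, abs_of_nonneg (Int.natCast_nonneg _), CA.Up_eq, CA.Upo_eq]
    push_cast
    have := hk (FCS.bef y v) v
    exact mul_le_mul_of_nonneg_left this (by positivity)
  refine (abs_sub _ _).trans ?_
  unfold GmG
  push_cast at h1 h2 ⊢
  rw [mul_add]
  exact add_le_add h1 h2

end Pool.Agent.Lib.SubBisG
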