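import Pool.Agent.Lib.SubBisG.CasesG
import Pool.Agent.Lib.SubBisG.FinH

/-!
One bound for the time: the minimum of `y` and `y ^ (1 / 3) (log (n + 1)) ^ (k / 3)`, where
`y = (1 + r) n / d` and the graph has a subgraph of degrees at most `d` in which all left vertices
have degree at least `d - r`.
-/

set_option autoImplicit false

namespace Pool.Agent.Lib.SubBisG

open Finset Pool.Agent.Lib.Pa7c826 Pool.Agent.Lib.PolyTime Pool.Agent.Lib.SubBisX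
  Pool.Agent.Lib.Pa7c826t

/-- The graphs and the bounds of the randomised algorithm. -/
def PTk (k : ℕ) (A : ℝ) (G : BGraph) (s : ℕ) : Prop :=
  ∃ (d r : ℕ) (H : Fin G.a → Fin G.b → Bool) (y : ℝ), 1 ≤ d ∧ d ≤ G.a ∧ SubDeg G d H ∧
    (∀ i, d ≤ (univ.filter fun j => H i j = true).card + r) ∧
    (1 + r) * ((G.a + G.b : ℕ) : ℝ) / d ≤ y ∧
    Real.logb 2 (((G.a + G.b : ℕ) : ℝ) + 1) ≤ y ∧
    (2 : ℝ) ^ (A * y ^ (1 / 3 : ℝ) *
      Real.logb 2 (((G.a + G.b : ℕ) : ℝ) + 1) ^ ((k : ℝ) / 3)) ≤ s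

/-- The graphs and the bounds with the minimum. -/
def PMin (k C : ℕ) (G : BGraph) (s : ℕ) : Prop :=
  ∃ (d r : ℕ) (H : Fin G.a → Fin G.b → Bool), 1 ≤ d ∧ d ≤ G.a ∧ SubDeg G d H ∧
    (∀ i, d ≤ (univ.filter fun j => H i j = true).card + r) ∧
    (2 : ℝ) ^ ((C : ℝ) * min ((1 + r) * ((G.a + G.b : ℕ) : ℝ) / d)
      (((1 + r) * ((G.a + G.b : ℕ) : ℝ) / d) ^ (1 / 3 : ℝ) *
        Real.logb 2 (((G.a + G.b : ℕ) : ℝ) + 1) ^ ((k : ℝ) / 3))) ≤ s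

theorem PMin_mono (k C : ℕ) (G : BGraph) (s s' : ℕ) (hs : s ≤ s') (h : PMin k C G s) :
    PMin k C G s' := by
  obtain ⟨d, r, H, h1, h2, h3, h4, h5⟩ := h
  exact ⟨d, r, H, h1, h2, h3, h4, h5.trans (by exact_mod_cast hs)⟩

namespace MinG

section num

variable {n t k C1 : ℕ} {A C y l u : ℝ}

theorem u_facts (hn : 1 ≤ n) (hk : 2 ≤ k) (hl : l = Real.logb 2 ((n : ℝ) + 1))
    (hu : u = l ^ ((k : ℝ) / 2)) :
    1 ≤ l ∧ l ≤ u ∧ u ^ 2 = l ^ k ∧ l ^ ((k : ℝ) / 3) = u ^ (2 / 3 : ℝ) ∧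
      l ≤ ((n + 1).size : ℝ) ∧ ((n + 1).size : ℝ) ≤ 2 * l := by
  have hn1 : (1 : ℝ) ≤ n := by exact_mod_cast hn
  have hl1 : 1 ≤ l := by
    rw [hl, Real.le_logb_iff_rpow_le (by norm_num) (by linarith), Real.rpow_one]
    linarith
  have hk2 : (2 : ℝ) ≤ k := by exact_mod_cast hk
  refine ⟨hl1, ?_, ?_, ?_, ?_, ?_⟩
  · rw [hu]
    calc l = l ^ (1 : ℝ) := (Real.rpow_one l).symm
      _ ≤ l ^ ((k : ℝ) / 2) := Real.rpow_le_rpow_of_exponent_le hl1 (by linarith)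
  · rw [hu, ← Real.rpow_natCast, ← Real.rpow_mul (by linarith), ← Real.rpow_natCast]
    congr 1
    push_cast
    ring
  · rw [hu, ← Real.rpow_mul (by linarith)]
    congr 1
    ring
  · have h1 : ((n : ℝ) + 1) ≤ 2 ^ (n + 1).size := by
      exact_mod_cast (Nat.lt_size_self (n + 1)).le
    rw [hl, Real.logb_le_iff_le_rpow (by norm_num) (by linarith), Real.rpow_natCast]
    exact h1
  · have h1 := SubBisE.size_le_logb n
    rw [← hl] at h1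
    linarith

theorem third {a : ℝ} (ha : 0 < a) : a ^ (1 / 3 : ℝ) * a ^ (2 / 3 : ℝ) = a := by
  rw [← Real.rpow_add ha]
  norm_num

/-- the test is true: the randomised algorithm -/
theorem num_true (hn : 1 ≤ n) (ht : 1 ≤ t) (hk : 2 ≤ k) (hl : l = Real.logb 2 ((n : ℝ) + 1))
    (hA0 : 0 ≤ A) (hA : A ≤ C1) (hC : A ≤ C) (hy : 1 ≤ y)
    (h : C1 ^ 2 * (n + 1).size ^ k ≤ Nat.log 2 t ^ 2)
    (hP : (2 : ℝ) ^ (C * min y (y ^ (1 / 3 : ℝ) * l ^ ((k : ℝ) / 3))) ≤ t) :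
    ∃ y' : ℝ, y ≤ y' ∧ l ≤ y' ∧ (2 : ℝ) ^ (A * y' ^ (1 / 3 : ℝ) * l ^ ((k : ℝ) / 3)) ≤ t := by
  obtain ⟨u, hu⟩ : ∃ u : ℝ, u = l ^ ((k : ℝ) / 2) := ⟨_, rfl⟩
  obtain ⟨hl1, hlu, hu2, hu3, hL1, hL2⟩ := u_facts hn hk hl hu
  have hu0 : 0 < u := by linarith
  have hy0 : 0 < y := by linarith
  rw [hu3] at hP ⊢
  rcases le_total y u with hyu | hyu
  · refine ⟨u, hyu, hlu, ?_⟩
    rw [mul_assoc, third hu0]
    have h1 : (C1 * u) ^ 2 ≤ ((Nat.log 2 t : ℕ) : ℝ) ^ 2 := by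
      have h2 : ((C1 : ℝ) ^ 2 * ((n + 1).size : ℝ) ^ k) ≤ ((Nat.log 2 t : ℕ) : ℝ) ^ 2 := by
        exact_mod_cast h
      refine le_trans ?_ h2
      rw [mul_pow, hu2]
      exact mul_le_mul_of_nonneg_left (pow_le_pow_left₀ (by linarith) hL1 k) (by positivity)
    have h3 : C1 * u ≤ (Nat.log 2 t : ℕ) := le_of_pow_le_pow_left₀ (by norm_num) (by positivity) h1
    have h4 : A * u ≤ (Nat.log 2 t : ℕ) :=
      (mul_le_mul_of_nonneg_right hA hu0.le).trans h3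
    calc (2 : ℝ) ^ (A * u) ≤ 2 ^ ((Nat.log 2 t : ℕ) : ℝ) :=
          Real.rpow_le_rpow_of_exponent_le (by norm_num) h4
      _ = ((2 ^ Nat.log 2 t : ℕ) : ℝ) := by rw [Real.rpow_natCast]; push_cast; rfl
      _ ≤ t := by exact_mod_cast Nat.pow_log_le_self 2 (by omega)
  · refine ⟨y, le_rfl, hlu.trans hyu, ?_⟩
    have h1 : y ^ (1 / 3 : ℝ) * u ^ (2 / 3 : ℝ) ≤ y := by
      calc y ^ (1 / 3 : ℝ) * u ^ (2 / 3 : ℝ) ≤ y ^ (1 / 3 : ℝ) * y ^ (2 / 3 : ℝ) :=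
            mul_le_mul_of_nonneg_left (Real.rpow_le_rpow hu0.le hyu (by norm_num))
              (Real.rpow_nonneg hy0.le _)
        _ = y := third hy0
    rw [min_eq_right h1] at hP
    refine le_trans ?_ hP
    apply Real.rpow_le_rpow_of_exponent_le (by norm_num)
    rw [mul_assoc]
    exact mul_le_mul_of_nonneg_right hC (by positivity)

/-- the test is false: the deterministic algorithm -/
theorem num_false (hn : 1 ≤ n) (ht : 1 ≤ t) (hk : 2 ≤ k) (hl : l = Real.logb 2 ((n : ℝ) + 1))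
    (hC : 2 ^ k * C1 + 2 ≤ C) (hy : 1 ≤ y)
    (h : Nat.log 2 t ^ 2 < C1 ^ 2 * (n + 1).size ^ k)
    (hP : (2 : ℝ) ^ (C * min y (y ^ (1 / 3 : ℝ) * l ^ ((k : ℝ) / 3))) ≤ t) :
    y ≤ (Nat.log 2 t : ℕ) := by
  obtain ⟨u, hu⟩ : ∃ u : ℝ, u = l ^ ((k : ℝ) / 2) := ⟨_, rfl⟩
  obtain ⟨hl1, hlu, hu2, hu3, hL1, hL2⟩ := u_facts hn hk hl hu
  have hu0 : 0 < u := by linarith
  have hy0 : 0 < y := by linarith
  rw [hu3] at hP
  have hC0 : (0 : ℝ) ≤ 2 ^ k * C1 := by positivity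
  have hT : ∀ z : ℝ, (2 : ℝ) ^ (C * z) ≤ t → C * z < (Nat.log 2 t : ℕ) + 1 := by
    intro z hz
    have h1 : (t : ℝ) < 2 ^ (((Nat.log 2 t : ℕ) : ℝ) + 1) := by
      have h2 := Nat.lt_pow_succ_log_self (b := 2) (by norm_num) t
      have h3 : ((2 : ℝ)) ^ (((Nat.log 2 t : ℕ) : ℝ) + 1) = ((2 ^ (Nat.log 2 t + 1) : ℕ) : ℝ) := by
        rw [show (((Nat.log 2 t : ℕ) : ℝ) + 1) = ((Nat.log 2 t + 1 : ℕ) : ℝ) by push_cast; ring,
          Real.rpow_natCast]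
        push_cast
        ring
      rw [h3]
      exact_mod_cast h2
    exact (Real.rpow_lt_rpow_left_iff (by norm_num : (1 : ℝ) < 2)).1 (hz.trans_lt h1)
  rcases le_total y u with hyu | hyu
  · have h1 : y ≤ y ^ (1 / 3 : ℝ) * u ^ (2 / 3 : ℝ) := by
      calc y = y ^ (1 / 3 : ℝ) * y ^ (2 / 3 : ℝ) := (third hy0).symm
        _ ≤ _ := mul_le_mul_of_nonneg_left (Real.rpow_le_rpow hy0.le hyu (by norm_num))
              (Real.rpow_nonneg hy0.le _)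
    rw [min_eq_left h1] at hP
    have h2 := hT y hP
    have h3 : 2 * y ≤ C * y := mul_le_mul_of_nonneg_right (by linarith) hy0.le
    linarith
  · exfalso
    have h1 : u ≤ y ^ (1 / 3 : ℝ) * u ^ (2 / 3 : ℝ) := by
      calc u = u ^ (1 / 3 : ℝ) * u ^ (2 / 3 : ℝ) := (third hu0).symm
        _ ≤ _ := mul_le_mul_of_nonneg_right (Real.rpow_le_rpow hu0.le hyu (by norm_num))
              (Real.rpow_nonneg hu0.le _)
    have h2 := hT _ hP
    have h3 : C * u ≤ C * min y (y ^ (1 / 3 : ℝ) * u ^ (2 / 3 : ℝ)) :=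
      mul_le_mul_of_nonneg_left (le_min hyu h1) (by linarith)
    have h4 : (2 ^ k * C1 + 2) * u ≤ C * u := mul_le_mul_of_nonneg_right hC hu0.le
    have h5 : 2 ^ k * C1 * u < (Nat.log 2 t : ℕ) := by nlinarith
    have h6 : ((Nat.log 2 t : ℕ) : ℝ) ^ 2 < (C1 : ℝ) ^ 2 * ((n + 1).size : ℝ) ^ k := by
      exact_mod_cast h
    have h7 : ((n + 1).size : ℝ) ^ k ≤ 2 ^ k * u ^ 2 := by
      rw [hu2, ← mul_pow]
      exact pow_le_pow_left₀ (by linarith) hL2 k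
    have h8 : (C1 : ℝ) ^ 2 * ((n + 1).size : ℝ) ^ k ≤ C1 ^ 2 * (2 ^ k * u ^ 2) :=
      mul_le_mul_of_nonneg_left h7 (by positivity)
    have h9 : (1 : ℝ) ≤ 2 ^ k := one_le_pow₀ (by norm_num)
    have h10 : (C1 : ℝ) ^ 2 * (2 ^ k * u ^ 2) ≤ (2 ^ k * C1 * u) ^ 2 := by
      have h11 : 0 ≤ (C1 : ℝ) ^ 2 * u ^ 2 * 2 ^ k := by positivity
      calc (C1 : ℝ) ^ 2 * (2 ^ k * u ^ 2) = (C1 : ℝ) ^ 2 * u ^ 2 * 2 ^ k * 1 := by ring
        _ ≤ (C1 : ℝ) ^ 2 * u ^ 2 * 2 ^ k * 2 ^ k := mul_le_mul_of_nonneg_left h9 h11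
        _ = _ := by ring
    have h12 : (2 ^ k * C1 * u) ^ 2 < ((Nat.log 2 t : ℕ) : ℝ) ^ 2 :=
      pow_lt_pow_left₀ h5 (by positivity) (by norm_num)
    linarith

end num

theorem numNonIso_le (G : BGraph) : numNonIso G ≤ G.a + G.b := by
  unfold numNonIso
  refine add_le_add ?_ ?_
  · exact (card_filter_le _ _).trans (by simp)
  · exact (card_filter_le _ _).trans (by simp)

end MinG

open MinG in
/-- **The two algorithms together.** -/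
theorem hasRTimeP_min_of {k : ℕ} {A : ℝ} (hk : 2 ≤ k) (hA : 0 ≤ A)
    (h : Pa7c826m.HasRApx (PTk k A)) : ∃ C : ℕ, HasRTimeP (PMin k C) := by
  obtain ⟨C1, hC1⟩ := exists_nat_ge A
  refine ⟨2 ^ k * C1 + 2, hasRTimeP_of (PMin_mono _ _) ?_⟩
  have hCr : (2 : ℝ) ^ k * C1 + 2 ≤ ((2 ^ k * C1 + 2 : ℕ) : ℝ) := by push_cast; exact le_rfl
  have hAC : A ≤ ((2 ^ k * C1 + 2 : ℕ) : ℝ) := by
    refine le_trans ?_ hCr
    have h9 : (1 : ℝ) ≤ 2 ^ k := one_le_pow₀ (by norm_num)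
    have h10 : (C1 : ℝ) ≤ 2 ^ k * C1 := le_mul_of_one_le_left (by positivity) h9
    linarith
  refine hasRApx_cases (P1 := PTk k A) (P2 := Pa7c826r.HasFactor 1)
    (fun G t => decide (C1 ^ 2 * (G.a + G.b + 1).size ^ k ≤ Nat.log 2 t ^ 2)) ?_ ?_ ?_ h
    (Pa7c826r.easyR 1)
  · have hw : PolyC (fun x : BGraph × ℕ => 1 ≤ x.2) [fun x => inCode x.1 x.2]
        (fun x => inCode x.1 x.2) := PolyC.var (by simp)
    have ht : PolyN (fun x : BGraph × ℕ => 1 ≤ x.2) [fun x => inCode x.1 x.2]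
        (fun x => x.2) := (poly_tOf hw).congr (fun x _ => tOf_inCode x.1 x.2)
    have hn : PolyN (fun x : BGraph × ℕ => 1 ≤ x.2) [fun x => inCode x.1 x.2]
        (fun x => x.1.a + x.1.b) := (poly_nOf hw).congr (fun x _ => nOf_inCode x.1 x.2)
    exact PolyB.le ((PolyN.const (C1 ^ 2)).mul (PolyN.pow (Par.poly_size hn.succ) k))
      (PolyN.pow (P8e91ed.PT.n_log ht) 2)
  · rintro G t ht ⟨d, r, H, hd, hda, hH, hr, hP⟩ hφ
    have hφ' := of_decide_eq_true hφ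
    have hd0 : (0 : ℝ) < d := by exact_mod_cast hd
    have hn : 1 ≤ G.a + G.b := by omega
    have hy : (1 : ℝ) ≤ (1 + r) * ((G.a + G.b : ℕ) : ℝ) / d := by
      rw [le_div_iff₀ hd0, one_mul]
      have h1 : (d : ℝ) ≤ ((G.a + G.b : ℕ) : ℝ) := by exact_mod_cast (by omega : d ≤ G.a + G.b)
      have h2 : (0 : ℝ) ≤ r := by positivity
      nlinarith
    obtain ⟨y', h1, h2, h3⟩ := num_true hn ht hk rfl hA hC1 hAC hy hφ' hP
    exact ⟨d, r, H, y', hd, hda, hH, hr, h1, h2, h3⟩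
  · rintro G t ht ⟨d, r, H, hd, hda, hH, hr, hP⟩ hφ
    have hφ' := not_le.1 (of_decide_eq_false hφ)
    have hd0 : (0 : ℝ) < d := by exact_mod_cast hd
    have hn : 1 ≤ G.a + G.b := by omega
    have hy : (1 : ℝ) ≤ (1 + r) * ((G.a + G.b : ℕ) : ℝ) / d := by
      rw [le_div_iff₀ hd0, one_mul]
      have h1 : (d : ℝ) ≤ ((G.a + G.b : ℕ) : ℝ) := by exact_mod_cast (by omega : d ≤ G.a + G.b)
      have h2 : (0 : ℝ) ≤ r := by positivity
      nlinarith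
    have h1 := num_false hn ht hk rfl hCr hy hφ' hP
    refine ⟨H, d, r, hH.1, ?_, Or.inl ⟨fun i => Or.inr (hr i), hH.2.2⟩⟩
    rw [div_le_iff₀ hd0] at h1
    have h2 : (G.a + G.b) * (1 + r) ≤ d * Nat.log 2 t := by
      have h3 : (((G.a + G.b) * (1 + r) : ℕ) : ℝ) ≤ ((d * Nat.log 2 t : ℕ) : ℝ) := by
        push_cast
        push_cast at h1
        linarith
      exact_mod_cast h3
    calc numNonIso G * (1 + r) ≤ (G.a + G.b) * (1 + r) :=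
          Nat.mul_le_mul_right _ (numNonIso_le G)
      _ ≤ d * Nat.log 2 t := h2
      _ ≤ d * Nat.log 2 (G.a + G.b + t) :=
          Nat.mul_le_mul_left _ (Nat.log_mono_right (by omega))
      _ = 1 * d * Nat.log 2 (G.a + G.b + t) := by ring

/-! ### With the square of the logarithm -/

open FinH in
theorem PTk_six (G : BGraph) (t : ℕ) (h : PTk 6 (2 ^ 20) G t) : PTH G t := by
  obtain ⟨d, r, H, y, hd, hda, hH, hr, h1, h2, h3⟩ := h
  refine ⟨d, H, hd, hda, hH, le_trans ?_ h3⟩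
  have hd0 : (0 : ℝ) < d := by exact_mod_cast hd
  have he : (d : ℝ) * G.a ≤ edges H + G.a * r := by
    have h4 : G.a * d ≤ edges H + G.a * r := by
      rw [edges_eq_sum]
      calc G.a * d = ∑ _i : Fin G.a, d := by simp
        _ ≤ ∑ i : Fin G.a, ((univ.filter fun j => H i j = true).card + r) :=
            sum_le_sum fun i _ => hr i
        _ = _ := by rw [sum_add_distrib]; simp
    have h5 : ((G.a * d : ℕ) : ℝ) ≤ ((edges H + G.a * r : ℕ) : ℝ) := by exact_mod_cast h4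
    push_cast at h5
    linarith
  have hx : ((G.a : ℝ) + ((d : ℝ) * G.a - edges H)) / d ≤ y := by
    refine le_trans ?_ h1
    apply div_le_div_of_nonneg_right _ hd0.le
    have h6 : (G.a : ℝ) * (1 + r) ≤ ((G.a + G.b : ℕ) : ℝ) * (1 + r) := by
      apply mul_le_mul_of_nonneg_right _ (by positivity)
      push_cast
      linarith [Nat.cast_nonneg (α := ℝ) G.b]
    linarith
  have hx0 : 0 ≤ ((G.a : ℝ) + ((d : ℝ) * G.a - edges H)) / d := by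
    apply div_nonneg _ hd0.le
    have h7 := edges_le hH
    have h8 : (edges H : ℝ) ≤ (d : ℝ) * G.a := by exact_mod_cast h7
    have h9 : (0 : ℝ) ≤ G.a := by positivity
    linarith
  apply Real.rpow_le_rpow_of_exponent_le (by norm_num)
  have hl0 : 0 ≤ Real.logb 2 (((G.a + G.b : ℕ) : ℝ) + 1) := by
    apply Real.logb_nonneg (by norm_num)
    linarith [Nat.cast_nonneg (α := ℝ) (G.a + G.b)]
  have e1 : Real.logb 2 (((G.a + G.b : ℕ) : ℝ) + 1) ^ (((6 : ℕ) : ℝ) / 3) =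
      Real.logb 2 (((G.a + G.b : ℕ) : ℝ) + 1) ^ 2 := by
    rw [show (((6 : ℕ) : ℝ) / 3) = ((2 : ℕ) : ℝ) by norm_num, Real.rpow_natCast]
  rw [e1]
  have h10 : (((G.a : ℝ) + ((d : ℝ) * G.a - edges H)) / d) ^ (1 / 3 : ℝ) ≤ y ^ (1 / 3 : ℝ) :=
    Real.rpow_le_rpow hx0 hx (by norm_num)
  exact mul_le_mul_of_nonneg_right (mul_le_mul_of_nonneg_left h10 (by norm_num)) (by positivity)

theorem hasRApx_mono {P P' : BGraph → ℕ → Prop} (h : ∀ G t, P G t → P' G t)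
    (hP : Pa7c826m.HasRApx P') : Pa7c826m.HasRApx P := by
  obtain ⟨m, f, ⟨⟨tm, time, hout⟩⟩, hgood⟩ := hP
  exact ⟨m, f, ⟨⟨tm, time, fun x => hout ⟨x.1, h _ _ x.2.1, x.2.2⟩⟩⟩,
    fun G t hG ht => hgood G t (h G t hG) ht⟩

/-- **Theorem** (with the square of the logarithm). -/
theorem hasRTimeP_min_two : ∃ C : ℕ, HasRTimeP (PMin 6 C) :=
  hasRTimeP_min_of (A := 2 ^ 20) (by norm_num) (by norm_num) (hasRApx_mono PTk_six hasRApx_PTH)

end Pool.Agent.Lib.SubBisG
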