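import Pool.Agent.Lib.SubBisG.MinG
import Pool.Agent.Lib.SubBisG.FinY

/-!
The bound `2 ^ (C min (y, y ^ (1 / 3) (log (n + 1)) ^ (5 / 3)))` for the time, `y = (1 + r) n / d`.
-/

set_option autoImplicit false

namespace Pool.Agent.Lib.SubBisG

open Pool.Agent.Lib.Pa7c826

/-- **Theorem** (with the power `5 / 3` of the logarithm). -/
theorem hasRTimeP_min : ∃ C : ℕ, HasRTimeP (PMin 5 C) := by
  refine hasRTimeP_min_of (A := 2 ^ 20) (by norm_num) (by norm_num)
    (hasRApx_mono (fun G t h => ?_) hasRApx_PTY)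
  simpa only [PTk, PTY, Nat.cast_ofNat] using h

end Pool.Agent.Lib.SubBisG
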