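import Pool.Agent.Lib.SubBisG.CvF

/-!
# The random order and coverage (MP_a7c826_lc)

`S` is a fixed set of sites with neighbourhoods `Nb v`. The sites get independent uniform labels in
`Fin B`. A site of `S` is free if its neighbourhood is covered by the sites of `S` with smaller
labels. On the average only few sites of `S` are not free.
-/

set_option autoImplicit false

open scoped BigOperators

namespace Pool.Agent.Lib.SubBisG

open Finset Pool.Agent.Lib.SubBisX.Reg
open Pool.Agent.Lib.SubBisB (Rb Rp)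

namespace OrdG

variable {k B : ℕ}

/-- the number of labellings with `bet v = j` and all labels on `A` at least `j` -/
theorem card_first (A : Finset (Fin k)) {v : Fin k} (hv : v ∈ A) (j : Fin B) :
    (univ.filter fun bet : Fin k → Fin B => bet v = j ∧ ∀ w ∈ A, j ≤ bet w).card =
      (B - j) ^ (A.card - 1) * B ^ (k - A.card) := by
  classical
  have h1 : (univ.filter fun bet : Fin k → Fin B => bet v = j ∧ ∀ w ∈ A, j ≤ bet w) =
      Fintype.piFinset fun w : Fin k => if w = v then ({j} : Finset (Fin B)) else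
        if w ∈ A then Finset.Ici j else univ := by
    ext bet
    rw [mem_filter, Fintype.mem_piFinset]
    constructor
    · rintro ⟨_, h2, h3⟩ w
      by_cases hw : w = v
      · rw [if_pos hw, mem_singleton, hw]
        exact h2
      · rw [if_neg hw]
        by_cases hA : w ∈ A
        · rw [if_pos hA, Finset.mem_Ici]
          exact h3 w hA
        · rw [if_neg hA]
          exact mem_univ _
    · intro h
      have h2 : bet v = j := by
        have := h v
        rw [if_pos rfl, mem_singleton] at this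
        exact this
      refine ⟨mem_univ _, h2, fun w hw => ?_⟩
      by_cases hwv : w = v
      · rw [hwv, h2]
      · have := h w
        rw [if_neg hwv, if_pos hw, Finset.mem_Ici] at this
        exact this
  rw [h1, Fintype.card_piFinset]
  have h2 : ∀ w : Fin k, (if w = v then ({j} : Finset (Fin B)) else
      if w ∈ A then Finset.Ici j else univ).card =
        if w = v then 1 else if w ∈ A then B - j else B := by
    intro w
    split_ifs
    · exact card_singleton j
    · rw [Fin.card_Ici]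
    · rw [card_univ, Fintype.card_fin]
  rw [prod_congr rfl fun w _ => h2 w]
  have h3 : (univ : Finset (Fin k)) = A ∪ Aᶜ := (union_compl A).symm
  rw [h3, prod_union disjoint_compl_right]
  have h4 : ∏ w ∈ A, (if w = v then 1 else if w ∈ A then B - (j : ℕ) else B) =
      (B - j) ^ (A.card - 1) := by
    rw [← mul_prod_erase A _ hv, if_pos rfl, one_mul]
    rw [prod_congr rfl (g := fun _ => B - (j : ℕ)), prod_const, card_erase_of_mem hv]
    intro w hw
    rw [mem_erase] at hw
    rw [if_neg hw.1, if_pos hw.2]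
  have h5 : ∏ w ∈ Aᶜ, (if w = v then 1 else if w ∈ A then B - (j : ℕ) else B) =
      B ^ (k - A.card) := by
    rw [prod_congr rfl (g := fun _ => B), prod_const, card_compl, Fintype.card_fin]
    intro w hw
    rw [mem_compl] at hw
    have : w ≠ v := fun e => hw (e ▸ hv)
    rw [if_neg this, if_neg hw]
  rw [h4, h5]

/-- `s (1 ^ (s-1) + .. + n ^ (s-1)) ≤ n ^ s + s n ^ (s-1)` -/
theorem sum_pow_le (s n : ℕ) : s * ∑ i ∈ range n, (i + 1) ^ (s - 1) ≤ n ^ s + s * n ^ (s - 1) := by
  rcases Nat.eq_zero_or_pos s with h | hs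
  · subst h
    simp
  · induction n with
    | zero => simp
    | succ n ih =>
      rw [sum_range_succ, mul_add]
      have h1 : n ^ s + s * n ^ (s - 1) ≤ (n + 1) ^ s := by
        obtain ⟨r, rfl⟩ : ∃ r, s = r + 1 := ⟨s - 1, by omega⟩
        rw [Nat.add_sub_cancel]
        clear ih hs
        induction r with
        | zero => simp
        | succ r ih =>
          have h2 : (n + 1) ^ (r + 1 + 1) = (n + 1) ^ (r + 1) * (n + 1) := pow_succ _ _
          rw [h2]
          have h3 := Nat.mul_le_mul_right (n + 1) ih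
          have h4 : n ^ (r + 1 + 1) + (r + 1 + 1) * n ^ (r + 1) ≤
              (n ^ (r + 1) + (r + 1) * n ^ r) * (n + 1) := by
            have e1 : n ^ (r + 1 + 1) = n ^ (r + 1) * n := pow_succ _ _
            have e2 : n ^ (r + 1) = n ^ r * n := pow_succ _ _
            rw [e1]
            nlinarith [Nat.zero_le ((r + 1) * n ^ r), Nat.zero_le (n ^ r * n)]
          exact h4.trans h3
      omega

/-- the mean number of sites in `A` whose label is the smallest on `A` and is at least `T` -/
theorem av_first (hB : 0 < B) (A : Finset (Fin k)) (T : ℕ) (hT : T ≤ B) :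
    (av fun bet : Fin k → Fin B =>
      ((A.filter fun v => T ≤ (bet v : ℕ) ∧ ∀ w ∈ A, bet v ≤ bet w).card : ℝ)) ≤
      (1 - (T : ℝ) / B) ^ A.card + A.card / B := by
  classical
  have hB' : (0 : ℝ) < B := by exact_mod_cast hB
  rcases Nat.eq_zero_or_pos A.card with h0 | hs
  · have hA : A = ∅ := card_eq_zero.1 h0
    subst hA
    have : Nonempty (Fin B) := ⟨⟨0, hB⟩⟩
    simp only [filter_empty, card_empty, Nat.cast_zero, pow_zero, zero_div, add_zero]
    rw [av_const]
    exact zero_le_one
  have hAk : A.card ≤ k := (card_le_univ A).trans (le_of_eq (Fintype.card_fin k))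
  -- double counting
  have h1 : ∑ bet : Fin k → Fin B,
      (A.filter fun v => T ≤ (bet v : ℕ) ∧ ∀ w ∈ A, bet v ≤ bet w).card =
      ∑ v ∈ A, ∑ j : Fin B, if T ≤ (j : ℕ) then
        (univ.filter fun bet : Fin k → Fin B => bet v = j ∧ ∀ w ∈ A, j ≤ bet w).card else 0 := by
    have e1 : ∀ bet : Fin k → Fin B,
        (A.filter fun v => T ≤ (bet v : ℕ) ∧ ∀ w ∈ A, bet v ≤ bet w).card =
        ∑ v ∈ A, ∑ j : Fin B, if T ≤ (j : ℕ) ∧ bet v = j ∧ ∀ w ∈ A, j ≤ bet w then 1 else 0 := by
      intro bet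
      rw [card_filter]
      refine sum_congr rfl fun v _ => ?_
      rw [sum_eq_single (bet v)]
      · simp
      · intro j _ hj
        rw [if_neg]
        rintro ⟨_, h, _⟩
        exact hj h.symm
      · intro h
        exact absurd (mem_univ _) h
    rw [sum_congr rfl fun bet _ => e1 bet, sum_comm]
    refine sum_congr rfl fun v _ => ?_
    rw [sum_comm]
    refine sum_congr rfl fun j _ => ?_
    by_cases hj : T ≤ (j : ℕ)
    · rw [if_pos hj, card_filter]
      refine sum_congr rfl fun bet _ => ?_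
      simp [hj]
    · rw [if_neg hj]
      refine sum_eq_zero fun bet _ => ?_
      rw [if_neg]
      exact fun h => hj h.1
  -- the sum over the smallest label
  have h2 : ∀ v ∈ A, (∑ j : Fin B, if T ≤ (j : ℕ) then
        (univ.filter fun bet : Fin k → Fin B => bet v = j ∧ ∀ w ∈ A, j ≤ bet w).card else 0) =
      (∑ i ∈ range (B - T), (i + 1) ^ (A.card - 1)) * B ^ (k - A.card) := by
    intro v hv
    have e1 : ∀ j : Fin B, (if T ≤ (j : ℕ) then
        (univ.filter fun bet : Fin k → Fin B => bet v = j ∧ ∀ w ∈ A, j ≤ bet w).card else 0) =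
        if T ≤ (j : ℕ) then (B - j) ^ (A.card - 1) * B ^ (k - A.card) else 0 := by
      intro j
      rw [card_first A hv j]
    rw [sum_congr rfl fun j _ => e1 j,
      Fin.sum_univ_eq_sum_range (fun j => if T ≤ j then
        (B - j) ^ (A.card - 1) * B ^ (k - A.card) else 0) B]
    rw [← sum_range_reflect, sum_mul]
    obtain ⟨n, rfl⟩ := Nat.exists_eq_add_of_le hT
    rw [show T + n = n + T by ring, sum_range_add]
    have e2 : ∑ x ∈ range T, (if T ≤ n + T - 1 - (n + x) then
        (n + T - (n + T - 1 - (n + x))) ^ (A.card - 1) * (n + T) ^ (k - A.card) else 0) = 0 := by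
      refine sum_eq_zero fun x hx => ?_
      rw [mem_range] at hx
      rw [if_neg]
      omega
    rw [e2, add_zero, Nat.add_sub_cancel]
    refine sum_congr rfl fun x hx => ?_
    rw [mem_range] at hx
    rw [if_pos (by omega)]
    congr 2
    omega
  have h3 : (∑ bet : Fin k → Fin B,
      (A.filter fun v => T ≤ (bet v : ℕ) ∧ ∀ w ∈ A, bet v ≤ bet w).card) ≤
      ((B - T) ^ A.card + A.card * (B - T) ^ (A.card - 1)) * B ^ (k - A.card) := by
    rw [h1, sum_congr rfl h2, sum_const, smul_eq_mul, ← mul_assoc]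
    exact Nat.mul_le_mul_right _ (sum_pow_le A.card (B - T))
  unfold av
  rw [Fintype.card_fun, Fintype.card_fin, Fintype.card_fin]
  have h4 : (∑ bet : Fin k → Fin B,
      ((A.filter fun v => T ≤ (bet v : ℕ) ∧ ∀ w ∈ A, bet v ≤ bet w).card : ℝ)) ≤
      (((B : ℝ) - T) ^ A.card + A.card * ((B : ℝ) - T) ^ (A.card - 1)) * B ^ (k - A.card) := by
    have h5 := (Nat.cast_le (α := ℝ)).2 h3
    push_cast [Nat.cast_sub hT] at h5
    exact h5
  have hx : ((B : ℝ) - T) / B = 1 - T / B := by field_simp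
  have hBk : (B : ℝ) ^ k = B ^ A.card * B ^ (k - A.card) := by
    rw [← pow_add]
    congr 1
    omega
  have hT' : (T : ℝ) ≤ B := by exact_mod_cast hT
  rw [Nat.cast_pow, div_le_iff₀ (pow_pos hB' k)]
  refine h4.trans ?_
  rw [hBk, ← mul_assoc]
  refine mul_le_mul_of_nonneg_right ?_ (by positivity)
  rw [← hx, add_mul, div_pow, div_mul_cancel₀ _ (pow_ne_zero _ hB'.ne')]
  refine add_le_add le_rfl ?_
  obtain ⟨r, hr⟩ : ∃ r, A.card = r + 1 := ⟨A.card - 1, by omega⟩
  have h6 : ((B : ℝ) - T) ^ (A.card - 1) ≤ B ^ (A.card - 1) :=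
    pow_le_pow_left₀ (by linarith) (by linarith [(Nat.cast_nonneg T : (0 : ℝ) ≤ T)]) _
  have h7 : (A.card : ℝ) / B * B ^ A.card = A.card * B ^ (A.card - 1) := by
    rw [hr, Nat.add_sub_cancel, pow_succ]
    field_simp
  rw [h7]
  exact mul_le_mul_of_nonneg_left h6 (Nat.cast_nonneg _)

/-- the mean number of sites in `S` with a label below `T` -/
theorem av_below (hB : 0 < B) (S : Finset (Fin k)) (T : ℕ) (hT : T ≤ B) :
    (av fun bet : Fin k → Fin B => ((S.filter fun v => (bet v : ℕ) < T).card : ℝ)) =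
      (T : ℝ) / B * S.card := by
  classical
  have : Nonempty (Fin B) := ⟨⟨0, hB⟩⟩
  have h1 : (fun bet : Fin k → Fin B => ((S.filter fun v => (bet v : ℕ) < T).card : ℝ)) =
      fun bet => ∑ v ∈ S, if (bet v : ℕ) < T then (1 : ℝ) else 0 := by
    funext bet
    rw [card_filter]
    push_cast
    rfl
  rw [h1]
  have h2 : (av fun bet : Fin k → Fin B => ∑ v ∈ S, if (bet v : ℕ) < T then (1 : ℝ) else 0) =
      ∑ v ∈ S, av fun bet : Fin k → Fin B => if (bet v : ℕ) < T then (1 : ℝ) else 0 := by
    unfold av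
    rw [sum_comm, sum_div]
  rw [h2]
  have h3 : ∀ v ∈ S, (av fun bet : Fin k → Fin B => if (bet v : ℕ) < T then (1 : ℝ) else 0) =
      (T : ℝ) / B := by
    intro v _
    rw [← SubBisX.Bounds.av_update v (fun bet : Fin k → Fin B =>
      if (bet v : ℕ) < T then (1 : ℝ) else 0)]
    have h4 : (fun w : Fin k → Fin B => av fun x : Fin B =>
        if ((Function.update w v x) v : ℕ) < T then (1 : ℝ) else 0) = fun _ => (T : ℝ) / B := by
      funext w
      simp only [Function.update_self]
      unfold av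
      rw [Fintype.card_fin, Fin.sum_univ_eq_sum_range (fun x => if x < T then (1 : ℝ) else 0) B]
      congr 1
      rw [← sum_filter, sum_const, nsmul_eq_mul, mul_one]
      congr 1
      have : (range B).filter (fun x => x < T) = range T := by
        ext x
        rw [mem_filter, mem_range, mem_range]
        omega
      rw [this, card_range]
    rw [h4, av_const]
  rw [sum_congr rfl h3, sum_const, nsmul_eq_mul, mul_comm]

/-- a site that is not free has a small label or the smallest label around some right vertex -/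
theorem card_nonfree_le {ι : Type*} [DecidableEq ι] (Nb : Fin k → Finset ι) (S : Finset (Fin k))
    (T : ℕ) (bet : Fin k → Fin B) :
    (S.filter fun v => ¬ Nb v ⊆ (S ∩ Rb bet v).biUnion Nb).card ≤
      (S.filter fun v => (bet v : ℕ) < T).card +
        ∑ u ∈ S.biUnion Nb, ((S.filter fun v => u ∈ Nb v).filter fun v => T ≤ (bet v : ℕ) ∧
          ∀ w ∈ S.filter fun v => u ∈ Nb v, bet v ≤ bet w).card := by
  classical
  have h1 : (S.filter fun v => ¬ Nb v ⊆ (S ∩ Rb bet v).biUnion Nb) ⊆
      (S.filter fun v => (bet v : ℕ) < T) ∪ (S.biUnion Nb).biUnion fun u =>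
        (S.filter fun v => u ∈ Nb v).filter fun v => T ≤ (bet v : ℕ) ∧
          ∀ w ∈ S.filter fun v => u ∈ Nb v, bet v ≤ bet w := by
    intro v hv
    rw [mem_filter] at hv
    rw [mem_union]
    by_cases hT : (bet v : ℕ) < T
    · exact Or.inl (mem_filter.2 ⟨hv.1, hT⟩)
    · refine Or.inr ?_
      obtain ⟨u, hu, hu'⟩ := not_subset.1 hv.2
      rw [mem_biUnion]
      refine ⟨u, mem_biUnion.2 ⟨v, hv.1, hu⟩, mem_filter.2 ⟨mem_filter.2 ⟨hv.1, hu⟩,
        not_lt.1 hT, fun w hw => ?_⟩⟩
      rw [mem_filter] at hw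
      by_contra hlt
      refine hu' (mem_biUnion.2 ⟨w, mem_inter.2 ⟨hw.1, mem_filter.2 ⟨mem_univ _, ?_⟩⟩, hw.2⟩)
      exact not_le.1 hlt
  exact (card_le_card h1).trans ((card_union_le _ _).trans
    (Nat.add_le_add_left card_biUnion_le _))

/-- **The mean number of sites that are not free.** -/
theorem ord_av {ι : Type*} [DecidableEq ι] (hB : 0 < B) (Nb : Fin k → Finset ι)
    (S : Finset (Fin k)) (T : ℕ) (hT : T ≤ B) :
    (av fun bet : Fin k → Fin B =>
      ((S.filter fun v => ¬ Nb v ⊆ (S ∩ Rb bet v).biUnion Nb).card : ℝ)) ≤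
      (T : ℝ) / B * S.card + ∑ u ∈ S.biUnion Nb,
        ((1 - (T : ℝ) / B) ^ (S.filter fun v => u ∈ Nb v).card +
          (S.filter fun v => u ∈ Nb v).card / B) := by
  classical
  have h1 : (av fun bet : Fin k → Fin B =>
      ((S.filter fun v => ¬ Nb v ⊆ (S ∩ Rb bet v).biUnion Nb).card : ℝ)) ≤
      av fun bet : Fin k → Fin B => ((S.filter fun v => (bet v : ℕ) < T).card : ℝ) +
        ∑ u ∈ S.biUnion Nb, (((S.filter fun v => u ∈ Nb v).filter fun v => T ≤ (bet v : ℕ) ∧
          ∀ w ∈ S.filter fun v => u ∈ Nb v, bet v ≤ bet w).card : ℝ) := by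
    refine av_mono fun bet => ?_
    have h := card_nonfree_le Nb S T bet
    exact_mod_cast h
  refine h1.trans ?_
  rw [av_add, av_below hB S T hT]
  refine add_le_add le_rfl ?_
  rw [av_sum]
  exact sum_le_sum fun u _ => av_first hB _ T hT

/-- **The mean number of sites that are not free**, with the exceptional right vertices counted by
`few`. -/
theorem ord_few {ι : Type*} [DecidableEq ι] (hB : 0 < B) (Nb : Fin k → Finset ι)
    (S : Finset (Fin k)) (few : Finset ι) (s n : ℕ) (hn : (S.biUnion Nb).card ≤ n)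
    (hs : ∀ u ∈ S.biUnion Nb, u ∉ few → s ≤ (S.filter fun v => u ∈ Nb v).card)
    {ρ δ δ' : ℝ} (hρ : 0 ≤ ρ) (hδ : (n : ℝ) ≤ δ * Real.exp (ρ * s)) (hδ' : (n : ℝ) * k + k ≤ δ' * B) :
    (av fun bet : Fin k → Fin B =>
      ((S.filter fun v => ¬ Nb v ⊆ (S ∩ Rb bet v).biUnion Nb).card : ℝ)) ≤
      ρ * S.card + few.card + δ + δ' := by
  classical
  have : Nonempty (Fin B) := ⟨⟨0, hB⟩⟩
  have hB' : (0 : ℝ) < B := by exact_mod_cast hB
  have hk0 : (0 : ℝ) ≤ k := Nat.cast_nonneg k
  have hn0 : (0 : ℝ) ≤ n := Nat.cast_nonneg n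
  have hSk : (S.card : ℝ) ≤ k := by
    have := (card_le_univ S).trans (le_of_eq (Fintype.card_fin k))
    exact_mod_cast this
  have hS0 : (0 : ℝ) ≤ S.card := Nat.cast_nonneg _
  have hδ0 : 0 ≤ δ := by
    by_contra h
    have h1 : δ * Real.exp (ρ * s) < 0 := mul_neg_of_neg_of_pos (not_le.1 h) (Real.exp_pos _)
    linarith
  have hδ'0 : 0 ≤ δ' := by
    by_contra h
    have h1 : δ' * B < 0 := mul_neg_of_neg_of_pos (not_le.1 h) hB'
    have h2 : 0 ≤ (n : ℝ) * k + k := by positivity
    linarith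
  by_cases h1 : 1 ≤ ρ
  · have h2 : (av fun bet : Fin k → Fin B =>
        ((S.filter fun v => ¬ Nb v ⊆ (S ∩ Rb bet v).biUnion Nb).card : ℝ)) ≤
        av fun _ : Fin k → Fin B => (S.card : ℝ) := by
      refine av_mono fun bet => ?_
      exact_mod_cast card_filter_le S _
    rw [av_const] at h2
    have h3 : (0 : ℝ) ≤ few.card := Nat.cast_nonneg _
    nlinarith
  · push Not at h1
    set T : ℕ := ⌈ρ * B⌉₊ with hTdef
    have hTB : T ≤ B := by
      rw [hTdef, Nat.ceil_le]
      nlinarith
    have hT1 : ρ * B ≤ T := Nat.le_ceil _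
    have hT2 : (T : ℝ) < ρ * B + 1 := Nat.ceil_lt_add_one (by positivity)
    have hTB' : (T : ℝ) / B ≤ 1 := by
      rw [div_le_one hB']
      exact_mod_cast hTB
    have hρT : ρ ≤ (T : ℝ) / B := by
      rw [le_div_iff₀ hB']
      exact hT1
    have hTρ : (T : ℝ) / B ≤ ρ + 1 / B := by
      rw [div_le_iff₀ hB']
      have : (ρ + 1 / B) * B = ρ * B + 1 := by field_simp
      linarith
    refine (ord_av hB Nb S T hTB).trans ?_
    rw [sum_add_distrib]
    have e1 : (T : ℝ) / B * S.card ≤ ρ * S.card + k / B := by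
      have h2 := mul_le_mul_of_nonneg_right hTρ hS0
      have h3 : 1 / (B : ℝ) * S.card ≤ k / B := by
        rw [one_div, inv_mul_eq_div]
        exact div_le_div_of_nonneg_right hSk hB'.le
      linarith
    have e2 : ∑ u ∈ S.biUnion Nb, ((S.filter fun v => u ∈ Nb v).card : ℝ) / B ≤ n * k / B := by
      refine (sum_le_card_nsmul _ _ ((k : ℝ) / B) fun u _ => ?_).trans ?_
      · refine div_le_div_of_nonneg_right ?_ hB'.le
        have := (card_le_univ (S.filter fun v => u ∈ Nb v)).trans (le_of_eq (Fintype.card_fin k))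
        exact_mod_cast this
      · rw [nsmul_eq_mul, mul_div_assoc]
        refine mul_le_mul_of_nonneg_right ?_ (by positivity)
        exact_mod_cast hn
    have e3 : (n : ℝ) * k / B + k / B ≤ δ' := by
      rw [← add_div, div_le_iff₀ hB']
      exact hδ'
    have h4 : 0 ≤ 1 - (T : ℝ) / B := by linarith
    have e4 : ∑ u ∈ S.biUnion Nb, (1 - (T : ℝ) / B) ^ (S.filter fun v => u ∈ Nb v).card ≤
        few.card + δ := by
      have h5 : ∀ u ∈ S.biUnion Nb, (1 - (T : ℝ) / B) ^ (S.filter fun v => u ∈ Nb v).card ≤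
          (if u ∈ few then 1 else 0) + Real.exp (-(ρ * s)) := by
        intro u hu
        by_cases hf : u ∈ few
        · rw [if_pos hf]
          have h6 : (1 - (T : ℝ) / B) ^ (S.filter fun v => u ∈ Nb v).card ≤ 1 :=
            pow_le_one₀ h4 (by linarith [div_nonneg (Nat.cast_nonneg T : (0 : ℝ) ≤ T) hB'.le])
          linarith [Real.exp_pos (-(ρ * s))]
        · rw [if_neg hf, zero_add]
          have h6 : (1 - (T : ℝ) / B) ≤ Real.exp (-ρ) := by
            have := Real.add_one_le_exp (-ρ)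
            linarith
          have h7 : (1 - (T : ℝ) / B) ^ (S.filter fun v => u ∈ Nb v).card ≤
              (1 - (T : ℝ) / B) ^ s :=
            pow_le_pow_of_le_one h4
              (by linarith [div_nonneg (Nat.cast_nonneg T : (0 : ℝ) ≤ T) hB'.le]) (hs u hu hf)
          refine h7.trans ((pow_le_pow_left₀ h4 h6 s).trans (le_of_eq ?_))
          rw [← Real.exp_nat_mul]
          congr 1
          ring
      refine (sum_le_sum h5).trans ?_
      rw [sum_add_distrib, sum_const, nsmul_eq_mul]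
      have h6 : ∑ u ∈ S.biUnion Nb, (if u ∈ few then (1 : ℝ) else 0) ≤ few.card := by
        rw [← sum_filter, sum_const, nsmul_eq_mul, mul_one]
        exact_mod_cast card_le_card fun u hu => (mem_filter.1 hu).2
      have h7 : ((S.biUnion Nb).card : ℝ) * Real.exp (-(ρ * s)) ≤ δ := by
        have h8 : ((S.biUnion Nb).card : ℝ) ≤ n := by exact_mod_cast hn
        have h9 : (n : ℝ) * Real.exp (-(ρ * s)) ≤ δ := by
          rw [Real.exp_neg, ← div_eq_mul_inv, div_le_iff₀ (Real.exp_pos _)]
          exact hδ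
        exact (mul_le_mul_of_nonneg_right h8 (Real.exp_pos _).le).trans h9
      linarith
    linarith

/-- the probability that all labels on `A` are at least `T` -/
theorem av_all (hB : 0 < B) (A : Finset (Fin k)) (T : ℕ) (hT : T ≤ B) :
    (av fun bet : Fin k → Fin B => if ∀ w ∈ A, T ≤ (bet w : ℕ) then (1 : ℝ) else 0) =
      (1 - (T : ℝ) / B) ^ A.card := by
  classical
  have hB' : (0 : ℝ) < B := by exact_mod_cast hB
  have hAk : A.card ≤ k := (card_le_univ A).trans (le_of_eq (Fintype.card_fin k))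
  have h0 : (univ.filter fun bet : Fin k → Fin B => ∀ w ∈ A, T ≤ (bet w : ℕ)) =
      Fintype.piFinset fun w : Fin k => if w ∈ A then
        (univ.filter fun x : Fin B => T ≤ (x : ℕ)) else univ := by
    ext bet
    rw [mem_filter, Fintype.mem_piFinset]
    constructor
    · rintro ⟨_, h⟩ w
      by_cases hA : w ∈ A
      · rw [if_pos hA, mem_filter]
        exact ⟨mem_univ _, h w hA⟩
      · rw [if_neg hA]
        exact mem_univ _
    · intro h
      refine ⟨mem_univ _, fun w hw => ?_⟩
      have := h w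
      rw [if_pos hw, mem_filter] at this
      exact this.2
  have h1 : (univ.filter fun x : Fin B => T ≤ (x : ℕ)).card = B - T := by
    have h2 : (univ.filter fun x : Fin B => T ≤ (x : ℕ)).card =
        ∑ x : Fin B, if T ≤ (x : ℕ) then 1 else 0 := card_filter _ _
    rw [h2, Fin.sum_univ_eq_sum_range (fun x => if T ≤ x then 1 else 0) B, ← card_filter]
    have h3 : (range B).filter (fun x => T ≤ x) = Ico T B := by
      ext x
      rw [mem_filter, mem_range, mem_Ico, and_comm]
    rw [h3, Nat.card_Ico]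
  have h2 : (univ.filter fun bet : Fin k → Fin B => ∀ w ∈ A, T ≤ (bet w : ℕ)).card =
      (B - T) ^ A.card * B ^ (k - A.card) := by
    rw [h0, Fintype.card_piFinset]
    have h3 : ∀ w : Fin k, (if w ∈ A then (univ.filter fun x : Fin B => T ≤ (x : ℕ))
        else univ).card = if w ∈ A then B - T else B := by
      intro w
      split_ifs
      · exact h1
      · rw [card_univ, Fintype.card_fin]
    rw [prod_congr rfl fun w _ => h3 w, prod_ite, prod_const, prod_const]
    have h4 : (univ.filter fun w : Fin k => w ∈ A) = A := by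
      ext w
      simp
    have h5 : (univ.filter fun w : Fin k => w ∉ A) = Aᶜ := by
      ext w
      simp
    rw [h4, h5, card_compl, Fintype.card_fin]
  unfold av
  rw [Fintype.card_fun, Fintype.card_fin, Fintype.card_fin, ← sum_filter, sum_const,
    nsmul_eq_mul, mul_one, h2]
  push_cast [Nat.cast_sub hT]
  have hx : ((B : ℝ) - T) / B = 1 - T / B := by field_simp
  have hBk : (B : ℝ) ^ k = B ^ A.card * B ^ (k - A.card) := by
    rw [← pow_add]
    congr 1
    omega
  rw [hBk, ← hx, div_pow]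
  have h3 : (B : ℝ) ^ (k - A.card) ≠ 0 := pow_ne_zero _ hB'.ne'
  have h4 : (B : ℝ) ^ A.card ≠ 0 := pow_ne_zero _ hB'.ne'
  field_simp

/-- the probability that two labels agree -/
theorem av_eq (hB : 0 < B) {v w : Fin k} (hvw : v ≠ w) :
    (av fun bet : Fin k → Fin B => if bet w = bet v then (1 : ℝ) else 0) = 1 / B := by
  classical
  have : Nonempty (Fin B) := ⟨⟨0, hB⟩⟩
  rw [← SubBisX.Bounds.av_update v (fun bet : Fin k → Fin B =>
    if bet w = bet v then (1 : ℝ) else 0)]
  have h4 : (fun bet : Fin k → Fin B => av fun x : Fin B =>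
      if (Function.update bet v x) w = (Function.update bet v x) v then (1 : ℝ) else 0) =
      fun _ => 1 / (B : ℝ) := by
    funext bet
    simp only [Function.update_self, Function.update_of_ne hvw.symm]
    unfold av
    rw [Fintype.card_fin, sum_ite_eq, if_pos (mem_univ _)]
  rw [h4, av_const]

/-- the mean number of sites whose label is not unique -/
theorem av_tied (hB : 0 < B) (S : Finset (Fin k)) :
    (av fun bet : Fin k → Fin B =>
      ((S.filter fun v => ∃ w ∈ S, w ≠ v ∧ bet w = bet v).card : ℝ)) ≤ (k : ℝ) ^ 2 / B := by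
  classical
  have hB' : (0 : ℝ) < B := by exact_mod_cast hB
  have h1 : (av fun bet : Fin k → Fin B =>
      ((S.filter fun v => ∃ w ∈ S, w ≠ v ∧ bet w = bet v).card : ℝ)) ≤
      av fun bet : Fin k → Fin B => ∑ p ∈ (S ×ˢ S).filter (fun p => p.1 ≠ p.2),
        if bet p.2 = bet p.1 then (1 : ℝ) else 0 := by
    refine av_mono fun bet => ?_
    rw [← sum_filter, sum_const, nsmul_eq_mul, mul_one]
    have h2 : (S.filter fun v => ∃ w ∈ S, w ≠ v ∧ bet w = bet v) ⊆
        (((S ×ˢ S).filter fun p => p.1 ≠ p.2).filter fun p => bet p.2 = bet p.1).image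
          Prod.fst := by
      intro v hv
      rw [mem_filter] at hv
      obtain ⟨hv, w, hw, hwv, he⟩ := hv
      rw [mem_image]
      exact ⟨(v, w), mem_filter.2 ⟨mem_filter.2 ⟨mem_product.2 ⟨hv, hw⟩, fun e => hwv e.symm⟩,
        he⟩, rfl⟩
    exact_mod_cast (card_le_card h2).trans card_image_le
  refine h1.trans ?_
  rw [av_sum]
  have h3 : ∀ p ∈ (S ×ˢ S).filter (fun p => p.1 ≠ p.2),
      (av fun bet : Fin k → Fin B => if bet p.2 = bet p.1 then (1 : ℝ) else 0) = 1 / B := by
    intro p hp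
    exact av_eq hB (mem_filter.1 hp).2
  rw [sum_congr rfl h3, sum_const, nsmul_eq_mul]
  have h4 : (((S ×ˢ S).filter fun p => p.1 ≠ p.2).card : ℝ) ≤ (k : ℝ) ^ 2 := by
    have h5 : ((S ×ˢ S).filter fun p => p.1 ≠ p.2).card ≤ k ^ 2 := by
      refine (card_filter_le _ _).trans ?_
      rw [card_product, pow_two]
      have h6 : S.card ≤ k := (card_le_univ S).trans (le_of_eq (Fintype.card_fin k))
      exact Nat.mul_le_mul h6 h6
    exact_mod_cast h5
  rw [mul_one_div]
  exact div_le_div_of_nonneg_right h4 hB'.le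

end OrdG

/-- the number of the sites that are not free, for coverage functions -/
theorem nfG_cvF {k B : ℕ} (Nb : Fin k → Finset ℕ) (bet : Fin k → Fin B) (S : Finset (Fin k)) :
    nfG (cvF Nb) bet S = ((S.filter fun v => ¬ Nb v ⊆ (S ∩ Rb bet v).biUnion Nb).card : ℝ) := by
  classical
  unfold nfG
  congr 2
  ext v
  simp only [mem_filter, freeG_cvF]

/-- the number of the sites of a fixed set that are not free, in a random order -/
theorem order_bound {k B : ℕ} (hB : 0 < B) (Nb : Fin k → Finset ℕ) (S : Finset (Fin k))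
    (bad : Finset ℕ) {s T : ℕ} (hT : T ≤ B)
    (hs : ∀ b ∈ S.biUnion Nb, b ∉ bad → s ≤ (S.filter fun v => b ∈ Nb v).card) :
    (av fun bet : Fin k → Fin B => nfG (cvF Nb) bet S) ≤
      k * ((T : ℝ) / B) + bad.card + (S.biUnion Nb).card * (1 - (T : ℝ) / B) ^ s +
        (k : ℝ) ^ 2 / B := by
  have hB' : (0 : ℝ) < B := by exact_mod_cast hB
  have : Nonempty (Fin B) := ⟨⟨0, hB⟩⟩
  have hTB' : (T : ℝ) / B ≤ 1 := by
    rw [div_le_one hB']
    exact_mod_cast hT
  have h4 : 0 ≤ 1 - (T : ℝ) / B := by linarith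
  -- pointwise
  have h1 : ∀ bet : Fin k → Fin B, nfG (cvF Nb) bet S ≤
      ((S.filter fun v => (bet v : ℕ) < T).card : ℝ) + (bad.card + (∑ b ∈ (S.biUnion Nb) \ bad,
        (if ∀ w ∈ S.filter (fun v => b ∈ Nb v), T ≤ (bet w : ℕ) then (1 : ℝ) else 0) +
        ((S.filter fun v => ∃ w ∈ S, w ≠ v ∧ bet w = bet v).card : ℝ))) := by
    intro bet
    rw [nfG_cvF, ← sum_filter, sum_const, nsmul_eq_mul, mul_one]
    set X := S.filter fun v => ¬ Nb v ⊆ (S ∩ Rb bet v).biUnion Nb with hX
    set X1 := S.filter fun v => (bet v : ℕ) < T with hX1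
    set X2 := S.filter fun v => ∃ w ∈ S, w ≠ v ∧ bet w = bet v with hX2
    set Y := ((S.biUnion Nb) \ bad).filter fun b =>
      ∀ w ∈ S.filter (fun v => b ∈ Nb v), T ≤ (bet w : ℕ) with hY
    have h2 : ∀ v ∈ X \ (X1 ∪ X2), ∃ b ∈ bad ∪ Y, b ∈ Nb v ∧ ∀ w ∈ S, b ∈ Nb w → bet v ≤ bet w := by
      intro v hv
      rw [mem_sdiff, mem_union, not_or, hX, mem_filter] at hv
      obtain ⟨⟨hvS, hfr⟩, hv1, hv2⟩ := hv
      obtain ⟨b, hb, hb'⟩ := not_subset.1 hfr
      have hmin : ∀ w ∈ S, b ∈ Nb w → bet v ≤ bet w := by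
        intro w hw hbw
        by_contra hlt
        exact hb' (mem_biUnion.2 ⟨w, mem_inter.2 ⟨hw, mem_filter.2 ⟨mem_univ _, not_le.1 hlt⟩⟩,
          hbw⟩)
      refine ⟨b, ?_, hb, hmin⟩
      rw [mem_union]
      by_cases hbad : b ∈ bad
      · exact Or.inl hbad
      · refine Or.inr ?_
        rw [hY, mem_filter, mem_sdiff]
        refine ⟨⟨mem_biUnion.2 ⟨v, hvS, hb⟩, hbad⟩, fun w hw => ?_⟩
        rw [mem_filter] at hw
        have h5 : ¬ (bet v : ℕ) < T := fun h => hv1 (mem_filter.2 ⟨hvS, h⟩)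
        exact (not_lt.1 h5).trans (hmin w hw.1 hw.2)
    choose! f hf1 hf2 hf3 using h2
    have h5 : (X \ (X1 ∪ X2)).card ≤ (bad ∪ Y).card := by
      refine card_le_card_of_injOn f (fun v hv => hf1 v hv) ?_
      intro v hv w hw hvw
      rw [mem_coe] at hv hw
      by_contra hne
      have hvS : v ∈ S := (mem_filter.1 (mem_sdiff.1 hv).1).1
      have hwS : w ∈ S := (mem_filter.1 (mem_sdiff.1 hw).1).1
      have e1 : bet v ≤ bet w := hf3 v hv w hwS (hvw ▸ hf2 w hw)
      have e2 : bet w ≤ bet v := hf3 w hw v hvS (hvw ▸ hf2 v hv)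
      refine (mem_sdiff.1 hv).2 (mem_union_right _ (mem_filter.2 ⟨hvS, w, hwS, ?_, ?_⟩))
      · exact fun e => hne e.symm
      · exact le_antisymm e2 e1
    have h6 : X.card ≤ X1.card + (bad.card + (Y.card + X2.card)) := by
      have h7 : X ⊆ (X \ (X1 ∪ X2)) ∪ (X1 ∪ X2) := by
        intro v hv
        rw [mem_union, mem_sdiff]
        by_cases h : v ∈ X1 ∪ X2
        · exact Or.inr h
        · exact Or.inl ⟨hv, h⟩
      have h8 := (card_le_card h7).trans (card_union_le _ _)
      have h9 := card_union_le X1 X2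
      have h10 := card_union_le bad Y
      omega
    exact_mod_cast h6
  refine (av_mono h1).trans ?_
  rw [av_add, av_add, av_add, av_const, OrdG.av_below hB S T hT, av_sum]
  have e1 : (T : ℝ) / B * S.card ≤ k * ((T : ℝ) / B) := by
    rw [mul_comm]
    refine mul_le_mul_of_nonneg_right ?_ (by positivity)
    have := (card_le_univ S).trans (le_of_eq (Fintype.card_fin k))
    exact_mod_cast this
  have e2 : ∑ b ∈ (S.biUnion Nb) \ bad, (av fun bet : Fin k → Fin B =>
      if ∀ w ∈ S.filter (fun v => b ∈ Nb v), T ≤ (bet w : ℕ) then (1 : ℝ) else 0) ≤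
      (S.biUnion Nb).card * (1 - (T : ℝ) / B) ^ s := by
    have e3 : ∀ b ∈ (S.biUnion Nb) \ bad, (av fun bet : Fin k → Fin B =>
        if ∀ w ∈ S.filter (fun v => b ∈ Nb v), T ≤ (bet w : ℕ) then (1 : ℝ) else 0) ≤
        (1 - (T : ℝ) / B) ^ s := by
      intro b hb
      rw [OrdG.av_all hB _ T hT]
      rw [mem_sdiff] at hb
      exact pow_le_pow_of_le_one h4
        (by linarith [div_nonneg (Nat.cast_nonneg T : (0 : ℝ) ≤ T) hB'.le]) (hs b hb.1 hb.2)
    refine (sum_le_card_nsmul _ _ _ e3).trans ?_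
    rw [nsmul_eq_mul]
    refine mul_le_mul_of_nonneg_right ?_ (pow_nonneg h4 s)
    exact_mod_cast card_le_card sdiff_subset
  have e4 := OrdG.av_tied hB S
  linarith

theorem order_boundG {n k d : ℕ} (hk : k ≤ n) (hd : 1 ≤ d) (Nb : Fin k → Finset ℕ)
    (hNb : ∀ v, Nb v ⊆ range n) (S : Finset (Fin k)) (bad : Finset ℕ)
    (hs : ∀ b ∈ S.biUnion Nb, b ∉ bad → d ≤ 16 * (S.filter fun v => b ∈ Nb v).card) :
    (av fun bet : Fin k → Fin (2 ^ lamG n) => nfG (cvF Nb) bet S) ≤
      16 * ((k : ℝ) / d) * Real.log (n + 1) + bad.card + 2 := by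
  have hd' : (0 : ℝ) < d := by exact_mod_cast hd
  have hU : (S.biUnion Nb).card ≤ n := by
    have h1 : S.biUnion Nb ⊆ range n := biUnion_subset.2 fun v _ => hNb v
    exact (card_le_card h1).trans (le_of_eq (card_range n))
  have hn1 : (0 : ℝ) < n + 1 := by positivity
  have hlog : 0 ≤ Real.log ((n : ℝ) + 1) := Real.log_nonneg (by
    linarith [(Nat.cast_nonneg n : (0 : ℝ) ≤ n)])
  -- the number of labels
  have hB : (n : ℝ) * k + k ≤ 1 * ((2 ^ lamG n : ℕ) : ℝ) := by
    have h1 : 8 * (n + 1) ^ 2 < 2 ^ bG n := Nat.lt_size_self _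
    have h2 : n * k + k ≤ 2 ^ lamG n := by
      have h3 : 2 ^ bG n ≤ 2 ^ lamG n := Nat.pow_le_pow_right (by norm_num) (by
        unfold lamG
        omega)
      nlinarith
    rw [one_mul]
    exact_mod_cast h2
  set ρ : ℝ := 16 * Real.log (n + 1) / d with hρ
  have hρ0 : 0 ≤ ρ := by positivity
  set s : ℕ := (d + 15) / 16 with hsdef
  have hs' : ∀ b ∈ S.biUnion Nb, b ∉ bad → s ≤ (S.filter fun v => b ∈ Nb v).card := by
    intro b hb hbad
    have := hs b hb hbad
    omega
  have hds : (d : ℝ) ≤ 16 * s := by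
    have : d ≤ 16 * s := by omega
    exact_mod_cast this
  have hexp : (n : ℝ) ≤ 1 * Real.exp (ρ * s) := by
    have h3 : Real.log ((n : ℝ) + 1) = ρ * (d / 16) := by
      rw [hρ]
      field_simp
    have h1 : Real.log ((n : ℝ) + 1) ≤ ρ * s := by
      rw [h3]
      exact mul_le_mul_of_nonneg_left (by linarith) hρ0
    have h2 := Real.exp_le_exp.2 h1
    rw [Real.exp_log hn1] at h2
    linarith
  have key := OrdG.ord_few (B := 2 ^ lamG n) (pow_pos (by norm_num) _) Nb S bad s n hU hs'
    hρ0 hexp hB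
  have hSk : (S.card : ℝ) ≤ k := by
    have := (card_le_univ S).trans (le_of_eq (Fintype.card_fin k))
    exact_mod_cast this
  have h5 : ρ * S.card ≤ 16 * ((k : ℝ) / d) * Real.log (n + 1) := by
    refine (mul_le_mul_of_nonneg_left hSk hρ0).trans (le_of_eq ?_)
    rw [hρ]
    ring
  have h6 : (fun bet : Fin k → Fin (2 ^ lamG n) => nfG (cvF Nb) bet S) =
      fun bet : Fin k → Fin (2 ^ lamG n) =>
        ((S.filter fun v => ¬ Nb v ⊆ (S ∩ Rb bet v).biUnion Nb).card : ℝ) := by
    funext bet
    exact nfG_cvF Nb bet S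
  rw [h6]
  linarith

end Pool.Agent.Lib.SubBisG
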