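import Pool.Agent.Lib.SubBisF.ParF
import Pool.Agent.Lib.SubBisF.Up3
import Pool.Agent.Lib.SubBisG.CoreLowG

/-!
# SubBisG.ParA: the mean value of the method, with any parameters

`Par c κ μ lam ρ d Γ M N ε`: the relations between the parameters. `c` is the number of copies of the
energy, `κ` bounds the increments of the set function, `2 ^ μ` is the number of digits, `2 ^ lam` the
number of blocks, `2 ^ ρ` the size of the pool, `d` the degree of the kernel, `Γ` bounds the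
gradients, `M` is the scale, `N` the number of steps, `ε` the smoothing of the comparator.
`parG_upper`, `parG_lower`: the mean of `VlF / (N M c)` is at most `logZ F + 3 k / c` and at least
`logZ F - 5 k / c - 24 ε² EA F`, `EA F` the mean number of the chosen sites that are not free.
-/

set_option autoImplicit false

open scoped BigOperators

namespace Pool.Agent.Lib.SubBisG

open Finset SubBis Pool.Agent.Lib.SubBisX.Reg Pool.Agent.Lib.SubBisX.Core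
open Pool.Agent.Lib.SubBisX Pool.Agent.Lib.SubBisF
open Pool.Agent.Lib.SubBisE (agr ker cl gam vl xt Okd)
open Pool.Agent.Lib.SubBisB (wt2 ZF EG pv Rb Rp psi)

variable {k m B R : ℕ}

/-- The relations between the parameters. -/
structure Par (c κ μ lam ρ d Γ M N : ℕ) (ε : ℝ) : Prop where
  c1 : 1 ≤ c
  μ1 : 1 ≤ μ
  dl : (c : ℝ) * SubBisB.dl (2 ^ μ) ≤ 1
  grad : c * (μ + κ) ≤ Γ
  Γ1 : 1 ≤ Γ
  blocks : (c * κ) ^ 2 ≤ 2 ^ lam
  tail : (Γ : ℝ) ≤ (1 + ε) ^ (d + 1)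
  pool : 2 * 2 ^ lam * (1 + 2 ^ μ) * (Γ + c) ^ 2 ≤ 2 ^ ρ
  scale : M = Γ ^ 2 * (2 ^ lam + 1) ^ d
  steps : N = M * (2 ^ μ * (2 ^ ρ) ^ d)
  ε0 : 0 ≤ ε
  ε1 : ε ≤ 1 / 16

/-- the random numbers of one copy -/
abbrev CpP (k μ lam ρ N : ℕ) : Type := (Fin k → Fin (2 ^ lam)) ×
  ((Fin k → Fin (2 ^ ρ) → Fin (2 ^ μ)) × (Fin N → Fin (2 ^ lam) → Fin (2 ^ ρ)))

/-- the mean number of the chosen sites that are not free, the labels are uniform in `Fin B` -/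
noncomputable def EA (B : ℕ) (F : Finset (Fin k) → ℤ) : ℝ :=
  av fun bet : Fin k → Fin B => EG F (nfG F bet)

/-! ### The upper bound -/

section par

variable {c κ μ lam ρ d Γ M N : ℕ} {ε : ℝ}

theorem Par.M_pos (h : Par c κ μ lam ρ d Γ M N ε) : 0 < M := by
  rw [h.scale]
  exact Nat.mul_pos (Nat.pow_pos h.Γ1) (Nat.pow_pos (Nat.succ_pos _))

theorem Par.N_pos (h : Par c κ μ lam ρ d Γ M N ε) : 0 < N := by
  rw [h.steps]
  exact Nat.mul_pos h.M_pos (Nat.mul_pos (by positivity) (by positivity))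

theorem Par.upHyp (h : Par c κ μ lam ρ d Γ M N ε) (F : Finset (Fin k) → ℤ)
    (hF : ∀ S v, |F (insert v S) - F S| ≤ κ) (bet : Fin k → Fin (2 ^ lam)) :
    UpHyp (2 ^ μ) (2 ^ lam) (2 ^ ρ) k c M F bet (3 * k) := by
  set E : ℝ := (c : ℝ) * μ with hE
  set G : ℝ := E + (c : ℝ) * (κ + 1) with hG
  have hc1 : (1 : ℝ) ≤ c := by exact_mod_cast h.c1
  have hE0 : 0 ≤ E := by positivity
  have hκ0 : (0 : ℝ) ≤ κ := Nat.cast_nonneg _
  have hG1 : 1 ≤ G := by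
    rw [hG]
    nlinarith
  have hGG : G ≤ Γ + c := by
    have h1 : ((c * (μ + κ) : ℕ) : ℝ) ≤ Γ := by exact_mod_cast h.grad
    push_cast at h1
    rw [hG, hE]
    linarith
  obtain ⟨UB, h1, h2⟩ := up_pool (R := 2 ^ ρ) c M F bet (E := E) (κ := κ)
    (l := 1 / G ^ 2) hE0 (fun u => by
      have h3 := abs_ee_le (mu := μ) (c := c) u.2
      have h4 : |(ee (2 ^ μ) c u : ℝ)| ≤ ((c * μ : ℕ) : ℝ) := by
        exact_mod_cast h3
      refine h4.trans (le_of_eq ?_)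
      rw [hE]
      push_cast
      ring) hκ0 (fun S v => by exact_mod_cast hF S v) (by positivity)
    (by
      rw [← hG, one_div_mul_eq_div, div_le_one (by positivity)]
      nlinarith)
  refine ⟨UB, fun D Y hY0 hY1 hY => h1 D Y hY0 hY1 fun v I I' => hY I I' v, h2.trans ?_⟩
  rw [← hG]
  have h5 : 1 / G ^ 2 * G ^ 2 = 1 := by
    field_simp
  have hR : (2 : ℝ) * 2 ^ lam * (1 + 2 ^ μ) * G ^ 2 ≤ 2 ^ ρ := by
    have h6 : G ^ 2 ≤ ((Γ : ℝ) + c) ^ 2 := pow_le_pow_left₀ (by linarith) hGG 2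
    have h7 : (2 : ℝ) * 2 ^ lam * (1 + 2 ^ μ) * ((Γ : ℝ) + c) ^ 2 ≤ 2 ^ ρ := by
      exact_mod_cast h.pool
    refine le_trans ?_ h7
    exact mul_le_mul_of_nonneg_left h6 (by positivity)
  have hl2 : Real.log 2 ≤ 1 := by
    have := Real.log_two_lt_d9
    linarith
  have hl0 : 0 ≤ Real.log 2 := Real.log_nonneg (by norm_num)
  have h11 : ((2 ^ lam : ℕ) : ℝ) * ((k + k * 2 ^ μ : ℕ) * Real.log 2) /
      (1 / G ^ 2 * (2 ^ ρ : ℕ)) ≤ k := by
    push_cast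
    rw [div_le_iff₀ (by positivity)]
    have h12 : (1 : ℝ) / G ^ 2 * (2 * 2 ^ lam * (1 + 2 ^ μ) * G ^ 2) ≤
        1 / G ^ 2 * 2 ^ ρ := mul_le_mul_of_nonneg_left hR (by positivity)
    have h13 : (1 : ℝ) / G ^ 2 * (2 * 2 ^ lam * (1 + 2 ^ μ) * G ^ 2) =
        2 * 2 ^ lam * (1 + 2 ^ μ) := by
      field_simp
    rw [h13] at h12
    have h14 : (0 : ℝ) ≤ (k : ℝ) := Nat.cast_nonneg _
    have h15 : (0 : ℝ) ≤ 2 ^ lam * (1 + 2 ^ μ) := by positivity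
    calc (2 : ℝ) ^ lam * ((k + k * 2 ^ μ) * Real.log 2)
        = k * (2 ^ lam * (1 + 2 ^ μ)) * Real.log 2 := by ring
      _ ≤ k * (2 ^ lam * (1 + 2 ^ μ)) * 1 :=
          mul_le_mul_of_nonneg_left hl2 (by positivity)
      _ ≤ k * (2 * 2 ^ lam * (1 + 2 ^ μ)) := by nlinarith
      _ ≤ k * (1 / G ^ 2 * 2 ^ ρ) := mul_le_mul_of_nonneg_left h12 h14
  rw [h5]
  push_cast at h11 ⊢
  linarith

/-- the bound for the gradients -/
theorem Par.gr_le (h : Par c κ μ lam ρ d Γ M N ε) {F : Finset (Fin k) → ℤ}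
    (hk : ∀ S v, |F (insert v S) - F S| ≤ κ) (v : Fin k) (u : Fin (2 ^ μ)) (y : Fin k → ℤ) :
    |gr c F v u y| ≤ Γ := by
  unfold gr
  have h1 : |ee (2 ^ μ) c u| ≤ ((c * μ : ℕ) : ℤ) := by
    have := SubBis.abs_ee_le (mu := μ) (c := c) u.2
    exact_mod_cast this
  have h2 : |(c : ℤ) * (F (Up y v) - F (Upo y v))| ≤ ((c * κ : ℕ) : ℤ) := by
    rw [abs_mul, abs_of_nonneg (Int.natCast_nonneg _), CA.Up_eq, CA.Upo_eq]
    push_cast
    have := hk (FCS.bef y v) v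
    exact mul_le_mul_of_nonneg_left this (by positivity)
  have h3 : ((c * (μ + κ) : ℕ) : ℤ) ≤ Γ := by exact_mod_cast h.grad
  refine (abs_sub _ _).trans (le_trans ?_ h3)
  push_cast at h1 h2 ⊢
  rw [mul_add]
  exact add_le_add h1 h2

/-- **The mean value, upper bound.** -/
theorem parG_upper (h : Par c κ μ lam ρ d Γ M N ε) {F : Finset (Fin k) → ℤ} (hF0 : F ∅ = 0)
    (hk : ∀ S v, |F (insert v S) - F S| ≤ κ) :
    (av fun p : CpP k μ lam ρ N => (VlF c M d F p.1 p.2.1 N (xt p.2.2) : ℝ)) / (N * M * c) ≤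
      Bounds.logZ F + 3 * k / c := by
  have h1 : ∀ bet : Fin k → Fin (2 ^ lam),
      (av fun p : (Fin k → Fin (2 ^ ρ) → Fin (2 ^ μ)) × (Fin N → Fin (2 ^ lam) → Fin (2 ^ ρ)) =>
          (VlF c M d F bet p.1 N (xt p.2) : ℝ)) ≤
        N * (M * (c * Bounds.logZ F + 3 * k)) := fun bet =>
    coreF_upper (m := 2 ^ μ) (c := c) (M := M) (d := d) (F := F) hF0 (h.upHyp _ hk bet) N
  have h2 := av_mono h1
  rw [av_const] at h2
  have h4 : (av fun p : CpP k μ lam ρ N => (VlF c M d F p.1 p.2.1 N (xt p.2.2) : ℝ)) =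
      av fun bet : Fin k → Fin (2 ^ lam) =>
        av fun p : (Fin k → Fin (2 ^ ρ) → Fin (2 ^ μ)) × (Fin N → Fin (2 ^ lam) → Fin (2 ^ ρ)) =>
          (VlF c M d F bet p.1 N (xt p.2) : ℝ) :=
    av_prod fun p : CpP k μ lam ρ N => (VlF c M d F p.1 p.2.1 N (xt p.2.2) : ℝ)
  rw [← h4] at h2
  have hc : (0 : ℝ) < c := by exact_mod_cast h.c1
  have hM : (0 : ℝ) < M := by exact_mod_cast h.M_pos
  have hN : (0 : ℝ) < N := by exact_mod_cast h.N_pos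
  rw [div_le_iff₀ (by positivity)]
  refine h2.trans (le_of_eq ?_)
  field_simp

/-- **The mean value, lower bound.** -/
theorem parG_lower (h : Par c κ μ lam ρ d Γ M N ε) {F : Finset (Fin k) → ℤ} (hF : FCS.Subm F)
    (hF0 : F ∅ = 0) (hMo : ∀ S v, F S ≤ F (insert v S))
    (hk : ∀ S v, |F (insert v S) - F S| ≤ κ) :
    Bounds.logZ F - 5 * k / c - 24 * ε ^ 2 * EA (2 ^ lam) F ≤
      (av fun p : CpP k μ lam ρ N => (VlF c M d F p.1 p.2.1 N (xt p.2.2) : ℝ)) /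
        (N * M * c) := by
  have hm2 : 2 ≤ 2 ^ μ := by
    calc 2 = 2 ^ 1 := rfl
      _ ≤ 2 ^ μ := Nat.pow_le_pow_right (by norm_num) h.μ1
  have hc : (0 : ℝ) < c := by exact_mod_cast h.c1
  have hM : (0 : ℝ) < M := by exact_mod_cast h.M_pos
  have hN : (0 : ℝ) < N := by exact_mod_cast h.N_pos
  have hΓ : (0 : ℝ) < Γ := by exact_mod_cast h.Γ1
  have hk0 : (0 : ℝ) ≤ k := Nat.cast_nonneg k
  have hMe : (M : ℝ) = (Γ : ℝ) ^ 2 * (((2 ^ lam : ℕ) : ℝ) + 1) ^ d := by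
    rw [h.scale]; push_cast; ring
  have hNe : (N : ℝ) = M * (((2 ^ μ : ℕ) : ℝ) * ((2 ^ ρ : ℕ) : ℝ) ^ d) := by
    rw [h.steps]; push_cast; ring
  set T : ℝ := (1 + ε) ^ (d + 1) with hT
  have hT0 : 0 < T := by
    have h0 := h.ε0
    positivity
  set lZ : ℝ := Bounds.logZ F with hlZ
  have h1 : ∀ bet : Fin k → Fin (2 ^ lam),
      (N * (M * (c * lZ - lossC (2 ^ μ) c ε F bet - c * κ * gap F bet)) -
        k * ((M : ℝ) ^ 2 * (((2 ^ μ : ℕ) : ℝ) * ((2 ^ ρ : ℕ) : ℝ) ^ d) +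
          N * ((Γ : ℝ) ^ 2 * (((2 ^ lam : ℕ) : ℝ) + 1) ^ d)) / 2 -
        M * Γ * (N * (k / T))) ≤
      (av fun p : (Fin k → Fin (2 ^ ρ) → Fin (2 ^ μ)) × (Fin N → Fin (2 ^ lam) → Fin (2 ^ ρ)) =>
          (VlF c M d F bet p.1 N (xt p.2) : ℝ)) := by
    intro bet
    exact coreG_lower (m := 2 ^ μ) (B := 2 ^ lam) (R := 2 ^ ρ) (c := c)
      (M := M) (d := d) h.M_pos hm2 (ε := ε) h.ε0 h.ε1 hF hF0 hMo (Γ := Γ) (κ := κ)
      (fun U y v => h.gr_le hk v (U v) y) (fun y v => hk _ v) bet N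
  have h2 := av_mono h1
  have h4 : (av fun p : CpP k μ lam ρ N => (VlF c M d F p.1 p.2.1 N (xt p.2.2) : ℝ)) =
      av fun bet : Fin k → Fin (2 ^ lam) =>
        av fun p : (Fin k → Fin (2 ^ ρ) → Fin (2 ^ μ)) × (Fin N → Fin (2 ^ lam) → Fin (2 ^ ρ)) =>
          (VlF c M d F bet p.1 N (xt p.2) : ℝ) :=
    av_prod fun p : CpP k μ lam ρ N => (VlF c M d F p.1 p.2.1 N (xt p.2.2) : ℝ)
  rw [← h4] at h2
  obtain ⟨X, hX⟩ : ∃ X : ℝ, X = av fun p : CpP k μ lam ρ N =>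
    (VlF c M d F p.1 p.2.1 N (xt p.2.2) : ℝ) := ⟨_, rfl⟩
  rw [← hX] at h2 ⊢
  set g : ℝ := av fun bet : Fin k → Fin (2 ^ lam) => gap F bet with hg
  have hg1 : g ≤ k / Real.sqrt ((2 ^ lam : ℕ) : ℝ) :=
    av_gap (B := 2 ^ lam) (by positivity) F
  have h5 : N * (M * (c * lZ - k * (1 + c * SubBisB.dl (2 ^ μ)) -
          c * (24 * ε ^ 2) * EA (2 ^ lam) F - c * κ * g)) -
        k * ((M : ℝ) ^ 2 * (((2 ^ μ : ℕ) : ℝ) * ((2 ^ ρ : ℕ) : ℝ) ^ d) +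
          N * ((Γ : ℝ) ^ 2 * (((2 ^ lam : ℕ) : ℝ) + 1) ^ d)) / 2 -
        M * Γ * (N * (k / T)) ≤ X := by
    refine le_trans (le_of_eq ?_) h2
    unfold lossC
    rw [av_sub, av_const, av_sub, av_const, av_smul, av_smul, av_sub, av_sub, av_const, av_smul,
      av_add, av_const, av_smul, av_smul]
    unfold EA
    ring
  -- the gap
  have hgap : (c : ℝ) * κ * g ≤ k := by
    have hs : (c : ℝ) * κ ≤ Real.sqrt ((2 ^ lam : ℕ) : ℝ) := by
      refine Real.le_sqrt_of_sq_le ?_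
      exact_mod_cast h.blocks
    have hs0 : (0 : ℝ) < Real.sqrt ((2 ^ lam : ℕ) : ℝ) := Real.sqrt_pos.2 (by positivity)
    have h6 : (c : ℝ) * κ * g ≤ c * κ * (k / Real.sqrt ((2 ^ lam : ℕ) : ℝ)) :=
      mul_le_mul_of_nonneg_left hg1 (by positivity)
    refine h6.trans ?_
    rw [← mul_div_assoc, div_le_iff₀ hs0, mul_comm (k : ℝ)]
    exact mul_le_mul_of_nonneg_right hs hk0
  -- the tail
  have htail : (Γ : ℝ) * (k / T) ≤ k := by
    rw [← mul_div_assoc, div_le_iff₀ hT0, mul_comm (k : ℝ)]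
    exact mul_le_mul_of_nonneg_right h.tail hk0
  have hloss : (k : ℝ) * (1 + c * SubBisB.dl (2 ^ μ)) ≤ 2 * k := by
    have := mul_le_mul_of_nonneg_left h.dl hk0
    linarith
  have t1 : (k : ℝ) * ((M : ℝ) ^ 2 * (((2 ^ μ : ℕ) : ℝ) * ((2 ^ ρ : ℕ) : ℝ) ^ d) +
      N * ((Γ : ℝ) ^ 2 * (((2 ^ lam : ℕ) : ℝ) + 1) ^ d)) / 2 = k * (N * M) := by
    rw [← hMe, hNe]
    ring
  have t2 : (M : ℝ) * Γ * (N * (k / T)) ≤ N * M * k := by
    have h3 := mul_le_mul_of_nonneg_left htail (by positivity : (0 : ℝ) ≤ N * M)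
    nlinarith
  have t3 : (N : ℝ) * (M * (c * lZ - 2 * k - c * (24 * ε ^ 2) * EA (2 ^ lam) F - k)) ≤
      N * (M * (c * lZ - k * (1 + c * SubBisB.dl (2 ^ μ)) -
        c * (24 * ε ^ 2) * EA (2 ^ lam) F - c * κ * g)) := by
    refine mul_le_mul_of_nonneg_left (mul_le_mul_of_nonneg_left ?_ hM.le) hN.le
    linarith
  rw [t1] at h5
  rw [le_div_iff₀ (by positivity)]
  have e3 : (lZ - 5 * k / c - 24 * ε ^ 2 * EA (2 ^ lam) F) * (N * M * c) =
      N * (M * (c * lZ - 2 * k - c * (24 * ε ^ 2) * EA (2 ^ lam) F - k)) - k * (N * M) -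
        N * M * k := by
    field_simp
    ring
  rw [e3]
  linarith

/-- **The range.** -/
theorem range_of {F : Finset (Fin k) → ℤ} [NeZero R]
    (hΓ : ∀ (v : Fin k) (u : Fin m) (y : Fin k → ℤ), |gr c F v u y| ≤ Γ)
    (bet : Fin k → Fin B) (D : Fin k → Fin R → Fin m) (W : ℕ → Fin B → Fin R) :
    |VlF c M d F bet D N W| ≤ (N : ℤ) * (k * ((M : ℤ) * Γ)) := by
  unfold VlF
  refine (abs_sum_le_sum_abs _ _).trans ?_
  have h1 : ∀ τ ∈ range N, |vl c M F (dgt bet D (W τ))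
      (yyF d bet D (stF c M d F bet D W τ) W τ)| ≤ (k : ℤ) * ((M : ℤ) * Γ) := by
    intro τ _
    unfold vl
    refine (abs_sum_le_sum_abs _ _).trans ?_
    refine (sum_le_card_nsmul univ _ ((M : ℤ) * Γ) fun v _ => ?_).trans (le_of_eq ?_)
    · rw [abs_mul]
      refine mul_le_mul ?_ (hΓ v _ _) (abs_nonneg _) (Int.natCast_nonneg _)
      rw [abs_of_nonneg (SubBisE.ParEAux.cl_nonneg _ _ _)]
      exact SubBisE.ParEAux.cl_le _ _ _
    · rw [card_univ, Fintype.card_fin, nsmul_eq_mul]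
  refine (sum_le_card_nsmul _ _ _ h1).trans (le_of_eq ?_)
  rw [card_range, nsmul_eq_mul]

end par

end Pool.Agent.Lib.SubBisG
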