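import Pool.Agent.Lib.SubBisG.ParA
import Pool.Agent.Lib.SubBisG.Gr
import Pool.Agent.Lib.SubBisF.SysF

/-!
# SubBisG.ParG: the mean value and the range, with the parameters of `Defs`
-/

set_option autoImplicit false

open scoped BigOperators

namespace Pool.Agent.Lib.SubBisG

open Finset SubBis Pool.Agent.Lib.SubBisX.Core Pool.Agent.Lib.SubBisX
open Pool.Agent.Lib.SubBisF (VlF dgt)
open Pool.Agent.Lib.SubBisE (xt)
open Pool.Agent.Lib.SubBisB (EG Rb Rp)

variable {n k B : ℕ}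

/-! ### The parameters -/

namespace MeanGAux

theorem QG_pos (n : ℕ) : 1 ≤ QG n := by
  unfold QG
  omega

theorem mu_big (n : ℕ) : 8 * (QG n : ℝ) ^ 2 ≤ (2 : ℝ) ^ muG n := by
  have h1 : ((QG n : ℕ) : ℝ) ≤ (2 : ℝ) ^ (QG n).size := by
    exact_mod_cast (Nat.lt_size_self (QG n)).le
  have h2 : ((QG n : ℝ)) ^ 2 ≤ ((2 : ℝ) ^ (QG n).size) ^ 2 :=
    pow_le_pow_left₀ (by positivity) h1 2
  have e : (2 : ℝ) ^ muG n = 8 * ((2 : ℝ) ^ (QG n).size) ^ 2 := by
    unfold muG ParA.mu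
    rw [pow_add, pow_mul, ← pow_mul, mul_comm 2, pow_mul]
    norm_num
    ring
  rw [e]
  linarith

theorem mk_le (n : ℕ) : muG n + kapG n ≤ 8 * QG n := by
  have h3 : Nat.size (QG n) ≤ QG n := Nat.size_le.2 (QG n).lt_two_pow_self
  unfold muG ParA.mu
  unfold kapG
  unfold QG at h3 ⊢
  omega

theorem GmG_le (n : ℕ) : (GmG n : ℝ) ≤ (2 : ℝ) ^ muG n := by
  refine le_trans ?_ (mu_big n)
  have h : GmG n ≤ 8 * QG n ^ 2 := by
    unfold GmG
    calc QG n * (muG n + kapG n) ≤ QG n * (8 * QG n) := Nat.mul_le_mul_left _ (mk_le n)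
      _ = 8 * QG n ^ 2 := by ring
  exact_mod_cast h

/-- the tail is small -/
theorem tail_big {q : ℕ} (hq : 1 ≤ q) (n : ℕ) :
    (2 : ℝ) ^ muG n ≤ (1 + 1 / (16 * (q : ℝ))) ^ (dgG n q + 1) := by
  have hq0 : (0 : ℝ) < q := by exact_mod_cast hq
  have h0 : (0 : ℝ) ≤ 1 / (16 * (q : ℝ)) := by positivity
  have h1 : (2 : ℝ) ≤ (1 + 1 / (16 * (q : ℝ))) ^ (16 * q) := by
    have h2 := one_add_mul_le_pow (a := 1 / (16 * (q : ℝ))) (by linarith) (16 * q)
    refine le_trans (le_of_eq ?_) h2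
    push_cast
    field_simp
    norm_num
  calc (2 : ℝ) ^ muG n ≤ ((1 + 1 / (16 * (q : ℝ))) ^ (16 * q)) ^ muG n :=
        pow_le_pow_left₀ (by norm_num) h1 _
    _ = (1 + 1 / (16 * (q : ℝ))) ^ dgG n q := by rw [← pow_mul]; rfl
    _ ≤ (1 + 1 / (16 * (q : ℝ))) ^ (dgG n q + 1) := pow_le_pow_right₀ (by linarith) (Nat.le_succ _)

theorem par {q : ℕ} (hq : 1 ≤ q) (n : ℕ) :
    Par (QG n) (kapG n) (muG n) (lamG n) (rhoG n) (dgG n q) (GmG n) (MMG n q) (NNG n q)
      (1 / (16 * (q : ℝ))) where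
  c1 := QG_pos n
  μ1 := by
    unfold muG ParA.mu
    omega
  dl := by
    have h := SubBisB.dl_le (q := QG n) (QG_pos n)
    have hQ : (0 : ℝ) < QG n := by exact_mod_cast QG_pos n
    have h1 := mul_le_mul_of_nonneg_left h hQ.le
    rw [mul_one_div, div_self hQ.ne'] at h1
    exact h1
  grad := le_rfl
  Γ1 := by
    have h1 := QG_pos n
    have h2 : 0 < muG n + kapG n := by
      unfold kapG
      omega
    exact Nat.mul_pos h1 h2
  blocks := by
    have h1 : 8 * (n + 1) ^ 2 < 2 ^ bG n := Nat.lt_size_self _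
    have e : QG n * kapG n = 8 * (n + 1) ^ 2 := by
      unfold QG kapG
      ring
    rw [e]
    unfold lamG
    rw [mul_comm 2, pow_mul]
    exact Nat.pow_le_pow_left h1.le 2
  tail := (GmG_le n).trans (tail_big hq n)
  pool := by
    have h1 : GmG n + QG n ≤ 2 ^ (GmG n + 2 * QG n).size := by
      have := (Nat.lt_size_self (GmG n + 2 * QG n)).le
      omega
    have h2 : 1 + 2 ^ muG n ≤ 2 ^ (muG n + 1) := by
      have := Nat.one_le_two_pow (n := muG n)
      rw [pow_succ]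
      omega
    have h3 : (GmG n + QG n) ^ 2 ≤ (2 ^ (GmG n + 2 * QG n).size) ^ 2 := Nat.pow_le_pow_left h1 2
    calc 2 * 2 ^ lamG n * (1 + 2 ^ muG n) * (GmG n + QG n) ^ 2
        ≤ 2 * 2 ^ lamG n * 2 ^ (muG n + 1) * (2 ^ (GmG n + 2 * QG n).size) ^ 2 :=
          Nat.mul_le_mul (Nat.mul_le_mul_left _ h2) h3
      _ = 2 ^ rhoG n := by
          unfold rhoG
          rw [← pow_mul]
          ring
  scale := rfl
  steps := rfl
  ε0 := by positivity
  ε1 := by
    have hq1 : (1 : ℝ) ≤ q := by exact_mod_cast hq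
    rw [div_le_div_iff₀ (by positivity) (by norm_num)]
    linarith

end MeanGAux

open MeanGAux

theorem DDG_pos {q : ℕ} : 0 < DDG n q := by
  have h1 : 0 < GmG n := Nat.mul_pos (QG_pos n) (by
    unfold kapG
    omega)
  have h2 := QG_pos n
  unfold DDG NNG MMG
  positivity

/-! ### The mean value -/

/-- **The mean value.** -/
theorem meanG {q : ℕ} (hq : 1 ≤ q) (hk : k ≤ n) {F : Finset (Fin k) → ℤ} (hF : FCS.Subm F)
    (hF0 : F ∅ = 0) (hMo : ∀ S v, F S ≤ F (insert v S))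
    (hinc : ∀ S v, |F (insert v S) - F S| ≤ kapG n) :
    (Reg.av fun p : CpG k n q => (VG k n q F p : ℝ)) / DDG n q ≤ Bounds.logZ F + 1 ∧
      Bounds.logZ F - 1 - 1 / (8 * (q : ℝ) ^ 2) *
          (Reg.av fun bet : Fin k → Fin (2 ^ lamG n) => EG F (nfG F bet)) ≤
        (Reg.av fun p : CpG k n q => (VG k n q F p : ℝ)) / DDG n q := by
  have hP := par hq n
  have h1 := parG_upper (k := k) hP hF0 hinc
  have h2 := parG_lower (k := k) hP hF hF0 hMo hinc
  have eD : ((NNG n q : ℝ) * MMG n q * QG n) = DDG n q := by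
    unfold DDG
    push_cast
    ring
  have eV : (Reg.av fun p : CpG k n q => (VG k n q F p : ℝ)) =
      Reg.av fun p : CpP k (muG n) (lamG n) (rhoG n) (NNG n q) =>
        (VlF (QG n) (MMG n q) (dgG n q) F p.1 p.2.1 (NNG n q) (xt p.2.2) : ℝ) := by
    unfold VG
    simp only [SubBisF.VF_eq_VlF]
  have hkn : (k : ℝ) ≤ n := by exact_mod_cast hk
  have hn : (0 : ℝ) ≤ n := Nat.cast_nonneg n
  have hQ : (QG n : ℝ) = 8 * (n + 1) := by
    unfold QG
    push_cast
    ring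
  have hQ0 : (0 : ℝ) < QG n := by
    rw [hQ]
    positivity
  have h5 : 5 * (k : ℝ) / QG n ≤ 1 := by
    rw [div_le_one hQ0, hQ]
    linarith
  have h3 : 3 * (k : ℝ) / QG n ≤ 1 := by
    rw [div_le_one hQ0, hQ]
    linarith
  have hq0 : (0 : ℝ) < q := by exact_mod_cast hq
  have hA0 : 0 ≤ EA (2 ^ lamG n) F := by
    unfold EA
    have h6 := Reg.av_mono (f := fun _ : Fin k → Fin (2 ^ lamG n) => (0 : ℝ))
      (g := fun bet => EG F (nfG F bet)) fun bet => by
        have h7 := SubBisB.EG_mono (F := F) (f := fun _ => (0 : ℝ)) (g := nfG F bet) fun S => by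
          unfold nfG
          positivity
        rwa [SubBisB.EG_const] at h7
    rwa [Reg.av_const] at h6
  have hε : 24 * (1 / (16 * (q : ℝ))) ^ 2 * EA (2 ^ lamG n) F ≤
      1 / (8 * (q : ℝ) ^ 2) * EA (2 ^ lamG n) F := by
    refine mul_le_mul_of_nonneg_right ?_ hA0
    have e : 24 * (1 / (16 * (q : ℝ))) ^ 2 = 3 / 4 * (1 / (8 * (q : ℝ) ^ 2)) := by
      field_simp
      norm_num
    rw [e]
    have h8 : 0 ≤ 1 / (8 * (q : ℝ) ^ 2) := by positivity
    linarith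
  rw [eD] at h1 h2
  rw [eV]
  unfold EA at h2 hε
  exact ⟨by linarith, by linarith⟩

/-- **The range.** -/
theorem rangeG {q : ℕ} {F : Finset (Fin k) → ℤ}
    (hinc : ∀ S v, |F (insert v S) - F S| ≤ kapG n) (p : CpG k n q) :
    |VG k n q F p| ≤ DDG n q * (k * (muG n + kapG n)) := by
  unfold VG
  rw [SubBisF.VF_eq_VlF]
  refine (range_of (fun v u y => abs_gr_leG hinc v u y) p.1 p.2.1 (xt p.2.2)).trans
    (le_of_eq ?_)
  unfold DDG GmG
  push_cast
  ring

end Pool.Agent.Lib.SubBisG
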