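import Pool.Agent.Lib.SubBisF.Phi

/-!
# SubBisG.PhiG: the gain of a decision, with the loss proportional to its variance

As `SubBisF.ph_gain`, with the loss `24 c ε² p (1 - p)` in place of `8 c ε²`.
-/

set_option autoImplicit false

open scoped BigOperators

namespace Pool.Agent.Lib.SubBisG

open Finset SubBis Pool.Agent.Lib.SubBisX.Reg Pool.Agent.Lib.SubBisX.Core
open Pool.Agent.Lib.SubBisX
open Pool.Agent.Lib.SubBisF (ph stp pos_bd mul_log_le stp_gain)

variable {m : ℕ}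

/-- the second difference of the binary entropy -/
theorem h2_diff {ε p : ℝ} (h0 : 0 ≤ ε) (h1 : ε ≤ 1 / 16) (hp : 0 ≤ p) (hp1 : p ≤ 1) :
    2 * h2 p - 48 * ε ^ 2 * (p * (1 - p)) ≤
      h2 (p - 4 * ε * p * (1 - p)) + h2 (p + 4 * ε * p * (1 - p)) := by
  rcases hp.eq_or_lt with h | h
  · rw [← h]
    simp only [mul_zero, zero_mul, sub_zero, add_zero]
    linarith
  rcases hp1.eq_or_lt with h' | h'
  · rw [h']
    simp only [sub_self, mul_zero, sub_zero, add_zero]
    linarith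
  obtain ⟨b1, b2, b3, b4⟩ := pos_bd h0 h1 hp hp1
  set a := 4 * ε * p * (1 - p) with ha
  have hq : 0 < 1 - p := by linarith
  have l1 := mul_log_le h b1
  have l2 := mul_log_le h b3
  have l3 := mul_log_le hq (show 0 ≤ 1 - (p - a) by linarith)
  have l4 := mul_log_le hq (show 0 ≤ 1 - (p + a) by linarith)
  have hl2 := SubBisB.Sm.log_two_pos
  have hl2' : 2 / 3 ≤ Real.log 2 := by
    have := Real.log_two_gt_d9
    linarith
  have key : 2 * Real.binEntropy p - 32 * ε ^ 2 * (p * (1 - p)) ≤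
      Real.binEntropy (p - a) + Real.binEntropy (p + a) := by
    have r : ∀ x : ℝ, Real.binEntropy x = -(x * Real.log x) - (1 - x) * Real.log (1 - x) := by
      intro x
      unfold Real.binEntropy
      rw [Real.log_inv, Real.log_inv]
      ring
    rw [r, r, r]
    have q1 : (p - a) * ((p - a) / p - 1) + (p + a) * ((p + a) / p - 1) +
        ((1 - (p - a)) * ((1 - (p - a)) / (1 - p) - 1) +
          (1 - (p + a)) * ((1 - (p + a)) / (1 - p) - 1)) = 2 * a ^ 2 / p + 2 * a ^ 2 / (1 - p) := by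
      field_simp
      ring
    have q2 : 2 * a ^ 2 / p + 2 * a ^ 2 / (1 - p) = 32 * ε ^ 2 * (p * (1 - p)) := by
      rw [ha]
      field_simp
      ring
    linarith
  rw [SubBisB.Sm.h2_eq, SubBisB.Sm.h2_eq, SubBisB.Sm.h2_eq, ← add_div, le_div_iff₀ hl2]
  have e1 : (2 * (Real.binEntropy p / Real.log 2) - 48 * ε ^ 2 * (p * (1 - p))) * Real.log 2 =
      2 * Real.binEntropy p - 48 * ε ^ 2 * (p * (1 - p)) * Real.log 2 := by
    field_simp
  rw [e1]
  have hpp : 0 ≤ 48 * ε ^ 2 * (p * (1 - p)) := by positivity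
  have e2 : 48 * ε ^ 2 * (p * (1 - p)) * (2 / 3) ≤ 48 * ε ^ 2 * (p * (1 - p)) * Real.log 2 :=
    mul_le_mul_of_nonneg_left hl2' hpp
  linarith

/-- the loss of a decision, in units of `1 / c` -/
noncomputable def lossG (m c : ℕ) (ε p : ℝ) : ℝ :=
  1 + c * (SubBisB.dl m + 24 * ε ^ 2 * (p * (1 - p)))

/-- **The gain.** -/
theorem ph_gain (hm : 2 ≤ m) (c : ℕ) {ε p : ℝ} (h0 : 0 ≤ ε) (h1 : ε ≤ 1 / 16) (hp : 0 ≤ p)
    (hp1 : p ≤ 1) : c * h2 p - lossG m c ε p ≤ av fun u : Fin m => (ee m c u : ℝ) * ph ε p u := by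
  obtain ⟨b1, b2, b3, b4⟩ := pos_bd h0 h1 hp hp1
  have g1 := stp_gain hm c b1 b2
  have g2 := stp_gain hm c b3 b4
  have hd := mul_le_mul_of_nonneg_left (h2_diff h0 h1 hp hp1) (Nat.cast_nonneg (α := ℝ) c)
  have e1 : (av fun u : Fin m => (ee m c u : ℝ) * ph ε p u) = (1 / 2) *
      av (fun u : Fin m => (ee m c u : ℝ) * stp m (p - 4 * ε * p * (1 - p)) u +
        (ee m c u : ℝ) * stp m (p + 4 * ε * p * (1 - p)) u) := by
    rw [← av_smul]
    refine congrArg av (funext fun u => ?_)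
    unfold ph
    ring
  rw [e1, av_add]
  unfold lossG
  linarith

end Pool.Agent.Lib.SubBisG
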