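import Pool.Agent.Lib.SubBisG.Defs
import Pool.Agent.Lib.SubBisG.Gr
import Pool.Agent.Lib.SubBisE.FinE

/-!
# SubBisG.PolyG (M10): the machine is computable in polynomial time

The parameters `QG n`, `muG n`, `kapG n`, `GmG n`, `bG n`, `lamG n`, `rhoG n` are computable from `n`,
the other ones from `n`, `q` and the powers `(2 ^ lamG n + 1) ^ dgG n q`, `(2 ^ rhoG n) ^ dgG n q`
(`QCompG`). The set of sites is `range a`.
-/

set_option autoImplicit false

namespace Pool.Agent.Lib.SubBisG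

open Finset SubBis Pool.Agent.Lib.SubBisX.Core Pool.Agent.Lib.SubBisX.Node
open Pool.Agent.Lib.SubBisX
open Pool.Agent.Lib.SubBisC Pool.Agent.Lib.Pa7c826 Pool.Agent.Lib.Pa7c826t
open Pool.Agent.Lib.P7sG Pool.Agent.Lib.SubBisX.Prob
open Pool.Agent.Lib.PolyTime Pool.Agent.Lib.P8e91ed.PT
open Pool.Agent.Lib.SubBisB Pool.Agent.Lib.SubBisC.PolyAux

/-- The parameters of the estimate are computable. -/
structure QCompG {α : Type} (D : α → Prop) (ctx : List (α → List Bool)) (n q : α → ℕ) : Prop where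
  nn : PolyN D ctx n
  qq : PolyN D ctx q
  N : PolyN D ctx (fun a => (2 ^ lamG (n a) + 1) ^ dgG (n a) (q a))
  P : PolyN D ctx (fun a => (2 ^ rhoG (n a)) ^ dgG (n a) (q a))

/-! ### The parameters -/

section par

variable {α : Type} {D : α → Prop} {ctx : List (α → List Bool)} {n q : α → ℕ}

theorem poly_QG (h : PolyN D ctx n) : PolyN D ctx (fun a => QG (n a)) :=
  (PolyN.const 8).mul h.succ

theorem poly_muG (h : PolyN D ctx n) : PolyN D ctx (fun a => muG (n a)) :=
  ParB.poly_mu (poly_QG h)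

theorem poly_two_muG (h : PolyN D ctx n) : PolyN D ctx (fun a => 2 ^ muG (n a)) :=
  ParB.poly_two_mu (poly_QG h)

theorem poly_kapG (h : PolyN D ctx n) : PolyN D ctx (fun a => kapG (n a)) := h.succ

theorem poly_GmG (h : PolyN D ctx n) : PolyN D ctx (fun a => GmG (n a)) :=
  (poly_QG h).mul ((poly_muG h).add (poly_kapG h))

theorem poly_b0 (h : PolyN D ctx n) : PolyN D ctx (fun a => 8 * (n a + 1) ^ 2) :=
  ((PolyN.const 8).mul (h.succ.mul h.succ)).congr fun a _ => by ring

theorem poly_bG (h : PolyN D ctx n) : PolyN D ctx (fun a => bG (n a)) :=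
  Par.poly_size (poly_b0 h)

theorem poly_two_bG (h : PolyN D ctx n) : PolyN D ctx (fun a => 2 ^ bG (n a)) :=
  Par.poly_two_size (poly_b0 h)

theorem poly_lamG (h : PolyN D ctx n) : PolyN D ctx (fun a => lamG (n a)) :=
  (PolyN.const 2).mul (poly_bG h)

theorem poly_two_lamG (h : PolyN D ctx n) : PolyN D ctx (fun a => 2 ^ lamG (n a)) :=
  ((poly_two_bG h).mul (poly_two_bG h)).congr fun a _ => by
    unfold lamG
    ring

theorem poly_G2 (h : PolyN D ctx n) : PolyN D ctx (fun a => GmG (n a) + 2 * QG (n a)) :=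
  (poly_GmG h).add ((PolyN.const 2).mul (poly_QG h))

theorem poly_rhoG (h : PolyN D ctx n) : PolyN D ctx (fun a => rhoG (n a)) :=
  ((((poly_lamG h).add (poly_muG h).succ)).add
    ((PolyN.const 2).mul (Par.poly_size (poly_G2 h)))).succ.congr fun _ _ => rfl

theorem poly_two_rhoG (h : PolyN D ctx n) : PolyN D ctx (fun a => 2 ^ rhoG (n a)) := by
  have h1 := Par.poly_two_size (poly_G2 h)
  exact ((PolyN.const 4).mul (((poly_two_lamG h).mul (poly_two_muG h)).mul (h1.mul h1))).congr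
    fun a _ => by
      unfold rhoG
      ring

theorem poly_KG (h : PolyN D ctx n) : PolyN D ctx (fun a => KG (n a)) := by
  have h1 := (h.mul ((poly_muG h).add (poly_kapG h))).succ
  exact (((PolyN.const 8).mul (h1.mul h1)).mul
    (((PolyN.const 2).mul h).add (PolyN.const 3))).congr fun a _ => by
      unfold KG
      ring

theorem poly_dgG (h : PolyN D ctx n) (hq : PolyN D ctx q) :
    PolyN D ctx (fun a => dgG (n a) (q a)) :=
  ((PolyN.const 16).mul hq).mul (poly_muG h)

theorem QCompG.MM (h : QCompG D ctx n q) : PolyN D ctx (fun a => MMG (n a) (q a)) :=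
  (((poly_GmG h.nn).mul (poly_GmG h.nn)).mul h.N).congr fun a _ => by
    unfold MMG
    ring

theorem QCompG.NN (h : QCompG D ctx n q) : PolyN D ctx (fun a => NNG (n a) (q a)) :=
  h.MM.mul ((poly_two_muG h.nn).mul h.P)

theorem QCompG.DD (h : QCompG D ctx n q) : PolyN D ctx (fun a => DDG (n a) (q a)) :=
  (h.NN.mul h.MM).mul (poly_QG h.nn)

theorem QCompG.off {k : α → ℕ} (h : QCompG D ctx n q) (hk : PolyN D ctx k) :
    PolyN D ctx (fun a => offG (k a) (n a) (q a)) :=
  (poly_KG h.nn).mul ((hk.mul (poly_lamG h.nn)).add ((hk.mul ((poly_two_rhoG h.nn).mul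
    (poly_muG h.nn))).add (h.NN.mul ((poly_two_lamG h.nn).mul (poly_rhoG h.nn)))))

/-- Transport to a larger domain. -/
theorem QCompG.lft {β : Type} {D' : β → Prop} {ctx' : List (β → List Bool)} {π : β → α}
    (h : QCompG D ctx n q)
    (lft : ∀ {t : α → List Bool}, PolyC D ctx t → PolyC D' ctx' (fun p => t (π p))) :
    QCompG D' ctx' (fun p => n (π p)) (fun p => q (π p)) :=
  ⟨lft h.nn, lft h.qq, lft h.N, lft h.P⟩

/-- the powers are computable for the machine's choice of `q` -/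
theorem qcomp_qG_of
    (hker : ∀ (n : ℕ) {t : ℕ}, 1 ≤ t → (2 ^ lamG n + 1) ^ dgG n (qG n t) ≤ 2 * t)
    (hpool : ∀ (n : ℕ) {t : ℕ}, 1 ≤ t → (2 ^ rhoG n) ^ dgG n (qG n t) ≤ 2 * t)
    {t : α → ℕ} (hn : PolyN D ctx n) (ht : PolyN D ctx t) (h1 : ∀ a, D a → 1 ≤ t a) :
    QCompG D ctx n (fun a => qG (n a) (t a)) := by
  have hs := Par.poly_size hn.succ
  have h2 : PolyN D ctx (fun a => 9000 * (n a + 1).size ^ 2) :=
    ((PolyN.const 9000).mul (hs.mul hs)).congr fun a _ => by ring
  have hq : PolyN D ctx (fun a => qG (n a) (t a)) := Tab.TabAux.divz (poly_lg ht) h2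
  have hdg := poly_dgG hn hq
  have hb : Bdd D ctx (fun a => 2 * t a) := Bdd.ofN ((PolyN.const 2).mul ht)
  refine ⟨hn, hq, n_pow (poly_two_lamG hn).succ hdg ?_, n_pow (poly_two_rhoG hn) hdg ?_⟩
  · obtain ⟨B, hB⟩ := hb
    exact ⟨B, fun a ha => (hker (n a) (h1 a ha)).trans (hB a ha)⟩
  · obtain ⟨B, hB⟩ := hb
    exact ⟨B, fun a ha => (hpool (n a) (h1 a ha)).trans (hB a ha)⟩

end par

/-! ### The estimate -/

section poly

variable {α : Type} {D : α → Prop} {ctx : List (α → List Bool)} {w : α → List Bool}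

theorem aOf_le_nOf (w : List Bool) : aOf w ≤ nOf w := by
  unfold nOf
  exact Nat.le_add_right _ _

theorem poly_sites (hw : PolyC D ctx w) :
    PolyS D ctx (fun x => nOf (w x)) (fun x => range (aOf (w x))) := by
  have hn := poly_nOf hw
  have h := PolyS.filter (φ := fun p : α × ℕ => decide (p.2 < aOf (w p.1))) hn (PolyS.range hn)
    (PolyB.lt (last (D := D) (ctx := ctx) (n := fun x => nOf (w x)))
      (upN (n := fun x => nOf (w x)) (poly_aOf hw)))
  refine h.congr fun x _ => ?_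
  ext i
  rw [mem_filter, mem_range, mem_range, decide_eq_true_eq]
  exact ⟨fun h => h.2, fun h => ⟨lt_of_lt_of_le h (aOf_le_nOf _), h⟩⟩

/-- the left side is a set of sites -/
def CovG (D : α → Prop) (w : α → List Bool) : Prop :=
  ∀ x, D x → Cov (nOf (w x)) (aOf (w x)) (adjOf (w x)) (range (aOf (w x)))

theorem poly_esG (hw : PolyC D ctx w) (hcov : CovG D w) {q nW : α → ℕ} {W : α → Finset ℕ}
    (hnW : PolyN D ctx nW) (hW : PolyS D ctx nW W) (hq : QCompG D ctx (fun x => nOf (w x)) q)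
    {r : α → List Bool} (hr : PolyC D ctx r) :
    PolyN D ctx (fun x => esT (nOf (w x)) (aOf (w x)) (adjOf (w x)) (q x) (r x) (W x)) := by
  have hn := poly_nOf hw
  have h := SubBisF.Mach.poly_eVF (W := W) (C := fun x => range (aOf (w x)))
    (μ := fun x => muG (nOf (w x))) (ρ := fun x => rhoG (nOf (w x)))
    (lam := fun x => lamG (nOf (w x))) (N := fun x => NNG (nOf (w x)) (q x))
    (c := fun x => QG (nOf (w x))) (d := fun x => dgG (nOf (w x)) (q x))
    (Γ := fun x => GmG (nOf (w x))) (M := fun x => MMG (nOf (w x)) (q x))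
    (κ := fun x => kapG (nOf (w x))) (K := fun x => KG (nOf (w x)))
    (den := fun x => KG (nOf (w x)) * DDG (nOf (w x)) (q x))
    hw (poly_sites hw) hnW hW (poly_muG hn) (poly_two_muG hn) (poly_rhoG hn) (poly_two_rhoG hn)
    (poly_lamG hn) (poly_two_lamG hn) hq.NN (poly_QG hn) (poly_dgG hn hq.qq) (poly_GmG hn) hq.MM
    hq.N (poly_kapG hn) (poly_KG hn) ((poly_KG hn).mul hq.DD) hr (fun a ha v u y =>
      abs_gr_leG (fun S v => FC_insert (hcov a ha) (W a) v S) v u y)
  exact h

theorem EComp_esG (hw : PolyC D ctx w) (hcov : CovG D w) {q : α → ℕ}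
    (hq : QCompG D ctx (fun x => nOf (w x)) q) {r : α → List Bool} (hr : PolyC D ctx r) :
    EComp D ctx (fun x => nOf (w x) + nOf (w x)) (fun x => (range (aOf (w x))).card) (fun x X =>
      esT (nOf (w x)) (aOf (w x)) (adjOf (w x)) (q x) (r x) X.2) := by
  unfold EComp
  have lft : ∀ {t : α → List Bool}, PolyC D ctx t →
      PolyC (fun p : α × (ℕ × Finset ℕ) => D p.1 ∧ p.2.1 ≤ (range (aOf (w p.1))).card ∧
        p.2.2 ⊆ range (nOf (w p.1) + nOf (w p.1)))
        (PolyTime.lift ctx ++ [fun p => un p.2.1,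
          fun p => msk (nOf (w p.1) + nOf (w p.1)) p.2.2])
        (fun p => t p.1) := fun h => (PolyC.lift h (fun p hp => hp.1)).weakenRight _
  exact poly_esG (w := fun p : α × (ℕ × Finset ℕ) => w p.1)
    (nW := fun p => nOf (w p.1) + nOf (w p.1))
    (W := fun p => p.2.2) (q := fun p => q p.1) (r := fun p => r p.1) (lft hw)
    (fun p hp => hcov p.1 hp.1)
    (lft ((poly_nOf hw).add (poly_nOf hw)))
    ⟨PolyC.var (by simp), fun p hp => hp.2.2⟩
    (hq.lft (π := fun p : α × (ℕ × Finset ℕ) => p.1) lft) (lft hr)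

theorem poly_cntG (hw : PolyC D ctx w) (hcov : CovG D w) {q : α → ℕ}
    (hq : QCompG D ctx (fun x => nOf (w x)) q) {r : α → List Bool} (hr : PolyC D ctx r)
    {K cap : α → ℕ} (hK : PolyN D ctx K) (hcap : PolyN D ctx cap)
    (hKc : ∀ a, D a → K a ≤ cap a) :
    PolyN D ctx (fun x =>
      cntT (nOf (w x)) (aOf (w x)) (adjOf (w x)) (q x) (K x) (cap x) (r x)) :=
  have hn := poly_nOf hw
  have hk := PolyS.card hn (poly_sites hw)
  poly_countD (n := fun x => nOf (w x) + nOf (w x)) (aN := fun x => (range (aOf (w x))).card)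
    (cap := cap) (dm := fun x => 10 * nOf (w x) + 5)
    (off := fun x => offG (range (aOf (w x))).card (nOf (w x)) (q x))
    (K := K) (ch := fun x => chC (nOf (w x)) (range (aOf (w x))) (adjOf (w x))) (tape := r)
    (e := fun x X => esT (nOf (w x)) (aOf (w x)) (adjOf (w x)) (q x) (r x) X.2)
    (hn.add hn) hk hcap (((PolyN.const 10).mul hn).add (PolyN.const 5)) (hq.off hk)
    hK hr hKc (fun _ => down_chC _ _ _) (cComp_chC hw (poly_sites hw) _) (EComp_esG hw hcov hq hr)

theorem poly_ansG (hw : PolyC D ctx w) (hcov : CovG D w)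
    {q t : α → ℕ} (hq : QCompG D ctx (fun x => nOf (w x)) q)
    (ht : PolyN D ctx t) (h1 : ∀ a, D a → 1 ≤ t a) {r : α → List Bool} (hr : PolyC D ctx r) :
    PolyC D ctx (fun x =>
      ansG (nOf (w x)) (aOf (w x)) (adjOf (w x)) (q x) (t x) (r x)) :=
  have hn := poly_nOf hw
  poly_outN (((PolyN.const 4).mul (poly_lg ht)).add hn)
    (poly_esG hw hcov (hn.add hn) (PolyS.range (hn.add hn)) hq hr)
    (poly_cntG hw hcov hq hr (poly_K ht h1) (poly_cap ht h1)
      (fun a _ => two_pow_kap_le_cap (t a)))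

theorem poly_needG {n a q t : α → ℕ} (ha : PolyN D ctx a) (hq : QCompG D ctx n q)
    (ht : PolyN D ctx t) (h1 : ∀ a, D a → 1 ≤ t a) :
    PolyN D ctx (fun x => needG (n x) (a x) (q x) (t x)) := by
  have hk : PolyN D ctx (fun x => (range (a x)).card) :=
    ha.congr fun x _ => (card_range (a x)).symm
  exact (hq.off hk).add (((hk.mul (poly_cap ht h1)).mul (PolyN.const 2)).mul
    (((PolyN.const 10).mul hq.nn).add (PolyN.const 5)))

end poly

end Pool.Agent.Lib.SubBisG
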