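import Pool.Agent.Lib.SubBisG.Defs
import Pool.Agent.Lib.P7sA.ProbA

/-!
# SubBisG.ProbG (MP_a7c826_lc, Theorem T, step (4)): the success probability of a population
-/

set_option autoImplicit false

open scoped BigOperators

namespace Pool.Agent.Lib.SubBisG

open Finset SubBis Pool.Agent.Lib.SubBisX.Core Pool.Agent.Lib.SubBisX.Node
open Pool.Agent.Lib.SubBisX Pool.Agent.Lib.Pa7c826 Pool.Agent.Lib.Pa7c826t
open Pool.Agent.Lib.SubBisC Pool.Agent.Lib.P7sG Pool.Agent.Lib.SubBisX.Prob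

/-- a system with a super-additive majorant `P` -/
structure GoodP {Nd : Type} (ch : Nd → Bool → Nd) (e : Nd → ℕ) (Z P : Nd → ℝ)
    (ok : ℕ → Nd → Prop) (a dm : ℕ) (α : ℝ) : Prop where
  pos : ∀ j X, ok j X → 0 < Z X
  child : ∀ j X b, j < a → ok j X → ok (j + 1) (ch X b)
  split : ∀ j X, j < a → ok j X → Z X = Z (ch X false) + Z (ch X true)
  sup : ∀ j X, j < a → ok j X → P (ch X false) + P (ch X true) ≤ P X
  up : ∀ j X, ok j X → Z X ^ 2 ≤ 2 ^ e X * P X
  low : ∀ j X, ok j X → (2 : ℝ) ^ e X ≤ α * Z X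
  leaf : ∀ X, ok a X → Z X = 2 ^ e X
  drop : ∀ j X b, j < a → ok j X → e X ≤ e (ch X b) + dm

theorem goodA_of_goodP {Nd : Type} {ch : Nd → Bool → Nd} {e : Nd → ℕ} {Z P : Nd → ℝ}
    {ok : ℕ → Nd → Prop} {lev dm : ℕ} {α β : ℝ} (h : GoodP ch e Z P ok lev dm α) {root : Nd}
    (hroot : ok 0 root) (hP : P root ≤ β * Z root) :
    P7sA.GoodA ch e Z ok lev dm α β root :=
  P7sA.goodA_of_sup hroot h.pos h.child h.split h.low h.leaf h.drop
    (fun j X hX => (h.up j X hX).trans (le_of_eq (mul_comm _ _))) h.sup hP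

open Classical in
/-- **The success probability of a population** -/
theorem prob_SP {S : Type} [Fintype S] [Nonempty S] {L : ℕ} {dec : (ℕ → Bool) → S}
    (hdec : Seed.Unif L dec) {bad : S → Prop} (hbad : 8 * (univ.filter bad).card ≤ Fintype.card S)
    {Nd : Type} {ch : Nd → Bool → Nd} {e : S → Nd → ℕ} {Z P : Nd → ℝ} {ok : ℕ → Nd → Prop}
    {lev dm : ℕ} {α β : ℝ} (hgood : ∀ s, ¬ bad s → GoodP ch (e s) Z P ok lev dm α) {root : Nd}
    (hroot : ok 0 root) (hP : P root ≤ β * Z root) {K cap m : ℕ} {t : ℝ} (ht : 1 ≤ t) (hK0 : 0 < K)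
    (hK : 8 * (lev * (α * β) * t ^ 2) ≤ K) (hcap : 2 * (α * β) * K ≤ cap)
    (hm : L + lev * cap * 2 * dm ≤ m) :
    3 * 2 ^ m ≤ 4 * (univ.filter fun τ : Fin m → Bool =>
      |(cntG ch (e (dec (str (List.ofFn τ)))) root lev K cap dm L (List.ofFn τ) : ℝ) *
          2 ^ e (dec (str (List.ofFn τ))) root - K * Z root| ≤ K * Z root / t).card :=
  P7sA.prob_SA hdec hbad (fun s hs => goodA_of_goodP (hgood s hs) hroot hP) ht hK0 hK hcap hm

end Pool.Agent.Lib.SubBisG
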