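import Pool.Agent.Lib.SubBisC.CSys

/-!
# SubBisG.SeedG: most seeds are good, with an error that depends on the mask

The sites of a vertex cover `C`, any random value `V` and any capacity `κ`: for seven eighths of the
seeds (`Kc` independent copies) the estimates of all masks `W` are at most `logb 2 (ind adj W) + δ`
and at least `logb 2 (ind adj W) - δ - Er W`.
-/

set_option autoImplicit false

open Finset
open scoped BigOperators

namespace Pool.Agent.Lib.SubBisG

open Pool.Agent.Lib.Pa7c826 Pool.Agent.Lib.Pa7c826t Pool.Agent.Lib.SubBisX Pool.Agent.Lib.SubBisC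
  Pool.Agent.Lib.SubBisX.Node Pool.Agent.Lib.SubBisX.Prob P7sG SubBis

/-- the estimates `e` of the subsets of `range N` are at most the logarithms plus `δ`, at least the
logarithms minus `δ` and `Er`, and exact without vertices of `C` -/
def GoodW (N : ℕ) (adj : ℕ → ℕ → Bool) (C : Finset ℕ) (δ : ℝ) (Er : Finset ℕ → ℝ)
    (e : Finset ℕ → ℕ) : Prop :=
  (∀ W ⊆ range N, (e W : ℝ) ≤ Real.logb 2 (ind adj W) + δ) ∧
    (∀ W ⊆ range N, Real.logb 2 (ind adj W) ≤ (e W : ℝ) + δ + Er W) ∧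
      ∀ W ⊆ range N, W ∩ C = ∅ → ind adj W = 2 ^ e W

/-! ### The rounded estimate, one-sided -/

section est

variable {n a : ℕ} {adj : ℕ → ℕ → Bool} {C : Finset ℕ} {κ : ℕ}

/-- the estimate is not too large -/
theorem eC_up (h : Cov n a adj C) (hκ : 0 < κ) (W : Finset ℕ) {tot : ℤ} {den : ℕ}
    (hden : 0 < den) {δ : ℝ} (hδ : 0 ≤ δ)
    (hd : (tot : ℝ) / den ≤ Bounds.logZ (FC n a adj κ C W) + δ) :
    (eC C W tot den : ℝ) ≤ Real.logb 2 (ind adj W) + δ + C.card * (2 / 2 ^ κ) := by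
  have hx : (0 : ℝ) ≤ C.card * (2 / 2 ^ κ) := by positivity
  by_cases hleaf : W ∩ C = ∅
  · have h1 := eC_leaf h hleaf tot den
    rw [h1]
    push_cast
    rw [Real.logb_pow, Real.logb_self_eq_one (by norm_num), mul_one]
    linarith
  · unfold eC
    rw [if_neg hleaf]
    obtain ⟨g1, g2⟩ := logZ_FC (κ := κ) h hκ W
    have hi : (0 : ℝ) ≤ Real.logb 2 (ind adj W) :=
      Real.logb_nonneg (by norm_num) (by exact_mod_cast ind_pos (adj := adj) W)
    have hd0 : (0 : ℝ) < den := by exact_mod_cast hden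
    have hdz : (0 : ℤ) < den := by exact_mod_cast hden
    have f1 : ((tot / den : ℤ) : ℝ) ≤ (tot : ℝ) / den := by
      rw [le_div_iff₀ hd0]
      exact_mod_cast Int.ediv_mul_le tot hdz.ne'
    set z : ℤ := (W.card : ℤ) - C.card + tot / den with hz
    have hzr : (z : ℝ) = (W.card : ℝ) - C.card + ((tot / den : ℤ) : ℝ) := by
      rw [hz]
      push_cast
      ring
    rcases le_or_gt 0 z with hz0 | hz0
    · have h4 : (z.toNat : ℝ) = z := by exact_mod_cast Int.toNat_of_nonneg hz0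
      rw [h4]
      linarith
    · rw [Int.toNat_of_nonpos hz0.le]
      push_cast
      linarith

/-- the estimate is not too small -/
theorem eC_low (h : Cov n a adj C) (hκ : 0 < κ) (W : Finset ℕ) {tot : ℤ} {den : ℕ}
    (hden : 0 < den) {δ : ℝ} (hδ : 0 ≤ δ)
    (hd : Bounds.logZ (FC n a adj κ C W) ≤ (tot : ℝ) / den + δ) :
    Real.logb 2 (ind adj W) ≤ (eC C W tot den : ℝ) + δ + 1 := by
  by_cases hleaf : W ∩ C = ∅
  · have h1 := eC_leaf h hleaf tot den
    rw [h1]
    push_cast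
    rw [Real.logb_pow, Real.logb_self_eq_one (by norm_num), mul_one]
    linarith
  · unfold eC
    rw [if_neg hleaf]
    obtain ⟨g1, g2⟩ := logZ_FC (κ := κ) h hκ W
    have hd0 : (0 : ℝ) < den := by exact_mod_cast hden
    have hdz : (0 : ℤ) < den := by exact_mod_cast hden
    have f2 : (tot : ℝ) / den < ((tot / den : ℤ) : ℝ) + 1 := by
      rw [div_lt_iff₀ hd0]
      exact_mod_cast Int.lt_ediv_add_one_mul_self tot hdz
    set z : ℤ := (W.card : ℤ) - C.card + tot / den with hz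
    have hzr : (z : ℝ) = (W.card : ℝ) - C.card + ((tot / den : ℤ) : ℝ) := by
      rw [hz]
      push_cast
      ring
    have h3 : (z : ℝ) ≤ (z.toNat : ℝ) := by exact_mod_cast Int.self_le_toNat z
    linarith

end est

/-! ### Hoeffding for all masks -/

open Classical in
/-- **Most seeds have means close to the expectation, for all masks.** -/
theorem good_seedsR {Ω : Type*} [Fintype Ω] [Nonempty Ω] {N D K : ℕ} {V : Finset ℕ → Ω → ℤ}
    (hD : 0 < D) (hK : 0 < K) {δ B : ℝ} (hB : 0 < B) (hδ : 0 < δ)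
    (hrange : ∀ W ⊆ range N, ∀ w, |(V W w : ℝ)| ≤ D * B)
    (hcond : 8 * B ^ 2 * (N + 3) ≤ K * δ ^ 2) :
    8 * (univ.filter fun s : Fin K → Ω =>
      ¬ ∀ W ⊆ range N, |((∑ k, V W (s k) : ℤ) : ℝ) / ((K * D : ℕ) : ℝ) -
        (Reg.av fun w => (V W w : ℝ)) / D| ≤ δ).card ≤
      Fintype.card (Fin K → Ω) := by
  have hD0 : (0 : ℝ) < D := by exact_mod_cast hD
  set f : Finset (Fin N) → Ω → ℝ := fun I w => (V (toN I) w : ℝ) / D with hf
  have hfB : ∀ I w, |f I w| ≤ B := by
    intro I w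
    rw [hf]
    simp only
    rw [abs_div, abs_of_pos hD0, div_le_iff₀ hD0]
    refine (hrange _ (toN_subset I) w).trans (le_of_eq (by ring))
  have hcond' : 8 * B ^ 2 * Real.log (16 * Fintype.card (Finset (Fin N))) ≤ K * δ ^ 2 := by
    have h1 : Real.log (16 * Fintype.card (Finset (Fin N))) ≤ N + 3 := by
      rw [Fintype.card_finset, Fintype.card_fin]
      push_cast
      have e1 : (16 : ℝ) * 2 ^ N = 2 ^ (N + 4) := by ring
      rw [e1, Real.log_pow]
      have h2 := Real.log_two_lt_d9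
      have h3 : (0 : ℝ) ≤ N := Nat.cast_nonneg N
      push_cast
      nlinarith
    refine le_trans (mul_le_mul_of_nonneg_left h1 (by positivity)) hcond
  have hbad := SubBisX.seed_bad hB f hfB K hK hδ hcond'
  refine le_trans (Nat.mul_le_mul_left 8 (card_le_card ?_)) hbad
  intro s hs1
  rw [mem_filter] at hs1 ⊢
  refine ⟨mem_univ _, ?_⟩
  by_contra hcon
  push Not at hcon
  apply hs1.2
  intro W hW
  set I : Finset (Fin N) := univ.filter fun v : Fin N => (v : ℕ) ∈ W with hI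
  have hIW : toN I = W := by
    ext v
    rw [mem_toN]
    constructor
    · rintro ⟨h, hv⟩
      exact (mem_filter.1 hv).2
    · intro hv
      exact ⟨mem_range.1 (hW hv), mem_filter.2 ⟨mem_univ _, hv⟩⟩
  have h1 := hcon I
  have e3 : ∀ w, f I w = (V W w : ℝ) / D := by
    intro w
    rw [← hIW]
  have h4 : SubBisX.EX (f I) = (Reg.av fun w => (V W w : ℝ)) / D := by
    unfold SubBisX.EX Reg.av
    rw [sum_congr rfl fun w _ => e3 w, ← sum_div]
    ring
  have h5 : SubBisX.av (f I) s = ((∑ k, V W (s k) : ℤ) : ℝ) / ((K * D : ℕ) : ℝ) := by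
    unfold SubBisX.av
    rw [sum_congr rfl fun k _ => e3 (s k), ← sum_div, div_div]
    push_cast
    rw [mul_comm]
  rw [← h5, ← h4]
  exact h1

/-! ### The estimates -/

section seeds

variable {Ω : Type} {n a : ℕ} {adj : ℕ → ℕ → Bool} {C : Finset ℕ} {κ Kc D : ℕ}

/-- the estimate of the binary logarithm of the number of independent subsets of `W`, from the random
values `V F w` with the denominator `D`, `Kc` copies -/
def esW (n a : ℕ) (adj : ℕ → ℕ → Bool) (C : Finset ℕ) (κ Kc D : ℕ)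
    (V : (Finset (Fin C.card) → ℤ) → Ω → ℤ) (s : Fin Kc → Ω) (W : Finset ℕ) : ℕ :=
  eC C W ((∑ k : Fin Kc, V (FC n a adj κ C W) (s k)) -
    ((Kc * D : ℕ) : ℤ) * FC n a adj κ C W ∅) (Kc * D)

theorem esW_eq (D : ℕ) (V : (Finset (Fin C.card) → ℤ) → Ω → ℤ) (s : Fin Kc → Ω)
    (W : Finset ℕ) : esW n a adj C κ Kc D V s W =
    eC C W (∑ k : Fin Kc, (V (FC n a adj κ C W) (s k) - D * FC n a adj κ C W ∅)) (Kc * D) := by
  unfold esW
  rw [sum_sub_distrib, sum_const, card_univ, Fintype.card_fin, nsmul_eq_mul]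
  congr 1
  push_cast
  ring

open Classical in
/-- **Most seeds are good.** -/
theorem good_seedsW [Fintype Ω] [Nonempty Ω] {V : (Finset (Fin C.card) → ℤ) → Ω → ℤ}
    {Er : Finset ℕ → ℝ} {δ₁ δ₂ B δ : ℝ} (h : Cov n a adj C) (hκ : 0 < κ) (hKc : 0 < Kc)
    (hD : 0 < D) (hB : 0 < B) (hδ₁ : 0 ≤ δ₁) (hδ₂ : 0 < δ₂) (hEr : ∀ W ⊆ range (n + n), 0 ≤ Er W)
    (hup : ∀ W ⊆ range (n + n), (Reg.av fun w => (V (FC n a adj κ C W) w : ℝ)) / D ≤
      Bounds.logZ (FC n a adj κ C W) + FC n a adj κ C W ∅ + δ₁)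
    (hlow : ∀ W ⊆ range (n + n), Bounds.logZ (FC n a adj κ C W) + FC n a adj κ C W ∅ ≤
      (Reg.av fun w => (V (FC n a adj κ C W) w : ℝ)) / D + δ₁ + Er W)
    (hrange : ∀ W ⊆ range (n + n), ∀ w, |(V (FC n a adj κ C W) w : ℝ)| ≤ D * B)
    (hcond : 8 * (B + κ * C.card) ^ 2 * (2 * n + 3) ≤ Kc * δ₂ ^ 2)
    (hδ : δ₁ + δ₂ + C.card * (2 / 2 ^ κ) + 1 ≤ δ) :
    8 * (univ.filter fun s : Fin Kc → Ω =>
      ¬ GoodW (n + n) adj C δ Er (esW n a adj C κ Kc D V s)).card ≤
      Fintype.card (Fin Kc → Ω) := by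
  have hDr : (0 : ℝ) < D := by exact_mod_cast hD
  have hx : (0 : ℝ) ≤ C.card * (2 / 2 ^ κ) := by positivity
  have hrange' : ∀ W ⊆ range (n + n), ∀ w,
      |((V (FC n a adj κ C W) w - D * FC n a adj κ C W ∅ : ℤ) : ℝ)| ≤ D * (B + κ * C.card) := by
    intro W hW w
    have h0 : |(FC n a adj κ C W ∅ : ℝ)| ≤ κ * C.card := by
      have h1 : (0 : ℝ) ≤ (FC n a adj κ C W ∅ : ℝ) := by exact_mod_cast FC_nonneg W ∅
      rw [abs_of_nonneg h1]
      exact_mod_cast FC_le h W ∅
    have h2 := hrange W hW w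
    push_cast
    refine (abs_sub _ _).trans ?_
    rw [abs_mul, abs_of_pos hDr, mul_add]
    exact add_le_add h2 (mul_le_mul_of_nonneg_left h0 hDr.le)
  have hcond' : 8 * (B + κ * C.card) ^ 2 * (((n + n : ℕ) : ℝ) + 3) ≤ Kc * δ₂ ^ 2 := by
    refine le_trans (le_of_eq ?_) hcond
    push_cast
    ring
  have hB' : (0 : ℝ) < B + κ * C.card := by positivity
  have key := good_seedsR (N := n + n) (D := D) (K := Kc)
    (V := fun W w => V (FC n a adj κ C W) w - D * FC n a adj κ C W ∅) hD hKc hB' hδ₂ hrange' hcond'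
  refine le_trans (Nat.mul_le_mul_left 8 (card_le_card ?_)) key
  intro s hs
  rw [mem_filter] at hs ⊢
  refine ⟨mem_univ _, fun hcon => hs.2 ⟨fun W hW => ?_, fun W hW => ?_, fun W _ hW =>
    eC_leaf h hW _ _⟩⟩
  · -- not too large
    have h1 := hcon W hW
    have h2 := hup W hW
    have h3 : (Reg.av fun w : Ω => ((V (FC n a adj κ C W) w -
          D * FC n a adj κ C W ∅ : ℤ) : ℝ)) / D =
        (Reg.av fun w : Ω => (V (FC n a adj κ C W) w : ℝ)) / D - FC n a adj κ C W ∅ := by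
      have h4 : (Reg.av fun w : Ω => ((V (FC n a adj κ C W) w -
          D * FC n a adj κ C W ∅ : ℤ) : ℝ)) =
        (Reg.av fun w : Ω => (V (FC n a adj κ C W) w : ℝ)) +
          -((D : ℝ) * FC n a adj κ C W ∅) := by
        rw [← Reg.av_const (Ω := Ω) (-((D : ℝ) * FC n a adj κ C W ∅)), ← Reg.av_add]
        congr 1
        funext w
        push_cast
        ring
      rw [h4, add_div, neg_div, mul_div_cancel_left₀ _ hDr.ne']
      ring
    rw [h3] at h1
    have h5 := (abs_le.1 h1).2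
    rw [esW_eq]
    have h6 := eC_up h hκ W (Nat.mul_pos hKc hD) (δ := δ₁ + δ₂) (by linarith)
      (tot := ∑ k : Fin Kc, (V (FC n a adj κ C W) (s k) - D * FC n a adj κ C W ∅)) (by linarith)
    linarith
  · -- not too small
    have h1 := hcon W hW
    have h2 := hlow W hW
    have h3 : (Reg.av fun w : Ω => ((V (FC n a adj κ C W) w -
          D * FC n a adj κ C W ∅ : ℤ) : ℝ)) / D =
        (Reg.av fun w : Ω => (V (FC n a adj κ C W) w : ℝ)) / D - FC n a adj κ C W ∅ := by
      have h4 : (Reg.av fun w : Ω => ((V (FC n a adj κ C W) w -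
          D * FC n a adj κ C W ∅ : ℤ) : ℝ)) =
        (Reg.av fun w : Ω => (V (FC n a adj κ C W) w : ℝ)) +
          -((D : ℝ) * FC n a adj κ C W ∅) := by
        rw [← Reg.av_const (Ω := Ω) (-((D : ℝ) * FC n a adj κ C W ∅)), ← Reg.av_add]
        congr 1
        funext w
        push_cast
        ring
      rw [h4, add_div, neg_div, mul_div_cancel_left₀ _ hDr.ne']
      ring
    rw [h3] at h1
    have h5 := (abs_le.1 h1).1
    rw [esW_eq]
    have h6 := eC_low h hκ W (Nat.mul_pos hKc hD) (δ := δ₁ + δ₂ + Er W)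
      (by linarith [hEr W hW])
      (tot := ∑ k : Fin Kc, (V (FC n a adj κ C W) (s k) - D * FC n a adj κ C W ∅)) (by linarith)
    linarith

end seeds

end Pool.Agent.Lib.SubBisG
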