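import Pool.Agent.Lib.SubBisG.ParG
import Pool.Agent.Lib.SubBisG.CvF
import Pool.Agent.Lib.SubBisG.OrdG
import Pool.Agent.Lib.SubBisG.CovG
import Pool.Agent.Lib.SubBisG.SeedG

/-!
# SubBisG.SeedT: most seeds are good

For seven eighths of the seeds the estimates of all masks `W` are good, with the error of `W`
governed by the mean number of the vertices with few neighbours. Input: the mean value of one copy
(`meanG`), its range (`rangeG`), the number of sites that are not free (`order_boundG`) and
Hoeffding's inequality for all masks at once (`good_seedsR`).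
-/

set_option autoImplicit false

open scoped BigOperators

namespace Pool.Agent.Lib.SubBisG

open Finset SubBis Pool.Agent.Lib.SubBisX.Core Pool.Agent.Lib.SubBisX.Node
open Pool.Agent.Lib.SubBisX
open Pool.Agent.Lib.SubBisB (ZF EG pv Rb Rp psi)
open Pool.Agent.Lib.SubBisC Pool.Agent.Lib.Pa7c826 Pool.Agent.Lib.Pa7c826t

namespace SeedT

variable {k : ℕ}

/-- the two means commute -/
theorem av_EG {Ω : Type*} [Fintype Ω] (F : Finset (Fin k) → ℤ) (f : Ω → Finset (Fin k) → ℝ) :
    (Reg.av fun w => EG F (f w)) = EG F fun S => Reg.av fun w => f w S := by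
  have h1 : (fun w => EG F (f w)) = fun w =>
      ∑ S, (SubBisB.wt2 F S / ZF F) * f w S := by
    funext w
    unfold SubBisB.EG
    rw [sum_div]
    exact sum_congr rfl fun S _ => by ring
  rw [h1, Reg.av_sum]
  unfold SubBisB.EG
  rw [sum_div]
  refine sum_congr rfl fun S _ => ?_
  rw [Reg.av_smul]
  ring

variable {n a d : ℕ} {adj sub : ℕ → ℕ → Bool}

theorem nbW_subset (W : Finset ℕ) (v : ℕ) : nbW n a adj W v ⊆ range n := by
  unfold nbW
  split_ifs
  · exact filter_subset _ _
  · exact empty_subset _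

theorem card_nbW_le (W : Finset ℕ) (v : ℕ) : (nbW n a adj W v).card ≤ kapG n := by
  have h := card_le_card (nbW_subset (n := n) (a := a) (adj := adj) W v)
  rw [card_range] at h
  unfold kapG
  omega

/-- a covered point that has not few neighbours has many neighbours in `sub` -/
theorem many (h : Rg n a d adj sub) (W : Finset ℕ) (S : Finset (Fin (range a).card)) (b : ℕ)
    (hb : b ∈ S.biUnion fun v : Fin (range a).card => nbW n a adj W v)
    (hf : b ∉ fewV a d adj sub W (toN S ∩ W)) :
    d ≤ 16 * (S.filter fun v : Fin (range a).card => b ∈ nbW n a adj W v).card := by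
  rw [mem_biUnion] at hb
  obtain ⟨v, hv, hbv⟩ := hb
  have hva : (v : ℕ) < a := lt_of_lt_of_eq v.2 (card_range a)
  unfold nbW at hbv
  split_ifs at hbv with hvW
  · rw [mem_filter, mem_range] at hbv
    obtain ⟨hbn, hab, hbW, hadj⟩ := hbv
    have h1 : ¬ 16 * ((toN S ∩ W).filter fun v => v < a ∧ sub v b = true).card < d := by
      intro hlt
      apply hf
      unfold fewV
      rw [mem_filter]
      refine ⟨hbW, hab, ⟨(v : ℕ), ?_, hva, hadj⟩, hlt⟩
      rw [mem_inter]
      exact ⟨mem_toN.2 ⟨v.2, by simpa using hv⟩, hvW⟩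
    have h2 : ((toN S ∩ W).filter fun v => v < a ∧ sub v b = true).card ≤
        (S.filter fun v : Fin (range a).card => b ∈ nbW n a adj W v).card := by
      have h3 : ((toN S ∩ W).filter fun v => v < a ∧ sub v b = true) ⊆
          toN (S.filter fun v : Fin (range a).card => b ∈ nbW n a adj W v) := by
        intro x hx
        rw [mem_filter, mem_inter] at hx
        obtain ⟨⟨hxS, hxW⟩, hxa, hxs⟩ := hx
        obtain ⟨hx1, hx2⟩ := mem_toN.1 hxS
        refine mem_toN.2 ⟨hx1, ?_⟩
        rw [mem_filter]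
        refine ⟨hx2, ?_⟩
        unfold nbW
        rw [if_pos hxW, mem_filter, mem_range]
        exact ⟨hbn, hab, hbW, h.le _ _ hxs⟩
      have h4 := card_le_card h3
      have h5 : (toN (S.filter fun v : Fin (range a).card => b ∈ nbW n a adj W v)).card =
          (S.filter fun v : Fin (range a).card => b ∈ nbW n a adj W v).card := by
        unfold toN
        exact card_map _
      rwa [h5] at h4
    omega
  · exact absurd hbv (notMem_empty b)

/-- the mean number of sites that are not free -/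
theorem mean_nf (h : Rg n a d adj sub) (W : Finset ℕ) :
    (Reg.av fun bet : Fin (range a).card → Fin (2 ^ lamG n) =>
        EG (cvF fun v : Fin (range a).card => nbW n a adj W v)
          (nfG (cvF fun v : Fin (range a).card => nbW n a adj W v) bet)) ≤
      16 * ((a : ℝ) / d) * Real.log (n + 1) + 2 + EB a d adj sub W := by
  have hk : (range a).card ≤ n := by
    rw [card_range]
    exact h.cov.han
  rw [av_EG, ← EG_few h W,
    ← SubBisB.EG_const (F := cvF fun v : Fin (range a).card => nbW n a adj W v)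
      (16 * ((a : ℝ) / d) * Real.log (n + 1) + 2), ← SubBisB.EG_add]
  refine SubBisB.EG_mono fun S => ?_
  have h1 := order_boundG (d := d) hk h.pos (fun v : Fin (range a).card => nbW n a adj W v)
    (fun v => nbW_subset W v) S (fewV a d adj sub W (toN S ∩ W)) (fun b hb hf =>
      many h W S b hb hf)
  have hc : ((range a).card : ℝ) = a := by rw [card_range]
  rw [hc] at h1
  linarith

theorem EB_nonneg (W : Finset ℕ) : 0 ≤ EB a d adj sub W :=
  div_nonneg (sum_nonneg fun _ _ => Nat.cast_nonneg _) (Nat.cast_nonneg _)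

theorem etG_nonneg (q : ℕ) : 0 ≤ etG q := by
  unfold etG
  positivity

theorem KG_pos (n : ℕ) : 0 < KG n := by
  unfold KG
  positivity

theorem err_nonneg (n a d q : ℕ) :
    0 ≤ 2 * ((a : ℝ) / d) * Real.log (n + 1) / (q : ℝ) ^ 2 := by
  have hlog : 0 ≤ Real.log ((n : ℝ) + 1) := Real.log_nonneg (by
    have : (0 : ℝ) ≤ n := Nat.cast_nonneg n
    linarith)
  positivity

theorem four_le_dlG (n a d q : ℕ) : 4 ≤ dlG n a d q := by
  unfold dlG
  linarith [err_nonneg n a d q]

theorem small_pow (n c : ℕ) (h : c ≤ n) : (c : ℝ) * (2 / 2 ^ kapG n) ≤ 1 := by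
  have h8 : (n : ℝ) ≤ 2 ^ n := by exact_mod_cast (Nat.lt_two_pow_self (n := n)).le
  have h9 : (c : ℝ) ≤ n := by exact_mod_cast h
  have h10 : (2 : ℝ) / 2 ^ kapG n = 1 / 2 ^ n := by
    unfold kapG
    rw [pow_succ]
    field_simp
  rw [h10, mul_one_div, div_le_one (by positivity)]
  linarith

theorem range_le (n c x y : ℕ) (h : c ≤ n) :
    (c : ℝ) * ((x : ℝ) + y) ≤ (n : ℝ) * (x + y) + 1 := by
  have h3 : (c : ℝ) ≤ n := by exact_mod_cast h
  have h4 := mul_le_mul_of_nonneg_right h3 (by positivity : (0 : ℝ) ≤ (x : ℝ) + y)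
  linarith

theorem range_pos (n x y : ℕ) : 0 < (n : ℝ) * ((x : ℝ) + y) + 1 := by positivity

theorem cond_KG (n : ℕ) : 8 * ((n : ℝ) * (muG n + kapG n) + 1) ^ 2 * (((n + n : ℕ) : ℝ) + 3) ≤
    KG n * (1 : ℝ) ^ 2 := by
  unfold KG
  push_cast
  apply le_of_eq
  ring

theorem split_err (x y q : ℝ) (hq : 1 ≤ q) :
    1 / (8 * q ^ 2) * (16 * x + 2 + y) ≤ 2 * x / q ^ 2 + 1 / 4 + 1 / (8 * q ^ 2) * y := by
  have h1 : 1 / (8 * q ^ 2) * (16 * x + 2 + y) =
      2 * x / q ^ 2 + 1 / (4 * q ^ 2) + 1 / (8 * q ^ 2) * y := by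
    have hq0 : q ≠ 0 := by
      intro h
      rw [h] at hq
      linarith
    field_simp
    ring
  have h2 : (1 : ℝ) ≤ q ^ 2 := one_le_pow₀ hq
  have h3 : 1 / (4 * q ^ 2) ≤ 1 / 4 :=
    div_le_div_of_nonneg_left zero_le_one (by norm_num) (by linarith)
  linarith

end SeedT

open SeedT

variable {n : ℕ}

open Classical in
theorem good_seedsT {a d q : ℕ} {adj sub : ℕ → ℕ → Bool} (hq : 1 ≤ q)
    (h : Rg n a d adj sub) :
    8 * (univ.filter fun s : Fin (KG n) → CpG (range a).card n q =>
      ¬ GoodG n a d adj sub (dlG n a d q) (etG q) (esG n a adj q s)).card ≤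
      Fintype.card (Fin (KG n) → CpG (range a).card n q) := by
  have hk : (range a).card ≤ n := by
    rw [card_range]
    exact h.cov.han
  have hκ0 : 0 < kapG n := Nat.succ_pos n
  have hκn : n ≤ kapG n := Nat.le_succ n
  have hq0 : (1 : ℝ) ≤ q := by exact_mod_cast hq
  -- the set functions
  set Fw : Finset ℕ → Finset (Fin (range a).card) → ℤ := fun W =>
    cvF fun v : Fin (range a).card => nbW n a adj W v with hFw
  have hFC : ∀ W, FC n a adj (kapG n) (range a) W = Fw W := fun W => FC_cov h.cov hκn W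
  have hF0 : ∀ W, Fw W ∅ = 0 := fun W => cvF_empty _
  have hinc : ∀ W S v, |Fw W (insert v S) - Fw W S| ≤ kapG n := fun W S v =>
    cvF_inc _ (fun v => card_nbW_le W v) S v
  have hes : ∀ (s : Fin (KG n) → CpG (range a).card n q) (W : Finset ℕ), esG n a adj q s W =
      eC (range a) W (∑ k : Fin (KG n), VG (range a).card n q (Fw W) (s k)) (KG n * DDG n q) := by
    intro s W
    unfold esG
    rw [hFC, hF0, mul_zero, sub_zero]
  -- the mean values
  have hup : ∀ W, (Reg.av fun p : CpG (range a).card n q =>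
      (VG (range a).card n q (Fw W) p : ℝ)) / DDG n q ≤ Bounds.logZ (Fw W) + 1 := fun W =>
    (meanG hq hk (subm_cvF _) (hF0 W) (cvF_mono _) (hinc W)).1
  have hlow : ∀ W, Bounds.logZ (Fw W) ≤ (Reg.av fun p : CpG (range a).card n q =>
      (VG (range a).card n q (Fw W) p : ℝ)) / DDG n q + 5 / 4 +
        2 * ((a : ℝ) / d) * Real.log (n + 1) / (q : ℝ) ^ 2 + etG q * EB a d adj sub W := by
    intro W
    have h1 := (meanG hq hk (subm_cvF _) (hF0 W) (cvF_mono _) (hinc W)).2
    have h2 := mean_nf h W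
    have h3 : 1 / (8 * (q : ℝ) ^ 2) * (Reg.av fun bet : Fin (range a).card → Fin (2 ^ lamG n) =>
        EG (Fw W) (nfG (Fw W) bet)) ≤ 1 / (8 * (q : ℝ) ^ 2) *
          (16 * ((a : ℝ) / d) * Real.log (n + 1) + 2 + EB a d adj sub W) :=
      mul_le_mul_of_nonneg_left h2 (etG_nonneg q)
    have h4 := split_err (((a : ℝ) / d) * Real.log (n + 1)) (EB a d adj sub W) q hq0
    rw [← mul_assoc, ← mul_assoc] at h4
    have h5 := h3.trans h4
    have h6 : 1 / (8 * (q : ℝ) ^ 2) * EB a d adj sub W = etG q * EB a d adj sub W := rfl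
    rw [h6] at h5
    linarith
  -- the range
  have hrange : ∀ W ⊆ range (n + n), ∀ p, |(VG (range a).card n q (Fw W) p : ℝ)| ≤
      DDG n q * ((n : ℝ) * (muG n + kapG n) + 1) := by
    intro W _ p
    have h1 := rangeG (q := q) (hinc W) p
    have h2 : |(VG (range a).card n q (Fw W) p : ℝ)| ≤
        DDG n q * ((range a).card * (muG n + kapG n)) := by exact_mod_cast h1
    exact h2.trans (mul_le_mul_of_nonneg_left (range_le n _ (muG n) (kapG n) hk)
      (Nat.cast_nonneg _))
  have key := good_seedsR (N := n + n) (D := DDG n q) (K := KG n)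
    (V := fun W p => VG (range a).card n q (Fw W) p) DDG_pos (KG_pos n)
    (range_pos n (muG n) (kapG n)) one_pos hrange (cond_KG n)
  refine le_trans (Nat.mul_le_mul_left 8 (card_le_card ?_)) key
  intro s hs
  rw [mem_filter] at hs ⊢
  refine ⟨mem_univ _, fun hcon => hs.2 ⟨fun W hW => ?_, fun W hW => ?_, fun W _ hW => ?_⟩⟩
  · -- not too large
    have h1 := (abs_le.1 (hcon W hW)).2
    have h2 := hup W
    have h6 := eC_up h.cov hκ0 W (Nat.mul_pos (KG_pos n) (DDG_pos (n := n) (q := q))) (δ := 2)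
      (by norm_num)
      (tot := ∑ k : Fin (KG n), VG (range a).card n q (Fw W) (s k)) (by
        rw [hFC]
        linarith)
    rw [hes]
    have h7 := small_pow n (range a).card hk
    have h11 := four_le_dlG n a d q
    linarith
  · -- not too small
    have h1 := (abs_le.1 (hcon W hW)).1
    have h2 := hlow W
    have he : 0 ≤ etG q * EB a d adj sub W := mul_nonneg (etG_nonneg q) (EB_nonneg W)
    have h0 := err_nonneg n a d q
    have h6 := eC_low h.cov hκ0 W (Nat.mul_pos (KG_pos n) (DDG_pos (n := n) (q := q)))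
      (δ := 9 / 4 + 2 * ((a : ℝ) / d) * Real.log (n + 1) / (q : ℝ) ^ 2 +
        etG q * EB a d adj sub W) (by linarith)
      (tot := ∑ k : Fin (KG n), VG (range a).card n q (Fw W) (s k)) (by
        rw [hFC]
        linarith)
    rw [hes]
    unfold dlG
    linarith
  · rw [hes]
    exact eC_leaf h.cov hW _ _

end Pool.Agent.Lib.SubBisG
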