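import Pool.Agent.Lib.SubBisF.CoreF

/-!
# SubBisG.TAct: free sites

A site `v` is active at the set `S` if it changes the value of `F` at the part of `S` in the earlier
blocks. For a monotone submodular `F` the decision at a site that is not active changes nothing.
-/

set_option autoImplicit false

open scoped BigOperators

namespace Pool.Agent.Lib.SubBisG

open Finset SubBis Pool.Agent.Lib.SubBisX.Reg Pool.Agent.Lib.SubBisX.Core
open Pool.Agent.Lib.SubBisX Pool.Agent.Lib.SubBisF
open Pool.Agent.Lib.SubBisE (agr ker cl gam vl xt Okd)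
open Pool.Agent.Lib.SubBisB (wt2 ZF EG pv Rb Rp psi)

variable {n k m B R : ℕ}

/-- `F` is monotone -/
def Mon (F : Finset (Fin k) → ℤ) : Prop := ∀ S v, F S ≤ F (insert v S)

/-- the site `v` is active at `S` -/
def Act (F : Finset (Fin k) → ℤ) (bet : Fin k → Fin B) (v : Fin k) (S : Finset (Fin k)) : Prop :=
  F (insert v (S ∩ Rb bet v)) ≠ F (S ∩ Rb bet v)

instance (F : Finset (Fin k) → ℤ) (bet : Fin k → Fin B) (v : Fin k) (S : Finset (Fin k)) :
    Decidable (Act F bet v S) := inferInstanceAs (Decidable (_ ≠ _))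

/-- the function does not see the sites that are not active -/
def Inv (F : Finset (Fin k) → ℤ) (bet : Fin k → Fin B) {α : Sort*} (r : Finset (Fin k) → α) : Prop :=
  ∀ w S, ¬ Act F bet w S → r (insert w S) = r S

/-- the set of sites is closed under earlier blocks -/
def Cl (bet : Fin k → Fin B) (R1 : Finset (Fin k)) : Prop := ∀ w ∈ R1, Rb bet w ⊆ R1

theorem cl_Rb (bet : Fin k → Fin B) (v : Fin k) : Cl bet (Rb bet v) := by
  intro w hw x hx
  have h1 := (mem_filter.1 hw).2
  have h2 := (mem_filter.1 hx).2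
  exact mem_filter.2 ⟨mem_univ _, h2.trans h1⟩

theorem cl_Rp (bet : Fin k → Fin B) (v : Fin k) : Cl bet (Rp bet v) := by
  intro w hw x hx
  have h2 := (mem_filter.1 hx).2
  rcases (mem_filter.1 hw).2 with h1 | h1
  · exact mem_filter.2 ⟨mem_univ _, Or.inl (h2.trans h1)⟩
  · exact mem_filter.2 ⟨mem_univ _, Or.inl (h1.1 ▸ h2)⟩

theorem not_mem_Rb (bet : Fin k → Fin B) (v : Fin k) : v ∉ Rb bet v := fun h =>
  lt_irrefl _ (mem_filter.1 h).2

theorem act_congr {F : Finset (Fin k) → ℤ} {bet : Fin k → Fin B} {v : Fin k}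
    {S S' : Finset (Fin k)} (h : S ∩ Rb bet v = S' ∩ Rb bet v) : Act F bet v S ↔ Act F bet v S' := by
  unfold Act
  rw [h]

theorem dep_act (F : Finset (Fin k) → ℤ) (bet : Fin k → Fin B) (v : Fin k) :
    SubBisB.Dep (Rb bet v) fun S => Act F bet v S := fun _ _ h => propext (act_congr h)

/-- a site that is not active changes nothing later -/
theorem insert_of_not_act {F : Finset (Fin k) → ℤ} (hF : FCS.Subm F) (hM : Mon F)
    {bet : Fin k → Fin B} {w : Fin k} {S T : Finset (Fin k)} (h : ¬ Act F bet w S)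
    (hT : S ∩ Rb bet w ⊆ T) : F (insert w T) = F T := by
  unfold Act at h
  rw [not_not] at h
  by_cases hw : w ∈ T
  · rw [insert_eq_of_mem hw]
  · have h1 := hF (insert w (S ∩ Rb bet w)) T
    have e1 : insert w (S ∩ Rb bet w) ∪ T = insert w T := by
      rw [insert_union, union_eq_right.2 hT]
    have e2 : insert w (S ∩ Rb bet w) ∩ T = S ∩ Rb bet w := by
      rw [insert_inter_of_notMem hw, inter_eq_left.2 hT]
    rw [e1, e2, h] at h1
    have h2 := hM T w
    omega

theorem inv_F {F : Finset (Fin k) → ℤ} (hF : FCS.Subm F) (hM : Mon F) (bet : Fin k → Fin B) :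
    Inv F bet F := fun _ _ h => insert_of_not_act hF hM h inter_subset_left

theorem inv_act {F : Finset (Fin k) → ℤ} (hF : FCS.Subm F) (hM : Mon F) (bet : Fin k → Fin B)
    (v : Fin k) : Inv F bet fun S => Act F bet v S := by
  intro w S h
  refine propext ?_
  show Act F bet v (insert w S) ↔ Act F bet v S
  by_cases hw : w ∈ Rb bet v
  · have h1 : S ∩ Rb bet w ⊆ S ∩ Rb bet v := inter_subset_inter_left (cl_Rb bet v w hw)
    have e1 : insert w S ∩ Rb bet v = insert w (S ∩ Rb bet v) := insert_inter_of_mem hw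
    unfold Act
    rw [e1, insert_comm, insert_of_not_act hF hM h h1,
      insert_of_not_act hF hM h (h1.trans (subset_insert v _))]
  · exact act_congr (insert_inter_of_notMem hw)

theorem inv_act_iff {F : Finset (Fin k) → ℤ} (hF : FCS.Subm F) (hM : Mon F) {bet : Fin k → Fin B}
    {v w : Fin k} {S : Finset (Fin k)} (h : ¬ Act F bet w S) :
    Act F bet v (insert w S) ↔ Act F bet v S := iff_of_eq (inv_act hF hM bet v w S h)

theorem wt2_insert_of_not_act {F : Finset (Fin k) → ℤ} (hF : FCS.Subm F) (hM : Mon F)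
    {bet : Fin k → Fin B} {w : Fin k} {S T : Finset (Fin k)} (h : ¬ Act F bet w S)
    (hT : S ∩ Rb bet w ⊆ T) : wt2 F (insert w T) = wt2 F T := by
  unfold SubBisB.wt2
  rw [insert_of_not_act hF hM h hT]

/-- the involution on the classes -/
theorem sum_sm_toggle {R1 S : Finset (Fin k)} {w : Fin k} (hw : w ∈ R1) (hS : w ∉ S)
    (f : Finset (Fin k) → ℝ) :
    ∑ T ∈ SubBisB.sm R1 (insert w S), f T = ∑ T ∈ SubBisB.sm R1 S, f (insert w T) := by
  symm
  refine sum_bij' (fun T _ => insert w T) (fun T _ => T.erase w) ?_ ?_ ?_ ?_ ?_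
  · intro T hT
    have h1 := (mem_filter.1 hT).2
    refine mem_filter.2 ⟨mem_univ _, ?_⟩
    rw [insert_inter_of_mem hw, insert_inter_of_mem hw, h1]
  · intro T hT
    have h1 := (mem_filter.1 hT).2
    refine mem_filter.2 ⟨mem_univ _, ?_⟩
    rw [erase_inter, h1, insert_inter_of_mem hw, erase_insert]
    exact fun h => hS (mem_inter.1 h).1
  · intro T hT
    have h1 := (mem_filter.1 hT).2
    refine erase_insert fun h => hS ?_
    have h2 : w ∈ T ∩ R1 := mem_inter.2 ⟨h, hw⟩
    rw [h1] at h2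
    exact (mem_inter.1 h2).1
  · intro T hT
    have h1 := (mem_filter.1 hT).2
    refine insert_erase ?_
    have h2 : w ∈ insert w S ∩ R1 := mem_inter.2 ⟨mem_insert_self _ _, hw⟩
    rw [← h1] at h2
    exact (mem_inter.1 h2).1
  · intro T _
    rfl

/-- the parts of a class with and without a site outside -/
theorem sum_sm_half {R1 S : Finset (Fin k)} {v : Fin k} (hv : v ∉ R1) (f : Finset (Fin k) → ℝ) :
    ∑ T ∈ (SubBisB.sm R1 S).filter (fun T => v ∈ T), f T =
      ∑ T ∈ (SubBisB.sm R1 S).filter (fun T => ¬ v ∈ T), f (insert v T) := by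
  symm
  refine sum_bij' (fun T _ => insert v T) (fun T _ => T.erase v) ?_ ?_ ?_ ?_ ?_
  · intro T hT
    have h1 := (mem_filter.1 (mem_filter.1 hT).1).2
    refine mem_filter.2 ⟨mem_filter.2 ⟨mem_univ _, ?_⟩, mem_insert_self _ _⟩
    rw [insert_inter_of_notMem hv, h1]
  · intro T hT
    have h1 := (mem_filter.1 (mem_filter.1 hT).1).2
    refine mem_filter.2 ⟨mem_filter.2 ⟨mem_univ _, ?_⟩, notMem_erase _ _⟩
    rw [erase_inter, h1, erase_eq_of_notMem]
    exact fun h => hv (mem_inter.1 h).2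
  · intro T hT
    exact erase_insert (mem_filter.1 hT).2
  · intro T hT
    exact insert_erase (mem_filter.1 hT).2
  · intro T _
    rfl

/-- the sets of a class contain the part of the set in the earlier blocks -/
theorem sub_of_mem_sm {bet : Fin k → Fin B} {R1 S T : Finset (Fin k)} {w : Fin k}
    (hR : Rb bet w ⊆ R1) (hT : T ∈ SubBisB.sm R1 S) : S ∩ Rb bet w ⊆ T := by
  have h1 := (mem_filter.1 hT).2
  intro x hx
  have h2 : x ∈ S ∩ R1 := mem_inter.2 ⟨(mem_inter.1 hx).1, hR (mem_inter.1 hx).2⟩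
  rw [← h1] at h2
  exact (mem_inter.1 h2).1

/-- the probability of a site that is not active is one half -/
theorem pv_half {F : Finset (Fin k) → ℤ} (hF : FCS.Subm F) (hM : Mon F) {bet : Fin k → Fin B}
    {v : Fin k} {R1 S : Finset (Fin k)} (hv : v ∉ R1) (hR : Rb bet v ⊆ R1)
    (h : ¬ Act F bet v S) : pv F v R1 S = 1 / 2 := by
  have h1 : ∑ T ∈ SubBisB.sm R1 S, wt2 F T * SubBisB.ind1 v T =
      ∑ T ∈ (SubBisB.sm R1 S).filter (fun T => v ∈ T), wt2 F T := by
    rw [sum_filter]
    refine sum_congr rfl fun T _ => ?_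
    unfold SubBisB.ind1
    split_ifs <;> simp
  have h2 : ∑ T ∈ (SubBisB.sm R1 S).filter (fun T => v ∈ T), wt2 F T =
      ∑ T ∈ (SubBisB.sm R1 S).filter (fun T => ¬ v ∈ T), wt2 F T := by
    rw [sum_sm_half hv]
    refine sum_congr rfl fun T hT => ?_
    exact wt2_insert_of_not_act hF hM h (sub_of_mem_sm hR (mem_filter.1 hT).1)
  have h3 := sum_filter_add_sum_filter_not (SubBisB.sm R1 S) (fun T => v ∈ T) (wt2 F)
  have h4 : 0 < ∑ T ∈ SubBisB.sm R1 S, wt2 F T :=
    sum_pos (fun T _ => SubBisB.wt2_pos T) ⟨S, mem_filter.2 ⟨mem_univ _, rfl⟩⟩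
  unfold SubBisB.pv SubBisB.ce
  rw [h1, div_eq_iff h4.ne']
  linarith

/-- conditional means do not see a site that is not active -/
theorem inv_ce {F : Finset (Fin k) → ℤ} (hF : FCS.Subm F) (hM : Mon F) {bet : Fin k → Fin B}
    {R1 S : Finset (Fin k)} {w : Fin k} (hw : w ∈ R1) (hR : Rb bet w ⊆ R1) (h : ¬ Act F bet w S)
    {r : Finset (Fin k) → ℝ} (hr : ∀ T ∈ SubBisB.sm R1 S, r (insert w T) = r T) :
    SubBisB.ce F R1 r (insert w S) = SubBisB.ce F R1 r S := by
  by_cases hS : w ∈ S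
  · rw [insert_eq_of_mem hS]
  · unfold SubBisB.ce
    rw [sum_sm_toggle hw hS, sum_sm_toggle hw hS]
    congr 1
    · refine sum_congr rfl fun T hT => ?_
      rw [wt2_insert_of_not_act hF hM h (sub_of_mem_sm hR hT), hr T hT]
    · refine sum_congr rfl fun T hT => ?_
      exact wt2_insert_of_not_act hF hM h (sub_of_mem_sm hR hT)

theorem inv_pv {F : Finset (Fin k) → ℤ} (hF : FCS.Subm F) (hM : Mon F) {bet : Fin k → Fin B}
    {R1 : Finset (Fin k)} (hR : Cl bet R1) {v : Fin k} (hv : v ∉ R1) :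
    Inv F bet fun S => pv F v R1 S := by
  intro w S h
  show pv F v R1 (insert w S) = pv F v R1 S
  by_cases hw : w ∈ R1
  · refine inv_ce hF hM hw (hR w hw) h fun T _ => ?_
    have hne : v ≠ w := fun e => hv (e ▸ hw)
    unfold SubBisB.ind1
    simp [mem_insert, hne]
  · exact SubBisB.dep_pv v R1 _ _ (insert_inter_of_notMem hw)

/-! ### The process -/

/-- the decisions of the process: only active sites are chosen -/
noncomputable def phT (ε : ℝ) (F : Finset (Fin k) → ℤ) (bet : Fin k → Fin B) (v : Fin k)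
    (z : Finset (Fin k)) (u : Fin m) : ℝ :=
  if Act F bet v z then ph ε (pv F v (Rp bet v) z) u else 0

/-- the decision at `v` if the sites of `R1` are known, with the own digit `x` -/
noncomputable def qT (ε : ℝ) (F : Finset (Fin k) → ℤ) (bet : Fin k → Fin B) (R1 : Finset (Fin k))
    (v : Fin k) (z : Finset (Fin k)) (x : Fin m) : ℝ :=
  if Act F bet v z then ph ε (pv F v R1 z) x else stp m (1 / 2) x

/-- the policy of the site `v` with the own digit `x` -/
noncomputable def yxT (ε : ℝ) (F : Finset (Fin k) → ℤ) (bet : Fin k → Fin B) (v : Fin k) (x : Fin m)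
    (U : Fin k → Fin m) : ℝ :=
  run (phT ε F bet) (LL bet) (fun z => qT ε F bet (Rb bet v) v z x) ∅ U

/-- the number of the active sites in the set -/
def fcb (F : Finset (Fin k) → ℤ) (bet : Fin k → Fin B) (S : Finset (Fin k)) : ℕ :=
  (S.filter fun v => Act F bet v S).card

theorem phT_mem (ε : ℝ) (F : Finset (Fin k) → ℤ) (bet : Fin k → Fin B) (v : Fin k)
    (z : Finset (Fin k)) (u : Fin m) : 0 ≤ phT ε F bet v z u ∧ phT ε F bet v z u ≤ 1 := by
  unfold phT
  split_ifs
  · exact ⟨ph_nonneg _ _ _, ph_le_one _ _ _⟩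
  · exact ⟨le_rfl, zero_le_one⟩

theorem qT_mem (ε : ℝ) (F : Finset (Fin k) → ℤ) (bet : Fin k → Fin B) (R1 : Finset (Fin k))
    (v : Fin k) (z : Finset (Fin k)) (x : Fin m) :
    0 ≤ qT ε F bet R1 v z x ∧ qT ε F bet R1 v z x ≤ 1 := by
  unfold qT
  split_ifs
  · exact ⟨ph_nonneg _ _ _, ph_le_one _ _ _⟩
  · exact ⟨stp_nonneg _ _, stp_le_one _ _⟩

theorem okd_phT [NeZero m] {ε : ℝ} (h0 : 0 ≤ ε) (h1 : ε ≤ 1 / 16) (F : Finset (Fin k) → ℤ)
    (bet : Fin k → Fin B) (v : Fin k) (z : Finset (Fin k)) :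
    Okd ε (phT (m := m) ε F bet v z) := by
  unfold phT
  by_cases h : Act F bet v z
  · simp only [if_pos h]
    exact okd_ph h0 h1 (SubBisB.pv_nonneg _ _ _) (SubBisB.pv_le_one _ _ _)
  · simp only [if_neg h]
    exact SubBisE.okd_zero

theorem dep_phT (ε : ℝ) (F : Finset (Fin k) → ℤ) (bet : Fin k → Fin B) (v : Fin k) (u : Fin m) :
    SubBisB.Dep (Rp bet v) fun z => phT ε F bet v z u := fun S S' h => by
  show phT ε F bet v S u = phT ε F bet v S' u
  have e1 : Act F bet v S ↔ Act F bet v S' :=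
    act_congr (SubBisB.Gib.inter_of_subset (SubBisB.Rb_subset_Rp bet v) h)
  unfold phT
  rw [SubBisB.dep_pv v (Rp bet v) S S' h]
  simp only [e1]

theorem dep_qT (ε : ℝ) (F : Finset (Fin k) → ℤ) (bet : Fin k → Fin B) {R1 : Finset (Fin k)}
    (v : Fin k) (hR : Rb bet v ⊆ R1) (u : Fin m) :
    SubBisB.Dep R1 fun z => qT ε F bet R1 v z u := fun S S' h => by
  show qT ε F bet R1 v S u = qT ε F bet R1 v S' u
  have e1 : Act F bet v S ↔ Act F bet v S' := act_congr (SubBisB.Gib.inter_of_subset hR h)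
  unfold qT
  rw [SubBisB.dep_pv v R1 S S' h]
  simp only [e1]

theorem inv_qT {F : Finset (Fin k) → ℤ} (hF : FCS.Subm F) (hM : Mon F) {bet : Fin k → Fin B}
    (ε : ℝ) {R1 : Finset (Fin k)} (hR : Cl bet R1) {v : Fin k} (hv : v ∉ R1) (u : Fin m) :
    Inv F bet fun z => qT ε F bet R1 v z u := by
  intro w S h
  show qT ε F bet R1 v (insert w S) u = qT ε F bet R1 v S u
  have e1 : pv F v R1 (insert w S) = pv F v R1 S := inv_pv hF hM hR hv w S h
  unfold qT
  rw [e1]
  simp only [inv_act_iff hF hM h]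

end Pool.Agent.Lib.SubBisG
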