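import Pool.Agent.Lib.SubBisG.TLaw

/-!
# SubBisG.TCmp: the value of the comparator

The loss of the smoothing is paid at the active sites in the set only.
-/

set_option autoImplicit false

open scoped BigOperators

namespace Pool.Agent.Lib.SubBisG

open Finset SubBis Pool.Agent.Lib.SubBisX.Reg Pool.Agent.Lib.SubBisX.Core
open Pool.Agent.Lib.SubBisX Pool.Agent.Lib.SubBisF
open Pool.Agent.Lib.SubBisE (agr ker cl gam vl xt Okd)
open Pool.Agent.Lib.SubBisB (wt2 ZF EG pv Rb Rp psi)

variable {n k m B R : ℕ}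

/-! ### One digit -/

/-- the second difference of the binary entropy -/
theorem h2_diffT {ε p : ℝ} (h0 : 0 ≤ ε) (h1 : ε ≤ 1 / 16) (hp : 0 ≤ p) (hp1 : p ≤ 1) :
    2 * h2 p - 64 * ε ^ 2 * (p * (1 - p)) ≤
      h2 (p - 4 * ε * p * (1 - p)) + h2 (p + 4 * ε * p * (1 - p)) := by
  rcases hp.eq_or_lt with h | h
  · rw [← h]
    simp only [mul_zero, zero_mul, sub_zero, add_zero]
    linarith
  rcases hp1.eq_or_lt with h' | h'
  · rw [h']
    simp only [sub_self, mul_zero, sub_zero, add_zero]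
    linarith
  obtain ⟨b1, b2, b3, b4⟩ := pos_bd h0 h1 hp hp1
  set a := 4 * ε * p * (1 - p) with ha
  have hq : 0 < 1 - p := by linarith
  have l1 := mul_log_le h b1
  have l2 := mul_log_le h b3
  have l3 := mul_log_le hq (show 0 ≤ 1 - (p - a) by linarith)
  have l4 := mul_log_le hq (show 0 ≤ 1 - (p + a) by linarith)
  have hl2 := SubBisB.Sm.log_two_pos
  have hl2' : 1 / 2 ≤ Real.log 2 := by
    have := Real.log_two_gt_d9
    linarith
  have hpq : 0 ≤ p * (1 - p) := mul_nonneg hp hq.le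
  have key : 2 * Real.binEntropy p - 32 * ε ^ 2 * (p * (1 - p)) ≤
      Real.binEntropy (p - a) + Real.binEntropy (p + a) := by
    have r : ∀ x : ℝ, Real.binEntropy x = -(x * Real.log x) - (1 - x) * Real.log (1 - x) := by
      intro x
      unfold Real.binEntropy
      rw [Real.log_inv, Real.log_inv]
      ring
    rw [r, r, r]
    have q1 : (p - a) * ((p - a) / p - 1) + (p + a) * ((p + a) / p - 1) +
        ((1 - (p - a)) * ((1 - (p - a)) / (1 - p) - 1) +
          (1 - (p + a)) * ((1 - (p + a)) / (1 - p) - 1)) = 2 * a ^ 2 / p + 2 * a ^ 2 / (1 - p) := by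
      field_simp
      ring
    have q2 : 2 * a ^ 2 / p + 2 * a ^ 2 / (1 - p) = 32 * ε ^ 2 * (p * (1 - p)) := by
      rw [ha]
      field_simp
      ring
    linarith
  rw [SubBisB.Sm.h2_eq, SubBisB.Sm.h2_eq, SubBisB.Sm.h2_eq, ← add_div, le_div_iff₀ hl2]
  have e1 : (2 * (Real.binEntropy p / Real.log 2) - 64 * ε ^ 2 * (p * (1 - p))) * Real.log 2 =
      2 * Real.binEntropy p - 64 * ε ^ 2 * (p * (1 - p)) * Real.log 2 := by
    field_simp
  rw [e1]
  have e2 : 64 * ε ^ 2 * (p * (1 - p)) * (1 / 2) ≤ 64 * ε ^ 2 * (p * (1 - p)) * Real.log 2 :=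
    mul_le_mul_of_nonneg_left hl2' (by positivity)
  linarith

/-- the gain of a smoothed step -/
theorem ph_gainT (hm : 2 ≤ m) (c : ℕ) {ε p : ℝ} (h0 : 0 ≤ ε) (h1 : ε ≤ 1 / 16) (hp : 0 ≤ p)
    (hp1 : p ≤ 1) : c * h2 p - (1 + c * SubBisB.dl m) - c * (32 * ε ^ 2) * p ≤
      av fun u : Fin m => (ee m c u : ℝ) * ph ε p u := by
  obtain ⟨b1, b2, b3, b4⟩ := pos_bd h0 h1 hp hp1
  have g1 := stp_gain hm c b1 b2
  have g2 := stp_gain hm c b3 b4
  have hd := mul_le_mul_of_nonneg_left (h2_diffT h0 h1 hp hp1) (Nat.cast_nonneg (α := ℝ) c)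
  have e1 : (av fun u : Fin m => (ee m c u : ℝ) * ph ε p u) = (1 / 2) *
      av (fun u : Fin m => (ee m c u : ℝ) * stp m (p - 4 * ε * p * (1 - p)) u +
        (ee m c u : ℝ) * stp m (p + 4 * ε * p * (1 - p)) u) := by
    rw [← av_smul]
    refine congrArg av (funext fun u => ?_)
    unfold ph
    ring
  rw [e1, av_add]
  have e2 : (c : ℝ) * (32 * ε ^ 2) * (p * (1 - p)) ≤ (c : ℝ) * (32 * ε ^ 2) * p := by
    refine mul_le_mul_of_nonneg_left ?_ (by positivity)
    nlinarith
  nlinarith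

/-! ### The comparator -/

/-- the function of the process whose mean is the value of the comparator -/
noncomputable def cvrT (c κ : ℕ) (ε : ℝ) (F : Finset (Fin k) → ℤ) (bet : Fin k → Fin B)
    (U : Fin k → Fin m) (S : Finset (Fin k)) : ℝ :=
  (∑ v, (ee m c (U v) : ℝ) * qT ε F bet (Rb bet v) v S (U v)) - (c : ℝ) * (F S : ℝ) -
    (c : ℝ) * κ * ∑ v, |qT ε F bet (Rb bet v) v S (U v) - qT ε F bet (Rp bet v) v S (U v)|

theorem inv_qRb {F : Finset (Fin k) → ℤ} (hF : FCS.Subm F) (hM : Mon F) (bet : Fin k → Fin B)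
    (ε : ℝ) (v : Fin k) (u : Fin m) : Inv F bet fun z => qT ε F bet (Rb bet v) v z u :=
  inv_qT hF hM ε (cl_Rb bet v) (not_mem_Rb bet v) u

theorem inv_qRp {F : Finset (Fin k) → ℤ} (hF : FCS.Subm F) (hM : Mon F) (bet : Fin k → Fin B)
    (ε : ℝ) (v : Fin k) (u : Fin m) : Inv F bet fun z => qT ε F bet (Rp bet v) v z u :=
  inv_qT hF hM ε (cl_Rp bet v) (not_mem_Rp bet v) u

theorem dep_qRb (ε : ℝ) (F : Finset (Fin k) → ℤ) (bet : Fin k → Fin B) (v : Fin k) (u : Fin m) :
    SubBisB.Dep (Rp bet v) fun z => qT ε F bet (Rb bet v) v z u :=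
  SubBisB.Dep.mono (SubBisB.Rb_subset_Rp bet v) (dep_qT ε F bet v (Subset.refl _) u)

theorem dep_qRp (ε : ℝ) (F : Finset (Fin k) → ℤ) (bet : Fin k → Fin B) (v : Fin k) (u : Fin m) :
    SubBisB.Dep (Rp bet v) fun z => qT ε F bet (Rp bet v) v z u :=
  dep_qT ε F bet v (SubBisB.Rb_subset_Rp bet v) u

/-- the mean number of the active sites in the set -/
theorem EG_fcb (F : Finset (Fin k) → ℤ) (bet : Fin k → Fin B) :
    ∑ v, EG F (fun S => (if Act F bet v S then 1 else 0) * pv F v (Rb bet v) S) =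
      EG F fun S => (fcb F bet S : ℝ) := by
  have h1 : ∀ v : Fin k, EG F (fun S => (if Act F bet v S then (1 : ℝ) else 0) *
      pv F v (Rb bet v) S) = EG F fun S => (if Act F bet v S then 1 else 0) * SubBisB.ind1 v S := by
    intro v
    exact SubBisB.tower (Rb bet v) (SubBisB.ind1 v) (fun S => if Act F bet v S then (1 : ℝ) else 0)
      (fun S S' hS => by
        show (if Act F bet v S then (1 : ℝ) else 0) = if Act F bet v S' then (1 : ℝ) else 0
        simp only [act_congr hS])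
  rw [sum_congr rfl fun v _ => h1 v, ← SubBisB.EG_sum]
  refine congrArg (EG F) (funext fun S => ?_)
  have h2 : ∀ v : Fin k, (if Act F bet v S then (1 : ℝ) else 0) * SubBisB.ind1 v S =
      if v ∈ S ∧ Act F bet v S then 1 else 0 := by
    intro v
    unfold SubBisB.ind1
    by_cases ha : Act F bet v S <;> by_cases hs : v ∈ S <;> simp [ha, hs]
  rw [sum_congr rfl fun v _ => h2 v, ← sum_filter, sum_const, nsmul_eq_mul, mul_one]
  unfold fcb
  congr 2
  ext v
  simp

/-- the mean of the comparator -/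
theorem av_cvrT [NeZero m] (hm : 2 ≤ m) (c κ : ℕ) {ε : ℝ} (h0 : 0 ≤ ε) (h1 : ε ≤ 1 / 16)
    {F : Finset (Fin k) → ℤ} (hF : FCS.Subm F) (hM : Mon F) (bet : Fin k → Fin B) :
    c * Bounds.logZ F - k * (1 + c * SubBisB.dl m) -
        c * (32 * ε ^ 2) * (EG F fun S => (fcb F bet S : ℝ)) - c * κ * gap F bet ≤
      av fun U : Fin k → Fin m => run (phT ε F bet) (LL bet) (cvrT c κ ε F bet U) ∅ U := by
  have e1 : ∀ U : Fin k → Fin m, run (phT ε F bet) (LL bet) (cvrT c κ ε F bet U) ∅ U =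
      (∑ v, run (phT ε F bet) (LL bet)
        (fun S => (ee m c (U v) : ℝ) * qT ε F bet (Rb bet v) v S (U v)) ∅ U) -
      (c : ℝ) * run (phT ε F bet) (LL bet) (fun S => (F S : ℝ)) ∅ U -
      (c : ℝ) * κ * ∑ v, run (phT ε F bet) (LL bet)
        (fun S => |qT ε F bet (Rb bet v) v S (U v) - qT ε F bet (Rp bet v) v S (U v)|) ∅ U := by
    intro U
    unfold cvrT
    rw [run_sub, run_sub, run_smul, run_smul, run_sum, run_sum]
  have e2 : (av fun U : Fin k → Fin m => run (phT ε F bet) (LL bet) (cvrT c κ ε F bet U) ∅ U) =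
      (∑ v, EG F fun S => av fun u : Fin m => (ee m c u : ℝ) * qT ε F bet (Rb bet v) v S u) -
      (c : ℝ) * EG F (fun S => (F S : ℝ)) -
      (c : ℝ) * κ * ∑ v, EG F fun S => av fun u : Fin m =>
        |qT ε F bet (Rb bet v) v S u - qT ε F bet (Rp bet v) v S u| := by
    have e3 : (fun U : Fin k → Fin m => run (phT ε F bet) (LL bet) (cvrT c κ ε F bet U) ∅ U) =
        fun U => (∑ v, run (phT ε F bet) (LL bet)
          (fun S => (ee m c (U v) : ℝ) * qT ε F bet (Rb bet v) v S (U v)) ∅ U) -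
        (c : ℝ) * run (phT ε F bet) (LL bet) (fun S => (F S : ℝ)) ∅ U -
        (c : ℝ) * κ * ∑ v, run (phT ε F bet) (LL bet)
          (fun S => |qT ε F bet (Rb bet v) v S (U v) - qT ε F bet (Rp bet v) v S (U v)|) ∅ U :=
      funext e1
    rw [e3, av_sub, av_sub, av_smul, av_smul, av_sum, av_sum,
      av_run_LLT h0 h1 hF hM bet (r := fun S => (F S : ℝ)) (fun w S h => by
        show ((F (insert w S) : ℤ) : ℝ) = F S
        rw [inv_F hF hM bet w S h])]
    congr 1
    · congr 1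
      refine sum_congr rfl fun v _ => ?_
      refine av_yxT h0 h1 hF hM bet v
        (s := fun S u => (ee m c u : ℝ) * qT ε F bet (Rb bet v) v S u)
        (fun u S S' hS => ?_) fun u w S h => ?_
      · exact congrArg (fun t => (ee m c u : ℝ) * t) (dep_qRb ε F bet v u S S' hS)
      · exact congrArg (fun t => (ee m c u : ℝ) * t) (inv_qRb hF hM bet ε v u w S h)
    · congr 1
      refine sum_congr rfl fun v _ => ?_
      refine av_yxT h0 h1 hF hM bet v
        (s := fun S u => |qT ε F bet (Rb bet v) v S u - qT ε F bet (Rp bet v) v S u|)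
        (fun u S S' hS => ?_) fun u w S h => ?_
      · show |qT ε F bet (Rb bet v) v S u - qT ε F bet (Rp bet v) v S u| =
          |qT ε F bet (Rb bet v) v S' u - qT ε F bet (Rp bet v) v S' u|
        rw [show qT ε F bet (Rb bet v) v S u = qT ε F bet (Rb bet v) v S' u from
            dep_qRb ε F bet v u S S' hS,
          show qT ε F bet (Rp bet v) v S u = qT ε F bet (Rp bet v) v S' u from
            dep_qRp ε F bet v u S S' hS]
      · show |qT ε F bet (Rb bet v) v (insert w S) u - qT ε F bet (Rp bet v) v (insert w S) u| =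
          |qT ε F bet (Rb bet v) v S u - qT ε F bet (Rp bet v) v S u|
        rw [show qT ε F bet (Rb bet v) v (insert w S) u = qT ε F bet (Rb bet v) v S u from
            inv_qRb hF hM bet ε v u w S h,
          show qT ε F bet (Rp bet v) v (insert w S) u = qT ε F bet (Rp bet v) v S u from
            inv_qRp hF hM bet ε v u w S h]
  have b1 : ∀ v : Fin k, (c : ℝ) * EG F (fun S => h2 (pv F v (Rp bet v) S)) -
      (1 + c * SubBisB.dl m) - c * (32 * ε ^ 2) *
        EG F (fun S => (if Act F bet v S then 1 else 0) * pv F v (Rb bet v) S) ≤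
      EG F fun S => av fun u : Fin m => (ee m c u : ℝ) * qT ε F bet (Rb bet v) v S u := by
    intro v
    have g1 : EG F (fun S => ((c : ℝ) * h2 (pv F v (Rb bet v) S) - (1 + c * SubBisB.dl m)) -
        c * (32 * ε ^ 2) * ((if Act F bet v S then 1 else 0) * pv F v (Rb bet v) S)) ≤
        EG F fun S => av fun u : Fin m => (ee m c u : ℝ) * qT ε F bet (Rb bet v) v S u := by
      refine SubBisB.EG_mono fun S => ?_
      unfold qT
      by_cases ha : Act F bet v S
      · simp only [if_pos ha, one_mul]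
        exact ph_gainT hm c h0 h1 (SubBisB.pv_nonneg _ _ _) (SubBisB.pv_le_one _ _ _)
      · simp only [if_neg ha, zero_mul, mul_zero, sub_zero]
        rw [pv_half hF hM (not_mem_Rb bet v) (Subset.refl _) ha]
        have := stp_gain hm c (t := 1 / 2) (by norm_num) (by norm_num)
        linarith
    rw [SubBisB.EG_sub, SubBisB.EG_sub, SubBisB.EG_smul, SubBisB.EG_smul, SubBisB.EG_const] at g1
    have g2 := mul_le_mul_of_nonneg_left
      (SubBisB.EG_h2_mono (F := F) (SubBisB.Rb_subset_Rp bet v) v)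
      (Nat.cast_nonneg (α := ℝ) c)
    linarith
  have b2 : ∀ v : Fin k, (EG F fun S => av fun u : Fin m =>
      |qT ε F bet (Rb bet v) v S u - qT ε F bet (Rp bet v) v S u|) ≤
        Real.sqrt (psi F v (Rp bet v) - psi F v (Rb bet v)) := by
    intro v
    refine le_trans ?_ (SubBisB.EG_abs_pv_sub (SubBisB.Rb_subset_Rp bet v) v)
    refine SubBisB.EG_mono fun S => ?_
    unfold qT
    by_cases ha : Act F bet v S
    · simp only [if_pos ha]
      rw [av_abs_ph h0 h1 (SubBisB.pv_nonneg _ _ _) (SubBisB.pv_le_one _ _ _)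
        (SubBisB.pv_nonneg _ _ _) (SubBisB.pv_le_one _ _ _), abs_sub_comm]
    · simp only [if_neg ha, sub_self, abs_zero]
      rw [av_const]
      exact abs_nonneg _
  have s1 := sum_le_sum fun v (_ : v ∈ (univ : Finset (Fin k))) => b1 v
  rw [sum_sub_distrib, sum_sub_distrib, ← mul_sum, ← mul_sum, SubBisB.chain, EG_fcb, sum_const,
    card_univ, Fintype.card_fin, nsmul_eq_mul] at s1
  have s2 := sum_le_sum fun v (_ : v ∈ (univ : Finset (Fin k))) => b2 v
  have s3 := mul_le_mul_of_nonneg_left s2 (by positivity : (0 : ℝ) ≤ (c : ℝ) * κ)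
  rw [e2]
  unfold gap
  linarith

/-- **The comparator.** -/
theorem comparatorT [NeZero m] (hm : 2 ≤ m) (c κ : ℕ) {ε : ℝ} (h0 : 0 ≤ ε) (h1 : ε ≤ 1 / 16)
    {F : Finset (Fin k) → ℤ} (hF : FCS.Subm F) (hM : Mon F) (bet : Fin k → Fin B) :
    ∃ CV : (Fin k → Fin m) → ℝ,
      (c * Bounds.logZ F - k * (1 + c * SubBisB.dl m) -
        c * (32 * ε ^ 2) * (EG F fun S => (fcb F bet S : ℝ)) - c * κ * gap F bet ≤ av CV) ∧
      ∀ (U : Fin k → Fin m) (g : Fin k → ℝ), (∀ S : Finset (Fin k), ∑ v ∈ S, g v ≤ F S) →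
        (∀ v, |g v| ≤ κ) →
          CV U ≤ ∑ v, ((ee m c (U v) : ℝ) - c * g v) * yxT ε F bet v (U v) U := by
  refine ⟨fun U => run (phT ε F bet) (LL bet) (cvrT c κ ε F bet U) ∅ U,
    av_cvrT hm c κ h0 h1 hF hM bet, ?_⟩
  intro U g hg hκ
  -- the right side is the mean of a function of the process
  have e1 : (∑ v, ((ee m c (U v) : ℝ) - c * g v) * yxT ε F bet v (U v) U) =
      run (phT ε F bet) (LL bet)
        (fun S => ∑ v, ((ee m c (U v) : ℝ) - c * g v) * qT ε F bet (Rb bet v) v S (U v)) ∅ U := by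
    rw [run_sum]
    refine sum_congr rfl fun v _ => ?_
    rw [run_smul]
    rfl
  have e2 : run (phT ε F bet) (LL bet)
        (fun S => ∑ v, g v * qT ε F bet (Rp bet v) v S (U v)) ∅ U =
      run (phT ε F bet) (LL bet) (fun S => ∑ v, g v * (if Act F bet v S then
        (if v ∈ S then 1 else 0) else stp m (1 / 2) (U v))) ∅ U := by
    rw [run_sum, run_sum]
    refine sum_congr rfl fun v _ => ?_
    rw [run_smul, run_smul, run_indT (seg_LL bet) (Finset.Subset.refl ∅) (notMem_empty v) U]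
  have e4 : run (phT ε F bet) (LL bet) (fun S => ∑ v, g v * (if Act F bet v S then
        (if v ∈ S then 1 else 0) else stp m (1 / 2) (U v))) ∅ U ≤
      run (phT ε F bet) (LL bet) (fun S => (F S : ℝ)) ∅ U :=
    run_mono (phT_mem ε F bet) _ (fun S => dual_le hF hM bet hg (fun v => stp_nonneg _ _)
      (fun v => stp_le_one _ _) S) _ _
  rw [e1]
  have e5 : run (phT ε F bet) (LL bet) (cvrT c κ ε F bet U) ∅ U +
      (c : ℝ) * run (phT ε F bet) (LL bet) (fun S => (F S : ℝ)) ∅ U ≤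
      run (phT ε F bet) (LL bet)
        (fun S => ∑ v, ((ee m c (U v) : ℝ) - c * g v) * qT ε F bet (Rb bet v) v S (U v)) ∅ U +
      (c : ℝ) * run (phT ε F bet) (LL bet)
        (fun S => ∑ v, g v * qT ε F bet (Rp bet v) v S (U v)) ∅ U := by
    rw [← run_smul, ← run_smul, ← run_add, ← run_add]
    refine run_mono (phT_mem ε F bet) _ (fun S => ?_) _ _
    unfold cvrT
    have h2 : (∑ v, ((ee m c (U v) : ℝ) - c * g v) * qT ε F bet (Rb bet v) v S (U v)) +
        (c : ℝ) * ∑ v, g v * qT ε F bet (Rp bet v) v S (U v) =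
        ∑ v, ((ee m c (U v) : ℝ) * qT ε F bet (Rb bet v) v S (U v) +
          (c : ℝ) * (g v * (qT ε F bet (Rp bet v) v S (U v) -
            qT ε F bet (Rb bet v) v S (U v)))) := by
      rw [mul_sum, ← sum_add_distrib]
      refine sum_congr rfl fun v _ => ?_
      ring
    have h3 : (∑ v, (ee m c (U v) : ℝ) * qT ε F bet (Rb bet v) v S (U v)) -
        (c : ℝ) * (F S : ℝ) -
        (c : ℝ) * κ * (∑ v, |qT ε F bet (Rb bet v) v S (U v) -
          qT ε F bet (Rp bet v) v S (U v)|) + (c : ℝ) * (F S : ℝ) =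
        ∑ v, ((ee m c (U v) : ℝ) * qT ε F bet (Rb bet v) v S (U v) -
          (c : ℝ) * (κ * |qT ε F bet (Rb bet v) v S (U v) -
            qT ε F bet (Rp bet v) v S (U v)|)) := by
      rw [sum_sub_distrib, ← mul_sum, ← mul_sum]
      ring
    rw [h2, h3]
    refine sum_le_sum fun v _ => ?_
    have h4 : -(κ * |qT ε F bet (Rb bet v) v S (U v) - qT ε F bet (Rp bet v) v S (U v)|) ≤
        g v * (qT ε F bet (Rp bet v) v S (U v) - qT ε F bet (Rb bet v) v S (U v)) := by
      have h5 : |g v * (qT ε F bet (Rp bet v) v S (U v) - qT ε F bet (Rb bet v) v S (U v))| ≤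
          κ * |qT ε F bet (Rb bet v) v S (U v) - qT ε F bet (Rp bet v) v S (U v)| := by
        rw [abs_mul, abs_sub_comm (qT ε F bet (Rp bet v) v S (U v))]
        exact mul_le_mul_of_nonneg_right (hκ v) (abs_nonneg _)
      exact (neg_le_neg h5).trans (neg_abs_le _)
    have h6 := mul_le_mul_of_nonneg_left h4 (Nat.cast_nonneg (α := ℝ) c)
    linarith
  rw [e2] at e5
  have e6 := mul_le_mul_of_nonneg_left e4 (Nat.cast_nonneg (α := ℝ) c)
  linarith

end Pool.Agent.Lib.SubBisG
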