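import Pool.Agent.Lib.SubBisG.TAct

/-!
# SubBisG.TLaw: the law of the process that chooses active sites only
-/

set_option autoImplicit false

open scoped BigOperators

namespace Pool.Agent.Lib.SubBisG

open Finset SubBis Pool.Agent.Lib.SubBisX.Reg Pool.Agent.Lib.SubBisX.Core
open Pool.Agent.Lib.SubBisX Pool.Agent.Lib.SubBisF Pool.Agent.Lib.SubBisF.LawAux
open Pool.Agent.Lib.SubBisE (agr ker cl gam vl xt Okd)
open Pool.Agent.Lib.SubBisB (wt2 ZF EG pv Rb Rp psi)

variable {n k m B R : ℕ}

/-- The law of the process. -/
theorem law_runT [NeZero m] {ε : ℝ} (h0 : 0 ≤ ε) (h1 : ε ≤ 1 / 16) {F : Finset (Fin k) → ℤ}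
    (hF : FCS.Subm F) (hM : Mon F) {bet : Fin k → Fin B} {R1 : Finset (Fin k)}
    {l : List (Fin k)} (hs : Seg bet R1 l univ) {z : Finset (Fin k)} (hz : z ⊆ R1)
    {r : Finset (Fin k) → ℝ} (hr : Inv F bet r) :
    (av fun U : Fin k → Fin m => run (phT ε F bet) l r z U) = SubBisB.ce F R1 r z := by
  induction l generalizing R1 z with
  | nil =>
    have e : R1 = univ := hs
    subst e
    rw [ce_univ]
    exact av_const (r z)
  | cons v l ih =>
    have hv : v ∉ z := fun h => hs.2.1 (hz h)
    have hl := notMem_tail hs.2.2
    have hc : ∀ (z' : Finset (Fin k)) (U : Fin k → Fin m) (x : Fin m),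
        run (phT ε F bet) l r z' (Function.update U v x) = run (phT ε F bet) l r z' U :=
      fun z' U x =>
      run_congr_dig l r z' fun y hy => by
        have hne : y ≠ v := fun h => hl (h ▸ hy)
        exact Function.update_of_ne hne x U
    have e1 := av_digit1 v (phT ε F bet v z)
      (G := fun U => run (phT ε F bet) l r (insert v z) U)
      (H := fun U => run (phT ε F bet) l r z U) (hc _) (hc _)
    rw [ih hs.2.2 (insert_subset_insert v hz), ih hs.2.2 (hz.trans (subset_insert v R1))] at e1
    rw [ce_step F hs.2.1 hv r]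
    refine Eq.trans e1 ?_
    by_cases ha : Act F bet v z
    · have e2 : (av (phT (m := m) ε F bet v z)) = pv F v R1 z := by
        have e3 : phT (m := m) ε F bet v z = fun u => ph ε (pv F v (Rp bet v) z) u := by
          funext u
          unfold phT
          rw [if_pos ha]
        rw [e3, av_ph h0 h1 (SubBisB.pv_nonneg _ _ _) (SubBisB.pv_le_one _ _ _), hs.1]
      rw [e2]
    · have e2 : (av (phT (m := m) ε F bet v z)) = 0 := by
        have e3 : phT (m := m) ε F bet v z = fun _ => 0 := by
          funext u
          unfold phT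
          rw [if_neg ha]
        rw [e3, av_const]
      have hR : Rb bet v ⊆ insert v R1 := by
        rw [hs.1]
        exact (SubBisB.Rb_subset_Rp bet v).trans (subset_insert _ _)
      have e4 : SubBisB.ce F (insert v R1) r (insert v z) = SubBisB.ce F (insert v R1) r z := by
        refine inv_ce hF hM (mem_insert_self v R1) hR ha fun T hT => hr v T ?_
        rwa [act_congr (SubBisB.Gib.inter_of_subset hR (mem_filter.1 hT).2)]
      rw [e2, e4]
      ring

/-- the mean of a function of the process and the own digit -/
theorem av_yxT [NeZero m] {ε : ℝ} (h0 : 0 ≤ ε) (h1 : ε ≤ 1 / 16) {F : Finset (Fin k) → ℤ}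
    (hF : FCS.Subm F) (hM : Mon F) (bet : Fin k → Fin B) (v : Fin k)
    {s : Finset (Fin k) → Fin m → ℝ} (hd : ∀ u, SubBisB.Dep (Rp bet v) fun S => s S u)
    (hi : ∀ u, Inv F bet fun S => s S u) :
    (av fun U : Fin k → Fin m => run (phT ε F bet) (LL bet) (fun S => s S (U v)) ∅ U) =
      EG F fun S => av fun u => s S u := by
  rw [av_run_own (seg_LL bet) (Subset.refl _) (notMem_empty v) hd,
    law_runT h0 h1 hF hM (seg_LL bet) (Subset.refl _) (r := fun S => av fun u => s S u)
      (fun w S h => congrArg av (funext fun u => hi u w S h)), ce_empty]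

/-- the mean of a function of the process -/
theorem av_run_LLT [NeZero m] {ε : ℝ} (h0 : 0 ≤ ε) (h1 : ε ≤ 1 / 16) {F : Finset (Fin k) → ℤ}
    (hF : FCS.Subm F) (hM : Mon F) (bet : Fin k → Fin B) {r : Finset (Fin k) → ℝ}
    (hr : Inv F bet r) :
    (av fun U : Fin k → Fin m => run (phT ε F bet) (LL bet) r ∅ U) = EG F r := by
  rw [law_runT h0 h1 hF hM (seg_LL bet) (Subset.refl _) hr, ce_empty]

/-- the indicator of `v` and the decision at `v` have the same mean -/
theorem run_indT {ε : ℝ} {F : Finset (Fin k) → ℤ} {bet : Fin k → Fin B} {R1 : Finset (Fin k)}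
    {l : List (Fin k)} (hs : Seg bet R1 l univ) {z : Finset (Fin k)} (hz : z ⊆ R1) {v : Fin k}
    (hv : v ∉ R1) (U : Fin k → Fin m) :
    run (phT ε F bet) l (fun S => if Act F bet v S then (if v ∈ S then 1 else 0)
        else stp m (1 / 2) (U v)) z U =
      run (phT ε F bet) l (fun S => qT ε F bet (Rp bet v) v S (U v)) z U := by
  induction l generalizing R1 z with
  | nil =>
    have e : R1 = univ := hs
    exact absurd (mem_univ v) (e ▸ hv)
  | cons w l ih =>
    by_cases hwv : w = v
    · subst hwv
      have hw : w ∉ z := fun h => hv (hz h)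
      have h1 : run (phT ε F bet) (w :: l) (fun S => qT ε F bet (Rp bet w) w S (U w)) z U =
          qT ε F bet (Rp bet w) w z (U w) :=
        hs.run_eq (fun S hS => dep_qT ε F bet w (SubBisB.Rb_subset_Rp bet w) (U w) S z
          (hs.1 ▸ hS)) U
      have hRR : Rb bet w ⊆ insert w R1 := by
        rw [hs.1]
        exact (SubBisB.Rb_subset_Rp bet w).trans (subset_insert _ _)
      rw [h1]
      show phT ε F bet w z (U w) * run (phT ε F bet) l (fun S => if Act F bet w S then
          (if w ∈ S then (1 : ℝ) else 0) else stp m (1 / 2) (U w)) (insert w z) U +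
        (1 - phT ε F bet w z (U w)) * run (phT ε F bet) l (fun S => if Act F bet w S then
          (if w ∈ S then (1 : ℝ) else 0) else stp m (1 / 2) (U w)) z U =
          qT ε F bet (Rp bet w) w z (U w)
      by_cases ha : Act F bet w z
      · have h2 : run (phT ε F bet) l (fun S => if Act F bet w S then
            (if w ∈ S then (1 : ℝ) else 0) else stp m (1 / 2) (U w)) (insert w z) U = 1 := by
          refine hs.2.2.run_eq (fun S hS => ?_) U
          have h3 : w ∈ insert w z ∩ insert w R1 :=
            mem_inter.2 ⟨mem_insert_self _ _, mem_insert_self _ _⟩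
          rw [← hS] at h3
          have h5 : Act F bet w S := by
            rw [act_congr (SubBisB.Gib.inter_of_subset hRR hS),
              act_congr (insert_inter_of_notMem (not_mem_Rb bet w))]
            exact ha
          rw [if_pos h5, if_pos (mem_inter.1 h3).1]
        have h4 : run (phT ε F bet) l (fun S => if Act F bet w S then
            (if w ∈ S then (1 : ℝ) else 0) else stp m (1 / 2) (U w)) z U = 0 := by
          refine hs.2.2.run_eq (fun S hS => ?_) U
          have h5 : Act F bet w S := by
            rw [act_congr (SubBisB.Gib.inter_of_subset hRR hS)]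
            exact ha
          rw [if_pos h5, if_neg]
          intro h0
          have h3 : w ∈ S ∩ insert w R1 := mem_inter.2 ⟨h0, mem_insert_self _ _⟩
          rw [hS] at h3
          exact hw (mem_inter.1 h3).1
        rw [h2, h4]
        unfold phT qT
        rw [if_pos ha, if_pos ha]
        ring
      · have h4 : run (phT ε F bet) l (fun S => if Act F bet w S then
            (if w ∈ S then (1 : ℝ) else 0) else stp m (1 / 2) (U w)) z U =
              stp m (1 / 2) (U w) := by
          refine hs.2.2.run_eq (fun S hS => ?_) U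
          rw [if_neg]
          rw [act_congr (SubBisB.Gib.inter_of_subset hRR hS)]
          exact ha
        rw [h4]
        unfold phT qT
        rw [if_neg ha, if_neg ha]
        ring
    · have hv' : v ∉ insert w R1 := fun h => (mem_insert.1 h).elim (fun h1 => hwv h1.symm) hv
      simp only [run]
      rw [ih hs.2.2 (insert_subset_insert w hz) hv', ih hs.2.2 (hz.trans (subset_insert w R1)) hv']

theorem Mon.le {F : Finset (Fin k) → ℤ} (hM : Mon F) {S T : Finset (Fin k)} (h : S ⊆ T) :
    F S ≤ F T := by
  have h1 : ∀ A : Finset (Fin k), F S ≤ F (S ∪ A) := by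
    intro A
    induction A using Finset.induction_on with
    | empty => rw [union_empty]
    | insert a A _ ih =>
      rw [union_insert]
      exact ih.trans (hM _ _)
  have h2 := h1 T
  rwa [union_eq_right.2 h] at h2

/-- all sites that are not active together change nothing -/
theorem union_of_not_act {F : Finset (Fin k) → ℤ} (hF : FCS.Subm F) (hM : Mon F)
    {bet : Fin k → Fin B} {S A : Finset (Fin k)} (h : ∀ w ∈ A, ¬ Act F bet w S) :
    F (S ∪ A) = F S := by
  induction A using Finset.induction_on with
  | empty => rw [union_empty]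
  | insert a A _ ih =>
    rw [union_insert, insert_of_not_act hF hM (h a (mem_insert_self a A))
      (inter_subset_left.trans subset_union_left)]
    exact ih fun w hw => h w (mem_insert_of_mem hw)

/-- the dual inequality -/
theorem dual_le {F : Finset (Fin k) → ℤ} (hF : FCS.Subm F) (hM : Mon F) (bet : Fin k → Fin B)
    {g : Fin k → ℝ} (hg : ∀ S : Finset (Fin k), ∑ v ∈ S, g v ≤ F S) {t : Fin k → ℝ}
    (ht0 : ∀ v, 0 ≤ t v) (ht1 : ∀ v, t v ≤ 1) (S : Finset (Fin k)) :
    ∑ v, g v * (if Act F bet v S then (if v ∈ S then 1 else 0) else t v) ≤ F S := by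
  classical
  set A : Finset (Fin k) := univ.filter fun v => ¬ Act F bet v S ∧ 0 < g v with hA
  set S1 : Finset (Fin k) := S.filter fun v => Act F bet v S with hS1
  have hd : Disjoint S1 A := by
    rw [Finset.disjoint_left]
    intro v hv hv'
    exact (mem_filter.1 hv').2.1 (mem_filter.1 hv).2
  have e1 : ∑ v, g v * (if Act F bet v S then (if v ∈ S then 1 else 0) else t v) ≤
      ∑ v ∈ S1 ∪ A, g v := by
    rw [← Finset.sum_filter_add_sum_filter_not univ (fun v => v ∈ S1 ∪ A), filter_mem_eq_inter,
      univ_inter]
    have h1 : ∑ v ∈ S1 ∪ A, g v * (if Act F bet v S then (if v ∈ S then 1 else 0) else t v) ≤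
        ∑ v ∈ S1 ∪ A, g v := by
      refine sum_le_sum fun v hv => ?_
      rcases mem_union.1 hv with h | h
      · rw [if_pos (mem_filter.1 h).2, if_pos (mem_filter.1 h).1, mul_one]
      · rw [if_neg (mem_filter.1 h).2.1]
        have := (mem_filter.1 h).2.2
        nlinarith [ht1 v]
    have h2 : ∑ v ∈ univ.filter (fun v => ¬ v ∈ S1 ∪ A),
        g v * (if Act F bet v S then (if v ∈ S then 1 else 0) else t v) ≤ 0 := by
      refine sum_nonpos fun v hv => ?_
      have hv' := (mem_filter.1 hv).2
      rw [mem_union, not_or] at hv'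
      by_cases ha : Act F bet v S
      · rw [if_pos ha, if_neg (fun h => hv'.1 (mem_filter.2 ⟨h, ha⟩)), mul_zero]
      · rw [if_neg ha]
        have h3 : g v ≤ 0 := by
          by_contra hcon
          exact hv'.2 (mem_filter.2 ⟨mem_univ _, ha, not_le.1 hcon⟩)
        exact mul_nonpos_of_nonpos_of_nonneg h3 (ht0 v)
    linarith
  refine e1.trans ((hg _).trans ?_)
  have e2 : F (S1 ∪ A) ≤ F (S ∪ A) := hM.le (union_subset_union_left (filter_subset _ _))
  have e3 : F (S ∪ A) = F S := union_of_not_act hF hM (bet := bet) fun w hw => (mem_filter.1 hw).2.1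
  rw [e3] at e2
  exact_mod_cast e2

end Pool.Agent.Lib.SubBisG
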