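import Pool.Agent.Lib.SubBisG.TRes
import Pool.Agent.Lib.SubBisF.RegF

/-!
# SubBisG.TLow: the mean value of the method, lower bound with the loss at the active sites
-/

set_option autoImplicit false

open scoped BigOperators

namespace Pool.Agent.Lib.SubBisG

open Finset SubBis Pool.Agent.Lib.SubBisX.Reg Pool.Agent.Lib.SubBisX.Core
open Pool.Agent.Lib.SubBisX Pool.Agent.Lib.SubBisF
open Pool.Agent.Lib.SubBisE (agr ker cl gam vl xt Okd)
open Pool.Agent.Lib.SubBisB (wt2 ZF EG pv Rb Rp psi)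

variable {n k m B R : ℕ}

/-- **The lower bound.** -/
theorem coreT_lower [NeZero m] [NeZero R] {c M d : ℕ} (hM : 0 < M) (hm : 2 ≤ m) {ε : ℝ}
    (h0 : 0 ≤ ε) (h1 : ε ≤ 1 / 16) {F : Finset (Fin k) → ℤ} (hF : FCS.Subm F) (hF0 : F ∅ = 0) (hM' : Mon F)
    {Γ κ : ℕ} (hΓ : ∀ (U : Fin k → Fin m) (y : Fin k → ℤ) v, |gr c F v (U v) y| ≤ Γ)
    (hκ : ∀ (y : Fin k → ℤ) v, |FCS.kv F y v| ≤ κ) (bet : Fin k → Fin B) (N : ℕ) :
    N * (M * (c * Bounds.logZ F - k * (1 + c * SubBisB.dl m) -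
        c * (32 * ε ^ 2) * (EG F fun S => (fcb F bet S : ℝ)) - c * κ * gap F bet)) -
        k * ((M : ℝ) ^ 2 * (m * (R : ℝ) ^ d) + N * ((Γ : ℝ) ^ 2 * ((B : ℝ) + 1) ^ d)) / 2 -
        M * Γ * (N * (k / (1 + ε) ^ (d + 1))) ≤
      av fun p : (Fin k → Fin R → Fin m) × (Fin N → Fin B → Fin R) =>
        (VlF c M d F bet p.1 N (xt p.2) : ℝ) := by
  obtain ⟨CV, hCV, hC⟩ := comparatorT (m := m) hm c κ h0 h1 hF hM' bet
  have hv := fun p : (Fin k → Fin R → Fin m) × (Fin N → Fin B → Fin R) =>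
    vlF_ge (c := c) (M := M) (d := d) hM hF hF0 hΓ hκ bet p.1
      (ys := fun v I => yxT ε F bet v (dgt bet p.1 I v) (dgt bet p.1 I))
      (a := fun v I => aT ε d F bet v p.1 I) (CV := CV) (Rr := m * (R : ℝ) ^ d)
      (fun v I => yxT_mem F bet v _ _) (fun I g hg hk' => hC (dgt bet p.1 I) g hg hk')
      (fun v T γ W => lowT_ball ε d F bet v p.1 T γ W) N (xt p.2)
  refine le_trans ?_ (av_mono hv)
  rw [av_sub, av_sub, av_smul, av_smul, av_const, av_sum, av_sum]
  have e1 : ∑ τ ∈ range N, (av fun p : (Fin k → Fin R → Fin m) × (Fin N → Fin B → Fin R) =>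
      CV (dgt bet p.1 (xt p.2 τ))) = N * av CV := by
    have e : ∀ τ ∈ range N, (av fun p : (Fin k → Fin R → Fin m) × (Fin N → Fin B → Fin R) =>
        CV (dgt bet p.1 (xt p.2 τ))) = av CV := by
      intro τ _
      rw [av_prod, av_comm]
      have e' : ∀ w : Fin N → Fin B → Fin R,
          (av fun D : Fin k → Fin R → Fin m => CV (dgt bet D (xt w τ : Fin B → Fin R))) =
            av CV :=
        fun w => av_dgt bet (xt w τ : Fin B → Fin R) CV
      simp only [e']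
      exact av_const _
    rw [sum_congr rfl e, sum_const, card_range, nsmul_eq_mul]
  have e2 : ∑ τ ∈ range N, (av fun p : (Fin k → Fin R → Fin m) × (Fin N → Fin B → Fin R) =>
      ∑ v : Fin k, |aT ε d F bet v p.1 (xt p.2 τ : Fin B → Fin R) -
        yxT ε F bet v (dgt bet p.1 (xt p.2 τ : Fin B → Fin R) v)
          (dgt bet p.1 (xt p.2 τ : Fin B → Fin R))|) ≤
        N * (k / (1 + ε) ^ (d + 1)) := by
    refine (sum_le_card_nsmul _ _ ((k : ℝ) / (1 + ε) ^ (d + 1)) fun τ hτ => ?_).trans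
      (le_of_eq (by rw [card_range, nsmul_eq_mul]))
    rw [av_sum]
    refine (sum_le_card_nsmul _ _ (1 / (1 + ε) ^ (d + 1)) fun v _ => ?_).trans
      (le_of_eq ?_)
    · refine le_trans (le_of_eq ?_) (lowT_res (m := m) (R := R) h0 h1 d F bet v)
      rw [av_prod]
      refine congrArg av (funext fun D => ?_)
      exact SubBisE.CU.av_xt (mem_range.1 hτ) fun I : Fin B → Fin R =>
        |aT ε d F bet v D I - yxT ε F bet v (dgt bet D I v) (dgt bet D I)|
    · rw [card_univ, Fintype.card_fin, nsmul_eq_mul]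
      ring
  rw [e1]
  have hM' : (0 : ℝ) ≤ M := Nat.cast_nonneg M
  have hN' : (0 : ℝ) ≤ N := Nat.cast_nonneg N
  have hG' : (0 : ℝ) ≤ Γ := Nat.cast_nonneg Γ
  have e3 : (N : ℝ) * (M * (c * Bounds.logZ F - k * (1 + c * SubBisB.dl m) -
        c * (32 * ε ^ 2) * (EG F fun S => (fcb F bet S : ℝ)) - c * κ * gap F bet)) ≤
      M * (N * av CV) := by
    have := mul_le_mul_of_nonneg_left hCV (mul_nonneg hM' hN')
    linarith
  have e4 := mul_le_mul_of_nonneg_left e2 (mul_nonneg hM' hG')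
  linarith

end Pool.Agent.Lib.SubBisG
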