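import Pool.Agent.Lib.SubBisG.FinDefs
import Pool.Agent.Lib.Pa7c826t.HardT

/-!
Regular bipartite graphs are as hard as all bipartite graphs: a `d`-regular graph with `n` vertices
counts like an arbitrary bipartite graph with `n / d` edges.
-/

set_option autoImplicit false

namespace Pool.Agent.Lib.SubBisG

open Finset Pool.Agent.Lib.Pa7c826 Pool.Agent.Lib.PolyTime Pool.Agent.Lib.SubBisX
  Pool.Agent.Lib.SubBisC Pool.Agent.Lib.Pa7c826t

/-- **Transfer** of approximation in a given time along a reduction. -/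
theorem HasRTimeP.transfer {P P' : BGraph → ℕ → Prop} (red : BGraph → ℕ → BGraph)
    (K : BGraph → ℕ → ℕ)
    (hred : PolyC (fun x : BGraph × ℕ => 1 ≤ x.2) [fun x => inCode x.1 x.2]
      (fun x => inCode (red x.1 x.2) (2 * x.2)))
    (hK : PolyN (fun x : BGraph × ℕ => 1 ≤ x.2) [fun x => inCode x.1 x.2]
      (fun x => K x.1 x.2))
    (hC : ∀ G s t, P G s → 1 ≤ t → P' (red G t) s)
    (h12 : ∀ G t, 1 ≤ t → |(numIndep (red G t).graph : ℚ) / 2 ^ K G t -
      numIndep G.graph| ≤ numIndep G.graph / (2 * t + 1))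
    (h : HasRTimeP P') : HasRTimeP P := by
  obtain ⟨m', f', hf', hgood⟩ := h
  obtain ⟨pr, hpr⟩ := hred.length_le
  let M' : BGraph → ℕ → ℕ → ℕ := fun G s t => m'.eval (padCode (red G t) s (2 * t)).length
  let m : Polynomial ℕ := m'.comp (pr + Polynomial.X)
  have hM : ∀ G s t, 1 ≤ t → M' G s t ≤ m.eval (padCode G s t).length := by
    intro G s t ht
    have h3 := hpr (G, t) ht
    simp only [vals_cons, vals_nil, total_cons, total_nil, Nat.add_zero] at h3
    simp only [M', m, Polynomial.eval_comp, Polynomial.eval_add, Polynomial.eval_X]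
    refine eval_mono _ ?_
    rw [padCode_length, padCode_length]
    have h4 : pr.eval (inCode G t).length ≤ pr.eval (s + 1 + (inCode G t).length) :=
      eval_mono _ (by omega)
    omega
  let f : BGraph → ℕ → ℕ → List Bool → List Bool := fun G s t r =>
    List.replicate (K G t) true ++ f' (red G t) s (2 * t) (r.take (M' G s t))
  refine ⟨m, f, ?_, ?_⟩
  · -- the machine
    let D : BGraph × ℕ × ℕ × List Bool → Prop := fun x =>
      P x.1 x.2.1 ∧ 1 ≤ x.2.2.1 ∧
        x.2.2.2.length = m.eval (padCode x.1 x.2.1 x.2.2.1).length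
    let enc : BGraph × ℕ × ℕ × List Bool → List Bool := fun x =>
      padCode x.1 x.2.1 x.2.2.1 ++ x.2.2.2
    have hw : PolyC D [enc] enc := PolyC.var (by simp)
    have henc : ∀ x, enc x = un x.2.1 ++ false :: (inCode x.1 x.2.2.1 ++ x.2.2.2) := by
      intro x
      show padCode x.1 x.2.1 x.2.2.1 ++ x.2.2.2 = _
      rw [padCode_eq, List.append_assoc, List.cons_append]
    have hs : PolyN D [enc] (fun x => x.2.1) :=
      (poly_tOf hw).congr (fun x _ => by rw [henc, tOf, takeWhile_un, un_length])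
    have hv : PolyC D [enc] (fun x => inCode x.1 x.2.2.1 ++ x.2.2.2) :=
      hw.afterTrue.congr (fun x _ => by rw [henc, afterTrue_un])
    have hlen : PolyN D [enc] (fun x => (inCode x.1 x.2.2.1).length) :=
      (((poly_tOf hv).add ((poly_aOf hv).add ((poly_bOf hv).add
        ((poly_aOf hv).mul (poly_bOf hv))))).add (PolyN.const 3)).congr (fun x _ =>
          lenOf_append x.1 x.2.2.1 x.2.2.2)
    have hpre : PolyC D [enc] (fun x => inCode x.1 x.2.2.1) :=
      (PolyC.take hv hlen).congr (fun x _ => List.take_left)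
    have hsuf : PolyC D [enc] (fun x => x.2.2.2) :=
      (PolyC.drop hv hlen).congr (fun x _ => List.drop_left)
    have hsub : ∀ {t : BGraph × ℕ → List Bool},
        PolyC (fun x : BGraph × ℕ => 1 ≤ x.2) [fun x => inCode x.1 x.2] t →
        PolyC D [enc] (fun x => t (x.1, x.2.2.1)) := by
      intro t ht
      have h3 := ht.reindex (β := BGraph × ℕ × ℕ × List Bool) (D' := D)
        (fun x => (x.1, x.2.2.1)) (fun x hx => hx.2.1)
      refine h3.comp ?_
      intro g hg
      simp only [List.map_cons, List.map_nil, List.mem_singleton] at hg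
      subst hg
      exact hpre
    have hred' : PolyC D [enc] (fun x => inCode (red x.1 x.2.2.1) (2 * x.2.2.1)) := hsub hred
    have hK' : PolyN D [enc] (fun x => K x.1 x.2.2.1) := hsub hK
    have hpad : PolyC D [enc] (fun x => padCode (red x.1 x.2.2.1) x.2.1 (2 * x.2.2.1)) :=
      (PolyC.append hs (PolyC.cons false hred')).congr (fun x _ => (padCode_eq _ _ _).symm)
    have hM' : PolyN D [enc] (fun x => M' x.1 x.2.1 x.2.2.1) :=
      PolyN.polyEval (PolyN.length hpad) m'
    have hin : PolyC D [enc] (fun x => padCode (red x.1 x.2.2.1) x.2.1 (2 * x.2.2.1) ++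
        x.2.2.2.take (M' x.1 x.2.1 x.2.2.1)) := hpad.append (PolyC.take hsuf hM')
    have hcall : PolyC D [enc] (fun x => f' (red x.1 x.2.2.1) x.2.1 (2 * x.2.2.1)
        (x.2.2.2.take (M' x.1 x.2.1 x.2.2.1))) := by
      refine PolyC.applyTM2 hf' _ _ hin ?_
      rintro ⟨G, s, t, r⟩ ⟨hG, ht, hr⟩
      refine ⟨⟨(red G t, s, 2 * t, r.take (M' G s t)), hC G s t hG ht, ?_, ?_⟩, rfl, rfl⟩
      · have ht' : 1 ≤ t := ht
        show 1 ≤ 2 * t
        omega
      · show (r.take (M' G s t)).length = M' G s t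
        have hr' : r.length = m.eval (padCode G s t).length := hr
        rw [List.length_take, hr', min_eq_left (hM G s t ht)]
    have hout : PolyC D [enc] (fun x => f x.1 x.2.1 x.2.2.1 x.2.2.2) :=
      PolyC.append hK' hcall
    exact PolyC.toTM2 enc (fun x => f x.1 x.2.1 x.2.2.1 x.2.2.2) id hout
  · intro G s t hG ht
    obtain ⟨j, hj⟩ := Nat.exists_eq_add_of_le (hM G s t ht)
    rw [hj]
    have h3 := hgood (red G t) s (2 * t) (hC G s t hG ht) (by omega)
    have h4 : Nat.card {r : Fin (M' G s t + j) → Bool //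
        Good (red G t) (2 * t) (f' (red G t) s (2 * t) ((List.ofFn r).take (M' G s t)))} ≤
        Nat.card {r : Fin (M' G s t + j) → Bool // Good G t (f G s t (List.ofFn r))} := by
      refine Nat.card_le_card_of_injective (fun r => ⟨r.1, ?_⟩) ?_
      · exact Good.transfer2 ht r.2 (h12 G t ht)
      · intro r r' hrr
        simp only [Subtype.mk.injEq] at hrr
        exact Subtype.ext hrr
    rw [card_prefix (M' G s t) j
      (fun l => Good (red G t) (2 * t) (f' (red G t) s (2 * t) l))] at h4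
    have h5 : 3 * 2 ^ M' G s t ≤ 4 * Nat.card {r : Fin (M' G s t) → Bool //
        Good (red G t) (2 * t) (f' (red G t) s (2 * t) (List.ofFn r))} := h3
    calc 3 * 2 ^ (M' G s t + j) = (3 * 2 ^ M' G s t) * 2 ^ j := by rw [pow_add]; ring
      _ ≤ (4 * Nat.card {r : Fin (M' G s t) → Bool //
        Good (red G t) (2 * t) (f' (red G t) s (2 * t) (List.ofFn r))}) * 2 ^ j :=
          Nat.mul_le_mul_right _ h5
      _ = 4 * (Nat.card {r : Fin (M' G s t) → Bool //
        Good (red G t) (2 * t) (f' (red G t) s (2 * t) (List.ofFn r))} * 2 ^ j) := by ring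
      _ ≤ _ := Nat.mul_le_mul_left _ h4

/-- The bipartite graph `G` is `d`-regular. -/
def Regular (G : BGraph) (d : ℕ) : Prop := (∀ i, G.rowDeg i = d) ∧ ∀ j, G.colDeg j = d

/-- the graph of the reduction is `d`-regular with `12 (e + 1) d` vertices -/
theorem redE_regular (G : BGraph) (t : ℕ) : ∃ d, 1 ≤ d ∧ Regular (redE G t) d ∧
    (redE G t).a + (redE G t).b = 12 * (ecount G + 1) * d := by
  refine ⟨dE G.a G.b (ecount G) t, ?_, ⟨?_, ?_⟩, ?_⟩
  · unfold dE fE
    omega
  · intro i
    obtain ⟨x, hx⟩ := (eVE (ecount G) (ce G.a G.b (ecount G) t)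
      (fE G.a G.b (ecount G) t)).surjective i
    have h1 := rowDeg_mkGraph (eVE (ecount G) (ce G.a G.b (ecount G) t)
      (fE G.a G.b (ecount G) t)) (eVE (ecount G) (ce G.a G.b (ecount G) t)
      (fE G.a G.b (ecount G) t)) (relE_iff G t) x
    have h2 : (redE G t).rowDeg i = {y | relE G t x y}.ncard := by
      rw [← hx]; exact h1
    rw [h2, ldeg (esrc_ne_etgt _ _) x, card_EG]
    rfl
  · intro i
    obtain ⟨x, hx⟩ := (eVE (ecount G) (ce G.a G.b (ecount G) t)
      (fE G.a G.b (ecount G) t)).surjective i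
    have h1 := colDeg_mkGraph (eVE (ecount G) (ce G.a G.b (ecount G) t)
      (fE G.a G.b (ecount G) t)) (eVE (ecount G) (ce G.a G.b (ecount G) t)
      (fE G.a G.b (ecount G) t)) (relE_iff G t) x
    have h2 : (redE G t).colDeg i = {y | relE G t y x}.ncard := by
      rw [← hx]; exact h1
    rw [h2, rdeg (esrc_ne_etgt _ _) x, card_EG]
    rfl
  · show (ecount G + 1) * 6 * dE G.a G.b (ecount G) t +
      (ecount G + 1) * 6 * dE G.a G.b (ecount G) t = _
    ring

/-- **Hardness.** If the number of independent sets of the `d`-regular bipartite graphs with `n`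
vertices can be approximated in time polynomial in `2 ^ f (n / d)`, `n` and `t`, then that of all
bipartite graphs with `e` edges in time polynomial in `2 ^ f (12 (e + 1))`, `n` and `t`. -/
theorem tight (f : ℝ → ℝ)
    (h : HasRTimeP fun (G : BGraph) (s : ℕ) => ∃ d : ℕ, 1 ≤ d ∧ Regular G d ∧
      (2 : ℝ) ^ f ((G.a + G.b : ℕ) / (d : ℝ)) ≤ s) :
    HasRTimeG fun G => (2 : ℝ) ^ f (12 * (∑ i, (G.rowDeg i : ℝ) + 1)) := by
  rw [hasRTimeG_iff]
  refine HasRTimeP.transfer redE KE (poly_redE _) (poly_KE _) ?_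
    (fun G t _ => redE_estimate G t) h
  intro G s t hs _
  obtain ⟨d, h1, h2, h3⟩ := redE_regular G t
  refine ⟨d, h1, h2, ?_⟩
  have hd : (0 : ℝ) < d := by exact_mod_cast h1
  have e1 : (((redE G t).a + (redE G t).b : ℕ) : ℝ) / (d : ℝ) =
      12 * (∑ i, (G.rowDeg i : ℝ) + 1) := by
    rw [h3, div_eq_iff hd.ne']
    have e2 : (ecount G : ℝ) = ∑ i, (G.rowDeg i : ℝ) := by
      rw [ecount_eq]
      push_cast
      rfl
    push_cast
    rw [e2]
  rw [e1]
  exact hs

end Pool.Agent.Lib.SubBisG
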