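import Pool.Agent.Lib.SubBisG.Defs
import Pool.Agent.Lib.SubBisG.ProbG
import Pool.Agent.Lib.SubBisC.CTree

/-!
# SubBisG.TreeG (MP_a7c826_lc, Theorem T, step (4)): the tree of the decisions

If the upper bounds of the estimates are pointwise and the lower bounds hold in the mean, then the
tree of the decisions on the left vertices is a good system.
-/

set_option autoImplicit false

open scoped BigOperators

namespace Pool.Agent.Lib.SubBisG

open Finset Pool.Agent.Lib.Pa7c826 Pool.Agent.Lib.Pa7c826t Pool.Agent.Lib.SubBisX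
  Pool.Agent.Lib.SubBisC

namespace TreeG

variable {adj sub : ℕ → ℕ → Bool} {a d n : ℕ} {η : ℝ}

theorem card_indF (adj : ℕ → ℕ → Bool) (W : Finset ℕ) : (indF adj W).card = ind adj W := rfl

/-- Jensen -/
theorem jensen_indF (W : Finset ℕ) (f : Finset ℕ → ℝ) :
    ind adj W * (2 : ℝ) ^ ((∑ I ∈ indF adj W, f I) / (indF adj W).card) ≤
      ∑ I ∈ indF adj W, (2 : ℝ) ^ f I := by
  have hZ : (0 : ℝ) < ind adj W := by exact_mod_cast ind_pos (adj := adj) W
  rw [card_indF]
  set m := (∑ I ∈ indF adj W, f I) / (ind adj W : ℝ) with hm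
  have h1 : ∀ I, (2 : ℝ) ^ m * (1 + (f I - m) * Real.log 2) ≤ (2 : ℝ) ^ f I := by
    intro I
    have h2 : (2 : ℝ) ^ f I = (2 : ℝ) ^ m * Real.exp ((f I - m) * Real.log 2) := by
      rw [mul_comm (f I - m) (Real.log 2), ← Real.rpow_def_of_pos (by norm_num),
        ← Real.rpow_add (by norm_num)]
      congr 1
      ring
    rw [h2]
    apply mul_le_mul_of_nonneg_left _ (by positivity)
    have := Real.add_one_le_exp ((f I - m) * Real.log 2)
    linarith
  have h3 := sum_le_sum fun I (_ : I ∈ indF adj W) => h1 I
  rw [← mul_sum, sum_add_distrib, ← sum_mul, sum_sub_distrib, sum_const, sum_const, card_indF,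
    nsmul_eq_mul, nsmul_eq_mul, mul_one] at h3
  have h4 : ∑ I ∈ indF adj W, f I = ind adj W * m := by
    rw [hm]
    field_simp
  rw [h4, sub_self, zero_mul, add_zero] at h3
  linarith

/-- **Superadditivity.** -/
theorem PW_super (hs : ∀ u v, adj u v = adj v u) (hl : ∀ u, adj u u = false)
    (hsub : ∀ u v, sub u v = true → adj u v = true) (h0 : 0 ≤ η) {W : Finset ℕ} {x : ℕ}
    (hx : x ∈ W) :
    PW a d adj sub η (W.erase x) +
      PW a d adj sub η ((W.erase x).filter fun u => adj x u = false) ≤
      PW a d adj sub η W := by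
  classical
  set W' := (W.erase x).filter fun u => adj x u = false with hW'
  have hsplit : PW a d adj sub η W =
      ∑ I ∈ (indF adj W).filter (fun I => x ∉ I),
        (2 : ℝ) ^ (η * (fewV a d adj sub W I).card) +
      ∑ I ∈ (indF adj W).filter (fun I => ¬ x ∉ I),
        (2 : ℝ) ^ (η * (fewV a d adj sub W I).card) :=
    (sum_filter_add_sum_filter_not _ _ _).symm
  rw [hsplit]
  refine add_le_add ?_ ?_
  · have h1 : indF adj (W.erase x) ⊆ (indF adj W).filter fun I => x ∉ I := by
      intro I hI
      unfold indF at hI ⊢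
      rw [mem_filter, mem_powerset] at hI
      rw [mem_filter, mem_filter, mem_powerset]
      exact ⟨⟨hI.1.trans (erase_subset _ _), hI.2⟩, fun h => by simpa using hI.1 h⟩
    refine le_trans ?_ (sum_le_sum_of_subset_of_nonneg h1 fun _ _ _ => by positivity)
    refine sum_le_sum fun I _ => ?_
    apply Real.rpow_le_rpow_of_exponent_le (by norm_num)
    apply mul_le_mul_of_nonneg_left _ h0
    norm_cast
    exact card_le_card (filter_subset_filter _ (erase_subset x W))
  · have hinj : Set.InjOn (fun I : Finset ℕ => insert x I) (indF adj W' : Set (Finset ℕ)) := by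
      intro I hI J hJ h
      have hxI : ∀ K, K ∈ (indF adj W' : Set (Finset ℕ)) → x ∉ K := by
        intro K hK hxK
        have h2 : K ⊆ W' := by
          have := Finset.mem_coe.1 hK
          unfold indF at this
          rw [mem_filter, mem_powerset] at this
          exact this.1
        have := h2 hxK
        rw [hW'] at this
        simp at this
      have e1 : (insert x I).erase x = I := erase_insert (hxI I hI)
      have e2 : (insert x J).erase x = J := erase_insert (hxI J hJ)
      rw [← e1, ← e2]
      exact congrArg (fun K : Finset ℕ => K.erase x) h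
    have h1 : (indF adj W').image (fun I => insert x I) ⊆
        (indF adj W).filter fun I => ¬ x ∉ I := by
      intro K hK
      obtain ⟨I, hI, rfl⟩ := mem_image.1 hK
      unfold indF at hI ⊢
      rw [mem_filter, mem_powerset] at hI
      rw [mem_filter, mem_filter, mem_powerset]
      have hIW : ∀ u ∈ I, u ∈ W ∧ adj x u = false := by
        intro u hu
        have := hI.1 hu
        rw [hW', mem_filter, mem_erase] at this
        exact ⟨this.1.2, this.2⟩
      refine ⟨⟨insert_subset hx fun u hu => (hIW u hu).1, ?_⟩, by simp⟩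
      intro u hu v hv
      rcases mem_insert.1 hu with hu1 | hu1
      · rcases mem_insert.1 hv with hv1 | hv1
        · rw [hu1, hv1]
          exact hl _
        · rw [hu1]
          exact (hIW v hv1).2
      · rcases mem_insert.1 hv with hv1 | hv1
        · rw [hs, hv1]
          exact (hIW u hu1).2
        · exact hI.2 u hu1 v hv1
    refine le_trans ?_ (sum_le_sum_of_subset_of_nonneg h1 fun _ _ _ => by positivity)
    rw [sum_image hinj]
    refine sum_le_sum fun I hI => ?_
    apply Real.rpow_le_rpow_of_exponent_le (by norm_num)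
    apply mul_le_mul_of_nonneg_left _ h0
    norm_cast
    refine card_le_card fun b hb => ?_
    unfold fewV at hb ⊢
    rw [mem_filter] at hb ⊢
    obtain ⟨hbW, hab, ⟨v, hv, hva, hvb⟩, hf⟩ := hb
    rw [hW', mem_filter, mem_erase] at hbW
    refine ⟨hbW.1.2, hab, ⟨v, mem_insert_of_mem hv, hva, hvb⟩, ?_⟩
    have e1 : (insert x I).filter (fun v => v < a ∧ sub v b = true) =
        I.filter fun v => v < a ∧ sub v b = true := by
      rw [filter_insert, if_neg]
      intro h
      have := hsub x b h.2
      rw [hbW.2] at this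
      exact absurd this (by simp)
    rw [e1]
    exact hf

end TreeG

open TreeG

/-- **The system.** -/
theorem goodP_of {n a d : ℕ} {adj sub : ℕ → ℕ → Bool} (h : Rg n a d adj sub) {δ η : ℝ}
    (h0 : 0 ≤ η) {es : Finset ℕ → ℕ} (hg : GoodG n a d adj sub δ η es) {dm : ℕ}
    (hdm : 2 * n + δ ≤ dm) :
    GoodP (chC n (range a) adj) (fun X => es X.2) (fun X => (ind adj X.2 : ℝ))
      (fun X => (2 : ℝ) ^ δ * PW a d adj sub η X.2) (okC n (range a)) (range a).card dm
      ((2 : ℝ) ^ δ) := by
  have hc := h.cov
  have hpos : ∀ W : Finset ℕ, (0 : ℝ) < ind adj W := fun W => by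
    exact_mod_cast ind_pos (adj := adj) W
  have hchild : ∀ j X b, j < (range a).card → okC n (range a) j X →
      okC n (range a) (j + 1) (chC n (range a) adj X b) := by
    rintro j ⟨i, W⟩ b hj ⟨h1, h2, h3, h4⟩
    simp only at h1 h2 h3 h4
    subst h1
    have hsub : (chC n (range a) adj (i, W) b).2 ⊆ W := filter_subset _ _
    have hv := cs_lt hc.sub hj
    refine ⟨rfl, hsub.trans h2, fun l hl hli hmem => ?_, fun l hl hil => ?_⟩
    · rcases Nat.lt_succ_iff_lt_or_eq.1 hli with h5 | h5
      · exact h3 l hl h5 (hsub hmem)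
      · subst h5
        unfold chC at hmem
        simp only [mem_filter] at hmem
        rw [if_pos hmem.1] at hmem
        exact hmem.2.1 rfl
    · unfold chC
      simp only [mem_filter]
      refine ⟨h4 l hl (by omega), ?_⟩
      split_ifs with h6
      · refine ⟨by omega, fun _ => ?_⟩
        exact hc.adj_ge (by omega)
      · intro h7
        have h8 : cs n (range a) l = cs n (range a) i := by omega
        have := cs_inj hc.sub hl hj h8
        omega
  -- the children of a node are the two masks of a vertex `x` of the mask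
  have hkids : ∀ j X, j < (range a).card → okC n (range a) j X → ∃ x ∈ X.2,
      (chC n (range a) adj X false).2 = X.2.erase x ∧
      (chC n (range a) adj X true).2 = (X.2.erase x).filter fun u => adj x u = false := by
    rintro j ⟨i, W⟩ hj ⟨h1, h2, h3, h4⟩
    simp only at h1 h2 h3 h4
    subst h1
    by_cases h6 : cs n (range a) i ∈ W
    · refine ⟨cs n (range a) i, h6, ?_, ?_⟩
      · unfold chC
        ext u
        simp only [mem_filter, mem_erase, if_pos h6]
        simp
        tauto
      · unfold chC
        ext u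
        simp only [mem_filter, mem_erase, if_pos h6, true_implies]
        tauto
    · refine ⟨n + cs n (range a) i, h4 i hj le_rfl, ?_, ?_⟩
      · unfold chC
        ext u
        simp only [mem_filter, mem_erase, if_neg h6]
        tauto
      · unfold chC
        ext u
        simp only [mem_filter, mem_erase, if_neg h6]
        have h7 : adj (n + cs n (range a) i) u = false := by
          rw [hc.symm]
          exact hc.adj_ge (by omega)
        simp only [h7, and_true]
        tauto
  refine ⟨fun j X _ => hpos _, hchild, ?_, ?_, ?_, ?_, ?_, ?_⟩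
  · intro j X hj hX
    obtain ⟨x, hx, e0, e1⟩ := hkids j X hj hX
    simp only [e0, e1]
    exact_mod_cast ind_erase hc.symm hc.irrefl hx
  · intro j X hj hX
    obtain ⟨x, hx, e0, e1⟩ := hkids j X hj hX
    simp only [e0, e1]
    rw [← mul_add]
    exact mul_le_mul_of_nonneg_left (PW_super hc.symm hc.irrefl h.le h0 hx) (by positivity)
  · rintro j ⟨i, W⟩ ⟨h1, h2, h3⟩
    simp only
    have h4 := hg.low W h2
    have h5 : Real.logb 2 (ind adj W) ≤ es W + (δ + η * EB a d adj sub W) := by linarith
    rw [Real.logb_le_iff_le_rpow (by norm_num) (hpos W), Real.rpow_add (by norm_num),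
      Real.rpow_add (by norm_num), Real.rpow_natCast] at h5
    have h6 := jensen_indF (adj := adj) W fun I => η * ((fewV a d adj sub W I).card : ℝ)
    rw [← mul_sum, mul_div_assoc] at h6
    have h8 : (ind adj W : ℝ) * (2 : ℝ) ^ (η * EB a d adj sub W) ≤ PW a d adj sub η W := h6
    calc (ind adj W : ℝ) ^ 2 = ind adj W * ind adj W := sq _
      _ ≤ ind adj W * (2 ^ es W * (2 ^ δ * 2 ^ (η * EB a d adj sub W))) :=
          mul_le_mul_of_nonneg_left h5 (hpos W).le
      _ = 2 ^ es W * (2 ^ δ * (ind adj W * 2 ^ (η * EB a d adj sub W))) := by ring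
      _ ≤ 2 ^ es W * (2 ^ δ * PW a d adj sub η W) := by gcongr
  · rintro j ⟨i, W⟩ ⟨h1, h2, h3⟩
    have h4 := hg.up W h2
    have h5 : (es W : ℝ) - δ ≤ Real.logb 2 (ind adj W) := by linarith
    rw [Real.le_logb_iff_rpow_le (by norm_num) (hpos W), Real.rpow_sub (by norm_num),
      Real.rpow_natCast, div_le_iff₀ (by positivity)] at h5
    simp only
    linarith
  · rintro ⟨i, W⟩ ⟨h1, h2, h3, h5⟩
    simp only at h1 h2 h3 h5
    have h4 := hg.leaf W h2 (by
      rw [eq_empty_iff_forall_notMem]
      intro v hv
      rw [mem_inter] at hv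
      have h6 := h3 (SubBisC.rk (range a) v) (SubBisC.rk_lt hv.2) (SubBisC.rk_lt hv.2)
      rw [SubBisC.cs_rk hc.sub hv.2] at h6
      exact h6 hv.1)
    simp only
    rw [h4]
    push_cast
    rfl
  · rintro j ⟨i, W⟩ b hj ⟨h1, h2, h3⟩
    have h4 := hg.up W h2
    have h5 : Real.logb 2 (ind adj W) ≤ 2 * n := by
      rw [Real.logb_le_iff_le_rpow (by norm_num) (hpos W)]
      have h6 : ind adj W ≤ 2 ^ (n + n) := (ind_le_two_pow W).trans
        (Nat.pow_le_pow_right (by norm_num) (by simpa using card_le_card h2))
      have h7 : (ind adj W : ℝ) ≤ 2 ^ (n + n) := by exact_mod_cast h6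
      refine h7.trans (le_of_eq ?_)
      rw [← Real.rpow_natCast]
      congr 1
      push_cast
      ring
    have h8 : (es W : ℝ) ≤ (dm : ℝ) := by linarith
    have h9 : es W ≤ dm := by exact_mod_cast h8
    simp only
    omega

end Pool.Agent.Lib.SubBisG
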